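import Mathlib
import Pool.Agent.Helper5.Sym.Bar

/-!
The combinatorial contradiction.
-/

namespace Pool.Agent.Helper5.Dg

open Finset

noncomputable section

/-- Insert the value `x` at position `i`. -/
def insN {α : Type*} (i : ℕ) (x : α) (μ : ℕ → α) : ℕ → α := fun t =>
  if t < i then μ t else if t = i then x else μ (t - 1)

lemma insN_lt {α : Type*} {i t : ℕ} (x : α) (μ : ℕ → α) (h : t < i) : insN i x μ t = μ t := by
  simp [insN, h]

lemma insN_eq {α : Type*} (i : ℕ) (x : α) (μ : ℕ → α) : insN i x μ i = x := by simp [insN]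

lemma insN_gt {α : Type*} {i t : ℕ} (x : α) (μ : ℕ → α) (h : i < t) :
    insN i x μ t = μ (t - 1) := by
  have h1 : ¬ t < i := by omega
  have h2 : t ≠ i := by omega
  simp [insN, h1, h2]

lemma insN_insN' {α : Type*} {i j : ℕ} (h : j ≤ i) (x y : α) (μ : ℕ → α) :
    insN (i + 1) x (insN j y μ) = insN j y (insN i x μ) := by
  funext t
  rcases lt_trichotomy t j with ht | ht | ht
  · rw [insN_lt _ _ (by omega), insN_lt _ _ ht, insN_lt _ _ ht, insN_lt _ _ (by omega)]
  · subst ht
    rw [insN_lt _ _ (by omega), insN_eq, insN_eq]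
  · rw [insN_gt _ (insN i x μ) ht]
    rcases lt_trichotomy t (i + 1) with h' | h' | h'
    · rw [insN_lt _ _ h', insN_gt _ _ ht, insN_lt _ _ (by omega)]
    · subst h'
      rw [insN_eq, Nat.add_sub_cancel, insN_eq]
    · rw [insN_gt _ _ h', insN_gt _ _ (by omega), insN_gt _ _ (by omega)]

lemma insN_insN {α : Type*} {i j : ℕ} (h : j ≤ i) (x : α) (μ : ℕ → α) :
    insN (i + 1) x (insN j x μ) = insN j x (insN i x μ) := insN_insN' h x x μ

/-- The degeneracy. -/
def sj (j t : ℕ) : ℕ := if t ≤ j then t else t - 1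

lemma sj_le {j t : ℕ} (h : t ≤ j) : sj j t = t := by simp [sj, h]

lemma sj_gt {j t : ℕ} (h : j < t) : sj j t = t - 1 := by
  have : ¬ t ≤ j := by omega
  simp [sj, this]

lemma comp_insN {α β : Type*} (f : α → β) (i : ℕ) (x : α) (μ : ℕ → α) :
    f ∘ insN i x μ = insN i (f x) (f ∘ μ) := by
  funext t
  rcases lt_trichotomy t i with h | h | h
  · rw [Function.comp, insN_lt _ _ h, insN_lt _ _ h, Function.comp]
  · subst h
    rw [Function.comp, insN_eq, insN_eq]
  · rw [Function.comp, insN_gt _ _ h, insN_gt _ _ h, Function.comp]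

/-- The value of the explicit boundary. -/
def Th (q : ℕ) (ν : ℕ → ℕ) : ℂ := ∏ i ∈ range q, if i + 1 ≤ ν i then 1 else 0

lemma Th_zero (ν : ℕ → ℕ) : Th 0 ν = 1 := by simp [Th]

lemma sj_ge_iff (j t i : ℕ) : i + 1 ≤ sj j t ↔ (if i < j then i + 1 ≤ t else i + 2 ≤ t) := by
  unfold sj
  split_ifs <;> omega

lemma Th_ins_eq {k : ℕ} (μ : ℕ → ℕ) {i : ℕ} (hi : i ≤ k) :
    Th (k + 1) (insN i (k + 1) μ) = Th k (sj i ∘ μ) := by
  have h1 : ∀ t ∈ range (k + 1), (if t + 1 ≤ insN i (k + 1) μ t then (1 : ℂ) else 0) =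
      insN i 1 (fun t => if t + 1 ≤ (sj i ∘ μ) t then (1 : ℂ) else 0) t := by
    intro t ht
    rw [mem_range] at ht
    rcases lt_trichotomy t i with h | h | h
    · rw [insN_lt _ _ h, insN_lt _ _ h, Function.comp]
      congr 1
      rw [eq_iff_iff, sj_ge_iff, if_pos h]
    · subst h
      rw [insN_eq, insN_eq, if_pos (by omega)]
    · rw [insN_gt _ _ h, insN_gt _ _ h, Function.comp]
      congr 1
      rw [eq_iff_iff, sj_ge_iff, if_neg (by omega)]
      omega
  have h2 : ∀ (f : ℕ → ℂ) (n : ℕ), i ≤ n → ∏ t ∈ range (n + 1), insN i 1 f t =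
      ∏ t ∈ range n, f t := by
    intro f n hn
    induction n with
    | zero =>
      have : i = 0 := by omega
      subst this
      rw [range_one, prod_singleton, insN_eq, range_zero, prod_empty]
    | succ n ih =>
      rcases Nat.lt_or_ge n i with h | h
      · have hin : i = n + 1 := by omega
        rw [prod_range_succ]
        have e1 : insN i 1 f (n + 1) = 1 := by rw [← hin, insN_eq]
        rw [e1, mul_one]
        exact prod_congr rfl fun t ht => insN_lt _ _ (by rw [mem_range] at ht; omega)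
      · rw [prod_range_succ, ih h, insN_gt _ _ (by omega), prod_range_succ, Nat.add_sub_cancel]
  unfold Th
  rw [prod_congr rfl h1, h2 _ k hi]

lemma Th_ins_last {k : ℕ} (μ : ℕ → ℕ) (x : ℕ) (h : ∃ i < k, μ i = 0) :
    Th k (insN k x μ) = 0 := by
  obtain ⟨i, hi, h0⟩ := h
  unfold Th
  refine prod_eq_zero (mem_range.2 hi) ?_
  rw [insN_lt _ _ hi, h0, if_neg (by omega)]

theorem alg_contra (k : ℕ) (G : (ℕ → ℕ) → ℂ)
    (h1 : ∀ lam : ℕ → ℕ, (∀ i, lam i ≤ k + 2) → (∃ i ≤ k + 1, lam i = 0) →
      ∑ j ∈ range (k + 2), (-1 : ℂ) ^ j * G (sj j ∘ lam) = 0)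
    (h2 : ∀ μ : ℕ → ℕ, (∀ i, μ i ≤ k + 1) → (∃ i ≤ k, μ i = 0) →
      ∑ i ∈ range (k + 2), (-1 : ℂ) ^ i * G (insN i (k + 1) μ) =
        ∑ j ∈ range (k + 1), (-1 : ℂ) ^ j * Th k (sj j ∘ μ)) : False := by
  induction k generalizing G with
  | zero =>
    have a1 := h1 (fun t => if t = 1 then 1 else 0) (fun i => by split_ifs <;> omega)
      ⟨0, by omega, by simp⟩
    have a2 := h1 (fun t => if t = 0 then 1 else 0) (fun i => by split_ifs <;> omega)
      ⟨1, by omega, by simp⟩
    have a3 := h2 (fun _ => 0) (fun _ => by omega) ⟨0, le_rfl, rfl⟩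
    have e1 : sj 0 ∘ (fun t : ℕ => if t = 1 then 1 else 0) = fun _ => 0 := by
      funext t
      simp only [Function.comp, sj]
      split_ifs <;> omega
    have e2 : sj 1 ∘ (fun t : ℕ => if t = 1 then 1 else 0) = fun t => if t = 1 then 1 else 0 := by
      funext t
      simp only [Function.comp, sj]
      split_ifs <;> omega
    have e3 : sj 0 ∘ (fun t : ℕ => if t = 0 then 1 else 0) = fun _ => 0 := by
      funext t
      simp only [Function.comp, sj]
      split_ifs <;> omega
    have e4 : sj 1 ∘ (fun t : ℕ => if t = 0 then 1 else 0) = fun t => if t = 0 then 1 else 0 := by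
      funext t
      simp only [Function.comp, sj]
      split_ifs <;> omega
    have e5 : insN 0 1 (fun _ : ℕ => 0) = fun t => if t = 0 then 1 else 0 := by
      funext t
      unfold insN
      split_ifs <;> first | rfl | omega
    have e6 : insN 1 1 (fun _ : ℕ => 0) = fun t => if t = 1 then 1 else 0 := by
      funext t
      unfold insN
      split_ifs <;> first | rfl | omega
    simp only [sum_range_succ, range_zero, sum_empty, zero_add, pow_zero, one_mul, pow_one,
      neg_mul] at a1 a2 a3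
    rw [e1, e2] at a1
    rw [e3, e4] at a2
    rw [e5, e6, Th_zero] at a3
    have : (0 : ℂ) = 1 := by linear_combination a3 - a1 + a2
    exact zero_ne_one this
  | succ k ih =>
    -- cone formula
    have cone : ∀ ν : ℕ → ℕ, (∀ i, ν i ≤ k + 2) → (∃ i ≤ k + 2, ν i = 0) →
        G ν = (-1) ^ (k + 1) * ∑ j ∈ range (k + 2), (-1 : ℂ) ^ j * G (sj j ∘ ν) := by
      intro ν hν h0
      have := h1 ν (fun i => (hν i).trans (by omega)) h0
      rw [sum_range_succ] at this
      have e : sj (k + 2) ∘ ν = ν := by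
        funext t
        exact sj_le (hν t)
      rw [e] at this
      have h3 : ((-1 : ℂ) ^ (k + 2)) * ((-1) ^ (k + 1)) = -1 := by
        rw [← pow_add]
        exact Odd.neg_one_pow ⟨k + 1, by ring⟩
      have h4 : ((-1 : ℂ) ^ (k + 1)) * ((-1) ^ (k + 1)) = 1 := by
        rw [← pow_add]
        exact Even.neg_one_pow ⟨k + 1, rfl⟩
      have h5 : (-1 : ℂ) ^ (k + 2) = - (-1) ^ (k + 1) := by ring
      rw [h5] at this
      linear_combination -(-1 : ℂ) ^ (k + 1) * this - G ν * h4
    refine ih (fun ν => Th (k + 1) ν - (-1) ^ (k + 1) *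
      ∑ i ∈ range (k + 3), (-1 : ℂ) ^ i * G (insN i (k + 1) ν)) ?_ ?_
    · intro lam hlam h0
      have a := h2 lam (fun i => hlam i) h0
      have b : ∀ i ∈ range (k + 3), (-1 : ℂ) ^ i * G (insN i (k + 2) lam) =
          (-1) ^ (k + 1) * ∑ j ∈ range (k + 2), (-1 : ℂ) ^ j * ((-1) ^ i *
            G (insN i (k + 1) (sj j ∘ lam))) := by
        intro i hi
        rw [mem_range] at hi
        rw [cone (insN i (k + 2) lam)]
        · rw [mul_left_comm, mul_sum]
          congr 1
          refine sum_congr rfl fun j hj => ?_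
          rw [mem_range] at hj
          rw [comp_insN, sj_gt (by omega : j < k + 2)]
          have : k + 2 - 1 = k + 1 := by omega
          rw [this]
          ring
        · intro t
          unfold insN
          split_ifs
          · exact hlam _
          · exact le_rfl
          · exact hlam _
        · obtain ⟨i', hi', h0'⟩ := h0
          rcases Nat.lt_or_ge i' i with h | h
          · exact ⟨i', by omega, by rw [insN_lt _ _ h, h0']⟩
          · exact ⟨i' + 1, by omega, by rw [insN_gt _ _ (by omega), Nat.add_sub_cancel, h0']⟩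
      have e0 : k + 1 + 2 = k + 3 := rfl
      have e1 : k + 1 + 1 = k + 2 := rfl
      rw [e0, e1] at a
      rw [sum_congr rfl b, ← mul_sum, sum_comm] at a
      calc ∑ j ∈ range (k + 2), (-1 : ℂ) ^ j * (Th (k + 1) (sj j ∘ lam) - (-1) ^ (k + 1) *
            ∑ i ∈ range (k + 3), (-1 : ℂ) ^ i * G (insN i (k + 1) (sj j ∘ lam)))
          = ∑ j ∈ range (k + 2), (-1 : ℂ) ^ j * Th (k + 1) (sj j ∘ lam) -
            (-1) ^ (k + 1) * ∑ j ∈ range (k + 2), ∑ i ∈ range (k + 3), (-1 : ℂ) ^ j *
              ((-1) ^ i * G (insN i (k + 1) (sj j ∘ lam))) := by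
            rw [mul_sum, ← sum_sub_distrib]
            refine sum_congr rfl fun j _ => ?_
            rw [← mul_sum]
            ring
        _ = 0 := by
            rw [a, sub_self]
    · intro μ hμ h0
      have dbl : ∑ i ∈ range (k + 2), (-1 : ℂ) ^ i * ∑ i' ∈ range (k + 3), (-1 : ℂ) ^ i' *
          G (insN i' (k + 1) (insN i (k + 1) μ)) = 0 := by
        have := Sym.double_sum_zero (fun i' i => G (insN i' (k + 1) (insN i (k + 1) μ)))
          (fun i' i h => by rw [insN_insN h]) (k + 2)
        rw [← this]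
        simp only [mul_sum, smul_sum]
        rw [sum_comm]
        refine sum_congr rfl fun i _ => sum_congr rfl fun j _ => ?_
        rw [smul_eq_mul, smul_eq_mul]
        ring
      have main : ∑ i ∈ range (k + 2), (-1 : ℂ) ^ i * Th (k + 1) (insN i (k + 1) μ) =
          ∑ j ∈ range (k + 1), (-1 : ℂ) ^ j * Th k (sj j ∘ μ) := by
        rw [sum_range_succ]
        have hz : Th (k + 1) (insN (k + 1) (k + 1) μ) = 0 :=
          Th_ins_last μ _ (by obtain ⟨i, hi, h⟩ := h0; exact ⟨i, by omega, h⟩)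
        rw [hz, mul_zero, add_zero]
        refine sum_congr rfl fun i hi => ?_
        rw [mem_range] at hi
        rw [Th_ins_eq μ (by omega : i ≤ k)]
      calc ∑ i ∈ range (k + 2), (-1 : ℂ) ^ i * (Th (k + 1) (insN i (k + 1) μ) - (-1) ^ (k + 1) *
            ∑ i' ∈ range (k + 3), (-1 : ℂ) ^ i' * G (insN i' (k + 1) (insN i (k + 1) μ)))
          = ∑ i ∈ range (k + 2), (-1 : ℂ) ^ i * Th (k + 1) (insN i (k + 1) μ) -
            (-1) ^ (k + 1) * ∑ i ∈ range (k + 2), (-1 : ℂ) ^ i * ∑ i' ∈ range (k + 3),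
              (-1 : ℂ) ^ i' * G (insN i' (k + 1) (insN i (k + 1) μ)) := by
            rw [mul_sum, ← sum_sub_distrib]
            refine sum_congr rfl fun j _ => ?_
            ring
        _ = _ := by rw [dbl, mul_zero, sub_zero, main]

end

end Pool.Agent.Helper5.Dg
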