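import Mathlib

/-!
Phillips' lemma.
-/

namespace Pool.Agent.Helper5.Dg

open Filter Topology

noncomputable section

/-- Bounded sequences. -/
abbrev Li : Type := BoundedContinuousFunction ℕ ℂ

/-- Bounded sequences from functions. -/
def mkLi (f : ℕ → ℂ) (C : ℝ) (h : ∀ n, ‖f n‖ ≤ C) : Li :=
  BoundedContinuousFunction.ofNormedAddCommGroupDiscrete f C h

/-- Variation bound. -/
def Vb (ψ : Li →ₗ[ℂ] ℂ) (S : Set ℕ) (c : ℝ) : Prop :=
  ∀ x : Li, ‖x‖ ≤ 1 → (∀ i ∉ S, x i = 0) → ‖ψ x‖ ≤ c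

lemma Vb.mono {ψ : Li →ₗ[ℂ] ℂ} {S T : Set ℕ} {c : ℝ} (h : Vb ψ S c) (hT : T ⊆ S) : Vb ψ T c :=
  fun x hx hi => h x hx fun i his => hi i fun hit => his (hT hit)

lemma exists_phase (z : ℂ) : ∃ α : ℂ, ‖α‖ = 1 ∧ α * z = (‖z‖ : ℂ) := by
  by_cases hz : z = 0
  · exact ⟨1, by simp, by simp [hz]⟩
  · refine ⟨(‖z‖ : ℂ) / z, ?_, ?_⟩
    · rw [norm_div, Complex.norm_real, norm_norm, div_self (norm_ne_zero_iff.2 hz)]
    · rw [div_mul_cancel₀ _ hz]

lemma Vb.sub {ψ : Li →ₗ[ℂ] ℂ} {S T : Set ℕ} {c ε : ℝ} (h : Vb ψ (S ∪ T) (c + ε))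
    (hd : ∀ i ∈ S, i ∉ T) (hT : ¬ Vb ψ T ε) : Vb ψ S c := by
  unfold Vb at hT
  push Not at hT
  obtain ⟨x0, hx0, hs0, hgt⟩ := hT
  intro x hx hs
  obtain ⟨α, hα, hα'⟩ := exists_phase (ψ x)
  obtain ⟨β, hβ, hβ'⟩ := exists_phase (ψ x0)
  have hy : ‖α • x + β • x0‖ ≤ 1 := by
    rw [BoundedContinuousFunction.norm_le zero_le_one]
    intro i
    rw [BoundedContinuousFunction.coe_add, Pi.add_apply]
    show ‖α • x i + β • x0 i‖ ≤ 1
    by_cases hi : i ∈ S
    · rw [hs0 i (hd i hi), smul_zero, add_zero, norm_smul, hα, one_mul]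
      exact (x.norm_coe_le_norm i).trans hx
    · rw [hs i hi, smul_zero, zero_add, norm_smul, hβ, one_mul]
      exact (x0.norm_coe_le_norm i).trans hx0
  have hys : ∀ i ∉ S ∪ T, (α • x + β • x0) i = 0 := by
    intro i hi
    rw [BoundedContinuousFunction.coe_add, Pi.add_apply]
    show α • x i + β • x0 i = 0
    rw [hs i fun h => hi (Or.inl h), hs0 i fun h => hi (Or.inr h), smul_zero, smul_zero,
      add_zero]
  have h1 := h _ hy hys
  rw [map_add, map_smul, map_smul, smul_eq_mul, smul_eq_mul, hα', hβ', ← Complex.ofReal_add,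
    Complex.norm_real, Real.norm_of_nonneg (by positivity)] at h1
  linarith

/-- Rosenthal's lemma. -/
lemma rosenthal (ψ : ℕ → (Li →ₗ[ℂ] ℂ)) {ε : ℝ} (hε : 0 < ε) (n : ℕ) (g : ℕ → ℕ)
    (hg : Function.Injective g) (h : ∀ i, Vb (ψ (g i)) (Set.range g) (n * ε + ε)) :
    ∃ g' : ℕ → ℕ, Function.Injective g' ∧ Set.range g' ⊆ Set.range g ∧
      ∀ i, Vb (ψ (g' i)) (Set.range g' \ {g' i}) ε := by
  induction n generalizing g with
  | zero =>
    refine ⟨g, hg, le_rfl, fun i => ?_⟩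
    have := h i
    rw [Nat.cast_zero, zero_mul, zero_add] at this
    exact this.mono Set.diff_subset
  | succ n ih =>
    by_cases hp : ∃ p, ∀ q, Vb (ψ (g (Nat.pair p q)))
        (Set.range (fun q => g (Nat.pair p q)) \ {g (Nat.pair p q)}) ε
    · obtain ⟨p, hp⟩ := hp
      refine ⟨fun q => g (Nat.pair p q), fun a b hab => ?_, ?_, hp⟩
      · exact (Nat.pair_eq_pair.1 (hg hab)).2
      · rintro _ ⟨q, rfl⟩
        exact ⟨_, rfl⟩
    · push Not at hp
      choose q hq using hp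
      obtain ⟨g', h1, h2, h3⟩ := ih (fun p => g (Nat.pair p (q p)))
        (fun a b hab => (Nat.pair_eq_pair.1 (hg hab)).1) (fun p => by
          refine Vb.sub (T := Set.range (fun r => g (Nat.pair p r)) \ {g (Nat.pair p (q p))})
            (ε := ε) ?_ ?_ (hq p)
          · have := h (Nat.pair p (q p))
            have e : ((n + 1 : ℕ) : ℝ) * ε + ε = (n * ε + ε) + ε := by push_cast; ring
            rw [e] at this
            refine this.mono ?_
            rintro x (⟨r, rfl⟩ | ⟨⟨r, rfl⟩, _⟩) <;> exact ⟨_, rfl⟩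
          · rintro x ⟨r, rfl⟩ ⟨⟨r', hr'⟩, hne⟩
            have h4 := Nat.pair_eq_pair.1 (hg hr')
            apply hne
            rw [Set.mem_singleton_iff]
            show g (Nat.pair r (q r)) = g (Nat.pair p (q p))
            rw [h4.1])
      refine ⟨g', h1, h2.trans ?_, h3⟩
      rintro _ ⟨p, rfl⟩
      exact ⟨_, rfl⟩

/-- Unit vectors. -/
def eL (j : ℕ) : Li := mkLi (fun i => if i = j then 1 else 0) 1 (fun i => by
  split_ifs <;> simp)

/-- Phillips' lemma. -/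
theorem phillips (ψ : ℕ → (Li →ₗ[ℂ] ℂ)) (C : ℝ) (hC : ∀ j x, ‖ψ j x‖ ≤ C * ‖x‖)
    (h0 : ∀ x, Tendsto (fun j => ψ j x) atTop (𝓝 0)) :
    Tendsto (fun j => ψ j (eL j)) atTop (𝓝 0) := by
  classical
  by_contra hcon
  rw [Metric.tendsto_atTop] at hcon
  push Not at hcon
  obtain ⟨η, hη, hcon⟩ := hcon
  have hfreq : ∃ᶠ j in atTop, η ≤ ‖ψ j (eL j)‖ := by
    rw [frequently_atTop]
    intro a
    obtain ⟨b, hb, hb'⟩ := hcon a
    rw [dist_zero_right] at hb'
    exact ⟨b, hb, hb'⟩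
  obtain ⟨g, hg, hg'⟩ := extraction_of_frequently_atTop hfreq
  obtain ⟨n, hn⟩ := exists_nat_gt (C / (η / 2))
  have hbound : ∀ i, Vb (ψ (g i)) (Set.range g) (n * (η / 2) + η / 2) := by
    intro i x hx _
    have h1 := hC (g i) x
    rw [div_lt_iff₀ (by positivity)] at hn
    have hx0 := norm_nonneg x
    rcases le_total 0 C with h | h
    · nlinarith
    · have : C * ‖x‖ ≤ 0 := mul_nonpos_of_nonpos_of_nonneg h hx0
      have h2 : 0 ≤ (n : ℝ) * (η / 2) := by positivity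
      linarith
  obtain ⟨g', hinj, hsub, hV⟩ := rosenthal ψ (by positivity : 0 < η / 2) n g hg.injective hbound
  let x : Li := mkLi (fun i => if i ∈ Set.range g' then 1 else 0) 1 (fun i => by
    split_ifs <;> simp)
  have hx : ∀ i, x i = if i ∈ Set.range g' then 1 else 0 := fun i => rfl
  have hlow : ∀ i, η / 2 ≤ ‖ψ (g' i) x‖ := by
    intro i
    obtain ⟨r, hr⟩ := hsub ⟨i, rfl⟩
    have h1 : η ≤ ‖ψ (g' i) (eL (g' i))‖ := by
      rw [← hr]
      exact hg' r
    have h2 : ‖ψ (g' i) (x - eL (g' i))‖ ≤ η / 2 := by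
      refine hV i _ ?_ ?_
      · rw [BoundedContinuousFunction.norm_le zero_le_one]
        intro j
        show ‖x j - eL (g' i) j‖ ≤ 1
        rw [hx]
        show ‖(if j ∈ Set.range g' then (1 : ℂ) else 0) - (if j = g' i then 1 else 0)‖ ≤ 1
        by_cases h3 : j = g' i
        · rw [if_pos h3, if_pos ⟨i, h3.symm⟩]
          simp
        · rw [if_neg h3]
          split_ifs <;> simp
      · intro j hj
        show x j - eL (g' i) j = 0
        rw [hx]
        show (if j ∈ Set.range g' then (1 : ℂ) else 0) - (if j = g' i then 1 else 0) = 0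
        by_cases h3 : j = g' i
        · rw [if_pos h3, if_pos ⟨i, h3.symm⟩, sub_self]
        · rw [if_neg h3, if_neg fun h4 => hj ⟨h4, h3⟩, sub_self]
    have e : ψ (g' i) x = ψ (g' i) (eL (g' i)) + ψ (g' i) (x - eL (g' i)) := by
      rw [← map_add, add_sub_cancel]
    have h4 : ‖ψ (g' i) (eL (g' i))‖ ≤ ‖ψ (g' i) x‖ + ‖ψ (g' i) (x - eL (g' i))‖ := by
      have : ψ (g' i) (eL (g' i)) = ψ (g' i) x - ψ (g' i) (x - eL (g' i)) := by
        rw [e]
        ring
      rw [this]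
      exact norm_sub_le _ _
    linarith
  have hlim : Tendsto (fun i => ψ (g' i) x) atTop (𝓝 0) := (h0 x).comp hinj.nat_tendsto_atTop
  have h5 := hlim.norm
  rw [norm_zero] at h5
  have h6 := ge_of_tendsto h5 (Eventually.of_forall hlow)
  linarith

end

end Pool.Agent.Helper5.Dg
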