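import Mathlib

/-!
Conditional expectations on finite Cantor cubes.
-/

namespace Pool.Agent.Helper5.Dg

open Finset
open scoped BigOperators ComplexConjugate

noncomputable section

/-- Points of the finite cube. -/
abbrev Pt (N : ℕ) : Type := Fin N → Bool

variable {N : ℕ}

/-- First `n` coordinates from `x`, the others from `y`. -/
def mix (n : ℕ) (x y : Pt N) : Pt N := fun i => if (i : ℕ) < n then x i else y i

lemma mix_mix_of_le {m n : ℕ} (h : m ≤ n) (x y z : Pt N) : mix m (mix n x y) z = mix m x z := by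
  funext i
  unfold mix
  split_ifs <;> first | rfl | omega

lemma mix_mix_of_ge {m n : ℕ} (h : n ≤ m) (x y z : Pt N) :
    mix m (mix n x y) z = mix n x (mix m y z) := by
  funext i
  unfold mix
  split_ifs <;> first | rfl | omega

lemma mix_self (n : ℕ) (x y : Pt N) : mix n (mix n x y) (mix n y x) = x := by
  funext i
  unfold mix
  split_ifs <;> rfl

lemma mix_of_ge {n : ℕ} (h : N ≤ n) (x y : Pt N) : mix n x y = x := by
  funext i
  unfold mix
  rw [if_pos (i.2.trans_le h)]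

/-- The swap of tails. -/
def swp (n : ℕ) : Pt N × Pt N ≃ Pt N × Pt N where
  toFun p := (mix n p.1 p.2, mix n p.2 p.1)
  invFun p := (mix n p.1 p.2, mix n p.2 p.1)
  left_inv p := Prod.ext (mix_self n p.1 p.2) (mix_self n p.2 p.1)
  right_inv p := Prod.ext (mix_self n p.1 p.2) (mix_self n p.2 p.1)

lemma expect_swp (n : ℕ) (g : Pt N → Pt N → ℂ) :
    𝔼 x, 𝔼 y, g (mix n x y) (mix n y x) = 𝔼 x, 𝔼 y, g x y := by
  have h1 : ∀ g : Pt N → Pt N → ℂ, 𝔼 x, 𝔼 y, g x y = 𝔼 p : Pt N × Pt N, g p.1 p.2 := by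
    intro g
    rw [← univ_product_univ]
    exact (expect_product' univ univ g).symm
  rw [h1 g, h1 fun x y => g (mix n x y) (mix n y x)]
  exact Fintype.expect_equiv (swp n) _ _ fun p => rfl

/-- Conditional expectation on the first `n` coordinates. -/
def ce (n : ℕ) (f : Pt N → ℂ) : Pt N → ℂ := fun x => 𝔼 y, f (mix n x y)

lemma ce_add (n : ℕ) (f g : Pt N → ℂ) : ce n (f + g) = ce n f + ce n g := by
  funext x
  exact expect_add_distrib _ _ _

lemma ce_sub (n : ℕ) (f g : Pt N → ℂ) : ce n (f - g) = ce n f - ce n g := by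
  funext x
  exact expect_sub_distrib _ _ _

lemma ce_smul (n : ℕ) (c : ℂ) (f : Pt N → ℂ) : ce n (c • f) = c • ce n f := by
  funext x
  exact (mul_expect _ _ _).symm

lemma ce_one (n : ℕ) : ce n (1 : Pt N → ℂ) = 1 := by
  funext x
  exact Fintype.expect_const _

lemma ce_ce_of_le {m n : ℕ} (h : m ≤ n) (f : Pt N → ℂ) : ce n (ce m f) = ce m f := by
  funext x
  unfold ce
  simp only [mix_mix_of_le h]
  exact Fintype.expect_const _

lemma ce_ce_of_ge {m n : ℕ} (h : n ≤ m) (f : Pt N → ℂ) : ce n (ce m f) = ce n f := by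
  funext x
  unfold ce
  simp only [mix_mix_of_ge h]
  rw [expect_swp m (fun y _ => f (mix n x y))]
  exact expect_congr rfl fun y _ => Fintype.expect_const _

lemma expect_ce (n : ℕ) (f : Pt N → ℂ) : 𝔼 x, ce n f x = 𝔼 x, f x := by
  unfold ce
  rw [expect_swp n (fun y _ => f y)]
  exact expect_congr rfl fun y _ => Fintype.expect_const _

lemma ce_adj (n : ℕ) (f g : Pt N → ℂ) : 𝔼 x, ce n f x * g x = 𝔼 x, f x * ce n g x := by
  unfold ce
  have h1 : ∀ x : Pt N, (𝔼 y, f (mix n x y)) * g x =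
      𝔼 y, f (mix n x y) * g (mix n (mix n x y) (mix n y x)) := by
    intro x
    rw [expect_mul]
    exact expect_congr rfl fun y _ => by rw [mix_self]
  simp only [h1]
  rw [expect_swp n (fun x y => f x * g (mix n x y))]
  exact expect_congr rfl fun x _ => (mul_expect _ _ _).symm

/-- Measurability with respect to the first `n` coordinates. -/
def Meas (n : ℕ) (g : Pt N → ℂ) : Prop := ∀ x y, g (mix n x y) = g x

lemma ce_mul_meas {n : ℕ} {g : Pt N → ℂ} (hg : Meas n g) (f : Pt N → ℂ) :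
    ce n (g * f) = g * ce n f := by
  funext x
  rw [Pi.mul_apply]
  unfold ce
  rw [mul_expect]
  exact expect_congr rfl fun y _ => by rw [Pi.mul_apply, hg]

lemma meas_ce {m n : ℕ} (h : m ≤ n) (f : Pt N → ℂ) : Meas n (ce m f) := by
  intro x y
  unfold ce
  simp only [mix_mix_of_le h]

lemma ce_of_meas {n : ℕ} {g : Pt N → ℂ} (hg : Meas n g) : ce n g = g := by
  funext x
  unfold ce
  rw [expect_congr rfl fun y _ => hg x y]
  exact Fintype.expect_const _

lemma Meas.mono {m n : ℕ} (h : m ≤ n) {g : Pt N → ℂ} (hg : Meas m g) : Meas n g := by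
  rw [← ce_of_meas hg]
  exact meas_ce h g

lemma meas_one (n : ℕ) : Meas n (1 : Pt N → ℂ) := fun _ _ => rfl

lemma Meas.mul {n : ℕ} {f g : Pt N → ℂ} (hf : Meas n f) (hg : Meas n g) : Meas n (f * g) := by
  intro x y
  rw [Pi.mul_apply, Pi.mul_apply, hf, hg]

lemma ce_of_ge {n : ℕ} (h : N ≤ n) (f : Pt N → ℂ) : ce n f = f :=
  ce_of_meas fun x y => by rw [mix_of_ge h]

lemma norm_ce_le {n : ℕ} {f : Pt N → ℂ} {C : ℝ} (h : ∀ x, ‖f x‖ ≤ C) (x : Pt N) :
    ‖ce n f x‖ ≤ C := by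
  refine (RCLike.norm_expect_le (K := ℂ)).trans ?_
  exact expect_le univ_nonempty fun y _ => h _

lemma norm_expect_le' {f : Pt N → ℂ} {C : ℝ} (h : ∀ x, ‖f x‖ ≤ C) : ‖𝔼 x, f x‖ ≤ C := by
  refine (RCLike.norm_expect_le (K := ℂ)).trans ?_
  exact expect_le univ_nonempty fun y _ => h _

/-- The square of the two-norm. -/
def sq (f : Pt N → ℂ) : ℝ := 𝔼 x, ‖f x‖ ^ 2

lemma sq_nonneg' (f : Pt N → ℂ) : 0 ≤ sq f := expect_nonneg fun x _ => by positivity

lemma sq_mono {f g : Pt N → ℂ} (h : ∀ x, ‖f x‖ ≤ ‖g x‖) : sq f ≤ sq g :=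
  expect_le_expect fun x _ => pow_le_pow_left₀ (norm_nonneg _) (h x) 2

lemma sq_le_one {f : Pt N → ℂ} (h : ∀ x, ‖f x‖ ≤ 1) : sq f ≤ 1 :=
  expect_le univ_nonempty fun x _ => pow_le_one₀ (norm_nonneg _) (h x)

lemma sq_add_le (f g : Pt N → ℂ) : sq (f + g) ≤ 2 * sq f + 2 * sq g := by
  unfold sq
  rw [mul_expect, mul_expect, ← expect_add_distrib]
  refine expect_le_expect fun x _ => ?_
  rw [Pi.add_apply]
  have h1 := norm_add_le (f x) (g x)
  have h2 := norm_nonneg (f x + g x)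
  nlinarith [_root_.sq_nonneg (‖f x‖ - ‖g x‖)]

lemma norm_expect_mul_le (f g : Pt N → ℂ) : ‖𝔼 x, f x * g x‖ ≤ (sq f + sq g) / 2 := by
  refine (RCLike.norm_expect_le (K := ℂ)).trans ?_
  unfold sq
  rw [← expect_add_distrib, expect_div]
  refine expect_le_expect fun x _ => ?_
  rw [norm_mul]
  nlinarith [_root_.sq_nonneg (‖f x‖ - ‖g x‖)]

lemma ofReal_sq (f : Pt N → ℂ) : ((sq f : ℝ) : ℂ) = 𝔼 x, f x * conj (f x) := by
  unfold sq
  have h1 : ((𝔼 x, ‖f x‖ ^ 2 : ℝ) : ℂ) = 𝔼 x, ((‖f x‖ ^ 2 : ℝ) : ℂ) := by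
    rw [Fintype.expect_eq_sum_div_card, Fintype.expect_eq_sum_div_card]
    push_cast
    rfl
  rw [h1]
  refine expect_congr rfl fun x _ => ?_
  rw [Complex.mul_conj, Complex.normSq_eq_norm_sq]

lemma ce_conj (n : ℕ) (f : Pt N → ℂ) (x : Pt N) :
    ce n (fun y => conj (f y)) x = conj (ce n f x) := by
  unfold ce
  rw [Fintype.expect_eq_sum_div_card, Fintype.expect_eq_sum_div_card, map_div₀, map_sum,
    map_natCast]

/-- Pythagoras. -/
lemma sq_diff {m n : ℕ} (h : n ≤ m) (f : Pt N → ℂ) :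
    sq (ce m f - ce n f) = sq (ce m f) - sq (ce n f) := by
  have key : ∀ g : Pt N → ℂ, 𝔼 x, g x * conj (ce n f x) = 𝔼 x, ce n g x * conj (f x) := by
    intro g
    rw [ce_adj n g fun x => conj (f x)]
    exact expect_congr rfl fun x _ => by rw [ce_conj]
  have h1 : 𝔼 x, ce m f x * conj (ce n f x) = ((sq (ce n f) : ℝ) : ℂ) := by
    rw [ofReal_sq, key, key, ce_ce_of_ge h, ce_ce_of_le le_rfl]
  have h2 : 𝔼 x, ce n f x * conj (ce m f x) = ((sq (ce n f) : ℝ) : ℂ) := by
    have h3 : 𝔼 x, ce n f x * conj (ce m f x) = conj (𝔼 x, ce m f x * conj (ce n f x)) := by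
      rw [Fintype.expect_eq_sum_div_card, Fintype.expect_eq_sum_div_card, map_div₀, map_sum,
        map_natCast]
      congr 1
      refine sum_congr rfl fun x _ => ?_
      rw [map_mul, Complex.conj_conj, mul_comm]
    rw [h3, h1, Complex.conj_ofReal]
  have h4 : ((sq (ce m f - ce n f) : ℝ) : ℂ) =
      ((sq (ce m f) - sq (ce n f) : ℝ) : ℂ) := by
    rw [ofReal_sq]
    have e : ∀ x, (ce m f - ce n f) x * conj ((ce m f - ce n f) x) =
        ce m f x * conj (ce m f x) - ce m f x * conj (ce n f x) -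
        (ce n f x * conj (ce m f x) - ce n f x * conj (ce n f x)) := by
      intro x
      rw [Pi.sub_apply, map_sub]
      ring
    rw [expect_congr rfl fun x _ => e x, expect_sub_distrib, expect_sub_distrib,
      expect_sub_distrib, h1, h2, ← ofReal_sq, ← ofReal_sq]
    push_cast
    ring
  exact_mod_cast h4

lemma sq_ce_le (n : ℕ) (f : Pt N → ℂ) : sq (ce n f) ≤ sq f := by
  have h1 := sq_diff (le_max_left n N) f
  rw [ce_of_ge (le_max_right n N)] at h1
  have := sq_nonneg' (f - ce n f)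
  linarith

lemma sq_diff_le {m n : ℕ} (h : n ≤ m) (f : Pt N → ℂ) : sq (ce m f - ce n f) ≤ sq f := by
  rw [sq_diff h]
  have := sq_ce_le m f
  have := sq_nonneg' (ce n f)
  linarith

end

end Pool.Agent.Helper5.Dg
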