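import Mathlib
import Pool.Agent.Helper5.Dg.CE

/-!
Chains of conditional expectations and the telescoping bound.
-/

namespace Pool.Agent.Helper5.Dg

open Finset
open scoped BigOperators ComplexConjugate

noncomputable section

variable {N : ℕ}

/-- Martingale difference. -/
def df (c : ℕ → ℕ) (t : ℕ) (f : Pt N → ℂ) : Pt N → ℂ := ce (c (t + 1)) f - ce (c t) f

section Diff

variable {c : ℕ → ℕ} (hc : Monotone c)

lemma df_mul_meas {t : ℕ} {g : Pt N → ℂ} (hc : Monotone c) (hg : Meas (c t) g) (f : Pt N → ℂ) :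
    df c t (g * f) = g * df c t f := by
  unfold df
  rw [ce_mul_meas hg, ce_mul_meas (hg.mono (hc (Nat.le_succ t))), mul_sub]

lemma df_add (t : ℕ) (f g : Pt N → ℂ) : df c t (f + g) = df c t f + df c t g := by
  unfold df
  rw [ce_add, ce_add]
  abel

lemma sq_df_le (hc : Monotone c) (t : ℕ) (f : Pt N → ℂ) : sq (df c t f) ≤ sq f :=
  sq_diff_le (hc (Nat.le_succ t)) f

lemma sum_sq_df_le (hc : Monotone c) (r : ℕ) (f : Pt N → ℂ) :
    ∑ t ∈ range r, sq (df c t f) ≤ sq f := by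
  have h1 : ∀ t ∈ range r, sq (df c t f) = sq (ce (c (t + 1)) f) - sq (ce (c t) f) :=
    fun t _ => sq_diff (hc (Nat.le_succ t)) f
  rw [sum_congr rfl h1, sum_range_sub (fun t => sq (ce (c t) f))]
  have := sq_ce_le (c r) f
  have := sq_nonneg' (ce (c 0) f)
  linarith

lemma df_adj (hc : Monotone c) (t : ℕ) (f g : Pt N → ℂ) :
    𝔼 x, f x * df c t g x = 𝔼 x, df c t f x * df c t g x := by
  have hle : c t ≤ c (t + 1) := hc (Nat.le_succ t)
  have e1 : df c t (df c t g) = df c t g := by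
    unfold df
    rw [ce_sub, ce_sub, ce_ce_of_le le_rfl, ce_ce_of_le hle, ce_ce_of_ge hle,
      ce_ce_of_le le_rfl]
    abel
  have e2 : ∀ f g : Pt N → ℂ, 𝔼 x, f x * df c t g x = 𝔼 x, df c t f x * g x := by
    intro f g
    have h1 : ∀ x, f x * df c t g x = f x * ce (c (t + 1)) g x - f x * ce (c t) g x := by
      intro x
      unfold df
      rw [Pi.sub_apply, mul_sub]
    have h2 : ∀ x, df c t f x * g x = ce (c (t + 1)) f x * g x - ce (c t) f x * g x := by
      intro x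
      unfold df
      rw [Pi.sub_apply, sub_mul]
    rw [expect_congr rfl fun x _ => h1 x, expect_congr rfl fun x _ => h2 x,
      expect_sub_distrib, expect_sub_distrib, ce_adj, ce_adj]
  rw [← e2, e1]

end Diff

/-- The class of controlled families. -/
def PC (c : ℕ → ℕ) (r : ℕ) (C : ℝ) (W : ℕ → Pt N → ℂ) : Prop :=
  ∃ (h : Pt N → ℂ) (g : ℕ → Pt N → ℂ), (∀ x, ‖h x‖ ≤ 1) ∧ (∀ t < r, ∀ x, ‖g t x‖ ≤ 1) ∧
    (∀ t < r, Meas (c (t + 1)) (g t)) ∧ ∑ t ∈ range r, sq (df c t (g t)) ≤ C ∧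
    ∀ t < r, W t = h * g t

variable {c : ℕ → ℕ} {r : ℕ} {C : ℝ} {W : ℕ → Pt N → ℂ}

lemma PC.nonneg (h : PC c r C W) : 0 ≤ C := by
  obtain ⟨_, g, _, _, _, h1, _⟩ := h
  exact (sum_nonneg fun t _ => sq_nonneg' _).trans h1

lemma PC.mono {C' : ℝ} (h : PC c r C W) (hC : C ≤ C') : PC c r C' W := by
  obtain ⟨u, g, h1, h2, h3, h4, h5⟩ := h
  exact ⟨u, g, h1, h2, h3, h4.trans hC, h5⟩

lemma PC.congr {W' : ℕ → Pt N → ℂ} (h : PC c r C W) (hW : ∀ t < r, W' t = W t) :
    PC c r C W' := by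
  obtain ⟨u, g, h1, h2, h3, h4, h5⟩ := h
  exact ⟨u, g, h1, h2, h3, h4, fun t ht => (hW t ht).trans (h5 t ht)⟩

lemma PC.norm_le (h : PC c r C W) {t : ℕ} (ht : t < r) (x : Pt N) : ‖W t x‖ ≤ 1 := by
  obtain ⟨u, g, h1, h2, h3, h4, h5⟩ := h
  rw [h5 t ht, Pi.mul_apply, norm_mul]
  exact mul_le_one₀ (h1 x) (norm_nonneg _) (h2 t ht x)

lemma df_split (hc : Monotone c) {t : ℕ} {g : Pt N → ℂ} (hg : Meas (c (t + 1)) g)
    (h : Pt N → ℂ) :
    df c t (h * g) = ce (c t) g * df c t h + df c t (h * df c t g) := by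
  have e1 : g = ce (c t) g + df c t g := by
    unfold df
    rw [ce_of_meas hg]
    abel
  have e2 : h * g = ce (c t) g * h + h * df c t g := by
    conv_lhs => rw [e1]
    ring
  rw [e2, df_add, df_mul_meas hc (meas_ce le_rfl g)]

lemma PC.sum_sq (hc : Monotone c) (h : PC c r C W) :
    ∑ t ∈ range r, sq (df c t (W t)) ≤ 2 * (1 + C) := by
  obtain ⟨u, g, h1, h2, h3, h4, h5⟩ := h
  have key : ∀ t ∈ range r, sq (df c t (W t)) ≤ 2 * sq (df c t u) + 2 * sq (df c t (g t)) := by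
    intro t ht
    rw [mem_range] at ht
    rw [h5 t ht, df_split hc (h3 t ht)]
    refine (sq_add_le _ _).trans ?_
    have a1 : sq (ce (c t) (g t) * df c t u) ≤ sq (df c t u) := by
      refine sq_mono fun x => ?_
      rw [Pi.mul_apply, norm_mul]
      exact mul_le_of_le_one_left (norm_nonneg _) (norm_ce_le (h2 t ht) x)
    have a2 : sq (df c t (u * df c t (g t))) ≤ sq (df c t (g t)) := by
      refine (sq_df_le hc t _).trans (sq_mono fun x => ?_)
      rw [Pi.mul_apply, norm_mul]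
      exact mul_le_of_le_one_left (norm_nonneg _) (h1 x)
    linarith
  refine (sum_le_sum key).trans ?_
  rw [sum_add_distrib, ← mul_sum, ← mul_sum]
  have := sum_sq_df_le hc r u
  have := sq_le_one h1
  linarith

lemma PC.const {ξ : Pt N → ℂ} (h : ∀ x, ‖ξ x‖ ≤ 1) : PC c r 0 (fun _ => ξ) := by
  refine ⟨ξ, fun _ => 1, h, fun t _ x => by simp, fun t _ => meas_one _, ?_, fun t _ => by
    rw [mul_one]⟩
  refine le_of_eq (sum_eq_zero fun t _ => ?_)
  have : df c t (1 : Pt N → ℂ) = 0 := by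
    unfold df
    rw [ce_one, ce_one, sub_self]
  rw [this]
  unfold sq
  simp

lemma PC.mul_left {f : Pt N → ℂ} (hf : ∀ x, ‖f x‖ ≤ 1) (h : PC c r C W) :
    PC c r C (fun t => f * W t) := by
  obtain ⟨u, g, h1, h2, h3, h4, h5⟩ := h
  refine ⟨f * u, g, fun x => ?_, h2, h3, h4, fun t ht => by
    show f * W t = f * u * g t
    rw [h5 t ht, mul_assoc]⟩
  rw [Pi.mul_apply, norm_mul]
  exact mul_le_one₀ (hf x) (norm_nonneg _) (h1 x)

/-- Admissible levels. -/
def Ty (c : ℕ → ℕ) (r : ℕ) (n : ℕ → ℕ) : Prop :=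
  (∃ m ≤ c 0, ∀ t < r, n t = m) ∨ (∃ m, c r ≤ m ∧ ∀ t < r, n t = m) ∨
    (∀ t < r, n t = c t) ∨ ∀ t < r, n t = c (t + 1)

lemma sq_zero' : sq (0 : Pt N → ℂ) = 0 := by
  unfold sq
  simp

lemma PC.of_meas {r : ℕ} {W : ℕ → Pt N → ℂ} (hc : Monotone c)
    (h1 : ∀ t < r, ∀ x, ‖W t x‖ ≤ 1) (h2 : ∀ t < r, Meas (c t) (W t)) : PC c r 0 W := by
  refine ⟨1, W, fun x => by simp, h1, fun t ht => (h2 t ht).mono (hc (Nat.le_succ t)), ?_,
    fun t ht => by rw [one_mul]⟩
  refine le_of_eq (sum_eq_zero fun t ht => ?_)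
  rw [mem_range] at ht
  have : df c t (W t) = 0 := by
    unfold df
    rw [ce_of_meas (h2 t ht), ce_of_meas ((h2 t ht).mono (hc (Nat.le_succ t))), sub_self]
  rw [this, sq_zero']

lemma PC.ce (hc : Monotone c) {n : ℕ → ℕ} (hn : Ty c r n) (h : PC c r C W) :
    PC c r (2 * (1 + C)) (fun t => ce (n t) (W t)) := by
  have hC := h.nonneg
  rcases hn with ⟨m, hm, hn⟩ | ⟨m, hm, hn⟩ | hn | hn
  · refine (PC.of_meas hc (fun t ht x => norm_ce_le (fun y => h.norm_le ht y) x)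
      fun t ht => ?_).mono (by linarith)
    rw [hn t ht]
    exact meas_ce (hm.trans (hc (Nat.zero_le t))) _
  · obtain ⟨u, g, h1, h2, h3, h4, h5⟩ := h
    refine PC.mono ⟨Dg.ce m u, g, norm_ce_le h1, h2, h3, h4, fun t ht => ?_⟩
      (by linarith : C ≤ 2 * (1 + C))
    have hle : c (t + 1) ≤ m := (hc (by omega)).trans hm
    show Dg.ce (n t) (W t) = Dg.ce m u * g t
    rw [hn t ht, h5 t ht, mul_comm u, ce_mul_meas ((h3 t ht).mono hle), mul_comm]
  · refine (PC.of_meas hc (fun t ht x => norm_ce_le (fun y => h.norm_le ht y) x)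
      fun t ht => ?_).mono (by linarith)
    rw [hn t ht]
    exact meas_ce le_rfl _
  · refine ⟨1, fun t => Dg.ce (c (t + 1)) (W t), fun x => by simp,
      fun t ht x => norm_ce_le (fun y => h.norm_le ht y) x, fun t ht => meas_ce le_rfl _, ?_,
      fun t ht => by
        show Dg.ce (n t) (W t) = 1 * Dg.ce (c (t + 1)) (W t)
        rw [one_mul, hn t ht]⟩
    refine le_trans (le_of_eq (sum_congr rfl fun t ht => ?_)) (h.sum_sq hc)
    congr 1
    have hle : c t ≤ c (t + 1) := hc (Nat.le_succ t)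
    unfold df
    rw [ce_ce_of_le le_rfl, ce_ce_of_ge hle]

/-- The chain. -/
def Rc : ℕ → (ℕ → Pt N → ℂ) → (ℕ → ℕ) → (Pt N → ℂ) → (Pt N → ℂ)
  | 0, _, _, ξ => ξ
  | k + 1, f, n, ξ => f 0 * ce (n 0) (Rc k (fun i => f (i + 1)) (fun i => n (i + 1)) ξ)

lemma Rc_succ (k : ℕ) (f : ℕ → Pt N → ℂ) (n : ℕ → ℕ) (ξ : Pt N → ℂ) :
    Rc (k + 1) f n ξ = f 0 * ce (n 0) (Rc k (fun i => f (i + 1)) (fun i => n (i + 1)) ξ) := rfl

lemma norm_Rc_le {k : ℕ} {f : ℕ → Pt N → ℂ} {n : ℕ → ℕ} {ξ : Pt N → ℂ} {a : ℕ → ℝ} {b : ℝ}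
    (hf : ∀ i x, ‖f i x‖ ≤ a i) (hξ : ∀ x, ‖ξ x‖ ≤ b) (x : Pt N) :
    ‖Rc k f n ξ x‖ ≤ (∏ i ∈ range k, a i) * b := by
  induction k generalizing f n a x with
  | zero => simpa [Rc] using hξ x
  | succ k ih =>
    rw [Rc_succ, Pi.mul_apply, norm_mul, prod_range_succ']
    have h1 := norm_ce_le (n := n 0) (fun x => ih (f := fun i => f (i + 1))
      (n := fun i => n (i + 1)) (a := fun i => a (i + 1)) (fun i x => hf _ x) x) x
    have h2 := hf 0 x
    have h3 : 0 ≤ a 0 := (norm_nonneg _).trans h2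
    calc _ ≤ a 0 * ((∏ i ∈ range k, a (i + 1)) * b) :=
          mul_le_mul h2 h1 (norm_nonneg _) h3
      _ = _ := by ring

/-- The constants. -/
def Cf : ℕ → ℝ
  | 0 => 0
  | k + 1 => 2 * (1 + Cf k)

lemma PC_Rc (hc : Monotone c) {k : ℕ} {f : ℕ → Pt N → ℂ} {n : ℕ → ℕ → ℕ} {ξ : Pt N → ℂ}
    (hf : ∀ i x, ‖f i x‖ ≤ 1) (hξ : ∀ x, ‖ξ x‖ ≤ 1) (hn : ∀ i < k, Ty c r (n i)) :
    PC c r (Cf k) (fun t => Rc k f (fun i => n i t) ξ) := by
  induction k generalizing f n with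
  | zero => exact PC.const hξ
  | succ k ih =>
    have h1 := ih (f := fun i => f (i + 1)) (n := fun i => n (i + 1)) (fun i x => hf _ x)
      (fun i hi => hn _ (by omega))
    exact (h1.ce hc (hn 0 (by omega))).mul_left (hf 0)

/-- The bound for the merging lemma. -/
def Mf : ℕ → ℝ → ℝ
  | 0, _ => 0
  | k + 1, C => (1 + C) + (1 + Cf k) + Mf k (2 * (1 + C))

lemma Cf_nonneg (k : ℕ) : 0 ≤ Cf k := by
  induction k with
  | zero => exact le_rfl
  | succ k ih => unfold Cf; linarith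

lemma merge_bound (hc : Monotone c) {k : ℕ} {f : ℕ → Pt N → ℂ} {n n' : ℕ → ℕ → ℕ}
    {ξ : Pt N → ℂ} (hf : ∀ i x, ‖f i x‖ ≤ 1) (hξ : ∀ x, ‖ξ x‖ ≤ 1)
    (hn : ∀ i < k, Ty c r (n i)) (hn' : ∀ i < k, Ty c r (n' i))
    (hnn : ∀ i < k, (∀ t < r, n i t = n' i t) ∨ ∀ t < r, n i t = c (t + 1) ∧ n' i t = c t)
    {U : ℕ → Pt N → ℂ} {C : ℝ} (hU : PC c r C U) :
    ‖∑ t ∈ range r, 𝔼 x, U t x * (Rc k f (fun i => n i t) ξ - Rc k f (fun i => n' i t) ξ) x‖ ≤
      Mf k C := by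
  induction k generalizing f n n' U C with
  | zero =>
    have : ∀ t ∈ range r, 𝔼 x, U t x *
        (Rc 0 f (fun i => n i t) ξ - Rc 0 f (fun i => n' i t) ξ) x = 0 := by
      intro t _
      refine expect_eq_zero fun x _ => ?_
      unfold Rc
      rw [sub_self, Pi.zero_apply, mul_zero]
    rw [sum_eq_zero this, norm_zero]
    exact le_rfl
  | succ k ih =>
    set f' : ℕ → Pt N → ℂ := fun i => f (i + 1) with hf'
    set V : ℕ → Pt N → ℂ := fun t => Rc k f' (fun i => n (i + 1) t) ξ with hV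
    set V' : ℕ → Pt N → ℂ := fun t => Rc k f' (fun i => n' (i + 1) t) ξ with hV'
    have hPV : PC c r (Cf k) V := PC_Rc hc (fun i x => hf _ x) hξ fun i hi => hn _ (by omega)
    have hUf : PC c r C (fun t => f 0 * U t) := hU.mul_left (hf 0)
    have split : ∀ t ∈ range r, 𝔼 x, U t x *
        (Rc (k + 1) f (fun i => n i t) ξ - Rc (k + 1) f (fun i => n' i t) ξ) x =
        𝔼 x, (f 0 * U t) x * (ce (n 0 t) (V t) - ce (n' 0 t) (V t)) x +
        𝔼 x, (ce (n' 0 t) (f 0 * U t)) x * (V t - V' t) x := by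
      intro t _
      rw [ce_adj, ← expect_add_distrib]
      refine expect_congr rfl fun x _ => ?_
      rw [ce_sub]
      simp only [Pi.sub_apply, Pi.mul_apply, Rc_succ]
      ring
    rw [sum_congr rfl split, sum_add_distrib]
    have hC := hU.nonneg
    have hCf := Cf_nonneg k
    have first : ‖∑ t ∈ range r, 𝔼 x, (f 0 * U t) x * (ce (n 0 t) (V t) - ce (n' 0 t) (V t)) x‖
        ≤ (1 + C) + (1 + Cf k) := by
      rcases hnn 0 (by omega) with h | h
      · have : ∀ t ∈ range r, 𝔼 x, (f 0 * U t) x *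
            (ce (n 0 t) (V t) - ce (n' 0 t) (V t)) x = 0 := by
          intro t ht
          refine expect_eq_zero fun x _ => ?_
          rw [h t (mem_range.1 ht), sub_self, Pi.zero_apply, mul_zero]
        rw [sum_eq_zero this, norm_zero]
        linarith
      · have e : ∀ t ∈ range r, ‖𝔼 x, (f 0 * U t) x *
            (ce (n 0 t) (V t) - ce (n' 0 t) (V t)) x‖ ≤
            (sq (df c t (f 0 * U t)) + sq (df c t (V t))) / 2 := by
          intro t ht
          obtain ⟨h1, h2⟩ := h t (mem_range.1 ht)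
          rw [h1, h2]
          have h3 : ce (c (t + 1)) (V t) - ce (c t) (V t) = df c t (V t) := rfl
          rw [h3, df_adj hc]
          exact norm_expect_mul_le _ _
        refine (norm_sum_le _ _).trans ((sum_le_sum e).trans ?_)
        rw [← sum_div, sum_add_distrib]
        have a1 := hUf.sum_sq hc
        have a2 := hPV.sum_sq hc
        linarith
    have second := ih (f := f') (n := fun i => n (i + 1)) (n' := fun i => n' (i + 1))
      (fun i x => hf _ x) (fun i hi => hn _ (by omega)) (fun i hi => hn' _ (by omega))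
      (fun i hi => hnn _ (by omega)) (hUf.ce hc (hn' 0 (by omega)))
    refine (norm_add_le _ _).trans ?_
    unfold Mf
    exact add_le_add first second

/-- Small oscillation. -/
def Osc (δ : ℝ) (c : ℕ) (U : Pt N → ℂ) : Prop :=
  ∀ x y : Pt N, (∀ i : Fin N, (i : ℕ) < c → x i = y i) → ‖U x - U y‖ ≤ δ

lemma Osc.ce {δ : ℝ} {c : ℕ} {U : Pt N → ℂ} (h : Osc δ c U) (n : ℕ) : Osc δ c (ce n U) := by
  intro x y hxy
  unfold Dg.ce
  rw [← expect_sub_distrib]
  refine norm_expect_le' fun z => h _ _ fun i hi => ?_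
  unfold mix
  split_ifs
  · exact hxy i hi
  · rfl

lemma Osc.mul {δ δ' : ℝ} {c : ℕ} {U V : Pt N → ℂ} (hU : Osc δ c U) (hV : Osc δ' c V)
    (hU1 : ∀ x, ‖U x‖ ≤ 1) (hV1 : ∀ x, ‖V x‖ ≤ 1) : Osc (δ + δ') c (U * V) := by
  intro x y hxy
  have e : (U * V) x - (U * V) y = (U x - U y) * V x + U y * (V x - V y) := by
    simp only [Pi.mul_apply]
    ring
  rw [e]
  refine (norm_add_le _ _).trans ?_
  rw [norm_mul, norm_mul]
  have h1 := hU x y hxy
  have h2 := hV x y hxy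
  exact add_le_add ((mul_le_of_le_one_right (norm_nonneg _) (hV1 x)).trans h1)
    ((mul_le_of_le_one_left (norm_nonneg _) (hU1 y)).trans h2)

lemma Osc.sub_ce {δ : ℝ} {c : ℕ} {U : Pt N → ℂ} (h : Osc δ c U) (x : Pt N) :
    ‖Dg.ce c U x - U x‖ ≤ δ := by
  unfold Dg.ce
  rw [← Fintype.expect_const (ι := Pt N) (U x), ← expect_sub_distrib]
  refine norm_expect_le' fun z => h _ _ fun i hi => ?_
  unfold mix
  rw [if_pos hi]

/-- The bound for small oscillations. -/
lemma osc_bound {k : ℕ} {c : ℕ} {f : ℕ → Pt N → ℂ} {n n' : ℕ → ℕ}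
    {ξ : Pt N → ℂ} (hf : ∀ i x, ‖f i x‖ ≤ 1) (hξ : ∀ x, ‖ξ x‖ ≤ 1) {δ : ℝ} (hδ : 0 ≤ δ)
    (hfo : ∀ i < k, Osc δ c (f i))
    (hnn : ∀ i < k, n i = n' i ∨ (n i = c ∧ N ≤ n' i))
    {U : Pt N → ℂ} {η : ℝ} (hη : 0 ≤ η) (hU : ∀ x, ‖U x‖ ≤ 1) (hUo : Osc η c U) :
    ‖𝔼 x, U x * (Rc k f n ξ - Rc k f n' ξ) x‖ ≤ k * (η + k * δ) := by
  induction k generalizing f n n' U η with
  | zero =>
    have : 𝔼 x, U x * (Rc 0 f n ξ - Rc 0 f n' ξ) x = 0 := by
      refine expect_eq_zero fun x _ => ?_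
      unfold Rc
      rw [sub_self, Pi.zero_apply, mul_zero]
    rw [this, norm_zero]
    simp
  | succ k ih =>
    set f' : ℕ → Pt N → ℂ := fun i => f (i + 1) with hf'
    set V : Pt N → ℂ := Rc k f' (fun i => n (i + 1)) ξ with hV
    set V' : Pt N → ℂ := Rc k f' (fun i => n' (i + 1)) ξ with hV'
    have hV1 : ∀ x, ‖V x‖ ≤ 1 := by
      intro x
      have := norm_Rc_le (k := k) (f := f') (n := fun i => n (i + 1)) (ξ := ξ) (a := fun _ => 1)
        (b := 1) (fun i x => hf _ x) hξ x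
      simpa using this
    have hUf : ∀ x, ‖(f 0 * U) x‖ ≤ 1 := by
      intro x
      rw [Pi.mul_apply, norm_mul]
      exact mul_le_one₀ (hf 0 x) (norm_nonneg _) (hU x)
    have hUfo : Osc (δ + η) c (f 0 * U) := (hfo 0 (by omega)).mul hUo (hf 0) hU
    have split : 𝔼 x, U x * (Rc (k + 1) f n ξ - Rc (k + 1) f n' ξ) x =
        𝔼 x, (f 0 * U) x * (ce (n 0) V - ce (n' 0) V) x +
        𝔼 x, (ce (n' 0) (f 0 * U)) x * (V - V') x := by
      rw [ce_adj, ← expect_add_distrib]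
      refine expect_congr rfl fun x _ => ?_
      rw [ce_sub]
      simp only [Pi.sub_apply, Pi.mul_apply, Rc_succ]
      ring
    rw [split]
    have first : ‖𝔼 x, (f 0 * U) x * (ce (n 0) V - ce (n' 0) V) x‖ ≤ δ + η := by
      rcases hnn 0 (by omega) with h | ⟨h, h'⟩
      · have : 𝔼 x, (f 0 * U) x * (ce (n 0) V - ce (n' 0) V) x = 0 := by
          refine expect_eq_zero fun x _ => ?_
          rw [h, sub_self, Pi.zero_apply, mul_zero]
        rw [this, norm_zero]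
        positivity
      · rw [h, ce_of_ge h']
        have e1 : 𝔼 x, (f 0 * U) x * (ce c V - V) x =
            𝔼 x, (ce c (f 0 * U) - f 0 * U) x * V x := by
          have h1 : ∀ x, (f 0 * U) x * (ce c V - V) x =
              (f 0 * U) x * ce c V x - (f 0 * U) x * V x := fun x => by
            rw [Pi.sub_apply, mul_sub]
          have h2 : ∀ x, (ce c (f 0 * U) - f 0 * U) x * V x =
              ce c (f 0 * U) x * V x - (f 0 * U) x * V x := fun x => by
            rw [Pi.sub_apply, sub_mul]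
          rw [expect_congr rfl fun x _ => h1 x, expect_congr rfl fun x _ => h2 x,
            expect_sub_distrib, expect_sub_distrib, ce_adj]
        rw [e1]
        refine norm_expect_le' fun x => ?_
        rw [norm_mul, Pi.sub_apply]
        exact (mul_le_of_le_one_right (norm_nonneg _) (hV1 x)).trans (hUfo.sub_ce x)
    have second := ih (f := f') (n := fun i => n (i + 1)) (n' := fun i => n' (i + 1))
      (fun i x => hf _ x) (fun i hi => hfo _ (by omega))
      (fun i hi => hnn _ (by omega)) (by positivity : 0 ≤ δ + η)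
      (norm_ce_le (n := n' 0) hUf) (hUfo.ce (n' 0))
    refine (norm_add_le _ _).trans ((add_le_add first second).trans ?_)
    push_cast
    have hk : (0 : ℝ) ≤ k := Nat.cast_nonneg k
    nlinarith [mul_nonneg hk hδ, mul_nonneg hk hη]

end

end Pool.Agent.Helper5.Dg
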