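import Mathlib
import Pool.Agent.Helper5.Dg.Alg

/-!
Generalised limits and iterated functionals.
-/

namespace Pool.Agent.Helper5.Dg

open Finset Filter Topology

noncomputable section

/-- Eventually bounded functions. -/
def bddSub : Submodule ℂ (ℕ → ℂ) where
  carrier := {f | ∃ M : ℝ, ∀ᶠ n in atTop, ‖f n‖ ≤ M}
  add_mem' := by
    rintro f g ⟨M, hM⟩ ⟨M', hM'⟩
    refine ⟨M + M', ?_⟩
    filter_upwards [hM, hM'] with n h h'
    exact (norm_add_le _ _).trans (add_le_add h h')
  zero_mem' := ⟨0, Eventually.of_forall fun n => by simp⟩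
  smul_mem' := by
    rintro c f ⟨M, hM⟩
    refine ⟨‖c‖ * M, ?_⟩
    filter_upwards [hM] with n h
    rw [Pi.smul_apply, norm_smul]
    exact mul_le_mul_of_nonneg_left h (norm_nonneg _)

lemma exists_ulim (f : bddSub) : ∃ z : ℂ, Tendsto (f : ℕ → ℂ) (hyperfilter ℕ : Filter ℕ) (𝓝 z) := by
  obtain ⟨f, M, hM⟩ := f
  have h1 : ∀ᶠ n in (hyperfilter ℕ : Filter ℕ), f n ∈ Metric.closedBall (0 : ℂ) M := by
    have hle : (hyperfilter ℕ : Filter ℕ) ≤ atTop := by
      rw [← Nat.cofinite_eq_atTop]
      exact hyperfilter_le_cofinite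
    filter_upwards [hle hM] with n hn
    rw [mem_closedBall_zero_iff]
    exact hn
  have h2 : IsCompact (Metric.closedBall (0 : ℂ) M) := isCompact_closedBall _ _
  obtain ⟨z, _, hz⟩ := h2.ultrafilter_le_nhds ((hyperfilter ℕ).map f) (le_principal_iff.2 h1)
  exact ⟨z, hz⟩

lemma exists_genlim : ∃ L : (ℕ → ℂ) →ₗ[ℂ] ℂ, (∀ c : ℂ, L (fun _ => c) = c) ∧
    ∀ (f : ℕ → ℂ) (M : ℝ), (∀ᶠ n in atTop, ‖f n‖ ≤ M) → ‖L f‖ ≤ M := by
  classical
  choose l hl using exists_ulim
  let L0 : bddSub →ₗ[ℂ] ℂ :=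
    { toFun := l
      map_add' := fun f g => tendsto_nhds_unique (hl (f + g)) ((hl f).add (hl g))
      map_smul' := fun c f => tendsto_nhds_unique (hl (c • f)) ((hl f).const_smul c) }
  obtain ⟨L, hL⟩ := LinearMap.exists_extend L0
  have hL' : ∀ f : bddSub, L f = l f := fun f => by
    have := LinearMap.congr_fun hL f
    exact this
  refine ⟨L, fun c => ?_, fun f M hM => ?_⟩
  · have h1 := hL' ⟨fun _ => c, ‖c‖, Eventually.of_forall fun _ => le_rfl⟩
    rw [h1]
    exact tendsto_nhds_unique (hl _) tendsto_const_nhds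
  · have h1 := hL' ⟨f, M, hM⟩
    rw [h1]
    have hle : (hyperfilter ℕ : Filter ℕ) ≤ atTop := by
      rw [← Nat.cofinite_eq_atTop]
      exact hyperfilter_le_cofinite
    have h3 := (hl ⟨f, M, hM⟩).norm
    exact le_of_tendsto h3 (hle hM)

/-- A generalised limit. -/
def gl : (ℕ → ℂ) →ₗ[ℂ] ℂ := exists_genlim.choose

lemma gl_const (c : ℂ) : gl (fun _ => c) = c := exists_genlim.choose_spec.1 c

lemma gl_bound {f : ℕ → ℂ} {M : ℝ} (h : ∀ᶠ n in atTop, ‖f n‖ ≤ M) : ‖gl f‖ ≤ M :=
  exists_genlim.choose_spec.2 f M h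

section It

variable {α : Type*}

/-- Iterated functionals. -/
def It (d : α) : (m : ℕ) → (ℕ → ((α → ℂ) →ₗ[ℂ] ℂ)) → ((ℕ → α) → ℂ) →ₗ[ℂ] ℂ
  | 0, _ =>
    { toFun := fun F => F fun _ => d
      map_add' := fun _ _ => rfl
      map_smul' := fun _ _ => rfl }
  | m + 1, M =>
    { toFun := fun F => M 0 fun a => It d m (fun i => M (i + 1)) fun x => F (insN 0 a x)
      map_add' := fun F G => by
        have : (fun a => It d m (fun i => M (i + 1)) fun x => (F + G) (insN 0 a x)) =
            (fun a => It d m (fun i => M (i + 1)) fun x => F (insN 0 a x)) +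
            (fun a => It d m (fun i => M (i + 1)) fun x => G (insN 0 a x)) := by
          funext a
          have e : (fun x => (F + G) (insN 0 a x)) =
              (fun x => F (insN 0 a x)) + (fun x => G (insN 0 a x)) := rfl
          rw [e, map_add, Pi.add_apply]
        rw [this, map_add]
      map_smul' := fun c F => by
        have : (fun a => It d m (fun i => M (i + 1)) fun x => (c • F) (insN 0 a x)) =
            c • (fun a => It d m (fun i => M (i + 1)) fun x => F (insN 0 a x)) := by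
          funext a
          have e : (fun x => (c • F) (insN 0 a x)) = c • (fun x => F (insN 0 a x)) := rfl
          rw [e, map_smul, Pi.smul_apply]
        rw [this, map_smul, RingHom.id_apply] }

lemma It_zero (d : α) (M : ℕ → ((α → ℂ) →ₗ[ℂ] ℂ)) (F : (ℕ → α) → ℂ) :
    It d 0 M F = F fun _ => d := rfl

lemma It_succ (d : α) (m : ℕ) (M : ℕ → ((α → ℂ) →ₗ[ℂ] ℂ)) (F : (ℕ → α) → ℂ) :
    It d (m + 1) M F = M 0 fun a => It d m (fun i => M (i + 1)) fun x => F (insN 0 a x) := rfl

lemma It_const (d : α) (m : ℕ) (M : ℕ → ((α → ℂ) →ₗ[ℂ] ℂ))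
    (hM : ∀ i c, M i (fun _ => c) = c) (c : ℂ) : It d m M (fun _ => c) = c := by
  induction m generalizing M with
  | zero => rfl
  | succ m ih =>
    rw [It_succ]
    have : (fun _ : α => It d m (fun i => M (i + 1)) fun _ => c) = fun _ => c := by
      funext a
      exact ih _ fun i c => hM _ _
    rw [this, hM]

/-- Independence of a variable. -/
def Indep (i : ℕ) (F : (ℕ → α) → ℂ) : Prop := ∀ x a b, F (insN i a x) = F (insN i b x)

lemma It_drop (d : α) (m : ℕ) (M : ℕ → ((α → ℂ) →ₗ[ℂ] ℂ)) (hM : ∀ i c, M i (fun _ => c) = c)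
    {i : ℕ} (hi : i ≤ m) (F : (ℕ → α) → ℂ) (hF : Indep i F) :
    It d (m + 1) M F = It d m (fun t => if t < i then M t else M (t + 1))
      (fun x => F (insN i d x)) := by
  induction m generalizing M i F with
  | zero =>
    have : i = 0 := by omega
    subst this
    rw [It_succ]
    have e : (fun a => It d 0 (fun i => M (i + 1)) fun x => F (insN 0 a x)) =
        fun _ => It d 0 (fun t => if t < 0 then M t else M (t + 1)) fun x => F (insN 0 d x) := by
      funext a
      rw [It_zero, It_zero]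
      exact hF _ _ _
    rw [e, hM]
  | succ m ih =>
    cases i with
    | zero =>
      rw [It_succ]
      have e : (fun a => It d (m + 1) (fun i => M (i + 1)) fun x => F (insN 0 a x)) =
          fun _ => It d (m + 1) (fun t => if t < 0 then M t else M (t + 1))
            fun x => F (insN 0 d x) := by
        funext a
        have e1 : (fun x => F (insN 0 a x)) = fun x => F (insN 0 d x) := by
          funext x
          exact hF _ _ _
        have e2 : (fun i => M (i + 1)) = fun t => if t < 0 then M t else M (t + 1) := by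
          funext t
          rw [if_neg (by omega)]
        rw [e1, ← e2]
      rw [e, hM]
    | succ i =>
      rw [It_succ, It_succ]
      congr 1
      funext a
      rw [ih (fun i => M (i + 1)) (fun i c => hM _ _) (by omega : i ≤ m)
        (fun x => F (insN 0 a x)) ?_]
      · have e1 : (fun t => if t < i then M (t + 1) else M (t + 1 + 1)) =
            fun t => if t + 1 < i + 1 then M (t + 1) else M (t + 1 + 1) := by
          funext t
          simp only [Nat.add_lt_add_iff_right]
        have e2 : (fun x => F (insN 0 a (insN i d x))) =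
            fun x => F (insN (i + 1) d (insN 0 a x)) := by
          funext x
          rw [insN_insN' (Nat.zero_le i)]
        rw [← e1, e2]
      · intro x b c
        show F (insN 0 a (insN i b x)) = F (insN 0 a (insN i c x))
        rw [← insN_insN' (Nat.zero_le i), ← insN_insN' (Nat.zero_le i)]
        exact hF _ _ _

end It

/-- The iterated generalised limit. -/
def Lam (m : ℕ) : ((ℕ → ℕ) → ℂ) →ₗ[ℂ] ℂ := It 0 m fun _ => gl

lemma Lam_succ (m : ℕ) (F : (ℕ → ℕ) → ℂ) :
    Lam (m + 1) F = gl fun a => Lam m fun x => F (insN 0 a x) := It_succ _ _ _ _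

lemma Lam_const (m : ℕ) (c : ℂ) : Lam m (fun _ => c) = c := It_const _ _ _ (fun _ => gl_const) c

lemma Lam_drop {m i : ℕ} (hi : i ≤ m) (F : (ℕ → ℕ) → ℂ) (hF : Indep i F) :
    Lam (m + 1) F = Lam m fun x => F (insN i 0 x) := by
  have := It_drop 0 m (fun _ => gl) (fun _ => gl_const) hi F hF
  simp only [ite_self] at this
  exact this

/-- Eventual bounds in all the variables. -/
def EvB : (m : ℕ) → ((ℕ → ℕ) → ℂ) → ℝ → Prop
  | 0, F, C => ‖F fun _ => 0‖ ≤ C
  | m + 1, F, C => ∀ᶠ a in atTop, EvB m (fun x => F (insN 0 a x)) C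

lemma EvB_succ (m : ℕ) (F : (ℕ → ℕ) → ℂ) (C : ℝ) :
    EvB (m + 1) F C ↔ ∀ᶠ a in atTop, EvB m (fun x => F (insN 0 a x)) C := Iff.rfl

lemma Lam_norm_le {m : ℕ} {F : (ℕ → ℕ) → ℂ} {C : ℝ} (h : EvB m F C) : ‖Lam m F‖ ≤ C := by
  induction m generalizing F with
  | zero => exact h
  | succ m ih =>
    rw [Lam_succ]
    apply gl_bound
    filter_upwards [h] with a ha
    exact ih ha

lemma Lam_eq_zero {m : ℕ} {F : (ℕ → ℕ) → ℂ} (h : ∀ ε : ℝ, 0 < ε → EvB m F ε) : Lam m F = 0 := by
  rw [← norm_le_zero_iff]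
  refine le_of_forall_pos_le_add fun ε hε => ?_
  rw [zero_add]
  exact Lam_norm_le (h ε hε)

/-- The first `m` entries are increasing and larger than `b`. -/
def Inc (b m : ℕ) (x : ℕ → ℕ) : Prop := (∀ i < m, b < x i) ∧ ∀ i, i + 1 < m → x i < x (i + 1)

lemma Inc.cons {b m a : ℕ} {x : ℕ → ℕ} (ha : b < a) (h : Inc a m x) :
    Inc b (m + 1) (insN 0 a x) := by
  constructor
  · intro i hi
    rcases Nat.eq_zero_or_pos i with h0 | h0
    · subst h0
      rw [insN_eq]
      exact ha
    · rw [insN_gt _ _ h0]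
      exact ha.trans (h.1 _ (by omega))
  · intro i hi
    rcases Nat.eq_zero_or_pos i with h0 | h0
    · subst h0
      rw [insN_eq, insN_gt _ _ (by omega)]
      exact h.1 _ (by omega)
    · rw [insN_gt _ _ h0, insN_gt _ _ (by omega)]
      have := h.2 (i - 1) (by omega)
      rw [Nat.sub_add_cancel h0] at this
      rw [Nat.add_sub_cancel]
      exact this

lemma Inc.lt {b m : ℕ} {x : ℕ → ℕ} (h : Inc b m x) {i j : ℕ} (hij : i < j) (hj : j < m) :
    x i < x j := by
  induction j with
  | zero => omega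
  | succ j ih =>
    rcases Nat.lt_succ_iff_lt_or_eq.1 hij with h' | h'
    · exact (ih h' (by omega)).trans (h.2 j hj)
    · subst h'
      exact h.2 i hj

lemma Inc.le {b m : ℕ} {x : ℕ → ℕ} (h : Inc b m x) {i j : ℕ} (hij : i ≤ j) (hj : j < m) :
    x i ≤ x j := by
  rcases hij.eq_or_lt with h' | h'
  · rw [h']
  · exact (h.lt h' hj).le

lemma Inc.mono {b m m' : ℕ} {x : ℕ → ℕ} (h : Inc b m x) (hm : m' ≤ m) : Inc b m' x :=
  ⟨fun i hi => h.1 i (by omega), fun i hi => h.2 i (by omega)⟩

/-- Fill the first `q` entries. -/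
def app (q : ℕ) (o x : ℕ → ℕ) : ℕ → ℕ := fun t => if t < q then o t else x (t - q)

lemma app_zero (o x : ℕ → ℕ) : app 0 o x = x := by
  funext t
  simp [app]

lemma insN_app (a q : ℕ) (o x : ℕ → ℕ) : insN 0 a (app q o x) = app (q + 1) (insN 0 a o) x := by
  funext t
  unfold app
  rcases Nat.eq_zero_or_pos t with h | h
  · subst h
    rw [insN_eq, if_pos (by omega), insN_eq]
  · rw [insN_gt _ _ h]
    by_cases h' : t < q + 1
    · rw [if_pos h', if_pos (by omega), insN_gt _ _ h]
    · rw [if_neg h', if_neg (by omega)]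
      congr 1
      omega

lemma EvB_outer {q m : ℕ} (b : ℕ) {F : (ℕ → ℕ) → ℂ} {C : ℝ}
    (h : ∀ o : ℕ → ℕ, Inc b q o → EvB m (fun x => F (app q o x)) C) : EvB (q + m) F C := by
  induction q generalizing b F with
  | zero =>
    have := h (fun _ => 0) ⟨fun i hi => by omega, fun i hi => by omega⟩
    simp only [app_zero] at this
    rw [Nat.zero_add]
    exact this
  | succ q ih =>
    rw [show q + 1 + m = q + m + 1 by ring, EvB_succ]
    filter_upwards [eventually_gt_atTop b] with a ha
    refine ih a fun o ho => ?_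
    have := h (insN 0 a o) (ho.cons ha)
    simp only [insN_app]
    exact this

lemma EvB_of_inc {m : ℕ} (b : ℕ) {F : (ℕ → ℕ) → ℂ} {C : ℝ}
    (h : ∀ x : ℕ → ℕ, Inc b m x → ‖F x‖ ≤ C) : EvB m F C := by
  induction m generalizing b F with
  | zero => exact h _ ⟨fun i hi => by omega, fun i hi => by omega⟩
  | succ m ih =>
    rw [EvB_succ]
    filter_upwards [eventually_gt_atTop b] with a ha
    exact ih a fun x hx => h _ (hx.cons ha)

lemma Lam_norm_le_of_inc {m : ℕ} {F : (ℕ → ℕ) → ℂ} {C : ℝ}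
    (h : ∀ x : ℕ → ℕ, Inc 0 m x → ‖F x‖ ≤ C) : ‖Lam m F‖ ≤ C := Lam_norm_le (EvB_of_inc 0 h)

/-- Functions that agree on increasing sequences have the same limit. -/
lemma Lam_congr {m : ℕ} {F F' : (ℕ → ℕ) → ℂ} (h : ∀ x, Inc 0 m x → F x = F' x) :
    Lam m F = Lam m F' := by
  rw [← sub_eq_zero, ← map_sub]
  refine norm_le_zero_iff.1 (Lam_norm_le_of_inc fun x hx => ?_)
  rw [Pi.sub_apply, h x hx, sub_self, norm_zero]

/-- Smallness when one gap is large. -/
lemma Lam_gap {m q : ℕ} (hq : q + 1 < m) {F : (ℕ → ℕ) → ℂ} (C : ℝ)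
    (h : ∀ x : ℕ → ℕ, Inc 0 m x → ‖F x‖ ≤ C * (1 / 2 : ℝ) ^ (x (q + 1) - x q)) :
    Lam m F = 0 := by
  refine Lam_eq_zero fun ε hε => ?_
  obtain ⟨r, hr⟩ : ∃ r, m = (q + 1) + (r + 1) := ⟨m - q - 2, by omega⟩
  subst hr
  refine EvB_outer 0 fun o ho => ?_
  rw [EvB_succ]
  have hlim : Tendsto (fun n : ℕ => C * (1 / 2 : ℝ) ^ (n - o q)) atTop (𝓝 (C * 0)) := by
    refine Tendsto.const_mul C ?_
    have h1 : Tendsto (fun n : ℕ => (1 / 2 : ℝ) ^ n) atTop (𝓝 0) :=
      tendsto_pow_atTop_nhds_zero_of_lt_one (by norm_num) (by norm_num)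
    exact h1.comp (tendsto_sub_atTop_nat _)
  rw [mul_zero] at hlim
  filter_upwards [(tendsto_order.1 hlim).2 ε hε, eventually_gt_atTop (o q)] with a ha hoa
  refine EvB_of_inc a fun x hx => ?_
  have hinc : Inc 0 (q + 1 + (r + 1)) (app (q + 1) o (insN 0 a x)) := by
    have hc : Inc (o q) (r + 1) (insN 0 a x) := hx.cons hoa
    constructor
    · intro i hi
      unfold app
      split_ifs with h'
      · exact ho.1 _ h'
      · exact (Nat.zero_le _).trans_lt (hc.1 _ (by omega))
    · intro i hi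
      unfold app
      split_ifs with h1 h2 h3
      · exact ho.2 _ h2
      · have : i = q := by omega
        subst this
        exact hc.1 _ (by omega)
      · omega
      · have e : i + 1 - (q + 1) = i - (q + 1) + 1 := by omega
        rw [e]
        exact hc.2 _ (by omega)
  refine (h _ hinc).trans ?_
  have e1 : app (q + 1) o (insN 0 a x) (q + 1) = a := by
    unfold app
    rw [if_neg (by omega), Nat.sub_self, insN_eq]
  have e2 : app (q + 1) o (insN 0 a x) q = o q := by
    unfold app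
    rw [if_pos (by omega)]
  rw [e1, e2]
  exact ha.le

/-- Selecting two consecutive entries out of a chain. -/
def sel (q s r : ℕ) (z : ℕ → ℕ) : ℕ → ℕ := fun t =>
  if t < q then z t else if t = q then z (q + s) else if t = q + 1 then z (q + s + 1)
  else z (t + r)

lemma sel_zero (q : ℕ) (z : ℕ → ℕ) : sel q 0 0 z = z := by
  funext t
  unfold sel
  split_ifs with h1 h2 h3
  · rfl
  · rw [h2, Nat.add_zero]
  · rw [h3]
  · rfl

lemma sel_ins_pos (q s r : ℕ) (a : ℕ) (z : ℕ → ℕ) :
    sel q (s + 1) (r + 1) (insN q a z) = sel q s r z := by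
  funext t
  unfold sel
  split_ifs with h1 h2 h3
  · rw [insN_lt _ _ h1]
  · rw [insN_gt _ _ (by omega)]
    congr 1
  · rw [insN_gt _ _ (by omega)]
    congr 1
  · rw [insN_gt _ _ (by omega)]
    congr 1

lemma sel_ins_zero (q r : ℕ) (a : ℕ) (z : ℕ → ℕ) :
    sel q 0 (r + 1) (insN (q + 2) a z) = sel q 0 r z := by
  funext t
  unfold sel
  split_ifs with h1 h2 h3
  · rw [insN_lt _ _ (by omega)]
  · rw [insN_lt _ _ (by omega)]
  · rw [insN_lt _ _ (by omega)]
  · rw [insN_gt _ _ (by omega)]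
    congr 1

lemma Lam_sel {m q : ℕ} (hq : q + 1 < m) (D : (ℕ → ℕ) → ℂ) (r s : ℕ) (hs : s ≤ r) :
    Lam (m + r) (fun z => D (sel q s r z)) = Lam m D := by
  induction r generalizing s with
  | zero =>
    have : s = 0 := by omega
    subst this
    simp only [sel_zero]
    rfl
  | succ r ih =>
    rw [show m + (r + 1) = m + r + 1 by ring]
    rcases Nat.eq_zero_or_pos s with h0 | h0
    · subst h0
      rw [Lam_drop (i := q + 2) (by omega)]
      · simp only [sel_ins_zero]
        exact ih 0 (by omega)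
      · intro x a b
        simp only [sel_ins_zero]
    · obtain ⟨s', rfl⟩ : ∃ s', s = s' + 1 := ⟨s - 1, by omega⟩
      rw [Lam_drop (i := q) (by omega)]
      · simp only [sel_ins_pos]
        exact ih s' (by omega)
      · intro x a b
        simp only [sel_ins_pos]

/-- The merging lemma. -/
theorem Lam_merge {m q : ℕ} (hq : q + 1 < m) (F : (ℕ → ℕ) → ℂ) (M : ℝ)
    (h : ∀ (r : ℕ) (z : ℕ → ℕ), Inc 0 (m + r) z → ‖∑ s ∈ range (r + 1),
      (F (sel q s r z) - F (Function.update (sel q s r z) (q + 1) (sel q s r z q)))‖ ≤ M) :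
    Lam m F = Lam m fun x => F (Function.update x (q + 1) (x q)) := by
  rw [← sub_eq_zero, ← map_sub]
  set D : (ℕ → ℕ) → ℂ := F - fun x => F (Function.update x (q + 1) (x q)) with hD
  have h1 : ∀ r : ℕ, ((r : ℝ) + 1) * ‖Lam m D‖ ≤ M := by
    intro r
    have e1 : Lam (m + r) (∑ s ∈ range (r + 1), fun z => D (sel q s r z)) =
        ((r : ℂ) + 1) * Lam m D := by
      rw [map_sum, sum_congr rfl (fun s hs => Lam_sel hq D r s (by
        rw [mem_range] at hs; omega)), sum_const, card_range, nsmul_eq_mul]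
      push_cast
      ring
    have e2 : ‖Lam (m + r) (∑ s ∈ range (r + 1), fun z => D (sel q s r z))‖ ≤ M := by
      refine Lam_norm_le_of_inc fun z hz => ?_
      rw [Finset.sum_apply]
      exact h r z hz
    rw [e1, norm_mul] at e2
    have e3 : ‖(r : ℂ) + 1‖ = (r : ℝ) + 1 := by
      have : (r : ℂ) + 1 = ((r + 1 : ℕ) : ℂ) := by push_cast; ring
      rw [this, Complex.norm_natCast]
      push_cast
      ring
    rw [e3] at e2
    exact e2
  by_contra hne
  have hpos : 0 < ‖Lam m D‖ := norm_pos_iff.2 hne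
  obtain ⟨r, hr⟩ := exists_nat_gt (M / ‖Lam m D‖)
  rw [div_lt_iff₀ hpos] at hr
  have := h1 r
  nlinarith

end

end Pool.Agent.Helper5.Dg
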