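import Mathlib
import Pool.Agent.Helper5.Dg.Lim
import Pool.Agent.Helper5.Dg.Chain

/-!
Walsh characters and their averages.
-/

namespace Pool.Agent.Helper5.Dg

open Finset
open scoped BigOperators ComplexConjugate

noncomputable section

/-- The Cantor set. -/
abbrev Cn : Type := ℕ → Bool

/-- The sign of a bit. -/
def bs (b : Bool) : ℂ := if b then -1 else 1

lemma bs_mul (b b' : Bool) : bs b * bs b' = if b = b' then 1 else -1 := by
  cases b <;> cases b' <;> simp [bs]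

lemma norm_bs (b : Bool) : ‖bs b‖ = 1 := by cases b <;> simp [bs]

/-- Coordinate characters. -/
def cc (i : ℕ) : C(Cn, ℂ) := ⟨fun ω => bs (ω i), by
  exact (continuous_of_discreteTopology (f := bs)).comp (continuous_apply i)⟩

/-- Walsh characters. -/
def ch (T : Finset ℕ) : C(Cn, ℂ) := ∏ i ∈ T, cc i

lemma ch_apply (T : Finset ℕ) (ω : Cn) : ch T ω = ∏ i ∈ T, bs (ω i) := by
  unfold ch
  rw [ContinuousMap.coe_prod, Finset.prod_apply]
  rfl

lemma ch_empty : ch ∅ = 1 := by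
  unfold ch
  exact prod_empty

lemma norm_ch_apply (T : Finset ℕ) (ω : Cn) : ‖ch T ω‖ = 1 := by
  rw [ch_apply, norm_prod]
  exact prod_eq_one fun i _ => norm_bs _

lemma norm_ch_le (T : Finset ℕ) : ‖ch T‖ ≤ 1 := by
  rw [ContinuousMap.norm_le _ zero_le_one]
  intro ω
  rw [norm_ch_apply]

lemma ch_mul (T S : Finset ℕ) : ch T * ch S = ch (symmDiff T S) := by
  ext ω
  rw [ContinuousMap.mul_apply, ch_apply, ch_apply, ch_apply]
  have h1 : ∏ i ∈ T, bs (ω i) = (∏ i ∈ T \ S, bs (ω i)) * ∏ i ∈ T ∩ S, bs (ω i) := by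
    rw [← prod_union (disjoint_sdiff_inter T S), sdiff_union_inter]
  have h2 : ∏ i ∈ S, bs (ω i) = (∏ i ∈ S \ T, bs (ω i)) * ∏ i ∈ T ∩ S, bs (ω i) := by
    rw [inter_comm T S, ← prod_union (disjoint_sdiff_inter S T), sdiff_union_inter]
  have h3 : ∏ i ∈ symmDiff T S, bs (ω i) =
      (∏ i ∈ T \ S, bs (ω i)) * ∏ i ∈ S \ T, bs (ω i) := by
    rw [← prod_union]
    · rfl
    · exact disjoint_sdiff_sdiff
  have h4 : (∏ i ∈ T ∩ S, bs (ω i)) * ∏ i ∈ T ∩ S, bs (ω i) = 1 := by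
    rw [← prod_mul_distrib]
    exact prod_eq_one fun i _ => by rw [bs_mul, if_pos rfl]
  rw [h1, h2, h3]
  linear_combination (∏ i ∈ T \ S, bs (ω i)) * (∏ i ∈ S \ T, bs (ω i)) * h4

lemma ch_sq (T : Finset ℕ) : ch T * ch T = 1 := by
  rw [ch_mul, symmDiff_self]
  exact ch_empty

/-- The average over the characters of level `l`. -/
def Av (l : ℕ) : (C(Cn, ℂ) → ℂ) →ₗ[ℂ] ℂ where
  toFun φ := 𝔼 T ∈ (range l).powerset, φ (ch T)
  map_add' _ _ := expect_add_distrib _ _ _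
  map_smul' _ _ := (mul_expect _ _ _).symm

lemma Av_apply (l : ℕ) (φ : C(Cn, ℂ) → ℂ) : Av l φ = 𝔼 T ∈ (range l).powerset, φ (ch T) := rfl

lemma Av_const (l : ℕ) (c : ℂ) : Av l (fun _ => c) = c := by
  rw [Av_apply]
  exact expect_const ⟨∅, empty_mem_powerset _⟩ _

/-- The set of all characters. -/
def Chs : Set C(Cn, ℂ) := Set.range ch

lemma Av_congr (l : ℕ) {φ φ' : C(Cn, ℂ) → ℂ} (h : ∀ u ∈ Chs, φ u = φ' u) : Av l φ = Av l φ' := by
  rw [Av_apply, Av_apply]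
  exact expect_congr rfl fun T _ => h _ ⟨T, rfl⟩

lemma Av_norm_le (l : ℕ) {φ : C(Cn, ℂ) → ℂ} {C : ℝ} (h : ∀ u ∈ Chs, ‖φ u‖ ≤ C) :
    ‖Av l φ‖ ≤ C := by
  rw [Av_apply]
  refine (RCLike.norm_expect_le (K := ℂ)).trans ?_
  exact expect_le ⟨∅, empty_mem_powerset _⟩ fun T _ => h _ ⟨T, rfl⟩

lemma Av_shift {l : ℕ} {W : Finset ℕ} (hW : W ⊆ range l) (φ : C(Cn, ℂ) → ℂ) :
    Av l (fun u => φ (ch W * u)) = Av l φ := by
  rw [Av_apply, Av_apply]
  have hmem : ∀ T ∈ (range l).powerset, symmDiff W T ∈ (range l).powerset := by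
    intro T hT
    rw [mem_powerset] at hT ⊢
    exact (symmDiff_le_sup (a := W) (b := T)).trans (union_subset hW hT)
  refine expect_nbij' (fun T => symmDiff W T) (fun T => symmDiff W T) hmem hmem ?_ ?_ ?_
  · intro T _
    exact symmDiff_symmDiff_cancel_left W T
  · intro T _
    exact symmDiff_symmDiff_cancel_left W T
  · intro T _
    show φ (ch W * ch T) = φ (ch (symmDiff W T))
    rw [ch_mul]

lemma Av_kernel (l : ℕ) (ω ω' : Cn) :
    Av l (fun u => u ω * u ω') = if ∀ i < l, ω i = ω' i then 1 else 0 := by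
  rw [Av_apply]
  have h1 : ∀ T ∈ (range l).powerset, ch T ω * ch T ω' = ∏ i ∈ T, bs (ω i) * bs (ω' i) := by
    intro T _
    rw [ch_apply, ch_apply, prod_mul_distrib]
  rw [expect_congr rfl h1, expect_eq_sum_div_card, card_powerset, card_range, ← prod_one_add]
  split_ifs with h
  · have : ∏ i ∈ range l, (1 + bs (ω i) * bs (ω' i)) = 2 ^ l := by
      rw [prod_congr rfl fun i hi => by rw [bs_mul, if_pos (h i (mem_range.1 hi))], prod_const,
        card_range]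
      norm_num
    rw [this]
    push_cast
    exact div_self (pow_ne_zero _ two_ne_zero)
  · push Not at h
    obtain ⟨i, hi, hne⟩ := h
    rw [prod_eq_zero (mem_range.2 hi), zero_div]
    rw [bs_mul, if_neg hne]
    norm_num

section ItAv

lemma It_congr_on {α : Type*} (S : Set α) (d : α) (hd : d ∈ S) (m : ℕ)
    (M : ℕ → ((α → ℂ) →ₗ[ℂ] ℂ))
    (hM : ∀ i (φ φ' : α → ℂ), (∀ a ∈ S, φ a = φ' a) → M i φ = M i φ')
    (F F' : (ℕ → α) → ℂ) (h : ∀ x, (∀ i, x i ∈ S) → F x = F' x) : It d m M F = It d m M F' := by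
  induction m generalizing M F F' with
  | zero => exact h _ fun _ => hd
  | succ m ih =>
    rw [It_succ, It_succ]
    refine hM 0 _ _ fun a ha => ?_
    refine ih (fun i => M (i + 1)) (fun i => hM _) _ _ fun x hx => h _ fun i => ?_
    unfold insN
    split_ifs
    · exact hx _
    · exact ha
    · exact hx _

lemma It_norm_le_on {α : Type*} (S : Set α) (d : α) (hd : d ∈ S) (m : ℕ)
    (M : ℕ → ((α → ℂ) →ₗ[ℂ] ℂ)) {C : ℝ}
    (hM : ∀ i (φ : α → ℂ), (∀ a ∈ S, ‖φ a‖ ≤ C) → ‖M i φ‖ ≤ C)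
    (F : (ℕ → α) → ℂ) (h : ∀ x, (∀ i, x i ∈ S) → ‖F x‖ ≤ C) : ‖It d m M F‖ ≤ C := by
  induction m generalizing M F with
  | zero => exact h _ fun _ => hd
  | succ m ih =>
    rw [It_succ]
    refine hM 0 _ fun a ha => ?_
    refine ih (fun i => M (i + 1)) (fun i => hM _) _ fun x hx => h _ fun i => ?_
    unfold insN
    split_ifs
    · exact hx _
    · exact ha
    · exact hx _

/-- Iterated averages over characters. -/
def IA (m : ℕ) (l : ℕ → ℕ) : ((ℕ → C(Cn, ℂ)) → ℂ) →ₗ[ℂ] ℂ := It 1 m fun i => Av (l i)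

lemma one_mem_Chs : (1 : C(Cn, ℂ)) ∈ Chs := ⟨∅, ch_empty⟩

lemma IA_zero (l : ℕ → ℕ) (F : (ℕ → C(Cn, ℂ)) → ℂ) : IA 0 l F = F fun _ => 1 := rfl

lemma IA_succ (m : ℕ) (l : ℕ → ℕ) (F : (ℕ → C(Cn, ℂ)) → ℂ) :
    IA (m + 1) l F = Av (l 0) fun u => IA m (fun i => l (i + 1)) fun x => F (insN 0 u x) := rfl

lemma IA_const (m : ℕ) (l : ℕ → ℕ) (c : ℂ) : IA m l (fun _ => c) = c :=
  It_const _ _ _ (fun _ => Av_const _) c

lemma IA_congr {m : ℕ} {l : ℕ → ℕ} {F F' : (ℕ → C(Cn, ℂ)) → ℂ}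
    (h : ∀ x, (∀ i, x i ∈ Chs) → F x = F' x) : IA m l F = IA m l F' :=
  It_congr_on Chs 1 one_mem_Chs m _ (fun _ _ _ => Av_congr _) F F' h

lemma IA_norm_le {m : ℕ} {l : ℕ → ℕ} {F : (ℕ → C(Cn, ℂ)) → ℂ} {C : ℝ}
    (h : ∀ x, (∀ i, x i ∈ Chs) → ‖F x‖ ≤ C) : ‖IA m l F‖ ≤ C :=
  It_norm_le_on Chs 1 one_mem_Chs m _ (fun _ _ => Av_norm_le _) F h

/-- Omit one entry. -/
def del {α : Type*} (i : ℕ) (x : ℕ → α) : ℕ → α := fun t => if t < i then x t else x (t + 1)

lemma del_insN {α : Type*} (i : ℕ) (a : α) (x : ℕ → α) : del i (insN i a x) = x := by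
  funext t
  unfold del
  split_ifs with h
  · rw [insN_lt _ _ h]
  · rw [insN_gt _ _ (by omega), Nat.add_sub_cancel]

lemma IA_drop {m i : ℕ} (hi : i ≤ m) (l : ℕ → ℕ) (F : (ℕ → C(Cn, ℂ)) → ℂ) :
    IA (m + 1) l (fun x => F (del i x)) = IA m (del i l) F := by
  have h := It_drop 1 m (fun i => Av (l i)) (fun i => Av_const _) hi (fun x => F (del i x))
    (fun x a b => by
      show F (del i (insN i a x)) = F (del i (insN i b x))
      rw [del_insN, del_insN])
  unfold IA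
  rw [h]
  have e1 : (fun x => F (del i (insN i (1 : C(Cn, ℂ)) x))) = F := by
    funext x
    rw [del_insN]
  rw [e1]
  congr 1
  congr 1
  funext t
  unfold del
  split_ifs <;> rfl

lemma IA_shift {m : ℕ} {l : ℕ → ℕ} {W : Finset ℕ} (hW : ∀ i < m, W ⊆ range (l i))
    (F : (ℕ → C(Cn, ℂ)) → ℂ) (hF : ∀ x y, (∀ i < m, x i = y i) → F x = F y) :
    IA m l (fun x => F (fun i => ch W * x i)) = IA m l F := by
  induction m generalizing l F with
  | zero =>
    rw [IA_zero, IA_zero]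
    exact hF _ _ fun i hi => by omega
  | succ m ih =>
    rw [IA_succ, IA_succ]
    rw [← Av_shift (hW 0 (by omega)) (fun u => IA m (fun i => l (i + 1)) fun x => F (insN 0 u x))]
    congr 1
    funext u
    rw [← ih (l := fun i => l (i + 1)) (fun i hi => hW _ (by omega))
      (fun x => F (insN 0 (ch W * u) x)) (fun x y hxy => hF _ _ fun i hi => ?_)]
    · congr 1
      funext x
      refine hF _ _ fun i hi => ?_
      rcases Nat.eq_zero_or_pos i with h | h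
      · subst h
        rw [insN_eq, insN_eq]
      · rw [insN_gt _ _ h, insN_gt _ _ h]
    · rcases Nat.eq_zero_or_pos i with h | h
      · subst h
        rw [insN_eq, insN_eq]
      · rw [insN_gt _ _ h, insN_gt _ _ h]
        exact hxy _ (by omega)

end ItAv

end

end Pool.Agent.Helper5.Dg
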