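import Mathlib
import Pool.Agent.Helper5.Sym.Bar
import Pool.Agent.Helper5.Dg.Walsh

/-!
The module of bounded functions and multilinear forms.
-/

namespace Pool.Agent.Helper5.Dg

open Finset Pool.Agent.Helper5.Sym
open scoped BigOperators ComplexConjugate

noncomputable section

/-- Index set of the module. -/
structure Ix where
  /-- The block. -/
  N : ℕ
  /-- The point. -/
  z : Cn

instance : TopologicalSpace Ix := ⊥

instance : DiscreteTopology Ix := ⟨rfl⟩

/-- Bounded functions on the index set. -/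
abbrev Xf : Type := BoundedContinuousFunction Ix ℂ

/-- The algebra. -/
abbrev Al : Type := C(Cn, ℂ)

/-- The multiplication operator of a function. -/
def lift (a : Al) : Xf :=
  BoundedContinuousFunction.ofNormedAddCommGroupDiscrete (fun p => a p.z) ‖a‖
    (fun _ => ContinuousMap.norm_coe_le_norm a _)

lemma lift_apply (a : Al) (p : Ix) : lift a p = a p.z := rfl

lemma lift_add (a b : Al) : lift (a + b) = lift a + lift b := rfl

lemma lift_smul (c : ℂ) (a : Al) : lift (c • a) = c • lift a := rfl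

lemma lift_mul (a b : Al) : lift (a * b) = lift a * lift b := rfl

lemma lift_one : lift 1 = 1 := rfl

lemma norm_lift_le (a : Al) : ‖lift a‖ ≤ ‖a‖ :=
  (BoundedContinuousFunction.norm_le (norm_nonneg _)).2
    fun _ => ContinuousMap.norm_coe_le_norm a _

variable {N : ℕ}

/-- Zero extension of a point. -/
def emb (N : ℕ) (x : Pt N) : Cn := fun i => if h : i < N then x ⟨i, h⟩ else false

lemma emb_fin (x : Pt N) (i : Fin N) : emb N x i = x i := by simp [emb]

lemma emb_ge (x : Pt N) {i : ℕ} (hi : N ≤ i) : emb N x i = false := by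
  unfold emb
  rw [dif_neg (by omega)]

lemma emb_fin' (x : Pt N) : (fun i : Fin N => emb N x i) = x := funext fun i => emb_fin x i

/-- Restriction to a block. -/
def resX (N : ℕ) (ξ : Xf) : Pt N → ℂ := fun x => ξ ⟨N, emb N x⟩

/-- Restriction of a continuous function. -/
def rs (N : ℕ) (a : Al) : Pt N → ℂ := fun x => a (emb N x)

open Classical in
/-- Zero extension of a function on a block. -/
def exX (N : ℕ) (v : Pt N → ℂ) : Xf :=
  BoundedContinuousFunction.ofNormedAddCommGroupDiscrete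
    (fun p => if p.N = N ∧ ∀ i, N ≤ i → p.z i = false then v (fun i : Fin N => p.z i) else 0)
    (∑ x, ‖v x‖) (fun p => by
      split_ifs
      · exact single_le_sum (f := fun x => ‖v x‖) (fun x _ => norm_nonneg _) (mem_univ _)
      · rw [norm_zero]
        exact sum_nonneg fun x _ => norm_nonneg _)

open Classical in
lemma exX_apply (v : Pt N → ℂ) (p : Ix) : exX N v p =
    if p.N = N ∧ ∀ i, N ≤ i → p.z i = false then v (fun i : Fin N => p.z i) else 0 := rfl

lemma norm_exX_le {v : Pt N → ℂ} {C : ℝ} (hC : 0 ≤ C) (h : ∀ x, ‖v x‖ ≤ C) : ‖exX N v‖ ≤ C := by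
  classical
  rw [BoundedContinuousFunction.norm_le hC]
  intro p
  rw [exX_apply]
  split_ifs
  · exact h _
  · rw [norm_zero]
    exact hC

lemma exX_emb (v : Pt N → ℂ) (x : Pt N) : exX N v ⟨N, emb N x⟩ = v x := by
  classical
  rw [exX_apply, if_pos ⟨rfl, fun i hi => emb_ge x hi⟩]
  congr 1
  exact emb_fin' x

lemma norm_exX_ge (v : Pt N → ℂ) (x : Pt N) : ‖v x‖ ≤ ‖exX N v‖ := by
  rw [← exX_emb v x]
  exact BoundedContinuousFunction.norm_coe_le_norm (exX N v) ⟨N, emb N x⟩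

lemma emb_restrict {p : Ix} (h : p.N = N ∧ ∀ i, N ≤ i → p.z i = false) :
    (⟨N, emb N fun i : Fin N => p.z i⟩ : Ix) = p := by
  obtain ⟨M, z⟩ := p
  obtain ⟨h1, h2⟩ := h
  simp only at h1 h2
  subst h1
  congr 1
  funext i
  unfold emb
  split_ifs with h
  · rfl
  · exact (h2 i (by omega)).symm

lemma resX_exX (v : Pt N → ℂ) : resX N (exX N v) = v := funext fun x => exX_emb v x

lemma resX_lift (a : Al) : resX N (lift a) = rs N a := rfl

lemma resX_mul (ξ η : Xf) : resX N (ξ * η) = resX N ξ * resX N η := rfl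

lemma resX_add (ξ η : Xf) : resX N (ξ + η) = resX N ξ + resX N η := rfl

lemma resX_smul (c : ℂ) (ξ : Xf) : resX N (c • ξ) = c • resX N ξ := rfl

lemma norm_resX_le (ξ : Xf) (x : Pt N) : ‖resX N ξ x‖ ≤ ‖ξ‖ :=
  BoundedContinuousFunction.norm_coe_le_norm ξ _

lemma norm_rs_le (a : Al) (x : Pt N) : ‖rs N a x‖ ≤ ‖a‖ := ContinuousMap.norm_coe_le_norm a _

lemma rs_mul (a b : Al) : rs N (a * b) = rs N a * rs N b := rfl

lemma rs_one : rs N 1 = 1 := rfl

lemma rs_add (a b : Al) : rs N (a + b) = rs N a + rs N b := rfl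

lemma rs_smul (c : ℂ) (a : Al) : rs N (c • a) = c • rs N a := rfl

lemma exX_mul (v : Pt N → ℂ) (ξ : Xf) : exX N v * ξ = exX N (v * resX N ξ) := by
  classical
  ext p
  rw [BoundedContinuousFunction.coe_mul, Pi.mul_apply, exX_apply, exX_apply]
  split_ifs with h
  · rw [Pi.mul_apply]
    congr 1
    unfold resX
    rw [emb_restrict h]
  · rw [zero_mul]

lemma exX_add (v w : Pt N → ℂ) : exX N (v + w) = exX N v + exX N w := by
  classical
  ext p
  rw [BoundedContinuousFunction.coe_add, Pi.add_apply, exX_apply, exX_apply, exX_apply]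
  split_ifs
  · rfl
  · rw [add_zero]

lemma exX_smul (c : ℂ) (v : Pt N → ℂ) : exX N (c • v) = c • exX N v := by
  classical
  ext p
  show exX N (c • v) p = c • exX N v p
  rw [exX_apply, exX_apply]
  split_ifs
  · rfl
  · rw [smul_zero]

lemma exX_zero : exX N (0 : Pt N → ℂ) = 0 := by
  have := exX_smul (0 : ℂ) (0 : Pt N → ℂ)
  rw [zero_smul, zero_smul] at this
  exact this

lemma exX_sum {κ : Type*} (s : Finset κ) (v : κ → Pt N → ℂ) :
    exX N (∑ i ∈ s, v i) = ∑ i ∈ s, exX N (v i) := by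
  classical
  induction s using Finset.induction_on with
  | empty => rw [sum_empty, sum_empty, exX_zero]
  | insert j s hj ih => rw [sum_insert hj, sum_insert hj, exX_add, ih]

/-- The dual of the module. -/
def XD : Type := Xf →L[ℂ] ℂ

instance : NormedAddCommGroup XD := inferInstanceAs (NormedAddCommGroup (Xf →L[ℂ] ℂ))

instance : NormedSpace ℂ XD := inferInstanceAs (NormedSpace ℂ (Xf →L[ℂ] ℂ))

/-- Pairing of the module with its dual. -/
def pd (T : XD) (ξ : Xf) : ℂ := (show Xf →L[ℂ] ℂ from T) ξ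

lemma pd_norm_le (T : XD) (ξ : Xf) : ‖pd T ξ‖ ≤ ‖T‖ * ‖ξ‖ :=
  ContinuousLinearMap.le_opNorm (show Xf →L[ℂ] ℂ from T) ξ

lemma XD_norm_le {T : XD} {C : ℝ} (hC : 0 ≤ C) (h : ∀ ξ, ‖pd T ξ‖ ≤ C * ‖ξ‖) : ‖T‖ ≤ C :=
  ContinuousLinearMap.opNorm_le_bound (show Xf →L[ℂ] ℂ from T) hC h

lemma XD_ext {T T' : XD} (h : ∀ ξ, pd T ξ = pd T' ξ) : T = T' :=
  ContinuousLinearMap.ext (f := (show Xf →L[ℂ] ℂ from T)) h

/-- Functionals from functions. -/
def mkD (f : Xf → ℂ) (hadd : ∀ ξ η, f (ξ + η) = f ξ + f η) (hsmul : ∀ (c : ℂ) ξ, f (c • ξ) = c * f ξ)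
    (C : ℝ) (h : ∀ ξ, ‖f ξ‖ ≤ C * ‖ξ‖) : XD :=
  LinearMap.mkContinuous ({ toFun := f, map_add' := hadd, map_smul' := hsmul } : Xf →ₗ[ℂ] ℂ) C h

/-- Bounded multilinear forms. -/
def Vk (k : ℕ) : Type := ContinuousMultilinearMap ℂ (fun _ : Fin (k + 1) => Al) XD

instance (k : ℕ) : NormedAddCommGroup (Vk k) :=
  inferInstanceAs (NormedAddCommGroup
    (ContinuousMultilinearMap ℂ (fun _ : Fin (k + 1) => Al) XD))

instance (k : ℕ) : NormedSpace ℂ (Vk k) :=
  inferInstanceAs (NormedSpace ℂ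
    (ContinuousMultilinearMap ℂ (fun _ : Fin (k + 1) => Al) XD))

variable {k : ℕ}

/-- Evaluation. -/
def ev (Q : Vk k) (a : Fin (k + 1) → Al) (ξ : Xf) : ℂ :=
  pd ((show ContinuousMultilinearMap ℂ (fun _ : Fin (k + 1) => Al) XD from Q) a) ξ

lemma pd_add (T T' : XD) (ξ : Xf) : pd (T + T') ξ = pd T ξ + pd T' ξ := rfl

lemma pd_smul (c : ℂ) (T : XD) (ξ : Xf) : pd (c • T) ξ = c * pd T ξ := rfl

lemma ev_add (Q Q' : Vk k) (a ξ) : ev (Q + Q') a ξ = ev Q a ξ + ev Q' a ξ := rfl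

lemma ev_sub (Q Q' : Vk k) (a ξ) : ev (Q - Q') a ξ = ev Q a ξ - ev Q' a ξ := rfl

lemma ev_smul (c : ℂ) (Q : Vk k) (a ξ) : ev (c • Q) a ξ = c * ev Q a ξ := rfl

lemma ev_zero (a ξ) : ev (0 : Vk k) a ξ = 0 := rfl

lemma ev_sum {κ : Type*} (s : Finset κ) (Q : κ → Vk k) (a ξ) :
    ev (∑ i ∈ s, Q i) a ξ = ∑ i ∈ s, ev (Q i) a ξ := by
  classical
  induction s using Finset.induction_on with
  | empty => rfl
  | insert j s hj ih => rw [sum_insert hj, sum_insert hj, ev_add, ih]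

lemma ev_ext {Q Q' : Vk k} (h : ∀ a ξ, ev Q a ξ = ev Q' a ξ) : Q = Q' :=
  ContinuousMultilinearMap.ext fun a => XD_ext fun ξ => h a ξ

lemma ev_map_add (Q : Vk k) (a) (ξ η : Xf) : ev Q a (ξ + η) = ev Q a ξ + ev Q a η :=
  map_add (show Xf →L[ℂ] ℂ from
    (show ContinuousMultilinearMap ℂ (fun _ : Fin (k + 1) => Al) XD from Q) a) ξ η

lemma ev_map_smul (Q : Vk k) (a) (c : ℂ) (ξ : Xf) : ev Q a (c • ξ) = c * ev Q a ξ :=
  map_smul (show Xf →L[ℂ] ℂ from
    (show ContinuousMultilinearMap ℂ (fun _ : Fin (k + 1) => Al) XD from Q) a) c ξ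

lemma ev_map_zero (Q : Vk k) (a) : ev Q a 0 = 0 :=
  map_zero (show Xf →L[ℂ] ℂ from
    (show ContinuousMultilinearMap ℂ (fun _ : Fin (k + 1) => Al) XD from Q) a)

lemma ev_multilin (Q : Vk k) (ξ : Xf) : IsMultilin (fun a => ev Q a ξ) where
  map_add a i x y := by
    have h := ContinuousMultilinearMap.map_update_add
      (show ContinuousMultilinearMap ℂ (fun _ : Fin (k + 1) => Al) XD from Q) a i x y
    exact congrArg (fun f : XD => pd f ξ) h
  map_smul a i c x := by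
    have h := ContinuousMultilinearMap.map_update_smul
      (show ContinuousMultilinearMap ℂ (fun _ : Fin (k + 1) => Al) XD from Q) a i c x
    exact congrArg (fun f : XD => pd f ξ) h

lemma ev_norm_le (Q : Vk k) (a ξ) : ‖ev Q a ξ‖ ≤ ‖Q‖ * (∏ i, ‖a i‖) * ‖ξ‖ := by
  refine (pd_norm_le _ ξ).trans ?_
  exact mul_le_mul_of_nonneg_right (ContinuousMultilinearMap.le_opNorm
    (show ContinuousMultilinearMap ℂ (fun _ : Fin (k + 1) => Al) XD from Q) a)
    (norm_nonneg _)

lemma Vk_norm_le {Q : Vk k} {C : ℝ} (hC : 0 ≤ C)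
    (h : ∀ a ξ, ‖ev Q a ξ‖ ≤ C * (∏ i, ‖a i‖) * ‖ξ‖) : ‖Q‖ ≤ C :=
  ContinuousMultilinearMap.opNorm_le_bound hC fun a =>
    XD_norm_le (by positivity) fun ξ => h a ξ

/-- Bounded multilinear forms as functions. -/
structure IsForm (F : (Fin (k + 1) → Al) → Xf → ℂ) (C : ℝ) : Prop where
  multi : ∀ ξ, IsMultilin (fun a => F a ξ)
  add : ∀ a ξ η, F a (ξ + η) = F a ξ + F a η
  smul : ∀ a (c : ℂ) ξ, F a (c • ξ) = c * F a ξ
  nonneg : 0 ≤ C
  bound : ∀ a ξ, ‖F a ξ‖ ≤ C * (∏ i, ‖a i‖) * ‖ξ‖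

/-- The form of a function. -/
def mkV (F : (Fin (k + 1) → Al) → Xf → ℂ) {C : ℝ} (hF : IsForm F C) : Vk k :=
  MultilinearMap.mkContinuous
    { toFun := fun a => mkD (F a) (hF.add a) (hF.smul a) (C * ∏ i, ‖a i‖) (hF.bound a)
      map_update_add' := fun {inst} a i x y => XD_ext fun ξ => by
        have h := (hF.multi ξ).map_add a i x y
        have e : inst = instDecidableEqFin (k + 1) := Subsingleton.elim _ _
        subst e
        exact h
      map_update_smul' := fun {inst} a i c x => XD_ext fun ξ => by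
        have h := (hF.multi ξ).map_smul a i c x
        have e : inst = instDecidableEqFin (k + 1) := Subsingleton.elim _ _
        subst e
        exact h } C
    (fun a => XD_norm_le (mul_nonneg hF.nonneg (prod_nonneg fun i _ => norm_nonneg _))
      (hF.bound a))

lemma ev_mkV (F : (Fin (k + 1) → Al) → Xf → ℂ) {C : ℝ} (hF : IsForm F C) (a ξ) :
    ev (mkV F hF) a ξ = F a ξ := rfl

lemma norm_mkV_le (F : (Fin (k + 1) → Al) → Xf → ℂ) {C : ℝ} (hF : IsForm F C) :
    ‖mkV F hF‖ ≤ C := Vk_norm_le hF.nonneg hF.bound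

end

end Pool.Agent.Helper5.Dg
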