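import Mathlib
import Pool.Agent.Helper5.Dg.Forms

/-!
Operations on forms and the basic forms.
-/

namespace Pool.Agent.Helper5.Dg

open Finset Pool.Agent.Helper5.Sym
open scoped BigOperators ComplexConjugate

noncomputable section

variable {N k : ℕ}

lemma isMultilin_comp {A Z : Type*} [Ring A] [Algebra ℂ A] [AddCommGroup Z] [Module ℂ Z]
    {n n' : ℕ} {f : (Fin n → A) → Z} (hf : IsMultilin f) (Φ : (Fin n' → A) → Fin n → A)
    (h : ∀ (a : Fin n' → A) (i : Fin n'), ∃ (i' : Fin n) (φ : A →ₗ[ℂ] A),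
      ∀ z, Φ (Function.update a i z) = Function.update (Φ a) i' (φ z)) :
    IsMultilin (fun a => f (Φ a)) where
  map_add a i y z := by
    obtain ⟨i', φ, h⟩ := h a i
    rw [h, h, h, _root_.map_add, hf.map_add]
  map_smul a i c z := by
    obtain ⟨i', φ, h⟩ := h a i
    rw [h, h, _root_.map_smul, hf.map_smul]

/-- Multiply the first entry. -/
def lmF (u : Al) (a : Fin (k + 1) → Al) : Fin (k + 1) → Al := fun i =>
  if (i : ℕ) = 0 then u * a i else a i

/-- Multiply the first entry. -/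
def lmN (u : Al) (x : ℕ → Al) : ℕ → Al := fun i => if i = 0 then u * x i else x i

lemma lmF_res (u : Al) (x : ℕ → Al) : lmF u (res (k + 1) x) = res (k + 1) (lmN u x) := rfl

lemma multilin_lm (u : Al) {f : (Fin (k + 1) → Al) → ℂ} (hf : IsMultilin f) :
    IsMultilin (fun a => f (lmF u a)) := by
  refine isMultilin_comp hf (lmF u) fun a i => ?_
  by_cases hi : (i : ℕ) = 0
  · refine ⟨i, LinearMap.mulLeft ℂ u, fun z => ?_⟩
    funext j
    unfold lmF
    by_cases hj : j = i
    · subst hj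
      rw [Function.update_self, Function.update_self, if_pos hi]
      rfl
    · rw [Function.update_of_ne hj, Function.update_of_ne hj]
  · refine ⟨i, LinearMap.id, fun z => ?_⟩
    funext j
    unfold lmF
    by_cases hj : j = i
    · subst hj
      rw [Function.update_self, Function.update_self, if_neg hi]
      rfl
    · rw [Function.update_of_ne hj, Function.update_of_ne hj]

lemma prod_lmF_le (u : Al) (a : Fin (k + 1) → Al) : ∏ i, ‖lmF u a i‖ ≤ ‖u‖ * ∏ i, ‖a i‖ := by
  rw [Fin.prod_univ_succ, Fin.prod_univ_succ]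
  have h1 : lmF u a 0 = u * a 0 := by
    unfold lmF
    rw [if_pos (by simp)]
  have h2 : ∀ i : Fin k, lmF u a i.succ = a i.succ := by
    intro i
    unfold lmF
    rw [if_neg (by simp)]
  rw [h1, prod_congr rfl fun i _ => by rw [h2 i], ← mul_assoc]
  exact mul_le_mul_of_nonneg_right (norm_mul_le _ _) (prod_nonneg fun i _ => norm_nonneg _)

/-- Left multiplication on forms. -/
def lmul (u : Al) (Q : Vk k) : Vk k :=
  mkV (fun a ξ => ev Q (lmF u a) ξ) (C := ‖Q‖ * ‖u‖)
    { multi := fun ξ => multilin_lm u (ev_multilin Q ξ)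
      add := fun a ξ η => ev_map_add _ _ _ _
      smul := fun a c ξ => ev_map_smul _ _ _ _
      nonneg := by positivity
      bound := fun a ξ => by
        refine (ev_norm_le _ _ _).trans ?_
        refine mul_le_mul_of_nonneg_right ?_ (norm_nonneg _)
        rw [mul_assoc]
        exact mul_le_mul_of_nonneg_left (prod_lmF_le u a) (norm_nonneg _) }

lemma ev_lmul (u : Al) (Q : Vk k) (a ξ) : ev (lmul u Q) a ξ = ev Q (lmF u a) ξ := rfl

lemma norm_lmul_le (u : Al) (Q : Vk k) : ‖lmul u Q‖ ≤ ‖Q‖ * ‖u‖ := norm_mkV_le _ _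

/-- Right multiplication on forms. -/
def rmul (w : Xf) (Q : Vk k) : Vk k :=
  mkV (fun a ξ => ev Q a (w * ξ)) (C := ‖Q‖ * ‖w‖)
    { multi := fun ξ => ev_multilin Q _
      add := fun a ξ η => by rw [mul_add, ev_map_add]
      smul := fun a c ξ => by rw [mul_smul_comm, ev_map_smul]
      nonneg := by positivity
      bound := fun a ξ => by
        refine (ev_norm_le _ _ _).trans ?_
        have h1 : ‖w * ξ‖ ≤ ‖w‖ * ‖ξ‖ := norm_mul_le _ _
        have h2 : 0 ≤ ‖Q‖ * ∏ i, ‖a i‖ := by positivity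
        calc ‖Q‖ * (∏ i, ‖a i‖) * ‖w * ξ‖ ≤ ‖Q‖ * (∏ i, ‖a i‖) * (‖w‖ * ‖ξ‖) :=
              mul_le_mul_of_nonneg_left h1 h2
          _ = _ := by ring }

lemma ev_rmul (w : Xf) (Q : Vk k) (a ξ) : ev (rmul w Q) a ξ = ev Q a (w * ξ) := rfl

lemma norm_rmul_le (w : Xf) (Q : Vk k) : ‖rmul w Q‖ ≤ ‖Q‖ * ‖w‖ := norm_mkV_le _ _

lemma rmul_rmul (w w' : Xf) (Q : Vk k) : rmul w (rmul w' Q) = rmul (w' * w) Q :=
  ev_ext fun a ξ => by rw [ev_rmul, ev_rmul, ev_rmul, mul_assoc]

lemma rmul_add (w w' : Xf) (Q : Vk k) : rmul (w + w') Q = rmul w Q + rmul w' Q :=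
  ev_ext fun a ξ => by rw [ev_rmul, ev_add, ev_rmul, ev_rmul, add_mul, ev_map_add]

lemma rmul_smul (c : ℂ) (w : Xf) (Q : Vk k) : rmul (c • w) Q = c • rmul w Q :=
  ev_ext fun a ξ => by rw [ev_rmul, ev_smul, ev_rmul, smul_mul_assoc, ev_map_smul]

lemma rmul_map_add (w : Xf) (Q Q' : Vk k) : rmul w (Q + Q') = rmul w Q + rmul w Q' := rfl

lemma rmul_map_sub (w : Xf) (Q Q' : Vk k) : rmul w (Q - Q') = rmul w Q - rmul w Q' := rfl

lemma rmul_map_smul (w : Xf) (c : ℂ) (Q : Vk k) : rmul w (c • Q) = c • rmul w Q := rfl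

/-- Multiplicativity of merging for norms. -/
lemma prod_merge_norm_le (i : ℕ) (hi : i < k + 1) (a : Fin (k + 2) → Al) :
    ∏ j, ‖mergeAt i a j‖ ≤ ∏ j, ‖a j‖ := by
  obtain ⟨x, rfl⟩ := exists_res a
  rw [mergeAt_res]
  have e1 : ∏ j : Fin (k + 1), ‖res (k + 1) (mergeN i x) j‖ =
      ∏ j ∈ range (k + 1), ‖mergeN i x j‖ :=
    Fin.prod_univ_eq_prod_range (fun j => ‖mergeN i x j‖) (k + 1)
  have e2 : ∏ j : Fin (k + 2), ‖res (k + 2) x j‖ = ∏ j ∈ range (k + 2), ‖x j‖ :=
    Fin.prod_univ_eq_prod_range (fun j => ‖x j‖) (k + 2)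
  rw [e1, e2, ← prod_mergeN hi fun j => ‖x j‖]
  refine prod_le_prod (fun _ _ => norm_nonneg _) fun j _ => ?_
  rcases lt_trichotomy j i with h | h | h
  · rw [mergeN_lt _ h, mergeN_lt _ h]
  · subst h
    rw [mergeN_eq, mergeN_eq]
    exact norm_mul_le _ _
  · rw [mergeN_gt _ h, mergeN_gt _ h]

/-- The initial segment. -/
def ini (a : Fin (k + 1) → Al) : Fin k → Al := fun i => a i.castSucc

lemma ini_res (x : ℕ → Al) : ini (res (k + 1) x) = res k x := rfl

/-- The last entry. -/
def lst (a : Fin (k + 1) → Al) : Al := a (Fin.last k)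

lemma lst_res (x : ℕ → Al) : lst (res (k + 1) x) = x k := rfl

lemma lift_act_add (a : Al) (ξ η : Xf) : lift a * (ξ + η) = lift a * ξ + lift a * η := mul_add _ _ _

/-- The bar coboundary of a form. -/
def bst (R : Vk k) : Vk (k + 1) :=
  mkV (fun a ξ => ∑ i ∈ range (k + 1), (-1 : ℂ) ^ i * ev R (mergeAt i a) ξ +
      (-1 : ℂ) ^ (k + 1) * ev R (ini a) (lift (lst a) * ξ)) (C := (k + 2) * ‖R‖)
    { multi := fun ξ => by
        have h1 : IsMultilin fun a : Fin (k + 2) → Al =>
            ∑ i ∈ range (k + 1), (-1 : ℂ) ^ i • ev R (mergeAt i a) ξ :=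
          IsMultilin.sum_smul _ _ fun i hi => (ev_multilin R ξ).merge (mem_range.1 hi)
        have h2 : IsMultilin fun a : Fin (k + 2) → Al => ev R (ini a) (lift (lst a) * ξ) := by
          have key : ∀ (a : Fin (k + 2) → Al) (i : Fin (k + 2)), (∃ i' : Fin (k + 1),
              ∀ z, ini (Function.update a i z) = Function.update (ini a) i' z ∧
                lst (Function.update a i z) = lst a) ∨
              (∀ z, ini (Function.update a i z) = ini a ∧ lst (Function.update a i z) = z) := by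
            intro a i
            refine Fin.lastCases (Or.inr fun z => ⟨?_, ?_⟩) (fun i' => Or.inl ⟨i', fun z =>
              ⟨?_, ?_⟩⟩) i
            · funext j
              unfold ini
              rw [Function.update_of_ne (Fin.castSucc_ne_last j)]
            · unfold lst
              rw [Function.update_self]
            · funext j
              unfold ini
              by_cases hj : j = i'
              · subst hj
                rw [Function.update_self, Function.update_self]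
              · rw [Function.update_of_ne hj, Function.update_of_ne]
                intro h
                exact hj (Fin.castSucc_injective _ h)
            · unfold lst
              rw [Function.update_of_ne (Fin.castSucc_ne_last i').symm]
          constructor
          · intro a i y z
            rcases key a i with ⟨i', h⟩ | h
            · simp only [(h _).1, (h _).2]
              exact (ev_multilin R _).map_add _ _ _ _
            · simp only [(h _).1, (h _).2]
              rw [lift_add, add_mul, ev_map_add]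
          · intro a i c z
            rcases key a i with ⟨i', h⟩ | h
            · simp only [(h _).1, (h _).2]
              exact (ev_multilin R _).map_smul _ _ _ _
            · simp only [(h _).1, (h _).2]
              rw [lift_smul, smul_mul_assoc, ev_map_smul, smul_eq_mul]
        constructor
        · intro a i y z
          have e1 := h1.map_add a i y z
          have e2 := h2.map_add a i y z
          simp only [smul_eq_mul] at e1
          rw [e1, e2]
          ring
        · intro a i c z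
          have e1 := h1.map_smul a i c z
          have e2 := h2.map_smul a i c z
          simp only [smul_eq_mul] at e1 e2 ⊢
          rw [e1, e2]
          ring
      add := fun a ξ η => by
        simp only [ev_map_add, mul_add, sum_add_distrib]
        ring
      smul := fun a c ξ => by
        have h1 : lift (lst a) * (c • ξ) = c • (lift (lst a) * ξ) := mul_smul_comm _ _ _
        rw [h1, ev_map_smul, mul_add, mul_sum]
        congr 1
        · refine sum_congr rfl fun i _ => ?_
          rw [ev_map_smul]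
          ring
        · ring
      nonneg := by positivity
      bound := fun a ξ => by
        have hP : 0 ≤ ∏ i, ‖a i‖ := prod_nonneg fun i _ => norm_nonneg _
        have b1 : ∀ i ∈ range (k + 1), ‖(-1 : ℂ) ^ i * ev R (mergeAt i a) ξ‖ ≤
            ‖R‖ * (∏ i, ‖a i‖) * ‖ξ‖ := by
          intro i hi
          rw [norm_mul, norm_pow, norm_neg, norm_one, one_pow, one_mul]
          refine (ev_norm_le _ _ _).trans ?_
          exact mul_le_mul_of_nonneg_right (mul_le_mul_of_nonneg_left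
            (prod_merge_norm_le i (mem_range.1 hi) a) (norm_nonneg _)) (norm_nonneg _)
        have b2 : ‖(-1 : ℂ) ^ (k + 1) * ev R (ini a) (lift (lst a) * ξ)‖ ≤
            ‖R‖ * (∏ i, ‖a i‖) * ‖ξ‖ := by
          rw [norm_mul, norm_pow, norm_neg, norm_one, one_pow, one_mul]
          refine (ev_norm_le _ _ _).trans ?_
          have h1 : ‖lift (lst a) * ξ‖ ≤ ‖lst a‖ * ‖ξ‖ :=
            (norm_mul_le _ _).trans (mul_le_mul_of_nonneg_right (norm_lift_le _)
              (norm_nonneg _))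
          have h2 : 0 ≤ ‖R‖ * ∏ i, ‖ini a i‖ := by positivity
          have h3 : ∏ i : Fin (k + 2), ‖a i‖ = (∏ i, ‖ini a i‖) * ‖lst a‖ :=
            Fin.prod_univ_castSucc _
          calc ‖R‖ * (∏ i, ‖ini a i‖) * ‖lift (lst a) * ξ‖
              ≤ ‖R‖ * (∏ i, ‖ini a i‖) * (‖lst a‖ * ‖ξ‖) := mul_le_mul_of_nonneg_left h1 h2
            _ = _ := by rw [h3]; ring
        refine (norm_add_le _ _).trans ((add_le_add ((norm_sum_le _ _).trans
          (sum_le_sum b1)) b2).trans ?_)
        rw [sum_const, card_range, nsmul_eq_mul]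
        push_cast
        exact le_of_eq (by ring) }

lemma ev_bst (R : Vk k) (a ξ) : ev (bst R) a ξ =
    ∑ i ∈ range (k + 1), (-1 : ℂ) ^ i * ev R (mergeAt i a) ξ +
      (-1 : ℂ) ^ (k + 1) * ev R (ini a) (lift (lst a) * ξ) := rfl

lemma rmul_bst (w : Xf) (R : Vk k) : rmul w (bst R) = bst (rmul w R) := by
  refine ev_ext fun a ξ => ?_
  rw [ev_rmul, ev_bst, ev_bst]
  congr 1
  rw [ev_rmul, mul_left_comm]

/-- Norm bounds from the unit balls. -/
lemma Vk_norm_le_of_unit {Q : Vk k} {C : ℝ} (hC : 0 ≤ C)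
    (h : ∀ a ξ, (∀ i, ‖a i‖ ≤ 1) → ‖ξ‖ ≤ 1 → ‖ev Q a ξ‖ ≤ C) : ‖Q‖ ≤ C := by
  have key : ∀ (a : Fin (k + 1) → Al) (ξ : Xf) (r : Fin (k + 1) → ℝ) (s : ℝ),
      (∀ i, 0 < r i) → 0 < s → (∀ i, ‖a i‖ ≤ r i) → ‖ξ‖ ≤ s →
      ‖ev Q a ξ‖ ≤ C * (∏ i, r i) * s := by
    intro a ξ r s hr hs ha hξ
    have e1 : a = fun i => ((r i : ℝ) : ℂ) • (((r i : ℝ) : ℂ)⁻¹ • a i) := by
      funext i
      rw [smul_smul, mul_inv_cancel₀, one_smul]
      exact_mod_cast (hr i).ne'
    have e2 : ξ = (s : ℂ) • ((s : ℂ)⁻¹ • ξ) := by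
      rw [smul_smul, mul_inv_cancel₀, one_smul]
      exact_mod_cast hs.ne'
    have e3 : ev Q a ξ = (∏ i, ((r i : ℝ) : ℂ)) *
        ((s : ℂ) * ev Q (fun i => ((r i : ℝ) : ℂ)⁻¹ • a i) ((s : ℂ)⁻¹ • ξ)) := by
      conv_lhs => rw [e1, e2]
      rw [ev_map_smul]
      have h4 := ContinuousMultilinearMap.map_smul_univ
        (show ContinuousMultilinearMap ℂ (fun _ : Fin (k + 1) => Al) XD from Q)
        (fun i => ((r i : ℝ) : ℂ)) (fun i => ((r i : ℝ) : ℂ)⁻¹ • a i)
      have h5 : ev Q (fun i => ((r i : ℝ) : ℂ) • (((r i : ℝ) : ℂ)⁻¹ • a i)) ((s : ℂ)⁻¹ • ξ) =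
          (∏ i, ((r i : ℝ) : ℂ)) * ev Q (fun i => ((r i : ℝ) : ℂ)⁻¹ • a i) ((s : ℂ)⁻¹ • ξ) :=
        congrArg (fun f : XD => pd f ((s : ℂ)⁻¹ • ξ)) h4
      rw [h5]
      ring
    have hP : 0 ≤ ∏ i, r i := prod_nonneg fun i _ => (hr i).le
    rw [e3, norm_mul, norm_mul, norm_prod]
    have e4 : ∏ i, ‖((r i : ℝ) : ℂ)‖ = ∏ i, r i := prod_congr rfl fun i _ => by
      rw [Complex.norm_real, Real.norm_of_nonneg (hr i).le]
    have e5 : ‖(s : ℂ)‖ = s := by rw [Complex.norm_real, Real.norm_of_nonneg hs.le]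
    rw [e4, e5]
    have h6 : ‖ev Q (fun i => ((r i : ℝ) : ℂ)⁻¹ • a i) ((s : ℂ)⁻¹ • ξ)‖ ≤ C := by
      refine h _ _ (fun i => ?_) ?_
      · rw [norm_smul, norm_inv, Complex.norm_real, Real.norm_of_nonneg (hr i).le,
          inv_mul_le_iff₀ (hr i), mul_one]
        exact ha i
      · rw [norm_smul, norm_inv, Complex.norm_real, Real.norm_of_nonneg hs.le,
          inv_mul_le_iff₀ hs, mul_one]
        exact hξ
    calc (∏ i, r i) * (s * ‖ev Q (fun i => ((r i : ℝ) : ℂ)⁻¹ • a i) ((s : ℂ)⁻¹ • ξ)‖)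
        ≤ (∏ i, r i) * (s * C) := by gcongr
      _ = _ := by ring
  refine Vk_norm_le hC fun a ξ => ?_
  have hlim : Filter.Tendsto (fun t : ℝ => C * (∏ i, (‖a i‖ + t)) * (‖ξ‖ + t))
      (nhdsWithin 0 (Set.Ioi 0)) (nhds (C * (∏ i, (‖a i‖ + 0)) * (‖ξ‖ + 0))) := by
    refine (Continuous.tendsto ?_ 0).mono_left nhdsWithin_le_nhds
    fun_prop
  simp only [add_zero] at hlim
  refine ge_of_tendsto hlim ?_
  filter_upwards [self_mem_nhdsWithin] with t ht
  rw [Set.mem_Ioi] at ht
  refine key a ξ _ _ (fun i => ?_) ?_ (fun i => ?_) ?_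
  · have := norm_nonneg (a i); linarith
  · have := norm_nonneg ξ; linarith
  · linarith
  · linarith

end

end Pool.Agent.Helper5.Dg
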