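import Mathlib
import Pool.Agent.Helper5.Dg.Ops

/-!
The basic forms.
-/

namespace Pool.Agent.Helper5.Dg

open Finset Pool.Agent.Helper5.Sym
open scoped BigOperators ComplexConjugate

noncomputable section

variable {N k : ℕ}

lemma Rc_congr {k : ℕ} {f f' : ℕ → Pt N → ℂ} {n n' : ℕ → ℕ} (ξ : Pt N → ℂ)
    (hf : ∀ i < k, f i = f' i) (hn : ∀ i < k, n i = n' i) : Rc k f n ξ = Rc k f' n' ξ := by
  induction k generalizing f f' n n' with
  | zero => rfl
  | succ k ih =>
    rw [Rc_succ, Rc_succ, hf 0 (by omega), hn 0 (by omega),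
      ih (fun i hi => hf (i + 1) (by omega)) fun i hi => hn (i + 1) (by omega)]

lemma Rc_add (k : ℕ) (f : ℕ → Pt N → ℂ) (n : ℕ → ℕ) (ξ η : Pt N → ℂ) :
    Rc k f n (ξ + η) = Rc k f n ξ + Rc k f n η := by
  induction k generalizing f n with
  | zero => rfl
  | succ k ih => rw [Rc_succ, ih, ce_add, mul_add, Rc_succ, Rc_succ]

lemma Rc_smul (k : ℕ) (f : ℕ → Pt N → ℂ) (n : ℕ → ℕ) (c : ℂ) (ξ : Pt N → ℂ) :
    Rc k f n (c • ξ) = c • Rc k f n ξ := by
  induction k generalizing f n with
  | zero => rfl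
  | succ k ih => rw [Rc_succ, ih, ce_smul, mul_smul_comm, Rc_succ]

lemma Rc_sum (k : ℕ) (f : ℕ → Pt N → ℂ) (n : ℕ → ℕ) {κ : Type*} (s : Finset κ)
    (ξ : κ → Pt N → ℂ) : Rc k f n (∑ i ∈ s, ξ i) = ∑ i ∈ s, Rc k f n (ξ i) := by
  classical
  induction s using Finset.induction_on with
  | empty =>
    rw [sum_empty, sum_empty]
    have := Rc_smul k f n 0 0
    rw [zero_smul, zero_smul] at this
    exact this
  | insert j s hj ih => rw [sum_insert hj, sum_insert hj, Rc_add, ih]

lemma tail_update (f : ℕ → Pt N → ℂ) (i : ℕ) (g : Pt N → ℂ) :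
    (fun j => Function.update f (i + 1) g (j + 1)) =
      Function.update (fun j => f (j + 1)) i g := by
  funext j
  by_cases h : j = i
  · subst h
    rw [Function.update_self, Function.update_self]
  · rw [Function.update_of_ne h, Function.update_of_ne (by omega)]

lemma Rc_update_add {k : ℕ} (f : ℕ → Pt N → ℂ) (n : ℕ → ℕ) (ξ : Pt N → ℂ) {i : ℕ} (hi : i < k)
    (u v : Pt N → ℂ) : Rc k (Function.update f i (u + v)) n ξ =
      Rc k (Function.update f i u) n ξ + Rc k (Function.update f i v) n ξ := by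
  induction k generalizing f n i with
  | zero => omega
  | succ k ih =>
    cases i with
    | zero =>
      simp only [Rc_succ, Function.update_self]
      have : ∀ w : Pt N → ℂ, (fun j => Function.update f 0 w (j + 1)) = fun j => f (j + 1) :=
        fun w => funext fun j => Function.update_of_ne (by omega) _ _
      simp only [this]
      rw [add_mul]
    | succ i =>
      simp only [Rc_succ]
      rw [tail_update, tail_update, tail_update, ih _ _ (by omega), ce_add,
        Function.update_of_ne (by omega), Function.update_of_ne (by omega),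
        Function.update_of_ne (by omega), mul_add]

lemma Rc_update_smul {k : ℕ} (f : ℕ → Pt N → ℂ) (n : ℕ → ℕ) (ξ : Pt N → ℂ) {i : ℕ} (hi : i < k)
    (c : ℂ) (u : Pt N → ℂ) : Rc k (Function.update f i (c • u)) n ξ =
      c • Rc k (Function.update f i u) n ξ := by
  induction k generalizing f n i with
  | zero => omega
  | succ k ih =>
    cases i with
    | zero =>
      simp only [Rc_succ, Function.update_self]
      have : ∀ w : Pt N → ℂ, (fun j => Function.update f 0 w (j + 1)) = fun j => f (j + 1) :=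
        fun w => funext fun j => Function.update_of_ne (by omega) _ _
      simp only [this]
      rw [smul_mul_assoc]
    | succ i =>
      simp only [Rc_succ]
      rw [tail_update, tail_update, ih _ _ (by omega), ce_smul,
        Function.update_of_ne (by omega), Function.update_of_ne (by omega), mul_smul_comm]

/-- Recursion from the right. -/
lemma Rc_succ' (k : ℕ) (f : ℕ → Pt N → ℂ) (n : ℕ → ℕ) (ξ : Pt N → ℂ) :
    Rc (k + 1) f n ξ = Rc k f n (f k * ce (n k) ξ) := by
  induction k generalizing f n with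
  | zero => rfl
  | succ k ih =>
    rw [Rc_succ, ih]
    rfl

/-- Extend a finite tuple. -/
def ex (a : Fin (k + 1) → Al) : ℕ → Al := fun i => if h : i < k + 1 then a ⟨i, h⟩ else 1

lemma ex_res (x : ℕ → Al) {i : ℕ} (h : i < k + 1) : ex (res (k + 1) x) i = x i := by
  unfold ex
  rw [dif_pos h]
  rfl

lemma ex_update (a : Fin (k + 1) → Al) (i : Fin (k + 1)) (z : Al) :
    (fun j => rs N (ex (Function.update a i z) j)) =
      Function.update (fun j => rs N (ex a j)) i (rs N z) := by
  funext j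
  by_cases h : j = i
  · subst h
    rw [Function.update_self]
    unfold ex
    rw [dif_pos i.2, Function.update_self]
  · rw [Function.update_of_ne h]
    unfold ex
    split_ifs with h'
    · rw [Function.update_of_ne]
      intro h''
      rw [← h''] at h
      exact h rfl
    · rfl

lemma prod_ex (a : Fin (k + 1) → Al) : ∏ i ∈ range (k + 1), ‖ex a i‖ = ∏ i, ‖a i‖ := by
  rw [← Fin.prod_univ_eq_prod_range (fun i => ‖ex a i‖)]
  refine prod_congr rfl fun i _ => ?_
  unfold ex
  rw [dif_pos i.2]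

/-- The basic forms. -/
def QN (k N : ℕ) (n : ℕ → ℕ) : Vk k :=
  mkV (fun a ξ => 𝔼 x, Rc (k + 1) (fun i => rs N (ex a i)) n (resX N ξ) x) (C := 1)
    { multi := fun ξ =>
        { map_add := fun a i y z => by
            rw [ex_update, ex_update, ex_update, rs_add, Rc_update_add _ _ _ i.2,
              ← expect_add_distrib]
            rfl
          map_smul := fun a i c z => by
            rw [ex_update, ex_update, rs_smul, Rc_update_smul _ _ _ i.2, smul_eq_mul,
              mul_expect]
            rfl }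
      add := fun a ξ η => by
        rw [resX_add, Rc_add, ← expect_add_distrib]
        rfl
      smul := fun a c ξ => by
        rw [resX_smul, Rc_smul, mul_expect]
        rfl
      nonneg := zero_le_one
      bound := fun a ξ => by
        refine norm_expect_le' fun x => ?_
        rw [one_mul, ← prod_ex a]
        exact norm_Rc_le (a := fun i => ‖ex a i‖) (fun i x => norm_rs_le _ x)
          (norm_resX_le ξ) x }

lemma ev_QN (N : ℕ) (n : ℕ → ℕ) (a ξ) : ev (QN k N n) a ξ =
    𝔼 x, Rc (k + 1) (fun i => rs N (ex a i)) n (resX N ξ) x := rfl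

lemma ev_QN_res (N : ℕ) (n : ℕ → ℕ) (x : ℕ → Al) (ξ : Xf) :
    ev (QN k N n) (res (k + 1) x) ξ =
      𝔼 p, Rc (k + 1) (fun i => rs N (x i)) n (resX N ξ) p := by
  rw [ev_QN, Rc_congr (f' := fun i => rs N (x i)) (n' := n) _ (fun i hi => by rw [ex_res x hi])
    fun _ _ => rfl]

lemma norm_QN_le (N : ℕ) (n : ℕ → ℕ) : ‖QN k N n‖ ≤ 1 := norm_mkV_le _ _

lemma QN_congr {n n' : ℕ → ℕ} (h : ∀ i < k + 1, n i = n' i) : QN k N n = QN k N n' :=
  ev_ext fun a ξ => by
    rw [ev_QN, ev_QN, Rc_congr _ (fun _ _ => rfl) h]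

lemma Rc_ins {k : ℕ} (f : ℕ → Pt N → ℂ) (m : ℕ → ℕ) (ξ : Pt N → ℂ) {i : ℕ} (hi : i < k) :
    Rc (k + 1) f (insN i N m) ξ = Rc k (mergeN i f) m ξ := by
  induction k generalizing f m i with
  | zero => omega
  | succ k ih =>
    cases i with
    | zero =>
      rw [Rc_succ, insN_eq, ce_of_ge le_rfl]
      have e1 : (fun j => insN 0 N m (j + 1)) = m := by
        funext j
        rw [insN_gt _ _ (by omega), Nat.add_sub_cancel]
      rw [e1, Rc_succ, Rc_succ, mergeN_eq, ← mul_assoc]
      congr 3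
    | succ i =>
      rw [Rc_succ, insN_lt _ _ (by omega)]
      have e1 : (fun j => insN (i + 1) N m (j + 1)) = insN i N fun j => m (j + 1) := by
        funext j
        rcases lt_trichotomy j i with h | h | h
        · rw [insN_lt _ _ (by omega), insN_lt _ _ h]
        · subst h
          rw [insN_eq, insN_eq]
        · rw [insN_gt _ _ (by omega), insN_gt _ _ h]
          have : j + 1 - 1 = j - 1 + 1 := by omega
          rw [this]
      rw [e1, ih _ _ (by omega), Rc_succ, mergeN_lt _ (by omega)]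
      congr 3
      funext j
      rcases lt_trichotomy j i with h | h | h
      · rw [mergeN_lt _ h, mergeN_lt _ (by omega)]
      · subst h
        rw [mergeN_eq, mergeN_eq]
      · rw [mergeN_gt _ h, mergeN_gt _ (by omega)]

lemma Rc_ins_last (k : ℕ) (f : ℕ → Pt N → ℂ) (m : ℕ → ℕ) (ξ : Pt N → ℂ) :
    Rc (k + 1) f (insN k N m) ξ = Rc k f m (f k * ξ) := by
  rw [Rc_succ', insN_eq, ce_of_ge le_rfl]
  exact Rc_congr _ (fun _ _ => rfl) fun i hi => insN_lt _ _ hi

lemma bst_QN (N : ℕ) (m : ℕ → ℕ) :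
    bst (QN k N m) = ∑ i ∈ range (k + 2), (-1 : ℂ) ^ i • QN (k + 1) N (insN i N m) := by
  refine ev_ext fun a ξ => ?_
  obtain ⟨x, rfl⟩ := exists_res a
  rw [ev_sum, ev_bst, sum_range_succ _ (k + 1)]
  congr 1
  · refine sum_congr rfl fun i hi => ?_
    rw [ev_smul, ev_QN_res, mergeAt_res, ev_QN_res, Rc_ins _ _ _ (mem_range.1 hi)]
    congr 1
    refine expect_congr rfl fun p _ => ?_
    congr 1
    funext j
    rcases lt_trichotomy j i with h | h | h
    · rw [mergeN_lt _ h, mergeN_lt _ h]
    · subst h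
      rw [mergeN_eq, mergeN_eq, rs_mul]
    · rw [mergeN_gt _ h, mergeN_gt _ h]
  · rw [ev_smul, ev_QN_res, ini_res, lst_res, ev_QN_res, Rc_ins_last, resX_mul, resX_lift]

/-- The real version of the swap. -/
lemma expect_swpR (n : ℕ) (g : Pt N → Pt N → ℝ) :
    𝔼 x, 𝔼 y, g (mix n x y) (mix n y x) = 𝔼 x, 𝔼 y, g x y := by
  have h1 : ∀ g : Pt N → Pt N → ℝ, 𝔼 x, 𝔼 y, g x y = 𝔼 p : Pt N × Pt N, g p.1 p.2 := by
    intro g
    rw [← univ_product_univ]
    exact (expect_product' univ univ g).symm
  rw [h1 g, h1 fun x y => g (mix n x y) (mix n y x)]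
  exact Fintype.expect_equiv (swp n) _ _ fun p => rfl

/-- Domination of a chain by one conditional expectation. -/
lemma Rc_dom (k : ℕ) {f : ℕ → Pt N → ℂ} (hf : ∀ i x, ‖f i x‖ ≤ 1) (n : ℕ → ℕ) :
    ∃ M : ℕ, (∀ i < k, M ≤ n i) ∧ ∀ (ζ : Pt N → ℂ) (ψ : Pt N → ℝ), (∀ x, ‖ζ x‖ ≤ ψ x) →
      ∀ x, ‖Rc k f n ζ x‖ ≤ 𝔼 y, ψ (mix M x y) := by
  induction k generalizing f n with
  | zero =>
    refine ⟨N, fun i hi => by omega, fun ζ ψ h x => ?_⟩
    have : ∀ y : Pt N, ψ (mix N x y) = ψ x := fun y => by rw [mix_of_ge le_rfl]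
    rw [expect_congr rfl fun y _ => this y, Fintype.expect_const]
    exact h x
  | succ k ih =>
    obtain ⟨M, h1, h2⟩ := ih (f := fun i => f (i + 1)) (fun i x => hf _ x) fun i => n (i + 1)
    refine ⟨min (n 0) M, fun i hi => ?_, fun ζ ψ h x => ?_⟩
    · cases i with
      | zero => exact min_le_left _ _
      | succ i => exact (min_le_right _ _).trans (h1 i (by omega))
    · rw [Rc_succ, Pi.mul_apply, norm_mul]
      have h3 := h2 ζ ψ h
      have h4 : ‖ce (n 0) (Rc k (fun i => f (i + 1)) (fun i => n (i + 1)) ζ) x‖ ≤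
          𝔼 y, 𝔼 z, ψ (mix M (mix (n 0) x y) z) := by
        refine (RCLike.norm_expect_le (K := ℂ)).trans ?_
        exact expect_le_expect fun y _ => h3 _
      refine (mul_le_of_le_one_left (norm_nonneg _) (hf 0 x)).trans (h4.trans (le_of_eq ?_))
      rcases le_total M (n 0) with hle | hle
      · rw [min_eq_right hle]
        simp only [mix_mix_of_le hle]
        exact Fintype.expect_const _
      · rw [min_eq_left hle]
        simp only [mix_mix_of_ge hle]
        rw [expect_swpR M (fun y _ => ψ (mix (n 0) x y))]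
        exact expect_congr rfl fun y _ => Fintype.expect_const _

/-- Agreement of the first `l` coordinates. -/
lemma count_agree (M l : ℕ) (hl : l ≤ N) (x : Pt N) :
    𝔼 y : Pt N, (if ∀ i : Fin N, (i : ℕ) < l → mix M x y i = x i then (1 : ℝ) else 0) =
      (1 / 2 : ℝ) ^ (l - M) := by
  have h1 : ∀ y : Pt N, (if ∀ i : Fin N, (i : ℕ) < l → mix M x y i = x i then (1 : ℝ) else 0) =
      ∏ i : Fin N, (if M ≤ (i : ℕ) ∧ (i : ℕ) < l ∧ y i ≠ x i then (0 : ℝ) else 1) := by
    intro y
    split_ifs with h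
    · refine (prod_eq_one fun i _ => ?_).symm
      rw [if_neg]
      rintro ⟨h2, h3, h4⟩
      have := h i h3
      unfold mix at this
      rw [if_neg (by omega)] at this
      exact h4 this
    · push Not at h
      obtain ⟨i, hi, hne⟩ := h
      refine (prod_eq_zero (mem_univ i) ?_).symm
      unfold mix at hne
      split_ifs at hne with h5
      · exact absurd rfl hne
      · rw [if_pos ⟨by omega, hi, hne⟩]
  rw [expect_congr rfl fun y _ => h1 y, Fintype.expect_eq_sum_div_card]
  have h2 := (Finset.prod_univ_sum (fun _ : Fin N => (univ : Finset Bool))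
    (fun i b => if M ≤ (i : ℕ) ∧ (i : ℕ) < l ∧ b ≠ x i then (0 : ℝ) else 1)).symm
  rw [Fintype.piFinset_univ] at h2
  rw [h2]
  have h3 : ∀ i : Fin N, ∑ b : Bool, (if M ≤ (i : ℕ) ∧ (i : ℕ) < l ∧ b ≠ x i then (0 : ℝ) else 1) =
      2 * (if M ≤ (i : ℕ) ∧ (i : ℕ) < l then (1 / 2 : ℝ) else 1) := by
    intro i
    rw [Fintype.sum_bool]
    by_cases h : M ≤ (i : ℕ) ∧ (i : ℕ) < l
    · rw [if_pos h]
      cases x i
      · rw [if_pos ⟨h.1, h.2, by simp⟩, if_neg (by simp)]
        norm_num
      · rw [if_neg (by simp), if_pos ⟨h.1, h.2, by simp⟩]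
        norm_num
    · rw [if_neg h, if_neg (fun h' => h ⟨h'.1, h'.2.1⟩), if_neg (fun h' => h ⟨h'.1, h'.2.1⟩)]
      norm_num
  rw [prod_congr rfl fun i _ => h3 i, prod_mul_distrib, prod_const, card_univ, Fintype.card_fin]
  have h4 : ∏ i : Fin N, (if M ≤ (i : ℕ) ∧ (i : ℕ) < l then (1 / 2 : ℝ) else 1) =
      (1 / 2 : ℝ) ^ (l - M) := by
    rw [Fin.prod_univ_eq_prod_range (fun i => if M ≤ i ∧ i < l then (1 / 2 : ℝ) else 1),
      ← prod_filter, prod_const]
    congr 1
    have : (range N).filter (fun i => M ≤ i ∧ i < l) = Ico M l := by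
      ext i
      simp only [mem_filter, mem_range, mem_Ico]
      omega
    rw [this, Nat.card_Ico]
  rw [h4, Fintype.card_fun, Fintype.card_fin, Fintype.card_bool]
  push_cast
  rw [mul_div_assoc, mul_comm, div_mul_cancel₀]
  exact pow_ne_zero _ two_ne_zero

end

end Pool.Agent.Helper5.Dg
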