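import Mathlib
import Pool.Agent.Helper5.Dg.QN

/-!
Averages of the basic forms over characters.
-/

namespace Pool.Agent.Helper5.Dg

open Finset Pool.Agent.Helper5.Sym
open scoped BigOperators ComplexConjugate

noncomputable section

variable {N k : ℕ}

/-- Average over simultaneous modulation. -/
def QD (l : ℕ) (Q : Vk k) : Vk k :=
  ((2 : ℂ) ^ l)⁻¹ • ∑ W ∈ (range l).powerset, lmul (ch W) (rmul (lift (ch W)) Q)

lemma Av_eq_sum (l : ℕ) (φ : Al → ℂ) :
    Av l φ = ((2 : ℂ) ^ l)⁻¹ * ∑ W ∈ (range l).powerset, φ (ch W) := by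
  rw [Av_apply, expect_eq_sum_div_card, card_powerset, card_range]
  push_cast
  rw [div_eq_inv_mul]

lemma ev_QD (l : ℕ) (Q : Vk k) (x : ℕ → Al) (ξ : Xf) : ev (QD l Q) (res (k + 1) x) ξ =
    Av l fun w => ev Q (res (k + 1) (lmN w x)) (lift w * ξ) := by
  unfold QD
  rw [ev_smul, ev_sum, Av_eq_sum]
  rfl

lemma Rc_lmN (w : Al) (x : ℕ → Al) (n : ℕ → ℕ) (η : Pt N → ℂ) :
    Rc (k + 1) (fun i => rs N (lmN w x i)) n η =
      rs N w * Rc (k + 1) (fun i => rs N (x i)) n η := by
  rw [Rc_succ, Rc_succ]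
  have h1 : lmN w x 0 = w * x 0 := by
    unfold lmN
    rw [if_pos rfl]
  have h2 : (fun i => rs N (lmN w x (i + 1))) = fun i => rs N (x (i + 1)) := by
    funext i
    unfold lmN
    rw [if_neg (by omega)]
  rw [h1, h2, rs_mul, mul_assoc]

lemma agree_iff {l : ℕ} (hl : l ≤ N) (p q : Pt N) :
    (∀ i < l, emb N p i = emb N q i) ↔ ∀ i : Fin N, (i : ℕ) < l → q i = p i := by
  constructor
  · intro h i hi
    have := h i hi
    rw [emb_fin, emb_fin] at this
    exact this.symm
  · intro h i hi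
    have := h ⟨i, by omega⟩ hi
    have e1 : emb N p i = p ⟨i, by omega⟩ := emb_fin p ⟨i, by omega⟩
    have e2 : emb N q i = q ⟨i, by omega⟩ := emb_fin q ⟨i, by omega⟩
    rw [e1, e2, this]

lemma norm_QD_QN_le {l : ℕ} (hl : l ≤ N) (n : ℕ → ℕ) {i : ℕ} (hi : i < k + 1) :
    ‖QD l (QN k N n)‖ ≤ (1 / 2 : ℝ) ^ (l - n i) := by
  refine Vk_norm_le_of_unit (by positivity) fun a ξ ha hξ => ?_
  have hax : a = res (k + 1) (ex a) := by
    funext j
    unfold res ex
    rw [dif_pos j.2]
  set x := ex a with hx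
  have hx1 : ∀ j, ‖x j‖ ≤ 1 := by
    intro j
    rw [hx]
    unfold ex
    split_ifs
    · exact ha _
    · rw [norm_one]
  rw [hax, ev_QD]
  set f : ℕ → Pt N → ℂ := fun i => rs N (x i) with hf
  have hf1 : ∀ i p, ‖f i p‖ ≤ 1 := fun i p => (norm_rs_le _ p).trans (hx1 i)
  set η : Pt N → ℂ := resX N ξ with hη
  have hη1 : ∀ p, ‖η p‖ ≤ 1 := fun p => (norm_resX_le ξ p).trans hξ
  have e1 : (fun w => ev (QN k N n) (res (k + 1) (lmN w x)) (lift w * ξ)) =
      fun w => 𝔼 p, rs N w p * Rc (k + 1) f n (rs N w * η) p := by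
    funext w
    rw [ev_QN_res, Rc_lmN, resX_mul, resX_lift]
    rfl
  have e2 : Av l (fun w => 𝔼 p, rs N w p * Rc (k + 1) f n (rs N w * η) p) =
      𝔼 p, Av l fun w => rs N w p * Rc (k + 1) f n (rs N w * η) p := by
    rw [Av_apply]
    exact expect_comm _ _ _
  have e3 : ∀ p : Pt N, (Av l fun w => rs N w p * Rc (k + 1) f n (rs N w * η) p) =
      Rc (k + 1) f n (fun q => (if ∀ i : Fin N, (i : ℕ) < l → q i = p i then (1 : ℂ) else 0) *
        η q) p := by
    intro p
    have e4 : (fun q => (if ∀ i : Fin N, (i : ℕ) < l → q i = p i then (1 : ℂ) else 0) * η q) =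
        ((2 : ℂ) ^ l)⁻¹ • ∑ W ∈ (range l).powerset, rs N (ch W) p • (rs N (ch W) * η) := by
      funext q
      rw [Pi.smul_apply, Finset.sum_apply]
      have e5 := Av_kernel l (emb N p) (emb N q)
      rw [Av_eq_sum] at e5
      have e6 : (if ∀ i : Fin N, (i : ℕ) < l → q i = p i then (1 : ℂ) else 0) =
          if ∀ i < l, emb N p i = emb N q i then (1 : ℂ) else 0 := by
        congr 1
        exact (propext (agree_iff hl p q)).symm
      rw [e6, ← e5, smul_eq_mul, mul_assoc, sum_mul]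
      congr 1
      refine sum_congr rfl fun W _ => ?_
      rw [Pi.smul_apply, Pi.mul_apply, smul_eq_mul, ← mul_assoc]
      rfl
    rw [e4, Rc_smul, Rc_sum, Av_eq_sum, Pi.smul_apply, Finset.sum_apply, smul_eq_mul]
    congr 1
    refine sum_congr rfl fun W _ => ?_
    rw [Rc_smul]
    rfl
  rw [e1, e2, expect_congr rfl fun p _ => e3 p]
  refine norm_expect_le' fun p => ?_
  obtain ⟨M, hM1, hM2⟩ := Rc_dom (k + 1) hf1 n
  refine (hM2 _ (fun q => if ∀ i : Fin N, (i : ℕ) < l → q i = p i then (1 : ℝ) else 0)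
    (fun q => ?_) p).trans ?_
  · split_ifs
    · rw [one_mul]
      exact hη1 q
    · rw [zero_mul, norm_zero]
  · rw [count_agree M l hl p]
    refine pow_le_pow_of_le_one (by norm_num) (by norm_num) ?_
    have := hM1 i hi
    omega

/-- The reduced chain. -/
def Rst : ℕ → (ℕ → ℕ) → (ℕ → Al) → Pt N → ℂ
  | 0, _, _ => 1
  | k + 1, m, u => rs N (u 0) *
      ce (m 0) (rs N (u 0) * Rst k (fun i => m (i + 1)) fun i => u (i + 1))

lemma Rst_succ (k : ℕ) (m : ℕ → ℕ) (u : ℕ → Al) : Rst (N := N) (k + 1) m u = rs N (u 0) *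
    ce (m 0) (rs N (u 0) * Rst k (fun i => m (i + 1)) fun i => u (i + 1)) := rfl

lemma Rc_eq_Rst (K : ℕ) (m : ℕ → ℕ) (w : Al) (u : ℕ → Al) :
    Rc K (fun i => rs N ((if i = 0 then w else u (i - 1)) * u i)) m
      (rs N (if K = 0 then w else u (K - 1))) = rs N w * Rst K m u := by
  induction K generalizing m w u with
  | zero =>
    unfold Rc Rst
    rw [if_pos rfl, mul_one]
  | succ K ih =>
    rw [Rc_succ, if_pos rfl, rs_mul]
    have h := ih (fun i => m (i + 1)) (u 0) fun i => u (i + 1)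
    have e1 : (fun i => rs N ((if i + 1 = 0 then w else u (i + 1 - 1)) * u (i + 1))) =
        fun i => rs N ((if i = 0 then u 0 else (fun i => u (i + 1)) (i - 1)) * u (i + 1)) := by
      funext i
      rw [if_neg (by omega), Nat.add_sub_cancel]
      by_cases hi : i = 0
      · rw [if_pos hi, hi]
      · rw [if_neg hi]
        have : i - 1 + 1 = i := by omega
        simp only [this]
    have e2 : (if K + 1 = 0 then w else u (K + 1 - 1)) =
        if K = 0 then u 0 else (fun i => u (i + 1)) (K - 1) := by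
      rw [if_neg (by omega), Nat.add_sub_cancel]
      by_cases hi : K = 0
      · rw [if_pos hi, hi]
      · rw [if_neg hi]
        have : K - 1 + 1 = K := by omega
        simp only [this]
    rw [e1, e2, h, Rst_succ, mul_assoc]

lemma IA_expect {m : ℕ} {l : ℕ → ℕ} (F : Pt N → (ℕ → Al) → ℂ) :
    IA m l (fun x => 𝔼 p, F p x) = 𝔼 p, IA m l (F p) := by
  have e1 : (fun x => 𝔼 p, F p x) = ((Fintype.card (Pt N) : ℂ))⁻¹ • ∑ p, F p := by
    funext x
    rw [Pi.smul_apply, Finset.sum_apply, Fintype.expect_eq_sum_div_card, div_eq_inv_mul,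
      smul_eq_mul]
  rw [e1, map_smul, map_sum, Fintype.expect_eq_sum_div_card, div_eq_inv_mul, smul_eq_mul]

lemma IA_Rst (K : ℕ) (m l : ℕ → ℕ) (hl : ∀ i < K, l i ≤ N) (p : Pt N) :
    IA K l (fun u => Rst K m u p) = ∏ i ∈ range K, (1 / 2 : ℂ) ^ (l i - m i) := by
  induction K generalizing m l p with
  | zero => simp [IA_zero, Rst]
  | succ K ih =>
    rw [IA_succ, prod_range_succ']
    set c : ℂ := ∏ i ∈ range K, (1 / 2 : ℂ) ^ (l (i + 1) - m (i + 1)) with hc
    have e1 : ∀ u : Al, IA K (fun i => l (i + 1)) (fun x => Rst (N := N) (K + 1) m (insN 0 u x) p) =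
        c • 𝔼 y, rs N u p * rs N u (mix (m 0) p y) := by
      intro u
      have e2 : (fun x => Rst (N := N) (K + 1) m (insN 0 u x) p) = fun x => 𝔼 y,
          (rs N u p * rs N u (mix (m 0) p y)) *
            Rst K (fun i => m (i + 1)) x (mix (m 0) p y) := by
        funext x
        have e3 : (fun i => insN 0 u x (i + 1)) = x := by
          funext i
          rw [insN_gt _ _ (by omega), Nat.add_sub_cancel]
        rw [Rst_succ, e3, insN_eq, Pi.mul_apply]
        unfold ce
        rw [mul_expect]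
        refine expect_congr rfl fun y _ => ?_
        rw [Pi.mul_apply, mul_assoc]
      rw [e2, IA_expect]
      have e4 : ∀ y : Pt N, IA K (fun i => l (i + 1)) (fun x =>
          (rs N u p * rs N u (mix (m 0) p y)) * Rst K (fun i => m (i + 1)) x (mix (m 0) p y)) =
          (rs N u p * rs N u (mix (m 0) p y)) * c := by
        intro y
        have e5 := ih (fun i => m (i + 1)) (fun i => l (i + 1)) (fun i hi => hl _ (by omega))
          (mix (m 0) p y)
        have e6 : (fun x => (rs N u p * rs N u (mix (m 0) p y)) *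
            Rst K (fun i => m (i + 1)) x (mix (m 0) p y)) =
            (rs N u p * rs N u (mix (m 0) p y)) •
              fun x => Rst K (fun i => m (i + 1)) x (mix (m 0) p y) := rfl
        rw [e6, map_smul, e5, smul_eq_mul]
      rw [expect_congr rfl fun y _ => e4 y, ← expect_mul, mul_comm, smul_eq_mul]
    have e6 : (fun u => IA K (fun i => l (i + 1))
        (fun x => Rst (N := N) (K + 1) m (insN 0 u x) p)) =
        c • fun u => 𝔼 y, rs N u p * rs N u (mix (m 0) p y) := funext e1
    rw [e6, map_smul, smul_eq_mul]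
    congr 1
    have e7 : Av (l 0) (fun u => 𝔼 y, rs N u p * rs N u (mix (m 0) p y)) =
        𝔼 y, Av (l 0) fun u => rs N u p * rs N u (mix (m 0) p y) := by
      rw [Av_apply]
      exact expect_comm _ _ _
    rw [e7]
    have e8 : ∀ y : Pt N, (Av (l 0) fun u => rs N u p * rs N u (mix (m 0) p y)) =
        ((if ∀ i : Fin N, (i : ℕ) < l 0 → mix (m 0) p y i = p i then (1 : ℝ) else 0 : ℝ) : ℂ) := by
      intro y
      have e9 := Av_kernel (l 0) (emb N p) (emb N (mix (m 0) p y))
      unfold rs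
      rw [e9]
      by_cases h : ∀ i < l 0, emb N p i = emb N (mix (m 0) p y) i
      · rw [if_pos h, if_pos ((agree_iff (hl 0 (by omega)) _ _).1 h)]
        norm_num
      · rw [if_neg h, if_neg fun h' => h ((agree_iff (hl 0 (by omega)) _ _).2 h')]
        norm_num
    rw [expect_congr rfl fun y _ => e8 y]
    have e10 := count_agree (m 0) (l 0) (hl 0 (by omega)) p
    have e11 : 𝔼 y : Pt N, ((if ∀ i : Fin N, (i : ℕ) < l 0 → mix (m 0) p y i = p i then
        (1 : ℝ) else 0 : ℝ) : ℂ) = ((𝔼 y : Pt N, (if ∀ i : Fin N, (i : ℕ) < l 0 →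
          mix (m 0) p y i = p i then (1 : ℝ) else 0) : ℝ) : ℂ) := by
      rw [Fintype.expect_eq_sum_div_card, Fintype.expect_eq_sum_div_card]
      push_cast
      rfl
    rw [e11, e10]
    push_cast
    rfl

/-- The word of a sequence of characters. -/
def aw (K : ℕ) (u : ℕ → Al) : ℕ → Al := fun i =>
  (if i = 0 then 1 else u (i - 1)) * (if i = K then 1 else u i)

lemma merge_aw {K i : ℕ} (hi : i ≤ K) (u : ℕ → Al) (hu : u i * u i = 1) {j : ℕ} (hj : j ≤ K) :
    mergeN i (aw (K + 1) u) j = aw K (del i u) j := by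
  have d1 : ∀ t, t < i → del i u t = u t := fun t ht => by unfold del; rw [if_pos ht]
  have d2 : ∀ t, i ≤ t → del i u t = u (t + 1) := fun t ht => by
    unfold del; rw [if_neg (by omega)]
  rcases lt_trichotomy j i with h | h | h
  · rw [mergeN_lt _ h]
    unfold aw
    rw [if_neg (by omega : ¬ j = K + 1), if_neg (by omega : ¬ j = K), d1 j h]
    by_cases h0 : j = 0
    · rw [if_pos h0, if_pos h0]
    · rw [if_neg h0, if_neg h0, d1 _ (by omega)]
  · subst h
    rw [mergeN_eq]
    unfold aw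
    rw [if_neg (by omega : ¬ j = K + 1), if_neg (by omega : ¬ j + 1 = 0), Nat.add_sub_cancel,
      d2 j le_rfl]
    have e1 : (if j = 0 then (1 : Al) else u (j - 1)) =
        if j = 0 then (1 : Al) else del j u (j - 1) := by
      by_cases h0 : j = 0
      · rw [if_pos h0, if_pos h0]
      · rw [if_neg h0, if_neg h0, d1 _ (by omega)]
    have e2 : (if j + 1 = K + 1 then (1 : Al) else u (j + 1)) =
        if j = K then (1 : Al) else u (j + 1) := by
      by_cases h0 : j = K
      · rw [if_pos h0, if_pos (by omega)]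
      · rw [if_neg h0, if_neg (by omega)]
    rw [e1, e2]
    calc _ = (u j * u j) * ((if j = 0 then (1 : Al) else del j u (j - 1)) *
          if j = K then (1 : Al) else u (j + 1)) := by ring
      _ = _ := by rw [hu, one_mul]
  · rw [mergeN_gt _ h]
    unfold aw
    rw [if_neg (by omega : ¬ j + 1 = 0), if_neg (by omega : ¬ j = 0), Nat.add_sub_cancel,
      d2 (j - 1) (by omega), d2 j (by omega)]
    have e0 : j - 1 + 1 = j := by omega
    rw [e0]
    by_cases h0 : j = K
    · rw [if_pos h0, if_pos (by omega)]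
    · rw [if_neg h0, if_neg (by omega)]

lemma aw_last (K : ℕ) (u : ℕ → Al) : aw (K + 1) u (K + 1) = u K := by
  unfold aw
  rw [if_neg (by omega), if_pos rfl, mul_one, Nat.add_sub_cancel]

lemma Tval (m l : ℕ → ℕ) (hl : ∀ i < k, l i ≤ N) :
    IA k l (fun u => ev (QN k N m) (res (k + 1) (aw k u)) (exX N 1)) =
      ∏ i ∈ range k, (1 / 2 : ℂ) ^ (l i - m i) := by
  have e1 : (fun u => ev (QN k N m) (res (k + 1) (aw k u)) (exX N 1)) =
      fun u => 𝔼 p : Pt N, Rst k m u p := by
    funext u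
    rw [ev_QN_res, resX_exX, Rc_succ', ce_one, mul_one]
    refine expect_congr rfl fun p _ => ?_
    have h := Rc_eq_Rst (N := N) k m 1 u
    rw [rs_one, one_mul] at h
    rw [← h]
    refine congrFun ?_ p
    have e2 : aw k u k = if k = 0 then 1 else u (k - 1) := by
      unfold aw
      rw [if_pos (rfl : k = k), mul_one]
    rw [e2]
    refine Rc_congr _ (fun i hi => ?_) fun _ _ => rfl
    unfold aw
    rw [if_neg (by omega : ¬ i = k)]
  rw [e1, IA_expect]
  rw [expect_congr rfl fun p _ => IA_Rst k m l hl p, Fintype.expect_const]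

lemma Tval' (m l : ℕ → ℕ) (hl : ∀ i < k + 1, l i ≤ N) :
    IA (k + 1) l (fun u => ev (QN k N m) (res (k + 1) (aw (k + 1) u))
      (lift (aw (k + 1) u (k + 1)) * exX N 1)) =
      ∏ i ∈ range (k + 1), (1 / 2 : ℂ) ^ (l i - m i) := by
  have e1 : (fun u => ev (QN k N m) (res (k + 1) (aw (k + 1) u))
      (lift (aw (k + 1) u (k + 1)) * exX N 1)) = fun u => 𝔼 p : Pt N, Rst (k + 1) m u p := by
    funext u
    rw [ev_QN_res, resX_mul, resX_lift, resX_exX, mul_one, aw_last]
    refine expect_congr rfl fun p _ => ?_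
    have h := Rc_eq_Rst (N := N) (k + 1) m 1 u
    rw [rs_one, one_mul, if_neg (by omega : ¬ k + 1 = 0), Nat.add_sub_cancel] at h
    rw [← h]
    refine congrFun ?_ p
    refine Rc_congr _ (fun i hi => ?_) fun _ _ => rfl
    unfold aw
    rw [if_neg (by omega : ¬ i = k + 1)]
  rw [e1, IA_expect]
  rw [expect_congr rfl fun p _ => IA_Rst (k + 1) m l hl p, Fintype.expect_const]

end

end Pool.Agent.Helper5.Dg
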