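import Mathlib
import Pool.Agent.Helper5.Sym.Core
import Pool.Agent.Helper5.Dg.WF
import Pool.Agent.Helper5.Dg.Phil

/-!
The diagonalised cocycle.
-/

namespace Pool.Agent.Helper5.Dg

open Finset Pool.Agent.Helper5.Sym Filter Topology
open scoped BigOperators ComplexConjugate

noncomputable section

/-- The data obtained from the vanishing of cohomology. -/
structure Sig (m : ℕ) where
  /-- The functional. -/
  s : (Fin (m + 2) → Al) → Vk (m + 1) → Xf → ℂ
  /-- The bound. -/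
  C : ℝ
  hC : 0 ≤ C
  add_Q : ∀ a Q Q' ξ, s a (Q + Q') ξ = s a Q ξ + s a Q' ξ
  smul_Q : ∀ a (c : ℂ) Q ξ, s a (c • Q) ξ = c * s a Q ξ
  add_x : ∀ a Q ξ ξ', s a Q (ξ + ξ') = s a Q ξ + s a Q ξ'
  smul_x : ∀ a Q (c : ℂ) ξ, s a Q (c • ξ) = c * s a Q ξ
  bound : ∀ a Q ξ, ‖s a Q ξ‖ ≤ C * ‖Q‖ * (∏ i, ‖a i‖) * ‖ξ‖
  left : ∀ u a Q ξ, s (lmF u a) Q ξ = s a (lmul u Q) ξ
  cocyc : ∀ (a : Fin (m + 3) → Al) Q ξ,
    ∑ i ∈ range (m + 2), (-1 : ℂ) ^ i * s (mergeAt i a) Q ξ +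
      (-1 : ℂ) ^ (m + 2) * s (ini a) Q (lift (lst a) * ξ) = 0
  bdry : ∀ a (R : Vk m) ξ, s a (bst R) ξ = ev (bst R) a ξ
  cont : ∀ (Q : ℕ → Vk (m + 1)) (M : ℝ), (∀ j, ‖Q j‖ ≤ M) →
    (∀ a ξ, Tendsto (fun j => ev (Q j) a ξ) atTop (𝓝 0)) →
    ∀ a ξ, Tendsto (fun j => s a (Q j) ξ) atTop (𝓝 0)

variable {m : ℕ} (S : Sig m) {N : ℕ}

/-- The diagonalised functional. -/
def dN (N : ℕ) (a : Fin (m + 2) → Al) (Q : Vk (m + 1)) (v : Pt N → ℂ) : ℂ :=
  ∑ z, S.s a (rmul (exX N (Pi.single z 1)) Q) (exX N (Pi.single z (v z)))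

lemma dN_add (a) (Q Q' : Vk (m + 1)) (v : Pt N → ℂ) :
    dN S N a (Q + Q') v = dN S N a Q v + dN S N a Q' v := by
  unfold dN
  rw [← sum_add_distrib]
  exact sum_congr rfl fun z _ => by rw [rmul_map_add, S.add_Q]

lemma dN_smul (a) (c : ℂ) (Q : Vk (m + 1)) (v : Pt N → ℂ) :
    dN S N a (c • Q) v = c * dN S N a Q v := by
  unfold dN
  rw [mul_sum]
  exact sum_congr rfl fun z _ => by rw [rmul_map_smul, S.smul_Q]

lemma dN_sum (a) {κ : Type*} (s : Finset κ) (Q : κ → Vk (m + 1)) (v : Pt N → ℂ) :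
    dN S N a (∑ i ∈ s, Q i) v = ∑ i ∈ s, dN S N a (Q i) v := by
  classical
  induction s using Finset.induction_on with
  | empty =>
    rw [sum_empty, sum_empty]
    have := dN_smul S a 0 0 v
    rw [zero_smul, zero_mul] at this
    exact this
  | insert j s hj ih => rw [sum_insert hj, sum_insert hj, dN_add, ih]

lemma dN_sub (a) (Q Q' : Vk (m + 1)) (v : Pt N → ℂ) :
    dN S N a (Q - Q') v = dN S N a Q v - dN S N a Q' v := by
  have h := dN_add S a Q ((-1 : ℂ) • Q') v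
  rw [dN_smul] at h
  have e : Q - Q' = Q + (-1 : ℂ) • Q' := by rw [neg_one_smul, sub_eq_add_neg]
  rw [e, h]
  ring

lemma single_smul_one (ε : Pt N → ℂ) (z : Pt N) :
    ε z • (Pi.single z (1 : ℂ) : Pt N → ℂ) = Pi.single z (ε z) := by
  funext w
  by_cases h : w = z
  · subst h
    simp
  · simp [Pi.single_eq_of_ne h]

lemma sum_single' (v : Pt N → ℂ) : ∑ z, (Pi.single z (v z) : Pt N → ℂ) = v :=
  Finset.univ_sum_single v

/-- The sign argument. -/
lemma dN_sign (a) (Q : Vk (m + 1)) (v : Pt N → ℂ) (M : ℝ)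
    (h : ∀ ε : Pt N → ℂ, (∀ z, ε z = 1 ∨ ε z = -1) →
      ‖S.s a (rmul (exX N ε) Q) (exX N (ε * v))‖ ≤ M) : ‖dN S N a Q v‖ ≤ M := by
  have key := sign_trick' (X := Pt N → ℂ) (Y := Pt N → ℂ)
    (B := fun x y => S.s a (rmul (exX N x) Q) (exX N y))
    (fun x x' y => by rw [exX_add, rmul_add, S.add_Q])
    (fun c x y => by rw [exX_smul, rmul_smul, S.smul_Q])
    (fun x y y' => by rw [exX_add, S.add_x])
    (fun c x y => by rw [exX_smul, S.smul_x])
    (univ : Finset (Pt N)) (fun z => Pi.single z 1) (fun z => Pi.single z (v z)) M 0 0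
    (fun ε hε => by
      have e1 : (0 : Pt N → ℂ) + ∑ z, ε z • (Pi.single z (1 : ℂ) : Pt N → ℂ) = ε := by
        rw [zero_add, sum_congr rfl fun z _ => single_smul_one ε z, sum_single']
      have e2 : (0 : Pt N → ℂ) + ∑ z, ε z • (Pi.single z (v z) : Pt N → ℂ) = ε * v := by
        rw [zero_add]
        have : ∀ z, ε z • (Pi.single z (v z) : Pt N → ℂ) = Pi.single z ((ε * v) z) := by
          intro z
          funext w
          by_cases h : w = z
          · subst h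
            simp
          · simp [Pi.single_eq_of_ne h]
        rw [sum_congr rfl fun z _ => this z, sum_single']
      rw [e1, e2]
      exact h ε hε)
  have e0 : S.s a (rmul (exX N (0 : Pt N → ℂ)) Q) (exX N (0 : Pt N → ℂ)) = 0 := by
    rw [exX_zero]
    have := S.smul_x a (rmul 0 Q) 0 0
    rw [zero_smul, zero_mul] at this
    exact this
  rw [e0, zero_add] at key
  exact key

lemma norm_of_sign {ε : ℂ} (h : ε = 1 ∨ ε = -1) : ‖ε‖ = 1 := by
  rcases h with h | h <;> rw [h] <;> simp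

lemma dN_norm_le (a) (Q : Vk (m + 1)) (v : Pt N → ℂ) {V : ℝ} (hV : 0 ≤ V)
    (hv : ∀ z, ‖v z‖ ≤ V) : ‖dN S N a Q v‖ ≤ S.C * ‖Q‖ * (∏ i, ‖a i‖) * V := by
  refine dN_sign S a Q v _ fun ε hε => ?_
  refine (S.bound _ _ _).trans ?_
  have h1 : ‖rmul (exX N ε) Q‖ ≤ ‖Q‖ := by
    refine (norm_rmul_le _ _).trans ?_
    have : ‖exX N ε‖ ≤ 1 := norm_exX_le zero_le_one fun z => (norm_of_sign (hε z)).le
    exact mul_le_of_le_one_right (norm_nonneg _) this
  have h2 : ‖exX N (ε * v)‖ ≤ V := by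
    refine norm_exX_le hV fun z => ?_
    rw [Pi.mul_apply, norm_mul, norm_of_sign (hε z), one_mul]
    exact hv z
  have hC := S.hC
  have hP : 0 ≤ ∏ i, ‖a i‖ := prod_nonneg fun i _ => norm_nonneg _
  gcongr

lemma lmul_rmul (u : Al) (w : Xf) (Q : Vk (m + 1)) : lmul u (rmul w Q) = rmul w (lmul u Q) :=
  ev_ext fun a ξ => by rw [ev_lmul, ev_rmul, ev_rmul, ev_lmul]

lemma dN_left (u : Al) (a) (Q : Vk (m + 1)) (v : Pt N → ℂ) :
    dN S N (lmF u a) Q v = dN S N a (lmul u Q) v := by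
  unfold dN
  exact sum_congr rfl fun z _ => by rw [S.left, lmul_rmul]

lemma single_mul (u v : Pt N → ℂ) (z : Pt N) :
    (Pi.single z (u z * v z) : Pt N → ℂ) = u z • Pi.single z (v z) := by
  funext w
  by_cases h : w = z
  · subst h
    simp
  · simp [Pi.single_eq_of_ne h]

lemma single_mul' (v : Pt N → ℂ) (z : Pt N) (c : ℂ) :
    (Pi.single z c : Pt N → ℂ) * v = v z • Pi.single z c := by
  funext w
  by_cases h : w = z
  · subst h
    simp [mul_comm]
  · simp [Pi.single_eq_of_ne h]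

lemma dN_right (u : Al) (a) (Q : Vk (m + 1)) (v : Pt N → ℂ) :
    dN S N a Q (rs N u * v) = dN S N a (rmul (lift u) Q) v := by
  unfold dN
  refine sum_congr rfl fun z _ => ?_
  rw [Pi.mul_apply, single_mul, exX_smul, S.smul_x, rmul_rmul, mul_comm (lift u), exX_mul,
    resX_lift, single_mul', exX_smul, rmul_smul, S.smul_Q]

lemma dN_cocyc (a : Fin (m + 3) → Al) (Q : Vk (m + 1)) (v : Pt N → ℂ) :
    ∑ i ∈ range (m + 2), (-1 : ℂ) ^ i * dN S N (mergeAt i a) Q v +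
      (-1 : ℂ) ^ (m + 2) * dN S N (ini a) Q (rs N (lst a) * v) = 0 := by
  unfold dN
  simp only [mul_sum]
  rw [sum_comm, ← sum_add_distrib]
  refine sum_eq_zero fun z _ => ?_
  have h := S.cocyc a (rmul (exX N (Pi.single z 1)) Q) (exX N (Pi.single z (v z)))
  rw [mul_comm (lift (lst a)), exX_mul, resX_lift, single_mul', ← single_mul] at h
  exact h

lemma dN_bst (a) (R : Vk m) (v : Pt N → ℂ) :
    dN S N a (bst R) v = ev (bst R) a (exX N v) := by
  unfold dN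
  have h1 : ∀ z, S.s a (rmul (exX N (Pi.single z 1)) (bst R)) (exX N (Pi.single z (v z))) =
      ev (bst R) a (exX N (Pi.single z (v z))) := by
    intro z
    rw [rmul_bst, S.bdry, ← rmul_bst, ev_rmul, exX_mul, resX_exX, single_mul', exX_smul]
    rw [Pi.single_eq_same]
    congr 1
    rw [← exX_smul]
    congr 1
    funext w
    by_cases h : w = z
    · subst h
      simp
    · simp [Pi.single_eq_of_ne h]
  rw [sum_congr rfl fun z _ => h1 z]
  have h2 : ∀ (s : Finset (Pt N)), ∑ z ∈ s, ev (bst R) a (exX N (Pi.single z (v z))) =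
      ev (bst R) a (exX N (∑ z ∈ s, Pi.single z (v z))) := by
    intro s
    induction s using Finset.induction_on with
    | empty => rw [sum_empty, sum_empty, exX_zero, ev_map_zero]
    | insert j s hj ih => rw [sum_insert hj, sum_insert hj, exX_add, ev_map_add, ih]
  rw [h2, sum_single']

/-- The averaged value. -/
def gN (N : ℕ) (Q : Vk (m + 1)) (l : ℕ → ℕ) : ℂ :=
  IA (m + 1) l fun u => dN S N (res (m + 2) (aw (m + 1) u)) Q 1

lemma norm_aw_le (K : ℕ) {u : ℕ → Al} (hu : ∀ i, u i ∈ Chs) (i : ℕ) : ‖aw K u i‖ ≤ 1 := by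
  have h : ∀ i, ‖u i‖ ≤ 1 := by
    intro i
    obtain ⟨T, hT⟩ := hu i
    rw [← hT]
    exact norm_ch_le T
  unfold aw
  refine (norm_mul_le _ _).trans (mul_le_one₀ ?_ (norm_nonneg _) ?_)
  · split_ifs
    · rw [norm_one]
    · exact h _
  · split_ifs
    · rw [norm_one]
    · exact h _

lemma prod_aw_le (K n : ℕ) {u : ℕ → Al} (hu : ∀ i, u i ∈ Chs) :
    ∏ i, ‖res n (aw K u) i‖ ≤ 1 := prod_le_one (fun i _ => norm_nonneg _)
  fun _ _ => norm_aw_le K hu _

lemma dN_norm_le' {a : Fin (m + 2) → Al} (ha : ∏ i, ‖a i‖ ≤ 1) (Q : Vk (m + 1))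
    {v : Pt N → ℂ} (hv : ∀ z, ‖v z‖ ≤ 1) : ‖dN S N a Q v‖ ≤ S.C * ‖Q‖ := by
  refine (dN_norm_le S a Q v zero_le_one hv).trans ?_
  rw [mul_one]
  exact mul_le_of_le_one_right (mul_nonneg S.hC (norm_nonneg _)) ha

lemma gN_norm_le (Q : Vk (m + 1)) (l : ℕ → ℕ) : ‖gN S N Q l‖ ≤ S.C * ‖Q‖ :=
  IA_norm_le fun u hu => dN_norm_le' S (prod_aw_le _ _ hu) Q fun z => by simp

lemma gN_sum {κ : Type*} (s : Finset κ) (Q : κ → Vk (m + 1)) (l : ℕ → ℕ) :
    gN S N (∑ i ∈ s, Q i) l = ∑ i ∈ s, gN S N (Q i) l := by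
  unfold gN
  rw [← map_sum]
  congr 1
  funext u
  rw [Finset.sum_apply, dN_sum]

lemma gN_smul (c : ℂ) (Q : Vk (m + 1)) (l : ℕ → ℕ) : gN S N (c • Q) l = c * gN S N Q l := by
  unfold gN
  rw [← smul_eq_mul, ← map_smul]
  congr 1
  funext u
  rw [Pi.smul_apply, dN_smul, smul_eq_mul]

lemma gN_sub (Q Q' : Vk (m + 1)) (l : ℕ → ℕ) :
    gN S N (Q - Q') l = gN S N Q l - gN S N Q' l := by
  unfold gN
  rw [← map_sub]
  congr 1
  funext u
  rw [Pi.sub_apply, dN_sub]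

/-- The remainder term. -/
def rho (N : ℕ) (Q : Vk (m + 1)) (l : ℕ → ℕ) : ℂ :=
  IA (m + 2) l fun u => dN S N (res (m + 2) (aw (m + 2) u)) Q (rs N (u (m + 1)))

lemma chs_sq {u : Al} (hu : u ∈ Chs) : u * u = 1 := by
  obtain ⟨T, hT⟩ := hu
  rw [← hT, ch_sq]

/-- The basic relation. -/
lemma gN_rel (Q : Vk (m + 1)) (l : ℕ → ℕ) :
    ∑ i ∈ range (m + 2), (-1 : ℂ) ^ i * gN S N Q (del i l) +
      (-1 : ℂ) ^ (m + 2) * rho S N Q l = 0 := by
  have h1 : ∀ i ∈ range (m + 2), (-1 : ℂ) ^ i * gN S N Q (del i l) =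
      IA (m + 2) l ((-1 : ℂ) ^ i • fun u => dN S N (res (m + 2) (aw (m + 1) (del i u))) Q 1) := by
    intro i hi
    rw [map_smul, smul_eq_mul, IA_drop (by rw [mem_range] at hi; omega) l
      (fun u => dN S N (res (m + 2) (aw (m + 1) u)) Q 1)]
    rfl
  rw [sum_congr rfl h1, ← map_sum, rho, ← smul_eq_mul, ← map_smul, ← map_add]
  have h2 : IA (m + 2) l (fun _ => (0 : ℂ)) = 0 := IA_const _ _ _
  rw [← h2]
  refine IA_congr fun u hu => ?_
  rw [Pi.add_apply, Finset.sum_apply, Pi.smul_apply, smul_eq_mul]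
  have h3 := dN_cocyc S (res (m + 3) (aw (m + 2) u)) Q (1 : Pt N → ℂ)
  rw [ini_res, lst_res, aw_last, mul_one] at h3
  rw [← h3]
  congr 1
  refine sum_congr rfl fun i hi => ?_
  rw [mem_range] at hi
  rw [Pi.smul_apply, smul_eq_mul, mergeAt_res]
  congr 2
  funext j
  exact (merge_aw (by omega) u (chs_sq (hu i)) (by have := j.2; omega)).symm

lemma rho_norm_le (Q : Vk (m + 1)) (l : ℕ → ℕ) (hl : ∀ i < m + 2, l 0 ≤ l i) :
    ‖rho S N Q l‖ ≤ S.C * ‖QD (l 0) Q‖ := by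
  set F : Vk (m + 1) → (ℕ → Al) → ℂ := fun Q u =>
    dN S N (res (m + 2) (aw (m + 2) u)) Q (rs N (u (m + 1))) with hF
  have hrho : ∀ Q, rho S N Q l = IA (m + 2) l (F Q) := fun Q => rfl
  have hdep : ∀ x y : ℕ → Al, (∀ i < m + 2, x i = y i) → F Q x = F Q y := by
    intro x y hxy
    simp only [hF]
    rw [hxy (m + 1) (by omega)]
    congr 1
    funext i
    show aw (m + 2) x i = aw (m + 2) y i
    unfold aw
    have hi := i.2
    rw [if_neg (by omega : ¬ (i : ℕ) = m + 2), if_neg (by omega : ¬ (i : ℕ) = m + 2),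
      hxy i (by omega)]
    by_cases h0 : (i : ℕ) = 0
    · rw [if_pos h0, if_pos h0]
    · rw [if_neg h0, if_neg h0, hxy _ (by omega)]
  have hshift : ∀ W ∈ (range (l 0)).powerset,
      IA (m + 2) l (F Q) = IA (m + 2) l (F (lmul (ch W) (rmul (lift (ch W)) Q))) := by
    intro W hW
    rw [mem_powerset] at hW
    rw [← IA_shift (W := W) (fun i hi => hW.trans (range_subset_range.2 (hl i hi))) (F Q) hdep]
    refine IA_congr fun u hu => ?_
    simp only [hF]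
    rw [rs_mul, dN_right, lmul_rmul, ← lmul_rmul, ← dN_left]
    congr 1
    funext i
    show aw (m + 2) (fun i => ch W * u i) i = lmF (ch W) (res (m + 2) (aw (m + 2) u)) i
    have hi := i.2
    unfold lmF res aw
    rw [if_neg (by omega : ¬ (i : ℕ) = m + 2), if_neg (by omega : ¬ (i : ℕ) = m + 2)]
    by_cases h0 : (i : ℕ) = 0
    · rw [if_pos h0, if_pos h0, if_pos h0]
      ring
    · rw [if_neg h0, if_neg h0, if_neg h0]
      calc ch W * u (↑i - 1) * (ch W * u ↑i) = (ch W * ch W) * (u (↑i - 1) * u ↑i) := by ring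
        _ = _ := by rw [ch_sq, one_mul]
  have hQD : rho S N Q l = IA (m + 2) l (F (QD (l 0) Q)) := by
    have e1 : F (QD (l 0) Q) = ((2 : ℂ) ^ l 0)⁻¹ • ∑ W ∈ (range (l 0)).powerset,
        F (lmul (ch W) (rmul (lift (ch W)) Q)) := by
      funext u
      simp only [hF, QD]
      rw [dN_smul, dN_sum, Pi.smul_apply, Finset.sum_apply, smul_eq_mul]
    rw [e1, map_smul, map_sum, ← sum_congr rfl hshift, sum_const, card_powerset, card_range,
      nsmul_eq_mul, smul_eq_mul, ← mul_assoc, hrho]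
    push_cast
    rw [inv_mul_cancel₀ (pow_ne_zero _ two_ne_zero), one_mul]
  rw [hQD]
  refine IA_norm_le fun u hu => dN_norm_le' S (prod_aw_le _ _ hu) _ fun z => ?_
  obtain ⟨T, hT⟩ := hu (m + 1)
  rw [← hT]
  exact (norm_ch_apply T _).le

end

end Pool.Agent.Helper5.Dg
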