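import Mathlib
import Pool.Agent.Helper5.Dg.Core1

/-!
The Phillips step.
-/

namespace Pool.Agent.Helper5.Dg

open Finset Pool.Agent.Helper5.Sym Filter Topology
open scoped BigOperators ComplexConjugate

noncomputable section

lemma osc_cont (a : Al) {δ : ℝ} (hδ : 0 < δ) :
    ∃ c0, ∀ c ≥ c0, ∀ ω ω' : Cn, (∀ i < c, ω i = ω' i) → ‖a ω - a ω'‖ ≤ δ := by
  by_contra hcon
  push Not at hcon
  choose c hc ω ω' hag hgt using hcon
  obtain ⟨x, _, φ, hφ, hx⟩ := isCompact_univ.tendsto_subseq (x := ω) fun _ => Set.mem_univ _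
  have hx' : Tendsto (ω' ∘ φ) atTop (𝓝 x) := by
    rw [tendsto_pi_nhds] at hx ⊢
    intro i
    refine (hx i).congr' ?_
    filter_upwards [eventually_gt_atTop i] with n hn
    exact hag (φ n) i (hn.trans_le ((hφ.id_le n).trans (hc _)))
  have h1 : Tendsto (fun n => ‖a (ω (φ n)) - a (ω' (φ n))‖) atTop (𝓝 ‖a x - a x‖) :=
    (((a.continuous.tendsto x).comp hx).sub ((a.continuous.tendsto x).comp hx')).norm
  rw [sub_self, norm_zero] at h1
  have h2 := ge_of_tendsto h1 (Eventually.of_forall fun n => (hgt (φ n)).le)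
  linarith

lemma osc_rs (a : Al) {δ : ℝ} (hδ : 0 < δ) : ∃ c0, ∀ c ≥ c0, ∀ N, Osc δ c (rs N a) := by
  obtain ⟨c0, h⟩ := osc_cont a hδ
  refine ⟨c0, fun c hc N x y hxy => h c hc _ _ fun i hi => ?_⟩
  unfold emb
  split_ifs with h'
  · exact hxy ⟨i, h'⟩ hi
  · rfl

/-- Doubly eventual smallness. -/
def Sm (f : ℕ → ℕ → ℂ) : Prop :=
  ∀ ε : ℝ, 0 < ε → ∀ᶠ c in atTop, ∀ᶠ N in atTop, ‖f c N‖ ≤ ε

lemma Sm.add {f g : ℕ → ℕ → ℂ} (hf : Sm f) (hg : Sm g) : Sm (fun c N => f c N + g c N) := by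
  intro ε hε
  filter_upwards [hf (ε / 2) (by positivity), hg (ε / 2) (by positivity)] with c h1 h2
  filter_upwards [h1, h2] with N h3 h4
  exact (norm_add_le _ _).trans (by linarith)

lemma Sm.sum {κ : Type*} (s : Finset κ) {f : κ → ℕ → ℕ → ℂ} (hf : ∀ i ∈ s, Sm (f i)) :
    Sm (fun c N => ∑ i ∈ s, f i c N) := by
  classical
  induction s using Finset.induction_on with
  | empty =>
    intro ε hε
    exact Eventually.of_forall fun c => Eventually.of_forall fun N => by simp [hε.le]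
  | insert j s hj ih =>
    simp only [sum_insert hj]
    exact (hf j (mem_insert_self _ _)).add (ih fun i hi => hf i (mem_insert_of_mem hi))

lemma Sm.const_mul {f : ℕ → ℕ → ℂ} (hf : Sm f) {z : ℂ} (hz : ‖z‖ ≤ 1) :
    Sm (fun c N => z * f c N) := by
  intro ε hε
  filter_upwards [hf ε hε] with c h1
  filter_upwards [h1] with N h2
  rw [norm_mul]
  exact (mul_le_of_le_one_left (norm_nonneg _) hz).trans h2

lemma Sm_IA (k : ℕ) (l : ℕ → ℕ) (F : ℕ → ℕ → (ℕ → Al) → ℂ)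
    (h : ∀ u : ℕ → Al, (∀ i, u i ∈ Chs) → Sm fun c N => F c N u) :
    Sm fun c N => IA k l (F c N) := by
  induction k generalizing l F with
  | zero => exact h _ fun _ => one_mem_Chs
  | succ k ih =>
    have h1 : ∀ W : Finset ℕ, Sm fun c N =>
        IA k (fun i => l (i + 1)) fun x => F c N (insN 0 (ch W) x) := by
      intro W
      refine ih (fun i => l (i + 1)) (fun c N x => F c N (insN 0 (ch W) x)) fun u hu => ?_
      refine h _ fun i => ?_
      unfold insN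
      split_ifs
      · exact hu _
      · exact ⟨W, rfl⟩
      · exact hu _
    have h2 : (fun c N => IA (k + 1) l (F c N)) = fun c N => ((2 : ℂ) ^ l 0)⁻¹ *
        ∑ W ∈ (range (l 0)).powerset,
          IA k (fun i => l (i + 1)) fun x => F c N (insN 0 (ch W) x) := by
      funext c N
      rw [IA_succ, Av_eq_sum]
    rw [h2]
    refine (Sm.sum _ fun W _ => h1 W).const_mul ?_
    rw [norm_inv, norm_pow, Complex.norm_ofNat]
    exact inv_le_one_of_one_le₀ (one_le_pow₀ (by norm_num))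

variable {k : ℕ}

lemma ev_scale (Q : Vk k) (c : ℂ) (a : Fin (k + 1) → Al) (ξ : Xf) :
    ev Q (fun i => c • a i) ξ = c ^ (k + 1) * ev Q a ξ := by
  have h4 := ContinuousMultilinearMap.map_smul_univ
    (show ContinuousMultilinearMap ℂ (fun _ : Fin (k + 1) => Al) XD from Q) (fun _ => c) a
  have h5 : ev Q (fun i => c • a i) ξ = (∏ _i : Fin (k + 1), c) * ev Q a ξ :=
    congrArg (fun f : XD => pd f ξ) h4
  rw [h5, prod_const, card_univ, Fintype.card_fin]

lemma osc_zero_one (N c : ℕ) : Osc 0 c (1 : Pt N → ℂ) := fun x y _ => by simp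

lemma QN_small {n n' : ℕ → ℕ → ℕ → ℕ}
    (hnn : ∀ c N i, n c N i = n' c N i ∨ (n c N i = c ∧ N ≤ n' c N i))
    (a : Fin (k + 1) → Al) {δ : ℝ} (hδ : 0 < δ) : ∀ᶠ c in atTop, ∀ (N : ℕ) (ξ : Xf),
      ‖ev (QN k N (n c N) - QN k N (n' c N)) a ξ‖ ≤ δ * ‖ξ‖ := by
  -- scaling
  set A : ℝ := 1 + ∑ i, ‖a i‖ with hA
  have hA0 : 0 < A := by positivity
  have haA : ∀ i, ‖a i‖ ≤ A := by
    intro i
    have := single_le_sum (f := fun i => ‖a i‖) (fun i _ => norm_nonneg _) (mem_univ i)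
    rw [hA]
    linarith
  set b : Fin (k + 1) → Al := fun i => ((A : ℂ)⁻¹) • a i with hb
  have hb1 : ∀ i, ‖b i‖ ≤ 1 := by
    intro i
    rw [hb, norm_smul, norm_inv, Complex.norm_real, Real.norm_of_nonneg hA0.le,
      inv_mul_le_iff₀ hA0, mul_one]
    exact haA i
  have hab : a = fun i => (A : ℂ) • b i := by
    funext i
    rw [hb, smul_smul, mul_inv_cancel₀, one_smul]
    exact_mod_cast hA0.ne'
  set δ' : ℝ := δ / (A ^ (k + 1) * ((k + 1 : ℕ) * (k + 1 : ℕ))) with hδ'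
  have hδ'0 : 0 < δ' := by positivity
  have hosc : ∃ c0, ∀ c ≥ c0, ∀ N, ∀ i, Osc δ' c (rs N (ex b i)) := by
    choose c0 hc0 using fun i => osc_rs (ex b i) hδ'0
    refine ⟨∑ i ∈ range (k + 1), c0 i, fun c hc N i => ?_⟩
    by_cases hi : i < k + 1
    · refine hc0 i c (le_trans ?_ hc) N
      exact single_le_sum (f := c0) (fun _ _ => Nat.zero_le _) (mem_range.2 hi)
    · have : ex b i = 1 := by
        unfold ex
        rw [dif_neg hi]
      rw [this]
      intro x y _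
      simp [rs_one, hδ'0.le]
  obtain ⟨c0, hc0⟩ := hosc
  filter_upwards [eventually_ge_atTop c0] with c hc N ξ
  have unit : ∀ ξ : Xf, ‖ξ‖ ≤ 1 →
      ‖ev (QN k N (n c N) - QN k N (n' c N)) b ξ‖ ≤ ((k + 1 : ℕ) * ((k + 1 : ℕ) * δ')) := by
    intro ξ hξ
    have h1 := osc_bound (N := N) (k := k + 1) (c := c) (f := fun i => rs N (ex b i))
      (n := n c N) (n' := n' c N) (ξ := resX N ξ)
      (fun i x => (norm_rs_le _ x).trans (by
        unfold ex
        split_ifs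
        · exact hb1 _
        · rw [norm_one])) (fun x => (norm_resX_le ξ x).trans hξ) hδ'0.le
      (fun i _ => hc0 c hc N i) (fun i _ => hnn c N i) (U := 1) (η := 0) le_rfl
      (fun x => by simp) (osc_zero_one N c)
    rw [zero_add] at h1
    refine le_trans (le_of_eq ?_) h1
    rw [ev_sub, ev_QN, ev_QN, ← expect_sub_distrib]
    congr 1
    refine expect_congr rfl fun x _ => ?_
    rw [Pi.one_apply, one_mul, Pi.sub_apply]
  have gen : ∀ ξ : Xf, ‖ev (QN k N (n c N) - QN k N (n' c N)) b ξ‖ ≤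
      ((k + 1 : ℕ) * ((k + 1 : ℕ) * δ')) * ‖ξ‖ := by
    intro ξ
    by_cases h0 : ξ = 0
    · rw [h0, ev_map_zero, norm_zero, norm_zero, mul_zero]
    · have hpos : 0 < ‖ξ‖ := norm_pos_iff.2 h0
      have e1 : ξ = (‖ξ‖ : ℂ) • (((‖ξ‖ : ℂ))⁻¹ • ξ) := by
        rw [smul_smul, mul_inv_cancel₀, one_smul]
        exact_mod_cast hpos.ne'
      have h2 := unit (((‖ξ‖ : ℂ))⁻¹ • ξ) (by
        rw [norm_smul, norm_inv, Complex.norm_real, norm_norm, inv_mul_cancel₀ hpos.ne'])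
      have e2 : ev (QN k N (n c N) - QN k N (n' c N)) b ξ = (‖ξ‖ : ℂ) *
          ev (QN k N (n c N) - QN k N (n' c N)) b (((‖ξ‖ : ℂ))⁻¹ • ξ) := by
        rw [← ev_map_smul, ← e1]
      rw [e2, norm_mul, Complex.norm_real, norm_norm, mul_comm]
      exact mul_le_mul_of_nonneg_right h2 hpos.le
  rw [hab, ev_scale, norm_mul, norm_pow, Complex.norm_real, Real.norm_of_nonneg hA0.le]
  have h3 := gen ξ
  have hApos : 0 < A ^ (k + 1) := by positivity
  calc A ^ (k + 1) * ‖ev (QN k N (n c N) - QN k N (n' c N)) b ξ‖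
      ≤ A ^ (k + 1) * (((k + 1 : ℕ) * ((k + 1 : ℕ) * δ')) * ‖ξ‖) := by gcongr
    _ = δ * ‖ξ‖ := by
      rw [hδ']
      field_simp

variable {m : ℕ} (S : Sig m)

theorem Sm_dN (w : ℕ → ℕ → Vk (m + 1)) (M : ℝ) (hM : ∀ c N, ‖w c N‖ ≤ M)
    (a : Fin (m + 2) → Al)
    (hw : ∀ a, ∀ δ : ℝ, 0 < δ → ∀ᶠ c in atTop, ∀ (N : ℕ) (ξ : Xf),
      ‖ev (w c N) a ξ‖ ≤ δ * ‖ξ‖) :
    Sm fun c N => dN S N a (w c N) 1 := by
  classical
  intro η hη
  by_contra hcon
  rw [not_eventually] at hcon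
  obtain ⟨cs, hcs, hcs'⟩ := extraction_of_frequently_atTop hcon
  have h1 : ∀ j, ∃ᶠ N in atTop, ¬ ‖dN S N a (w (cs j) N) 1‖ ≤ η := fun j =>
    not_eventually.1 (hcs' j)
  obtain ⟨Ns, hNs, hNs'⟩ := extraction_forall_of_frequently h1
  have h2 : ∀ j, ∃ ε : Pt (Ns j) → ℂ, (∀ z, ε z = 1 ∨ ε z = -1) ∧
      η < ‖S.s a (rmul (exX (Ns j) ε) (w (cs j) (Ns j))) (exX (Ns j) ε)‖ := by
    intro j
    by_contra hno
    push Not at hno
    refine hNs' j (dN_sign S a _ _ η fun ε hε => ?_)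
    rw [mul_one]
    exact hno ε hε
  choose ε hε hgt using h2
  set v : ℕ → Xf := fun j => exX (Ns j) (ε j) with hv
  have hv1 : ∀ j, ‖v j‖ ≤ 1 := fun j =>
    norm_exX_le zero_le_one fun z => (norm_of_sign (hε j z)).le
  have hv0 : ∀ j (p : Ix), p.N ≠ Ns j → v j p = 0 := by
    intro j p hp
    rw [hv]
    show exX (Ns j) (ε j) p = 0
    rw [exX_apply, if_neg fun h => hp h.1]
  set idx : ℕ → ℕ := fun n => if h : ∃ j, Ns j = n then h.choose else 0 with hidx
  have hidx1 : ∀ j, idx (Ns j) = j := by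
    intro j
    have h : ∃ i, Ns i = Ns j := ⟨j, rfl⟩
    rw [hidx]
    simp only [dif_pos h]
    exact hNs.injective h.choose_spec
  have hidx2 : ∀ p : Ix, (∀ j, Ns j ≠ p.N) → v (idx p.N) p = 0 := fun p hp =>
    hv0 _ _ fun h => hp _ h.symm
  -- the operator
  let W0 : Li → Xf := fun s => BoundedContinuousFunction.ofNormedAddCommGroupDiscrete
    (fun p => s (idx p.N) * v (idx p.N) p) ‖s‖ (fun p => by
      rw [norm_mul]
      have h3 := s.norm_coe_le_norm (idx p.N)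
      have h4 := ((v (idx p.N)).norm_coe_le_norm p).trans (hv1 _)
      calc ‖s (idx p.N)‖ * ‖v (idx p.N) p‖ ≤ ‖s‖ * 1 :=
            mul_le_mul h3 h4 (norm_nonneg _) (norm_nonneg _)
        _ = ‖s‖ := mul_one _)
  have hW0 : ∀ s p, W0 s p = s (idx p.N) * v (idx p.N) p := fun _ _ => rfl
  have hWadd : ∀ s t, W0 (s + t) = W0 s + W0 t := by
    intro s t
    ext p
    rw [BoundedContinuousFunction.coe_add, Pi.add_apply, hW0, hW0, hW0,
      BoundedContinuousFunction.coe_add, Pi.add_apply, add_mul]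
  have hWsmul : ∀ (c : ℂ) s, W0 (c • s) = c • W0 s := by
    intro c s
    ext p
    show W0 (c • s) p = c • W0 s p
    rw [hW0, hW0]
    show (c • s (idx p.N)) * v (idx p.N) p = _
    rw [smul_mul_assoc]
  have hWnorm : ∀ s, ‖W0 s‖ ≤ ‖s‖ := by
    intro s
    rw [BoundedContinuousFunction.norm_le (norm_nonneg _)]
    intro p
    rw [hW0, norm_mul]
    have h3 := s.norm_coe_le_norm (idx p.N)
    have h4 := ((v (idx p.N)).norm_coe_le_norm p).trans (hv1 _)
    calc ‖s (idx p.N)‖ * ‖v (idx p.N) p‖ ≤ ‖s‖ * 1 :=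
          mul_le_mul h3 h4 (norm_nonneg _) (norm_nonneg _)
      _ = ‖s‖ := mul_one _
  have hWe : ∀ j, W0 (eL j) = v j := by
    intro j
    ext p
    rw [hW0]
    show (if idx p.N = j then (1 : ℂ) else 0) * v (idx p.N) p = v j p
    by_cases h3 : ∃ i, Ns i = p.N
    · obtain ⟨i, hi⟩ := h3
      rw [← hi, hidx1]
      by_cases h4 : i = j
      · subst h4
        rw [if_pos rfl, one_mul]
      · rw [if_neg h4, zero_mul]
        refine (hv0 j p fun h5 => h4 (hNs.injective ?_)).symm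
        rw [hi, h5]
    · push Not at h3
      rw [hidx2 p h3, mul_zero, hv0 j p fun h => h3 j h.symm]
  set Qs : ℕ → Vk (m + 1) := fun j => rmul (v j) (w (cs j) (Ns j)) with hQs
  have hQn : ∀ j, ‖Qs j‖ ≤ M := by
    intro j
    refine (norm_rmul_le _ _).trans ?_
    exact (mul_le_of_le_one_right (norm_nonneg _) (hv1 j)).trans (hM _ _)
  let ψ : ℕ → (Li →ₗ[ℂ] ℂ) := fun j =>
    { toFun := fun s => S.s a (Qs j) (W0 s)
      map_add' := fun s t => by rw [hWadd, S.add_x]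
      map_smul' := fun c s => by rw [hWsmul, S.smul_x]; rfl }
  have hψ : ∀ j s, ψ j s = S.s a (Qs j) (W0 s) := fun _ _ => rfl
  have hbd : ∀ j s, ‖ψ j s‖ ≤ (S.C * M * ∏ i, ‖a i‖) * ‖s‖ := by
    intro j s
    rw [hψ]
    refine (S.bound _ _ _).trans ?_
    have hC := S.hC
    have hM0 : 0 ≤ M := (norm_nonneg _).trans (hM 0 0)
    have h5 := hQn j
    have h6 := hWnorm s
    have hP : 0 ≤ ∏ i, ‖a i‖ := prod_nonneg fun i _ => norm_nonneg _
    gcongr
  have hconv : ∀ s, Tendsto (fun j => ψ j s) atTop (𝓝 0) := by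
    intro s
    refine S.cont Qs M hQn (fun b ξ => ?_) a (W0 s)
    rw [Metric.tendsto_atTop]
    intro δ hδ
    have h7 := hw b (δ / (2 * (‖ξ‖ + 1))) (by positivity)
    obtain ⟨c0, hc0⟩ := eventually_atTop.1 h7
    refine ⟨c0, fun j hj => ?_⟩
    rw [dist_zero_right, hQs]
    simp only [ev_rmul]
    have h8 := hc0 (cs j) (hj.trans (hcs.id_le j)) (Ns j) (v j * ξ)
    have h9 : ‖v j * ξ‖ ≤ ‖ξ‖ :=
      (norm_mul_le _ _).trans (mul_le_of_le_one_left (norm_nonneg _) (hv1 j))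
    have hξ := norm_nonneg ξ
    calc ‖ev (w (cs j) (Ns j)) b (v j * ξ)‖ ≤ δ / (2 * (‖ξ‖ + 1)) * ‖v j * ξ‖ := h8
      _ ≤ δ / (2 * (‖ξ‖ + 1)) * (‖ξ‖ + 1) := by
          refine mul_le_mul_of_nonneg_left ?_ (by positivity)
          linarith
      _ = δ / 2 := by field_simp
      _ < δ := by linarith
  have hph := phillips ψ _ hbd hconv
  rw [Metric.tendsto_atTop] at hph
  obtain ⟨j0, hj0⟩ := hph η hη
  have h10 := hj0 j0 le_rfl
  rw [dist_zero_right, hψ, hWe] at h10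
  have h11 := hgt j0
  have h12 : S.s a (Qs j0) (v j0) =
      S.s a (rmul (exX (Ns j0) (ε j0)) (w (cs j0) (Ns j0))) (exX (Ns j0) (ε j0)) := rfl
  rw [h12] at h10
  linarith

end

end Pool.Agent.Helper5.Dg
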