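import Mathlib
import Pool.Agent.Helper5.Dg.Core2

/-!
The Cantor set in the interval and the extension operator.
-/

namespace Pool.Agent.Helper5.Dg

open Filter Topology unitInterval

noncomputable section

/-- The ternary digit. -/
def bt (b : Bool) : ℝ := if b then 2 else 0

lemma bt_nonneg (b : Bool) : 0 ≤ bt b := by cases b <;> simp [bt]

lemma bt_le (b : Bool) : bt b ≤ 2 := by cases b <;> simp [bt]

/-- The Cantor map. -/
def kap (ω : Cn) : ℝ := ∑' i, bt (ω i) * (1 / 3 : ℝ) ^ (i + 1)

lemma summable_geo : Summable fun i : ℕ => 2 * (1 / 3 : ℝ) ^ (i + 1) := by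
  have h : Summable fun i : ℕ => (1 / 3 : ℝ) ^ i :=
    summable_geometric_of_lt_one (by norm_num) (by norm_num)
  have h2 := (h.mul_left (1 / 3)).mul_left 2
  refine h2.congr fun i => ?_
  rw [pow_succ]
  ring

lemma summable_kap (ω : Cn) : Summable fun i => bt (ω i) * (1 / 3 : ℝ) ^ (i + 1) := by
  refine Summable.of_nonneg_of_le (fun i => mul_nonneg (bt_nonneg _) (by positivity))
    (fun i => ?_) summable_geo
  exact mul_le_mul_of_nonneg_right (bt_le _) (by positivity)

lemma kap_nonneg (ω : Cn) : 0 ≤ kap ω :=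
  tsum_nonneg fun i => mul_nonneg (bt_nonneg _) (by positivity)

lemma tsum_geo : ∑' i : ℕ, 2 * (1 / 3 : ℝ) ^ (i + 1) = 1 := by
  have h : ∑' i : ℕ, (1 / 3 : ℝ) ^ i = (1 - 1 / 3)⁻¹ :=
    tsum_geometric_of_lt_one (by norm_num) (by norm_num)
  have h2 : (fun i : ℕ => 2 * (1 / 3 : ℝ) ^ (i + 1)) = fun i => (2 / 3) * (1 / 3 : ℝ) ^ i := by
    funext i
    rw [pow_succ]
    ring
  rw [h2, tsum_mul_left, h]
  norm_num

lemma kap_le_one (ω : Cn) : kap ω ≤ 1 := by
  rw [← tsum_geo]
  exact (summable_kap ω).tsum_le_tsum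
    (fun i => mul_le_mul_of_nonneg_right (bt_le _) (by positivity)) summable_geo

lemma continuous_kap : Continuous kap := by
  unfold kap
  refine continuous_tsum (u := fun i => 2 * (1 / 3 : ℝ) ^ (i + 1)) (fun i => ?_) summable_geo
    fun i ω => ?_
  · have h1 : Continuous fun ω : Cn => bt (ω i) :=
      (continuous_of_discreteTopology (f := bt)).comp (continuous_apply i)
    exact h1.mul continuous_const
  · rw [Real.norm_of_nonneg (mul_nonneg (bt_nonneg _) (by positivity))]
    exact mul_le_mul_of_nonneg_right (bt_le _) (by positivity)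

lemma kap_cons (b : Bool) (ω : Cn) : kap (insN 0 b ω) = (bt b + kap ω) / 3 := by
  unfold kap
  rw [(summable_kap (insN 0 b ω)).tsum_eq_zero_add, insN_eq]
  have h1 : ∀ i, bt (insN 0 b ω (i + 1)) * (1 / 3 : ℝ) ^ (i + 1 + 1) =
      (1 / 3) * (bt (ω i) * (1 / 3 : ℝ) ^ (i + 1)) := by
    intro i
    rw [insN_gt _ _ (by omega), Nat.add_sub_cancel, pow_succ]
    ring
  rw [tsum_congr h1, tsum_mul_left]
  ring

/-- The Cantor map. -/
def kI : C(Cn, I) := ⟨fun ω => ⟨kap ω, kap_nonneg ω, kap_le_one ω⟩,
  continuous_kap.subtype_mk _⟩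

/-- The algebra on the interval. -/
abbrev AI : Type := C(I, ℂ)

/-- Composition as an operator. -/
def compC {X Y : Type*} [TopologicalSpace X] [TopologicalSpace Y] [CompactSpace X]
    [CompactSpace Y] (g : C(X, Y)) : C(Y, ℂ) →L[ℂ] C(X, ℂ) :=
  LinearMap.mkContinuous
    { toFun := fun f => f.comp g
      map_add' := fun _ _ => rfl
      map_smul' := fun _ _ => rfl } 1 (fun f => by
      rw [one_mul, ContinuousMap.norm_le _ (norm_nonneg _)]
      intro x
      exact ContinuousMap.norm_coe_le_norm f _)

lemma compC_apply {X Y : Type*} [TopologicalSpace X] [TopologicalSpace Y] [CompactSpace X]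
    [CompactSpace Y] (g : C(X, Y)) (f : C(Y, ℂ)) (x : X) : compC g f x = f (g x) := rfl

/-- The restriction to the Cantor set. -/
def rI : AI →L[ℂ] Al := compC kI

lemma rI_apply (f : AI) (ω : Cn) : rI f ω = f (kI ω) := rfl

lemma rI_mul (f g : AI) : rI (f * g) = rI f * rI g := rfl

lemma rI_one : rI 1 = 1 := rfl

lemma norm_rI_le (f : AI) : ‖rI f‖ ≤ ‖f‖ := by
  rw [ContinuousMap.norm_le _ (norm_nonneg _)]
  intro ω
  exact ContinuousMap.norm_coe_le_norm f _

/-- Prepending a bit. -/
def consC (b : Bool) : C(Cn, Cn) := ⟨insN 0 b, by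
  refine continuous_pi fun i => ?_
  rcases Nat.eq_zero_or_pos i with h | h
  · subst h
    simp only [insN_eq]
    exact continuous_const
  · simp only [insN_gt _ _ h]
    exact continuous_apply _⟩

/-- The probability of the digit two. -/
def pr2 (x : ℝ) : ℝ := max 0 (min 1 (3 * x - 1))

lemma pr2_nonneg (x : ℝ) : 0 ≤ pr2 x := le_max_left _ _

lemma pr2_le (x : ℝ) : pr2 x ≤ 1 := max_le zero_le_one (min_le_left _ _)

/-- The weight function. -/
def pC : AI := ⟨fun x => ((pr2 x : ℝ) : ℂ), by
  unfold pr2
  fun_prop⟩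

lemma pC_apply (x : I) : pC x = ((pr2 x : ℝ) : ℂ) := rfl

/-- The left expansion. -/
def x0C : C(I, I) := ⟨fun x => ⟨min (3 * (x : ℝ)) 1, le_min (by have := x.2.1; linarith)
  zero_le_one, min_le_right _ _⟩, by fun_prop⟩

/-- The right expansion. -/
def x1C : C(I, I) := ⟨fun x => ⟨max (3 * (x : ℝ) - 2) 0, le_max_right _ _,
  max_le (by have := x.2.2; linarith) zero_le_one⟩, by fun_prop⟩

/-- Approximate extension operators. -/
def En : ℕ → (Al →L[ℂ] AI)
  | 0 => LinearMap.mkContinuous
      { toFun := fun f => ContinuousMap.const I (f fun _ => false)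
        map_add' := fun _ _ => rfl
        map_smul' := fun _ _ => rfl } 1 (fun f => by
        rw [one_mul, ContinuousMap.norm_le _ (norm_nonneg _)]
        intro x
        exact ContinuousMap.norm_coe_le_norm f _)
  | n + 1 => (ContinuousLinearMap.mul ℂ AI (1 - pC)).comp
        ((compC x0C).comp ((En n).comp (compC (consC false)))) +
      (ContinuousLinearMap.mul ℂ AI pC).comp
        ((compC x1C).comp ((En n).comp (compC (consC true))))

lemma En_zero (f : Al) (x : I) : En 0 f x = f fun _ => false := rfl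

lemma En_succ (n : ℕ) (f : Al) (x : I) : En (n + 1) f x =
    (1 - (pr2 x : ℂ)) * En n (compC (consC false) f) (x0C x) +
      (pr2 x : ℂ) * En n (compC (consC true) f) (x1C x) := rfl

lemma convex_bound {p : ℝ} (h0 : 0 ≤ p) (h1 : p ≤ 1) {z w : ℂ} {δ : ℝ} (hz : ‖z‖ ≤ δ)
    (hw : ‖w‖ ≤ δ) : ‖(1 - (p : ℂ)) * z + (p : ℂ) * w‖ ≤ δ := by
  refine (norm_add_le _ _).trans ?_
  rw [norm_mul, norm_mul]
  have e1 : ‖(1 : ℂ) - (p : ℂ)‖ = 1 - p := by
    have : (1 : ℂ) - (p : ℂ) = ((1 - p : ℝ) : ℂ) := by push_cast; ring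
    rw [this, Complex.norm_real, Real.norm_of_nonneg (by linarith)]
  have e2 : ‖(p : ℂ)‖ = p := by rw [Complex.norm_real, Real.norm_of_nonneg h0]
  rw [e1, e2]
  nlinarith [norm_nonneg z, norm_nonneg w]

lemma En_close (n : ℕ) (f : Al) (c : ℂ) {δ : ℝ} (h : ∀ ω, ‖f ω - c‖ ≤ δ) (x : I) :
    ‖En n f x - c‖ ≤ δ := by
  induction n generalizing f x with
  | zero => exact h _
  | succ n ih =>
    rw [En_succ]
    have e : (1 - (pr2 x : ℂ)) * En n (compC (consC false) f) (x0C x) +
        (pr2 x : ℂ) * En n (compC (consC true) f) (x1C x) - c =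
        (1 - (pr2 x : ℂ)) * (En n (compC (consC false) f) (x0C x) - c) +
        (pr2 x : ℂ) * (En n (compC (consC true) f) (x1C x) - c) := by ring
    rw [e]
    exact convex_bound (pr2_nonneg _) (pr2_le _) (ih (compC (consC false) f) (fun ω => h _) _)
      (ih (compC (consC true) f) (fun ω => h _) _)

lemma En_cauchy (n k : ℕ) (f : Al) {δ : ℝ}
    (h : ∀ ω ω' : Cn, (∀ i < n, ω i = ω' i) → ‖f ω - f ω'‖ ≤ δ) (x : I) :
    ‖En (n + k) f x - En n f x‖ ≤ δ := by
  induction n generalizing f x with
  | zero =>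
    rw [Nat.zero_add, En_zero]
    exact En_close k f _ (fun ω => h _ _ fun i hi => by omega) x
  | succ n ih =>
    have hn : n + 1 + k = n + k + 1 := by ring
    rw [hn, En_succ, En_succ]
    have e : (1 - (pr2 x : ℂ)) * En (n + k) (compC (consC false) f) (x0C x) +
        (pr2 x : ℂ) * En (n + k) (compC (consC true) f) (x1C x) -
        ((1 - (pr2 x : ℂ)) * En n (compC (consC false) f) (x0C x) +
        (pr2 x : ℂ) * En n (compC (consC true) f) (x1C x)) =
        (1 - (pr2 x : ℂ)) * (En (n + k) (compC (consC false) f) (x0C x) -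
          En n (compC (consC false) f) (x0C x)) +
        (pr2 x : ℂ) * (En (n + k) (compC (consC true) f) (x1C x) -
          En n (compC (consC true) f) (x1C x)) := by ring
    rw [e]
    have hb : ∀ b, ∀ ω ω' : Cn, (∀ i < n, ω i = ω' i) →
        ‖compC (consC b) f ω - compC (consC b) f ω'‖ ≤ δ := by
      intro b ω ω' hω
      refine h _ _ fun i hi => ?_
      show insN 0 b ω i = insN 0 b ω' i
      rcases Nat.eq_zero_or_pos i with h0 | h0
      · subst h0
        rw [insN_eq, insN_eq]
      · rw [insN_gt _ _ h0, insN_gt _ _ h0, hω _ (by omega)]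
    exact convex_bound (pr2_nonneg _) (pr2_le _) (ih _ (hb false) _) (ih _ (hb true) _)

lemma cons_shift (ω : Cn) : insN 0 (ω 0) (fun i => ω (i + 1)) = ω := by
  funext i
  rcases Nat.eq_zero_or_pos i with h0 | h0
  · subst h0
    rw [insN_eq]
  · rw [insN_gt _ _ h0]
    congr 1
    omega

lemma En_kI (n : ℕ) (f : Al) (ω : Cn) :
    En n f (kI ω) = f fun i => if i < n then ω i else false := by
  induction n generalizing f ω with
  | zero => rw [En_zero]; rfl
  | succ n ih =>
    rw [En_succ]
    set ω' : Cn := fun i => ω (i + 1) with hω'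
    have hω : insN 0 (ω 0) ω' = ω := cons_shift ω
    have hk : kap ω = (bt (ω 0) + kap ω') / 3 := by rw [← kap_cons, hω]
    have hv : ((kI ω : I) : ℝ) = kap ω := rfl
    have h0 := kap_nonneg ω'
    have h1 := kap_le_one ω'
    have htr : ∀ b, ω 0 = b → insN 0 b (fun i => if i < n then ω' i else false) =
        fun i => if i < n + 1 then ω i else false := by
      intro b hb
      funext i
      rcases Nat.eq_zero_or_pos i with h2 | h2
      · subst h2
        rw [insN_eq, if_pos (by omega), hb]
      · rw [insN_gt _ _ h2]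
        simp only [hω']
        by_cases h3 : i < n + 1
        · rw [if_pos h3, if_pos (by omega)]
          congr 1
          omega
        · rw [if_neg h3, if_neg (by omega)]
    cases hb : ω 0 with
    | false =>
      rw [hb] at hk
      have hp : pr2 (kI ω) = 0 := by
        unfold pr2
        rw [hv, hk]
        have : min 1 (3 * ((bt false + kap ω') / 3) - 1) ≤ 0 := by
          refine (min_le_right _ _).trans ?_
          simp only [bt]
          norm_num
          linarith
        exact max_eq_left this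
      have hx : x0C (kI ω) = kI ω' := by
        apply Subtype.ext
        show min (3 * kap ω) 1 = kap ω'
        rw [hk]
        simp only [bt]
        norm_num
        rw [min_eq_left (by linarith)]
        ring
      rw [hp, hx, ih]
      push_cast
      rw [sub_zero, one_mul, zero_mul, add_zero, compC_apply]
      exact congrArg f (htr false hb)
    | true =>
      rw [hb] at hk
      have hp : pr2 (kI ω) = 1 := by
        unfold pr2
        rw [hv, hk]
        have : (1 : ℝ) ≤ 3 * ((bt true + kap ω') / 3) - 1 := by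
          simp only [bt]
          norm_num
          linarith
        rw [min_eq_left this]
        norm_num
      have hx : x1C (kI ω) = kI ω' := by
        apply Subtype.ext
        show max (3 * kap ω - 2) 0 = kap ω'
        rw [hk]
        simp only [bt]
        norm_num
        rw [max_eq_left (by linarith)]
        ring
      rw [hp, hx, ih]
      push_cast
      rw [sub_self, zero_mul, one_mul, zero_add, compC_apply]
      exact congrArg f (htr true hb)

lemma exists_extension : ∃ E : Al →L[ℂ] AI, ∀ f, rI (E f) = f := by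
  have hc : ∀ f, ∃ g, Tendsto (fun n => En n f) atTop (𝓝 g) := by
    intro f
    refine cauchySeq_tendsto_of_complete (Metric.cauchySeq_iff'.2 fun ε hε => ?_)
    obtain ⟨c0, hc0⟩ := osc_cont f (half_pos hε)
    refine ⟨c0, fun n hn => ?_⟩
    obtain ⟨k, rfl⟩ := Nat.exists_eq_add_of_le hn
    have h1 : dist (En (c0 + k) f) (En c0 f) ≤ ε / 2 := by
      rw [ContinuousMap.dist_le (by positivity)]
      intro x
      rw [dist_eq_norm]
      exact En_cauchy c0 k f (hc0 c0 le_rfl) x
    linarith
  choose g hg using hc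
  have hg' : Tendsto (fun n f => En n f) atTop (𝓝 g) := tendsto_pi_nhds.2 hg
  refine ⟨continuousLinearMapOfTendsto _ hg', fun f => ?_⟩
  have hE : continuousLinearMapOfTendsto _ hg' f = g f := rfl
  rw [hE]
  ext ω
  rw [rI_apply]
  have h1 : Tendsto (fun n => En n f (kI ω)) atTop (𝓝 (g f (kI ω))) :=
    ((ContinuousMap.evalCLM ℂ (kI ω)).continuous.tendsto (g f)).comp (hg f)
  have h2 : Tendsto (fun n => En n f (kI ω)) atTop (𝓝 (f ω)) := by
    simp only [En_kI]
    refine (f.continuous.tendsto ω).comp ?_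
    rw [tendsto_pi_nhds]
    intro i
    refine tendsto_const_nhds.congr' ?_
    filter_upwards [eventually_gt_atTop i] with n hn
    rw [if_pos hn]
  exact tendsto_nhds_unique h1 h2

/-- The extension operator. -/
def EI : Al →L[ℂ] AI := exists_extension.choose

lemma rI_EI (f : Al) : rI (EI f) = f := exists_extension.choose_spec f

end

end Pool.Agent.Helper5.Dg
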