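import Mathlib
import Pool.Agent.Helper5.Dg.Interval

/-!
The approximate identity of the ideal of functions vanishing on the Cantor set.
-/

namespace Pool.Agent.Helper5.Dg

open Filter Topology unitInterval Finset

noncomputable section

/-- The distance to the Cantor set. -/
def dS (x : I) : ℝ := Metric.infDist x (Set.range kI)

lemma dS_nonneg (x : I) : 0 ≤ dS x := Metric.infDist_nonneg

lemma continuous_dS : Continuous dS := Metric.continuous_infDist_pt _

lemma dS_kI (ω : Cn) : dS (kI ω) = 0 := Metric.infDist_zero_of_mem ⟨ω, rfl⟩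

/-- Cut-off functions. -/
def uR : ℕ → I → ℝ
  | 0, _ => 0
  | n + 1, x => max 0 (min 1 (2 ^ (n + 1) * dS x - 1))

lemma uR_succ (n : ℕ) (x : I) : uR (n + 1) x = max 0 (min 1 (2 ^ (n + 1) * dS x - 1)) := rfl

lemma uR_nonneg (n : ℕ) (x : I) : 0 ≤ uR n x := by
  cases n with
  | zero => exact le_rfl
  | succ n => exact le_max_left _ _

lemma uR_le_one (n : ℕ) (x : I) : uR n x ≤ 1 := by
  cases n with
  | zero => exact zero_le_one
  | succ n => exact max_le zero_le_one (min_le_left _ _)

lemma uR_step (n : ℕ) (x : I) : uR n x ≤ uR (n + 1) x := by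
  cases n with
  | zero => exact uR_nonneg _ _
  | succ n =>
    rw [uR_succ, uR_succ]
    have h := dS_nonneg x
    have h2 : (2 : ℝ) ^ (n + 1) * dS x - 1 ≤ 2 ^ (n + 1 + 1) * dS x - 1 := by
      rw [pow_succ (2 : ℝ) (n + 1)]
      have : 0 ≤ (2 : ℝ) ^ (n + 1) * dS x := by positivity
      nlinarith
    exact max_le_max le_rfl (min_le_min le_rfl h2)

lemma uR_mul_succ (n : ℕ) (x : I) : uR n x * uR (n + 1) x = uR n x := by
  cases n with
  | zero => show (0 : ℝ) * _ = 0; ring
  | succ n =>
    by_cases h : (2 : ℝ) ^ (n + 1) * dS x - 1 ≤ 0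
    · have : uR (n + 1) x = 0 := by
        rw [uR_succ]
        exact max_eq_left ((min_le_right _ _).trans h)
      rw [this, zero_mul]
    · push Not at h
      have h2 : 1 ≤ (2 : ℝ) ^ (n + 1 + 1) * dS x - 1 := by
        rw [pow_succ (2 : ℝ) (n + 1)]
        linarith
      have : uR (n + 1 + 1) x = 1 := by
        rw [uR_succ, min_eq_left h2]
        norm_num
      rw [this, mul_one]

lemma uR_mono (x : I) : Monotone fun n => uR n x := monotone_nat_of_le_succ fun n => uR_step n x

lemma uR_mul {i j : ℕ} (h : i < j) (x : I) : uR i x * uR j x = uR i x := by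
  have h1 := uR_mul_succ i x
  have h2 : uR (i + 1) x ≤ uR j x := uR_mono x h
  have h3 := uR_le_one j x
  have h4 := uR_nonneg i x
  refine le_antisymm (mul_le_of_le_one_right h4 h3) ?_
  calc uR i x = uR i x * uR (i + 1) x := h1.symm
    _ ≤ uR i x * uR j x := mul_le_mul_of_nonneg_left h2 h4

/-- The approximate identity. -/
def uC (n : ℕ) : AI := ⟨fun x => ((uR n x : ℝ) : ℂ), by
  have h : Continuous fun x => uR n x := by
    cases n with
    | zero => exact continuous_const
    | succ n =>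
      show Continuous fun x => max 0 (min 1 (2 ^ (n + 1) * dS x - 1))
      have := continuous_dS
      fun_prop
  exact Complex.continuous_ofReal.comp h⟩

lemma uC_apply (n : ℕ) (x : I) : uC n x = ((uR n x : ℝ) : ℂ) := rfl

lemma uC_zero : uC 0 = 0 := by
  ext x
  rw [uC_apply]
  simp [uR]

lemma uC_mul {i j : ℕ} (h : i < j) : uC i * uC j = uC i := by
  ext x
  rw [ContinuousMap.mul_apply, uC_apply, uC_apply, ← Complex.ofReal_mul, uR_mul h]

lemma norm_uC_le (n : ℕ) : ‖uC n‖ ≤ 1 := by
  rw [ContinuousMap.norm_le _ zero_le_one]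
  intro x
  rw [uC_apply, Complex.norm_real, Real.norm_of_nonneg (uR_nonneg _ _)]
  exact uR_le_one _ _

lemma rI_uC (n : ℕ) : rI (uC n) = 0 := by
  ext ω
  rw [rI_apply, uC_apply]
  cases n with
  | zero => simp [uR]
  | succ n =>
    rw [uR_succ, dS_kI]
    norm_num

lemma uC_tendsto {j : AI} (hj : rI j = 0) : Tendsto (fun n => uC n * j) atTop (𝓝 j) := by
  rw [Metric.tendsto_atTop]
  intro ε hε
  have huc : UniformContinuous j := CompactSpace.uniformContinuous_of_continuous j.continuous
  obtain ⟨δ, hδ, hδ'⟩ := Metric.uniformContinuous_iff.1 huc (ε / 2) (by positivity)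
  obtain ⟨n0, hn0⟩ := exists_nat_gt (2 / δ)
  refine ⟨n0 + 1, fun n hn => ?_⟩
  obtain ⟨n', rfl⟩ : ∃ n', n = n' + 1 := ⟨n - 1, by omega⟩
  have hle : dist (uC (n' + 1) * j) j ≤ ε / 2 := by
    rw [ContinuousMap.dist_le (by positivity)]
    intro x
    rw [dist_eq_norm, ContinuousMap.mul_apply, uC_apply]
    have e1 : ((uR (n' + 1) x : ℝ) : ℂ) * j x - j x = -(((1 - uR (n' + 1) x : ℝ) : ℂ) * j x) := by
      push_cast
      ring
    rw [e1, norm_neg, norm_mul, Complex.norm_real]
    have h0 := uR_nonneg (n' + 1) x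
    have h1 := uR_le_one (n' + 1) x
    rw [Real.norm_of_nonneg (by linarith)]
    by_cases hx : dS x < δ
    · have hne : (Set.range kI).Nonempty := Set.range_nonempty _
      obtain ⟨y, ⟨ω, rfl⟩, hy⟩ := (Metric.infDist_lt_iff hne).1 hx
      have h2 := hδ' hy
      have h3 : j (kI ω) = 0 := by rw [← rI_apply, hj]; rfl
      rw [h3, dist_zero_right] at h2
      have h4 := norm_nonneg (j x)
      nlinarith
    · push Not at hx
      have h2 : 2 ≤ (2 : ℝ) ^ (n' + 1) * dS x := by
        have h3 : (n0 : ℝ) ≤ 2 ^ (n' + 1) := by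
          have : n0 ≤ 2 ^ (n' + 1) := by
            have h4 : n' + 1 < 2 ^ (n' + 1) := Nat.lt_two_pow_self
            omega
          exact_mod_cast this
        rw [div_lt_iff₀ hδ] at hn0
        nlinarith
      have h5 : uR (n' + 1) x = 1 := by
        rw [uR_succ, min_eq_left (by linarith)]
        norm_num
      rw [h5, sub_self, zero_mul]
      positivity
  linarith

/-- Differences. -/
def sC (i : ℕ) : AI := uC (i + 1) - uC i

/-- Wide differences. -/
def tC (i : ℕ) : AI := uC (i + 2) - uC (i - 1)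

lemma rI_tC (i : ℕ) : rI (tC i) = 0 := by
  unfold tC
  rw [map_sub, rI_uC, rI_uC, sub_self]

lemma tC_mul_sC (i : ℕ) : tC i * sC i = sC i := by
  unfold tC sC
  rcases Nat.eq_zero_or_pos i with h | h
  · subst h
    have h1 := uC_mul (show 0 + 1 < 0 + 2 by omega)
    rw [show 0 - 1 = 0 by rfl, uC_zero, sub_zero, sub_zero, mul_comm]
    exact h1
  · have h1 : uC (i + 2) * uC (i + 1) = uC (i + 1) := by
      rw [mul_comm, uC_mul (by omega)]
    have h2 : uC (i + 2) * uC i = uC i := by rw [mul_comm, uC_mul (by omega)]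
    have h3 : uC (i - 1) * uC (i + 1) = uC (i - 1) := uC_mul (by omega)
    have h4 : uC (i - 1) * uC i = uC (i - 1) := uC_mul (by omega)
    rw [sub_mul, mul_sub, mul_sub, h1, h2, h3, h4]
    ring

lemma sC_mul_uC {i k : ℕ} (h : k < i) : sC i * uC k = 0 := by
  unfold sC
  rw [sub_mul, mul_comm, uC_mul (by omega), mul_comm, uC_mul (by omega), sub_self]

lemma uC_mul_tC {i k : ℕ} (h : i + 2 < k) : uC k * tC i = tC i := by
  unfold tC
  rw [mul_sub, mul_comm, uC_mul (by omega), mul_comm, uC_mul (by omega)]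

lemma sum_sC (n : ℕ) : ∑ i ∈ range n, sC i = uC n := by
  unfold sC
  rw [sum_range_sub, uC_zero, sub_zero]

lemma norm_signed_le (f : ℕ → AI) (g : ℕ → I → ℝ) (hfg : ∀ i x, f i x = ((g i x : ℝ) : ℂ))
    (hg : ∀ i x, 0 ≤ g i x) (n : ℕ) {C : ℝ} (hC : ∀ x, ∑ i ∈ range n, g i x ≤ C)
    {ε : ℕ → ℂ} (hε : ∀ i, ‖ε i‖ ≤ 1) (hC0 : 0 ≤ C) : ‖∑ i ∈ range n, ε i • f i‖ ≤ C := by
  rw [ContinuousMap.norm_le _ hC0]
  intro x
  rw [ContinuousMap.coe_sum, Finset.sum_apply]
  refine (norm_sum_le _ _).trans ((sum_le_sum fun i _ => ?_).trans (hC x))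
  rw [ContinuousMap.coe_smul, Pi.smul_apply, norm_smul, hfg, Complex.norm_real,
    Real.norm_of_nonneg (hg i x)]
  exact mul_le_of_le_one_left (hg i x) (hε i)

lemma norm_signed_sC (n : ℕ) {ε : ℕ → ℂ} (hε : ∀ i, ‖ε i‖ ≤ 1) :
    ‖∑ i ∈ range n, ε i • sC i‖ ≤ 1 := by
  refine norm_signed_le sC (fun i x => uR (i + 1) x - uR i x) (fun i x => ?_) (fun i x => ?_) n
    (fun x => ?_) hε zero_le_one
  · unfold sC
    rw [ContinuousMap.sub_apply, uC_apply, uC_apply]
    push_cast
    ring
  · have := uR_step i x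
    linarith
  · rw [sum_range_sub (fun i => uR i x)]
    have h1 := uR_le_one n x
    have h2 := uR_nonneg 0 x
    linarith

lemma norm_signed_tC (n : ℕ) {ε : ℕ → ℂ} (hε : ∀ i, ‖ε i‖ ≤ 1) :
    ‖∑ i ∈ range n, ε i • tC i‖ ≤ 3 := by
  refine norm_signed_le tC (fun i x => uR (i + 2) x - uR (i - 1) x) (fun i x => ?_)
    (fun i x => ?_) n (fun x => ?_) hε (by norm_num)
  · unfold tC
    rw [ContinuousMap.sub_apply, uC_apply, uC_apply]
    push_cast
    ring
  · have : uR (i - 1) x ≤ uR (i + 2) x := uR_mono x (by omega : i - 1 ≤ i + 2)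
    linarith
  · have e : ∀ i ∈ range n, uR (i + 2) x - uR (i - 1) x =
        (uR (i + 1 + 1) x - uR (i + 1) x) + (uR (i + 1) x - uR i x) +
          (uR i x - uR (i - 1) x) := fun i _ => by ring
    rw [sum_congr rfl e, sum_add_distrib, sum_add_distrib,
      sum_range_sub (fun i => uR (i + 1) x), sum_range_sub (fun i => uR i x)]
    have h3 : ∑ i ∈ range n, (uR i x - uR (i - 1) x) ≤ 1 := by
      cases n with
      | zero => simp
      | succ n =>
        rw [sum_range_succ', show 0 - 1 = 0 by rfl, sub_self, add_zero]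
        have e2 : ∀ i ∈ range n, uR (i + 1) x - uR (i + 1 - 1) x = uR (i + 1) x - uR i x :=
          fun i _ => by rw [Nat.add_sub_cancel]
        rw [sum_congr rfl e2, sum_range_sub (fun i => uR i x)]
        have h1 := uR_le_one n x
        have h2 := uR_nonneg 0 x
        linarith
    have h4 := uR_le_one (n + 1) x
    have h5 := uR_nonneg (0 + 1) x
    have h6 := uR_le_one n x
    have h7 := uR_nonneg 0 x
    linarith

/-- Sign trick in a normed space. -/
lemma sign_trickV {X Y Z : Type*} [AddCommGroup X] [Module ℂ X] [AddCommGroup Y] [Module ℂ Y]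
    [NormedAddCommGroup Z] [NormedSpace ℂ Z]
    {B : X → Y → Z} (add_left : ∀ x x' y, B (x + x') y = B x y + B x' y)
    (smul_left : ∀ (c : ℂ) x y, B (c • x) y = c • B x y)
    (add_right : ∀ x y y', B x (y + y') = B x y + B x y')
    (smul_right : ∀ (c : ℂ) x y, B x (c • y) = c • B x y)
    {κ : Type*} (s : Finset κ) (x : κ → X) (y : κ → Y) (M : ℝ) :
    ∀ (x0 : X) (y0 : Y),
    (∀ ε : κ → ℂ, (∀ i, ε i = 1 ∨ ε i = -1) →
      ‖B (x0 + ∑ i ∈ s, ε i • x i) (y0 + ∑ i ∈ s, ε i • y i)‖ ≤ M) →
    ‖B x0 y0 + ∑ i ∈ s, B (x i) (y i)‖ ≤ M := by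
  classical
  have neg_left : ∀ x y, B (-x) y = - B x y := by
    intro x y
    have := smul_left (-1) x y
    simpa using this
  have neg_right : ∀ x y, B x (-y) = - B x y := by
    intro x y
    have := smul_right (-1) x y
    simpa using this
  induction s using Finset.induction_on with
  | empty =>
    intro x0 y0 H
    simpa using H (fun _ => 1) (fun _ => Or.inl rfl)
  | insert j s hj ih =>
    intro x0 y0 H
    have e : B x0 y0 + ∑ i ∈ insert j s, B (x i) (y i) =
        (1 / 2 : ℂ) • ((B (x0 + x j) (y0 + y j) + ∑ i ∈ s, B (x i) (y i)) +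
          (B (x0 + -x j) (y0 + -y j) + ∑ i ∈ s, B (x i) (y i))) := by
      rw [Finset.sum_insert hj, add_left, add_right, add_right, add_left, add_right,
        add_right, neg_left, neg_left, neg_right, neg_right]
      module
    have hp : ∀ δ : ℂ, (δ = 1 ∨ δ = -1) →
        ‖B (x0 + δ • x j) (y0 + δ • y j) + ∑ i ∈ s, B (x i) (y i)‖ ≤ M := by
      intro δ hδ
      apply ih
      intro ε hε
      have := H (Function.update ε j δ) (by
        intro i
        by_cases hij : i = j
        · subst hij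
          simpa using hδ
        · simpa [Function.update_of_ne hij] using hε i)
      rw [Finset.sum_insert hj, Finset.sum_insert hj] at this
      have e1 : ∑ i ∈ s, Function.update ε j δ i • x i = ∑ i ∈ s, ε i • x i := by
        refine Finset.sum_congr rfl fun i hi => ?_
        rw [Function.update_of_ne (fun hij => hj (by rwa [← hij]))]
      have e2 : ∑ i ∈ s, Function.update ε j δ i • y i = ∑ i ∈ s, ε i • y i := by
        refine Finset.sum_congr rfl fun i hi => ?_
        rw [Function.update_of_ne (fun hij => hj (by rwa [← hij]))]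
      rw [e1, e2, Function.update_self, ← add_assoc, ← add_assoc] at this
      exact this
    have h1 := hp 1 (Or.inl rfl)
    have h2 := hp (-1) (Or.inr rfl)
    rw [one_smul, one_smul] at h1
    rw [neg_one_smul, neg_one_smul] at h2
    rw [e, norm_smul]
    have h3 := norm_add_le (B (x0 + x j) (y0 + y j) + ∑ i ∈ s, B (x i) (y i))
      (B (x0 + -x j) (y0 + -y j) + ∑ i ∈ s, B (x i) (y i))
    have h4 : ‖(1 / 2 : ℂ)‖ = 1 / 2 := by norm_num
    rw [h4]
    linarith

end

end Pool.Agent.Helper5.Dg
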