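import Mathlib

/-!
Banach modules, relative projectivity, resolutions and dimensions.
-/

namespace Pool.Agent.Helper5.Dg

noncomputable section

/-- A complex Banach space with a family of bounded operators indexed by `R`. -/
structure OpMod (R : Type) where
  /-- The underlying Banach space. -/
  carrier : Type
  [grp : NormedAddCommGroup carrier]
  [spc : NormedSpace ℂ carrier]
  [cpl : CompleteSpace carrier]
  /-- The operators. -/
  act : R → carrier →L[ℂ] carrier

attribute [instance] OpMod.grp OpMod.spc OpMod.cpl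

/-- A morphism: a bounded linear map commuting with all the operators. -/
def IsMor {R : Type} (X Y : OpMod R) (f : X.carrier →L[ℂ] Y.carrier) : Prop :=
  ∀ r x, f (X.act r x) = Y.act r (f x)

/-- Relative projectivity in the class `K` of modules: morphisms lift through the admissible
epimorphisms (the surjective morphisms with a bounded linear right inverse). -/
def Proj {R : Type} (K : OpMod R → Prop) (P : OpMod R) : Prop :=
  ∀ E F : OpMod R, K E → K F → ∀ q : E.carrier →L[ℂ] F.carrier, IsMor E F q →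
    ∀ s : F.carrier →L[ℂ] E.carrier, (∀ y, q (s y) = y) →
    ∀ f : P.carrier →L[ℂ] F.carrier, IsMor P F f →
    ∃ g : P.carrier →L[ℂ] E.carrier, IsMor P E g ∧ ∀ x, q (g x) = f x

/-- An admissible (linearly contractible) projective resolution of `X` of length at most `n` in
the class `K`. -/
structure Resol {R : Type} (K : OpMod R → Prop) (n : ℕ) (X : OpMod R) where
  /-- The modules of the resolution. -/
  P : ℕ → OpMod R
  mem : ∀ i, K (P i)
  proj : ∀ i, Proj K (P i)
  zero : ∀ i, n < i → ∀ x : (P i).carrier, x = 0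
  /-- The augmentation. -/
  e : (P 0).carrier →L[ℂ] X.carrier
  /-- The differentials. -/
  d : ∀ i, (P (i + 1)).carrier →L[ℂ] (P i).carrier
  mor_e : IsMor (P 0) X e
  mor_d : ∀ i, IsMor (P (i + 1)) (P i) (d i)
  /-- The contracting homotopy. -/
  t : X.carrier →L[ℂ] (P 0).carrier
  /-- The contracting homotopy. -/
  s : ∀ i, (P i).carrier →L[ℂ] (P (i + 1)).carrier
  e_d : ∀ x, e (d 0 x) = 0
  d_d : ∀ i x, d i (d (i + 1) x) = 0
  e_t : ∀ x, e (t x) = x
  t_e : ∀ x, t (e x) + d 0 (s 0 x) = x
  s_d : ∀ i x, s i (d i x) + d (i + 1) (s (i + 1) x) = x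

/-- The homological dimension of `X` in the class `K`. -/
def homDim {R : Type} (K : OpMod R → Prop) (X : OpMod R) : ℕ∞ :=
  sInf {N : ℕ∞ | ∃ n : ℕ, N = n ∧ Nonempty (Resol K n X)}

/-- The supremum of the homological dimensions of the modules in the class `K`. -/
def glDim {R : Type} (K : OpMod R → Prop) : ℕ∞ := ⨆ (X : OpMod R) (_ : K X), homDim K X

section Algebra

variable (A : Type) [NormedRing A] [NormedAlgebra ℂ A]

/-- Left Banach `A`-modules. -/
structure LeftMod (X : OpMod A) : Prop where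
  add : ∀ a b x, X.act (a + b) x = X.act a x + X.act b x
  smul : ∀ (c : ℂ) a x, X.act (c • a) x = c • X.act a x
  mul : ∀ a b x, X.act (a * b) x = X.act a (X.act b x)
  bound : ∃ C : ℝ, ∀ a x, ‖X.act a x‖ ≤ C * ‖a‖ * ‖x‖

/-- Banach `A`-bimodules: `act (Sum.inl a)` is the left and `act (Sum.inr a)` is the right
multiplication by `a`. -/
structure BiMod (X : OpMod (A ⊕ A)) : Prop where
  add_l : ∀ a b x, X.act (Sum.inl (a + b)) x = X.act (Sum.inl a) x + X.act (Sum.inl b) x
  smul_l : ∀ (c : ℂ) a x, X.act (Sum.inl (c • a)) x = c • X.act (Sum.inl a) x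
  mul_l : ∀ a b x, X.act (Sum.inl (a * b)) x = X.act (Sum.inl a) (X.act (Sum.inl b) x)
  add_r : ∀ a b x, X.act (Sum.inr (a + b)) x = X.act (Sum.inr a) x + X.act (Sum.inr b) x
  smul_r : ∀ (c : ℂ) a x, X.act (Sum.inr (c • a)) x = c • X.act (Sum.inr a) x
  mul_r : ∀ a b x, X.act (Sum.inr (a * b)) x = X.act (Sum.inr b) (X.act (Sum.inr a) x)
  comm : ∀ a b x, X.act (Sum.inl a) (X.act (Sum.inr b) x) =
    X.act (Sum.inr b) (X.act (Sum.inl a) x)
  bound : ∃ C : ℝ, ∀ a x, ‖X.act (Sum.inl a) x‖ ≤ C * ‖a‖ * ‖x‖ ∧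
    ‖X.act (Sum.inr a) x‖ ≤ C * ‖a‖ * ‖x‖

/-- The algebra as a bimodule over itself. -/
def regBi [CompleteSpace A] : OpMod (A ⊕ A) where
  carrier := A
  act := Sum.elim (fun a => ContinuousLinearMap.mul ℂ A a)
    (fun a => (ContinuousLinearMap.mul ℂ A).flip a)

/-- The global dimension of a Banach algebra. -/
def globalDim : ℕ∞ := glDim (LeftMod A)

/-- The bidimension of a unital Banach algebra. -/
def biDim [CompleteSpace A] : ℕ∞ := homDim (BiMod A) (regBi A)

end Algebra

end

end Pool.Agent.Helper5.Dg
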