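import Mathlib
import Pool.Agent.Helper5.Dg.Cat

/-!
Recursive form of finite projective resolutions.
-/

namespace Pool.Agent.Helper5.Dg

noncomputable section

variable {R : Type}

/-- Closed submodules. -/
def subMod (M : OpMod R) (K : Submodule ℂ M.carrier) (hK : IsClosed (K : Set M.carrier))
    (hinv : ∀ r, ∀ x ∈ K, M.act r x ∈ K) : OpMod R where
  carrier := K
  cpl := hK.completeSpace_coe
  act r := ((M.act r).comp K.subtypeL).codRestrict K fun x => hinv r x x.2

section SubMod

variable {M : OpMod R} {K : Submodule ℂ M.carrier} {hK : IsClosed (K : Set M.carrier)}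
  {hinv : ∀ r, ∀ x ∈ K, M.act r x ∈ K}

/-- The inclusion of a closed submodule. -/
def subIncl (M : OpMod R) (K : Submodule ℂ M.carrier) (hK : IsClosed (K : Set M.carrier))
    (hinv : ∀ r, ∀ x ∈ K, M.act r x ∈ K) : (subMod M K hK hinv).carrier →L[ℂ] M.carrier :=
  K.subtypeL

lemma subIncl_mem (x : (subMod M K hK hinv).carrier) : subIncl M K hK hinv x ∈ K := x.2

lemma subIncl_inj {x y : (subMod M K hK hinv).carrier}
    (h : subIncl M K hK hinv x = subIncl M K hK hinv y) : x = y := Subtype.ext h

lemma subIncl_mor : IsMor (subMod M K hK hinv) M (subIncl M K hK hinv) := fun _ _ => rfl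

lemma subIncl_norm (x : (subMod M K hK hinv).carrier) : ‖subIncl M K hK hinv x‖ = ‖x‖ := rfl

/-- Corestriction to a closed submodule. -/
def subLift (M : OpMod R) (K : Submodule ℂ M.carrier) (hK : IsClosed (K : Set M.carrier))
    (hinv : ∀ r, ∀ x ∈ K, M.act r x ∈ K) {E : Type*} [NormedAddCommGroup E] [NormedSpace ℂ E]
    (f : E →L[ℂ] M.carrier) (hf : ∀ x, f x ∈ K) : E →L[ℂ] (subMod M K hK hinv).carrier :=
  f.codRestrict K hf

lemma subIncl_subLift {E : Type*} [NormedAddCommGroup E] [NormedSpace ℂ E]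
    (f : E →L[ℂ] M.carrier) (hf : ∀ x, f x ∈ K) (x : E) :
    subIncl M K hK hinv (subLift M K hK hinv f hf x) = f x := rfl

end SubMod

/-- The class is closed under closed submodules. -/
def SubClosed (K : OpMod R → Prop) : Prop :=
  ∀ (M : OpMod R) (N : Submodule ℂ M.carrier) (hN : IsClosed (N : Set M.carrier))
    (hinv : ∀ r, ∀ x ∈ N, M.act r x ∈ N), K M → K (subMod M N hN hinv)

/-- An admissible short exact sequence. -/
structure Ses (K : OpMod R → Prop) (Z' P Z : OpMod R) where
  /-- The inclusion. -/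
  i : Z'.carrier →L[ℂ] P.carrier
  /-- The projection. -/
  d : P.carrier →L[ℂ] Z.carrier
  /-- The retraction. -/
  k : P.carrier →L[ℂ] Z'.carrier
  /-- The section. -/
  t : Z.carrier →L[ℂ] P.carrier
  mor_i : IsMor Z' P i
  mor_d : IsMor P Z d
  k_i : ∀ x, k (i x) = x
  d_t : ∀ x, d (t x) = x
  split : ∀ x, i (k x) + t (d x) = x

lemma Ses.d_i {K : OpMod R → Prop} {Z' P Z : OpMod R} (S : Ses K Z' P Z) (x : Z'.carrier) :
    S.d (S.i x) = 0 := by
  have h1 := S.split (S.i x)
  rw [S.k_i] at h1
  have h2 : S.t (S.d (S.i x)) = 0 := by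
    have := add_eq_left.1 h1
    exact this
  rw [← S.d_t (S.d (S.i x)), h2, map_zero]

lemma Ses.of_d {K : OpMod R → Prop} {Z' P Z : OpMod R} (S : Ses K Z' P Z) {x : P.carrier}
    (h : S.d x = 0) : S.i (S.k x) = x := by
  have h1 := S.split x
  rw [h, map_zero, add_zero] at h1
  exact h1

/-- Homological dimension at most `k`, recursively. -/
def dhle (K : OpMod R → Prop) : ℕ → OpMod R → Prop
  | 0, Z => Proj K Z
  | k + 1, Z => ∃ Z' P : OpMod R, K Z' ∧ K P ∧ Proj K P ∧ Nonempty (Ses K Z' P Z) ∧
      dhle K k Z'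

lemma IsMor.comp {X Y Z : OpMod R} {g : Y.carrier →L[ℂ] Z.carrier}
    {f : X.carrier →L[ℂ] Y.carrier} (hg : IsMor Y Z g) (hf : IsMor X Y f) :
    IsMor X Z (g.comp f) := fun r x => by
  rw [ContinuousLinearMap.comp_apply, ContinuousLinearMap.comp_apply, hf, hg]

/-- Retracts of projective modules are projective. -/
lemma Proj.retract {K : OpMod R → Prop} {P X : OpMod R} (hP : Proj K P)
    (i : X.carrier →L[ℂ] P.carrier) (p : P.carrier →L[ℂ] X.carrier) (hi : IsMor X P i)
    (hp : IsMor P X p) (hpi : ∀ x, p (i x) = x) : Proj K X := by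
  intro E F hE hF q hq s hs f hf
  obtain ⟨g, hg, hqg⟩ := hP E F hE hF q hq s hs (f.comp p) (hf.comp hp)
  refine ⟨g.comp i, hg.comp hi, fun x => ?_⟩
  rw [ContinuousLinearMap.comp_apply, hqg, ContinuousLinearMap.comp_apply, hpi]

lemma dhle_of_resol {K : OpMod R → Prop} (hK : SubClosed K) (n : ℕ) (X : OpMod R)
    (Q : Resol K n X) : dhle K n X := by
  induction n generalizing X with
  | zero =>
    have h1 : ∀ x, Q.t (Q.e x) = x := by
      intro x
      have := Q.t_e x
      rw [Q.zero 1 (by omega) (Q.s 0 x), map_zero, add_zero] at this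
      exact this
    refine (Q.proj 0).retract Q.t Q.e (fun r x => ?_) Q.mor_e Q.e_t
    rw [← Q.e_t x, ← Q.mor_e, h1, Q.e_t]
  | succ n ih =>
    let N : Submodule ℂ (Q.P 0).carrier := LinearMap.ker (Q.e : (Q.P 0).carrier →ₗ[ℂ] X.carrier)
    have hmem : ∀ x, x ∈ N ↔ Q.e x = 0 := fun x => LinearMap.mem_ker
    have hN : IsClosed (N : Set (Q.P 0).carrier) := by
      have : (N : Set (Q.P 0).carrier) = {x | Q.e x = 0} := by
        ext x
        exact hmem x
      rw [this]
      exact isClosed_eq Q.e.continuous continuous_const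
    have hinv : ∀ r, ∀ x ∈ N, (Q.P 0).act r x ∈ N := by
      intro r x hx
      rw [hmem] at hx ⊢
      rw [Q.mor_e, hx, map_zero]
    let Z' := subMod (Q.P 0) N hN hinv
    let ι := subIncl (Q.P 0) N hN hinv
    have hι : ∀ z, Q.e (ι z) = 0 := fun z => (hmem _).1 (subIncl_mem z)
    let kk : (Q.P 0).carrier →L[ℂ] Z'.carrier := subLift (Q.P 0) N hN hinv
      ((Q.d 0).comp (Q.s 0)) (fun x => by
        rw [hmem, ContinuousLinearMap.comp_apply, Q.e_d])
    have hkk : ∀ x, ι (kk x) = Q.d 0 (Q.s 0 x) := fun x => rfl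
    have hti : ∀ z, ι (kk (ι z)) = ι z := by
      intro z
      rw [hkk]
      have := Q.t_e (ι z)
      rw [hι, map_zero, zero_add] at this
      exact this
    refine ⟨Z', Q.P 0, hK _ _ _ _ (Q.mem 0), Q.mem 0, Q.proj 0, ⟨?_⟩, ?_⟩
    · exact
        { i := ι
          d := Q.e
          k := kk
          t := Q.t
          mor_i := subIncl_mor
          mor_d := Q.mor_e
          k_i := fun x => subIncl_inj (hti x)
          d_t := Q.e_t
          split := fun x => by
            rw [hkk]
            exact (add_comm _ _).trans (Q.t_e x) }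
    · let e' : (Q.P 1).carrier →L[ℂ] Z'.carrier := subLift (Q.P 0) N hN hinv (Q.d 0) (fun x => by
        rw [hmem, Q.e_d])
      have he' : ∀ x, ι (e' x) = Q.d 0 x := fun x => rfl
      refine ih Z'
        { P := fun i => Q.P (i + 1)
          mem := fun i => Q.mem _
          proj := fun i => Q.proj _
          zero := fun i hi => Q.zero _ (by omega)
          e := e'
          d := fun i => Q.d (i + 1)
          mor_e := fun r x => subIncl_inj (by
            rw [he', Q.mor_d]
            rfl)
          mor_d := fun i => Q.mor_d _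
          t := (Q.s 0).comp ι
          s := fun i => Q.s (i + 1)
          e_d := fun x => subIncl_inj (by
            show ι (e' (Q.d (0 + 1) x)) = ι 0
            rw [he', Q.d_d, map_zero])
          d_d := fun i => Q.d_d _
          e_t := fun x => subIncl_inj (hti x)
          t_e := fun x => by
            rw [ContinuousLinearMap.comp_apply, he']
            exact Q.s_d 0 x
          s_d := fun i => Q.s_d _ }

lemma resol_succ {K : OpMod R → Prop} {n : ℕ} {X : OpMod R} (Q : Resol K n X) :
    Nonempty (Resol K (n + 1) X) :=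
  ⟨{ Q with zero := fun i hi => Q.zero i (by omega) }⟩

lemma resol_mono {K : OpMod R → Prop} {n m : ℕ} (h : n ≤ m) {X : OpMod R} (Q : Resol K n X) :
    Nonempty (Resol K m X) := ⟨{ Q with zero := fun i hi => Q.zero i (by omega) }⟩

/-- Infinite dimension from the non-existence of finite resolutions. -/
lemma homDim_eq_top {K : OpMod R → Prop} (hK : SubClosed K) {X : OpMod R}
    (h : ∀ m, ¬ dhle K (m + 1) X) : homDim K X = ⊤ := by
  unfold homDim
  rw [sInf_eq_top]
  rintro N ⟨n, rfl, ⟨Q⟩⟩
  exfalso
  obtain ⟨Q'⟩ := resol_succ Q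
  exact h n (dhle_of_resol hK _ _ Q')

lemma leftMod_subClosed (A : Type) [NormedRing A] [NormedAlgebra ℂ A] :
    SubClosed (LeftMod A) := by
  intro M N hN hinv hM
  obtain ⟨C, hC⟩ := hM.bound
  exact
    { add := fun a b x => subIncl_inj (hM.add a b _)
      smul := fun c a x => subIncl_inj (hM.smul c a _)
      mul := fun a b x => subIncl_inj (hM.mul a b _)
      bound := ⟨C, fun a x => hC a _⟩ }

lemma biMod_subClosed (A : Type) [NormedRing A] [NormedAlgebra ℂ A] :
    SubClosed (BiMod A) := by
  intro M N hN hinv hM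
  obtain ⟨C, hC⟩ := hM.bound
  exact
    { add_l := fun a b x => subIncl_inj (hM.add_l a b _)
      smul_l := fun c a x => subIncl_inj (hM.smul_l c a _)
      mul_l := fun a b x => subIncl_inj (hM.mul_l a b _)
      add_r := fun a b x => subIncl_inj (hM.add_r a b _)
      smul_r := fun c a x => subIncl_inj (hM.smul_r c a _)
      mul_r := fun a b x => subIncl_inj (hM.mul_r a b _)
      comm := fun a b x => subIncl_inj (hM.comm a b _)
      bound := ⟨C, fun a x => hC a _⟩ }

end

end Pool.Agent.Helper5.Dg
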