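import Mathlib

/-!
Balanced completed projective tensor products, realised inside duals of spaces of forms.
-/

namespace Pool.Agent.Helper5.Dg

open Filter Topology

noncomputable section

section Dual

variable (V : Type) [NormedAddCommGroup V] [NormedSpace ℂ V]

/-- The dual space. -/
def Du : Type := V →L[ℂ] ℂ

instance : NormedAddCommGroup (Du V) := inferInstanceAs (NormedAddCommGroup (V →L[ℂ] ℂ))

instance : NormedSpace ℂ (Du V) := inferInstanceAs (NormedSpace ℂ (V →L[ℂ] ℂ))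

instance : CompleteSpace (Du V) := inferInstanceAs (CompleteSpace (V →L[ℂ] ℂ))

variable {V}

/-- Pairing. -/
def du (f : Du V) (v : V) : ℂ := (show V →L[ℂ] ℂ from f) v

lemma du_add (f g : Du V) (v : V) : du (f + g) v = du f v + du g v := rfl

lemma du_smul (c : ℂ) (f : Du V) (v : V) : du (c • f) v = c * du f v := rfl

lemma du_map_add (f : Du V) (v w : V) : du f (v + w) = du f v + du f w :=
  map_add (show V →L[ℂ] ℂ from f) v w

lemma du_map_smul (f : Du V) (c : ℂ) (v : V) : du f (c • v) = c * du f v :=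
  map_smul (show V →L[ℂ] ℂ from f) c v

lemma du_norm_le (f : Du V) (v : V) : ‖du f v‖ ≤ ‖f‖ * ‖v‖ :=
  ContinuousLinearMap.le_opNorm (show V →L[ℂ] ℂ from f) v

lemma Du_norm_le {f : Du V} {C : ℝ} (hC : 0 ≤ C) (h : ∀ v, ‖du f v‖ ≤ C * ‖v‖) : ‖f‖ ≤ C :=
  ContinuousLinearMap.opNorm_le_bound (show V →L[ℂ] ℂ from f) hC h

lemma Du_ext {f g : Du V} (h : ∀ v, du f v = du g v) : f = g :=
  ContinuousLinearMap.ext (f := (show V →L[ℂ] ℂ from f)) h

/-- Functionals from functions. -/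
def mkDu (f : V → ℂ) (hadd : ∀ ξ η, f (ξ + η) = f ξ + f η)
    (hsmul : ∀ (c : ℂ) ξ, f (c • ξ) = c * f ξ) (C : ℝ) (h : ∀ ξ, ‖f ξ‖ ≤ C * ‖ξ‖) : Du V :=
  LinearMap.mkContinuous ({ toFun := f, map_add' := hadd, map_smul' := hsmul } : V →ₗ[ℂ] ℂ) C h

lemma du_mkDu (f : V → ℂ) (hadd hsmul) (C : ℝ) (h) (v : V) :
    du (mkDu f hadd hsmul C h) v = f v := rfl

/-- The canonical inclusion in the bidual. -/
def inc (v : V) : Du (Du V) := mkDu (fun f => du f v) (fun f g => du_add f g v)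
  (fun c f => du_smul c f v) ‖v‖ (fun f => by rw [mul_comm]; exact du_norm_le f v)

lemma du_inc (v : V) (f : Du V) : du (inc v) f = du f v := rfl

lemma inc_add (v w : V) : inc (v + w) = inc v + inc w :=
  Du_ext fun f => by rw [du_add, du_inc, du_inc, du_inc, du_map_add]

lemma inc_smul (c : ℂ) (v : V) : inc (c • v) = c • inc v :=
  Du_ext fun f => by rw [du_smul, du_inc, du_inc, du_map_smul]

lemma norm_inc (v : V) : ‖inc v‖ = ‖v‖ := by
  refine le_antisymm (Du_norm_le (norm_nonneg _) fun f => ?_) ?_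
  · rw [du_inc, mul_comm]
    exact du_norm_le f v
  · obtain ⟨g, hg, hg'⟩ := exists_dual_vector'' ℂ v
    have h1 := du_norm_le (inc v) (show Du V from g)
    have h2 : du (inc v) (show Du V from g) = (‖v‖ : ℂ) := hg'
    rw [h2, Complex.norm_real, norm_norm] at h1
    have h3 : ‖(show Du V from g)‖ ≤ 1 := hg
    have h4 := norm_nonneg (inc v)
    calc ‖v‖ ≤ ‖inc v‖ * ‖(show Du V from g)‖ := h1
      _ ≤ ‖inc v‖ * 1 := mul_le_mul_of_nonneg_left h3 h4
      _ = ‖inc v‖ := mul_one _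

/-- The inclusion as a linear isometry. -/
def incL : V →ₗᵢ[ℂ] Du (Du V) where
  toFun := inc
  map_add' := inc_add
  map_smul' := inc_smul
  norm_map' := norm_inc

end Dual

section

variable {R U V : Type} [NormedAddCommGroup U] [NormedSpace ℂ U] [NormedAddCommGroup V]
  [NormedSpace ℂ V]

variable (U V) in
/-- Bounded bilinear forms. -/
def Bl : Type := U →L[ℂ] Du V

instance : NormedAddCommGroup (Bl U V) := inferInstanceAs (NormedAddCommGroup (U →L[ℂ] Du V))

instance : NormedSpace ℂ (Bl U V) := inferInstanceAs (NormedSpace ℂ (U →L[ℂ] Du V))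

/-- Evaluation. -/
def bv (β : Bl U V) (u : U) (v : V) : ℂ := du ((show U →L[ℂ] Du V from β) u) v

lemma bv_add (β γ : Bl U V) (u v) : bv (β + γ) u v = bv β u v + bv γ u v := rfl

lemma bv_smul (c : ℂ) (β : Bl U V) (u v) : bv (c • β) u v = c * bv β u v := rfl

lemma bv_zero (u v) : bv (0 : Bl U V) u v = 0 := rfl

lemma bv_add_left (β : Bl U V) (u u' v) : bv β (u + u') v = bv β u v + bv β u' v := by
  unfold bv
  rw [map_add, du_add]

lemma bv_smul_left (β : Bl U V) (c : ℂ) (u v) : bv β (c • u) v = c * bv β u v := by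
  unfold bv
  rw [map_smul, du_smul]

lemma bv_add_right (β : Bl U V) (u v v') : bv β u (v + v') = bv β u v + bv β u v' :=
  du_map_add _ _ _

lemma bv_smul_right (β : Bl U V) (c : ℂ) (u v) : bv β u (c • v) = c * bv β u v :=
  du_map_smul _ _ _

lemma bv_norm_le (β : Bl U V) (u v) : ‖bv β u v‖ ≤ ‖β‖ * ‖u‖ * ‖v‖ :=
  (du_norm_le _ _).trans (mul_le_mul_of_nonneg_right
    (ContinuousLinearMap.le_opNorm (show U →L[ℂ] Du V from β) u) (norm_nonneg _))

lemma Bl_norm_le {β : Bl U V} {C : ℝ} (hC : 0 ≤ C) (h : ∀ u v, ‖bv β u v‖ ≤ C * ‖u‖ * ‖v‖) :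
    ‖β‖ ≤ C :=
  ContinuousLinearMap.opNorm_le_bound (show U →L[ℂ] Du V from β) hC fun u =>
    Du_norm_le (by positivity) fun v => h u v

lemma Bl_ext {β γ : Bl U V} (h : ∀ u v, bv β u v = bv γ u v) : β = γ :=
  ContinuousLinearMap.ext (f := (show U →L[ℂ] Du V from β)) fun u => Du_ext fun v => h u v

/-- Bounded bilinear maps as functions. -/
structure IsBil {Y : Type*} [NormedAddCommGroup Y] [NormedSpace ℂ Y] (b : U → V → Y) (C : ℝ) :
    Prop where
  add_left : ∀ u u' v, b (u + u') v = b u v + b u' v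
  smul_left : ∀ (c : ℂ) u v, b (c • u) v = c • b u v
  add_right : ∀ u v v', b u (v + v') = b u v + b u v'
  smul_right : ∀ (c : ℂ) u v, b u (c • v) = c • b u v
  nonneg : 0 ≤ C
  bound : ∀ u v, ‖b u v‖ ≤ C * ‖u‖ * ‖v‖

/-- Forms from functions. -/
def mkBl (b : U → V → ℂ) {C : ℝ} (hb : IsBil b C) : Bl U V :=
  LinearMap.mkContinuous
    ({ toFun := fun u => mkDu (b u) (hb.add_right u) (fun c v => hb.smul_right c u v) (C * ‖u‖)
        (hb.bound u)
       map_add' := fun u u' => Du_ext fun v => hb.add_left u u' v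
       map_smul' := fun c u => Du_ext fun v => hb.smul_left c u v } : U →ₗ[ℂ] Du V) C
    (fun u => Du_norm_le (mul_nonneg hb.nonneg (norm_nonneg _)) (hb.bound u))

lemma bv_mkBl (b : U → V → ℂ) {C : ℝ} (hb : IsBil b C) (u v) : bv (mkBl b hb) u v = b u v := rfl

variable (ρ : R → U →L[ℂ] U) (l : R → V →L[ℂ] V)

/-- Balanced bounded bilinear forms. -/
def BF : Submodule ℂ (Bl U V) where
  carrier := {β | ∀ r u v, bv β (ρ r u) v = bv β u (l r v)}
  add_mem' := by
    intro β γ hβ hγ r u v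
    rw [bv_add, bv_add, hβ, hγ]
  zero_mem' := by
    intro r u v
    rw [bv_zero, bv_zero]
  smul_mem' := by
    intro c β hβ r u v
    rw [bv_smul, bv_smul, hβ]

/-- Balanced bounded bilinear forms. -/
def BFt : Type := BF ρ l

instance : NormedAddCommGroup (BFt ρ l) := inferInstanceAs (NormedAddCommGroup (BF ρ l))

instance : NormedSpace ℂ (BFt ρ l) := inferInstanceAs (NormedSpace ℂ (BF ρ l))

/-- The underlying form. -/
def ud (β : BFt ρ l) : Bl U V := (show BF ρ l from β).1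

lemma ud_add (β γ : BFt ρ l) : ud ρ l (β + γ) = ud ρ l β + ud ρ l γ := rfl

lemma ud_smul (c : ℂ) (β : BFt ρ l) : ud ρ l (c • β) = c • ud ρ l β := rfl

lemma ud_norm (β : BFt ρ l) : ‖ud ρ l β‖ = ‖β‖ := rfl

lemma ud_bal (β : BFt ρ l) (r u v) : bv (ud ρ l β) (ρ r u) v = bv (ud ρ l β) u (l r v) :=
  (show BF ρ l from β).2 r u v

lemma ud_inj {β γ : BFt ρ l} (h : ud ρ l β = ud ρ l γ) : β = γ := Subtype.ext h

/-- Elementary functionals. -/
def elB (u : U) (v : V) : Du (BFt ρ l) :=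
  mkDu (fun β => bv (ud ρ l β) u v) (fun β γ => by rw [ud_add, bv_add])
    (fun c β => by rw [ud_smul, bv_smul]) (‖u‖ * ‖v‖) (fun β => by
      refine (bv_norm_le _ _ _).trans (le_of_eq ?_)
      rw [ud_norm]
      ring)

lemma du_elB (u : U) (v : V) (β) : du (elB ρ l u v) β = bv (ud ρ l β) u v := rfl

lemma norm_elB_le (u : U) (v : V) : ‖elB ρ l u v‖ ≤ ‖u‖ * ‖v‖ := by
  refine Du_norm_le (by positivity) fun β => ?_
  rw [du_elB]
  refine (bv_norm_le _ _ _).trans (le_of_eq ?_)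
  rw [ud_norm]
  ring

/-- The tensor product as a submodule. -/
def Ts : Submodule ℂ (Du (BFt ρ l)) :=
  (Submodule.span ℂ (Set.range fun p : U × V => elB ρ l p.1 p.2)).topologicalClosure

/-- The tensor product. -/
def Tt : Type := Ts ρ l

instance : NormedAddCommGroup (Tt ρ l) := inferInstanceAs (NormedAddCommGroup (Ts ρ l))

instance : NormedSpace ℂ (Tt ρ l) := inferInstanceAs (NormedSpace ℂ (Ts ρ l))

instance : CompleteSpace (Tt ρ l) :=
  (Submodule.isClosed_topologicalClosure _).completeSpace_coe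

/-- The inclusion. -/
def ti (w : Tt ρ l) : Du (BFt ρ l) := (show Ts ρ l from w).1

lemma ti_add (w w' : Tt ρ l) : ti ρ l (w + w') = ti ρ l w + ti ρ l w' := rfl

lemma ti_smul (c : ℂ) (w : Tt ρ l) : ti ρ l (c • w) = c • ti ρ l w := rfl

lemma ti_norm (w : Tt ρ l) : ‖ti ρ l w‖ = ‖w‖ := rfl

lemma ti_inj {w w' : Tt ρ l} (h : ti ρ l w = ti ρ l w') : w = w' := Subtype.ext h

/-- Elementary tensors. -/
def el (u : U) (v : V) : Tt ρ l :=
  ⟨elB ρ l u v, Submodule.le_topologicalClosure _ (Submodule.subset_span ⟨(u, v), rfl⟩)⟩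

lemma ti_el (u : U) (v : V) : ti ρ l (el ρ l u v) = elB ρ l u v := rfl

lemma el_add_left (u u' : U) (v : V) : el ρ l (u + u') v = el ρ l u v + el ρ l u' v :=
  ti_inj ρ l (Du_ext fun β => by
    rw [ti_add, du_add, ti_el, ti_el, ti_el, du_elB, du_elB, du_elB, bv_add_left])

lemma el_add_right (u : U) (v v' : V) : el ρ l u (v + v') = el ρ l u v + el ρ l u v' :=
  ti_inj ρ l (Du_ext fun β => by
    rw [ti_add, du_add, ti_el, ti_el, ti_el, du_elB, du_elB, du_elB, bv_add_right])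

lemma el_smul_left (c : ℂ) (u : U) (v : V) : el ρ l (c • u) v = c • el ρ l u v :=
  ti_inj ρ l (Du_ext fun β => by
    rw [ti_smul, du_smul, ti_el, ti_el, du_elB, du_elB, bv_smul_left])

lemma el_smul_right (c : ℂ) (u : U) (v : V) : el ρ l u (c • v) = c • el ρ l u v :=
  ti_inj ρ l (Du_ext fun β => by
    rw [ti_smul, du_smul, ti_el, ti_el, du_elB, du_elB, bv_smul_right])

lemma el_bal (r : R) (u : U) (v : V) : el ρ l (ρ r u) v = el ρ l u (l r v) :=
  ti_inj ρ l (Du_ext fun β => by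
    rw [ti_el, ti_el, du_elB, du_elB, ud_bal])

lemma norm_el_le (u : U) (v : V) : ‖el ρ l u v‖ ≤ ‖u‖ * ‖v‖ := norm_elB_le ρ l u v

lemma el_isBil : IsBil (el ρ l) 1 where
  add_left := el_add_left ρ l
  smul_left := el_smul_left ρ l
  add_right := el_add_right ρ l
  smul_right := el_smul_right ρ l
  nonneg := zero_le_one
  bound u v := by
    rw [one_mul]
    exact norm_el_le ρ l u v

lemma Tt_top (S : Submodule ℂ (Tt ρ l)) (hS : IsClosed (S : Set (Tt ρ l)))
    (h : ∀ u v, el ρ l u v ∈ S) (w : Tt ρ l) : w ∈ S := by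
  let S0 : Submodule ℂ (Ts ρ l) := S
  let S' : Submodule ℂ (Du (BFt ρ l)) := S0.map (Ts ρ l).subtype
  have h1 : IsClosed (S' : Set (Du (BFt ρ l))) := by
    have he : IsClosedEmbedding (Subtype.val : (Ts ρ l) → Du (BFt ρ l)) :=
      (Submodule.isClosed_topologicalClosure _).isClosedEmbedding_subtypeVal
    have h2 := he.isClosedMap _ hS
    exact h2
  have h2 : Ts ρ l ≤ S' := by
    refine Submodule.topologicalClosure_minimal _ ?_ h1
    rw [Submodule.span_le]
    rintro _ ⟨p, rfl⟩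
    exact ⟨el ρ l p.1 p.2, h _ _, rfl⟩
  obtain ⟨w', hw', he⟩ := h2 (show Ts ρ l from w).2
  have : w' = w := Subtype.ext he
  rw [← this]
  exact hw'

lemma Tt_ext {Y : Type*} [NormedAddCommGroup Y] [NormedSpace ℂ Y] {f g : Tt ρ l →L[ℂ] Y}
    (h : ∀ u v, f (el ρ l u v) = g (el ρ l u v)) (w : Tt ρ l) : f w = g w := by
  let S : Submodule ℂ (Tt ρ l) :=
    { carrier := {w | f w = g w}
      add_mem' := by
        intro a b ha hb
        show f (a + b) = g (a + b)
        rw [map_add, map_add, ha, hb]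
      zero_mem' := by
        show f 0 = g 0
        rw [map_zero, map_zero]
      smul_mem' := by
        intro c a ha
        show f (c • a) = g (c • a)
        rw [map_smul, map_smul, ha] }
  exact Tt_top ρ l S (isClosed_eq f.continuous g.continuous) h w

section Lift

variable {Y : Type} [NormedAddCommGroup Y] [NormedSpace ℂ Y]
  (b : U → V → Y) {C : ℝ} (hb : IsBil b C) (hbal : ∀ r u v, b (ρ r u) v = b u (l r v))

/-- Composition with functionals. -/
def cY (hb : IsBil b C) (hbal : ∀ r u v, b (ρ r u) v = b u (l r v)) (y : Du Y) : BFt ρ l :=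
  ⟨mkBl (C := ‖y‖ * C) (fun u v => du y (b u v))
    { add_left := fun u u' v => by rw [hb.add_left, du_map_add]
      smul_left := fun c u v => by rw [hb.smul_left, du_map_smul]; rfl
      add_right := fun u v v' => by rw [hb.add_right, du_map_add]
      smul_right := fun c u v => by rw [hb.smul_right, du_map_smul]; rfl
      nonneg := mul_nonneg (norm_nonneg _) hb.nonneg
      bound := fun u v => by
        refine (du_norm_le _ _).trans ?_
        calc ‖y‖ * ‖b u v‖ ≤ ‖y‖ * (C * ‖u‖ * ‖v‖) :=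
              mul_le_mul_of_nonneg_left (hb.bound u v) (norm_nonneg _)
          _ = _ := by ring }, fun r u v => by
    rw [bv_mkBl, bv_mkBl, hbal]⟩

lemma bv_cY (y : Du Y) (u : U) (v : V) : bv (ud ρ l (cY ρ l b hb hbal y)) u v = du y (b u v) :=
  rfl

lemma cY_add (y y' : Du Y) : cY ρ l b hb hbal (y + y') = cY ρ l b hb hbal y +
    cY ρ l b hb hbal y' :=
  ud_inj ρ l (Bl_ext fun u v => by rw [ud_add, bv_add, bv_cY, bv_cY, bv_cY, du_add])

lemma cY_smul (c : ℂ) (y : Du Y) : cY ρ l b hb hbal (c • y) = c • cY ρ l b hb hbal y :=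
  ud_inj ρ l (Bl_ext fun u v => by rw [ud_smul, bv_smul, bv_cY, bv_cY, du_smul])

lemma norm_cY_le (y : Du Y) : ‖cY ρ l b hb hbal y‖ ≤ ‖y‖ * C := by
  rw [← ud_norm]
  refine Bl_norm_le (mul_nonneg (norm_nonneg _) hb.nonneg) fun u v => ?_
  rw [bv_cY]
  refine (du_norm_le _ _).trans ?_
  calc ‖y‖ * ‖b u v‖ ≤ ‖y‖ * (C * ‖u‖ * ‖v‖) :=
        mul_le_mul_of_nonneg_left (hb.bound u v) (norm_nonneg _)
    _ = _ := by ring

/-- The extension to the bidual. -/
def bh (hb : IsBil b C) (hbal : ∀ r u v, b (ρ r u) v = b u (l r v)) (w : Tt ρ l) : Du (Du Y) :=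
  mkDu (fun y => du (ti ρ l w) (cY ρ l b hb hbal y))
    (fun y y' => by rw [cY_add, du_map_add]) (fun c y => by rw [cY_smul, du_map_smul])
    (‖w‖ * C) (fun y => by
      refine (du_norm_le _ _).trans ?_
      rw [ti_norm]
      calc ‖w‖ * ‖cY ρ l b hb hbal y‖ ≤ ‖w‖ * (‖y‖ * C) :=
            mul_le_mul_of_nonneg_left (norm_cY_le ρ l b hb hbal y) (norm_nonneg _)
        _ = _ := by ring)

lemma du_bh (w : Tt ρ l) (y : Du Y) :
    du (bh ρ l b hb hbal w) y = du (ti ρ l w) (cY ρ l b hb hbal y) := rfl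

/-- The extension as a bounded linear map. -/
def bhL (hb : IsBil b C) (hbal : ∀ r u v, b (ρ r u) v = b u (l r v)) :
    Tt ρ l →L[ℂ] Du (Du Y) :=
  LinearMap.mkContinuous
    ({ toFun := bh ρ l b hb hbal
       map_add' := fun w w' => Du_ext fun y => by
        rw [du_add, du_bh, du_bh, du_bh, ti_add, du_add]
       map_smul' := fun c w => Du_ext fun y => by
        rw [RingHom.id_apply, du_smul, du_bh, du_bh, ti_smul, du_smul] } :
          Tt ρ l →ₗ[ℂ] Du (Du Y)) C (fun w => by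
      refine Du_norm_le (mul_nonneg hb.nonneg (norm_nonneg _)) fun y => ?_
      show ‖du (bh ρ l b hb hbal w) y‖ ≤ _
      rw [du_bh]
      refine (du_norm_le _ _).trans ?_
      rw [ti_norm]
      calc ‖w‖ * ‖cY ρ l b hb hbal y‖ ≤ ‖w‖ * (‖y‖ * C) :=
            mul_le_mul_of_nonneg_left (norm_cY_le ρ l b hb hbal y) (norm_nonneg _)
        _ = _ := by ring)

lemma bhL_el (u : U) (v : V) : bhL ρ l b hb hbal (el ρ l u v) = inc (b u v) :=
  Du_ext fun y => by
    show du (bh ρ l b hb hbal (el ρ l u v)) y = _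
    rw [du_bh, ti_el, du_elB, bv_cY, du_inc]

include hb hbal in
/-- The universal property. -/
lemma exists_lift [CompleteSpace Y] :
    ∃ f : Tt ρ l →L[ℂ] Y, (∀ u v, f (el ρ l u v) = b u v) ∧ ‖f‖ ≤ C := by
  have hcl : IsClosed (Set.range (incL : Y →ₗᵢ[ℂ] Du (Du Y))) :=
    (incL : Y →ₗᵢ[ℂ] Du (Du Y)).isometry.isClosedEmbedding.isClosed_range
  have hr : ∀ w, ∃ y, inc y = bhL ρ l b hb hbal w := by
    intro w
    have := Tt_top ρ l ((LinearMap.range (incL : Y →ₗᵢ[ℂ] Du (Du Y)).toLinearMap).comap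
      (bhL ρ l b hb hbal : Tt ρ l →ₗ[ℂ] Du (Du Y))) (by
        have e : (((LinearMap.range (incL : Y →ₗᵢ[ℂ] Du (Du Y)).toLinearMap).comap
          (bhL ρ l b hb hbal : Tt ρ l →ₗ[ℂ] Du (Du Y)) : Submodule ℂ (Tt ρ l)) :
          Set (Tt ρ l)) =
          (bhL ρ l b hb hbal) ⁻¹' (Set.range (incL : Y →ₗᵢ[ℂ] Du (Du Y))) := by
          ext w
          rfl
        rw [e]
        exact hcl.preimage (bhL ρ l b hb hbal).continuous)
      (fun u v => ⟨b u v, (bhL_el ρ l b hb hbal u v).symm⟩) w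
    obtain ⟨y, hy⟩ := this
    exact ⟨y, hy⟩
  choose g hg using hr
  have hinj : ∀ y y' : Y, inc y = inc y' → y = y' := fun y y' h =>
    (incL : Y →ₗᵢ[ℂ] Du (Du Y)).injective h
  have hgn : ∀ w, ‖g w‖ ≤ C * ‖w‖ := by
    intro w
    rw [← norm_inc (g w), hg]
    refine (ContinuousLinearMap.le_opNorm _ _).trans ?_
    exact mul_le_mul_of_nonneg_right (LinearMap.mkContinuous_norm_le _ hb.nonneg _)
      (norm_nonneg _)
  refine ⟨LinearMap.mkContinuous
    ({ toFun := g
       map_add' := fun w w' => hinj _ _ (by rw [hg, map_add, inc_add, hg, hg])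
       map_smul' := fun c w => hinj _ _ (by
        rw [hg, map_smul, RingHom.id_apply, inc_smul, hg]) } : Tt ρ l →ₗ[ℂ] Y) C hgn,
    fun u v => ?_, LinearMap.mkContinuous_norm_le _ hb.nonneg _⟩
  exact hinj _ _ ((hg _).trans (bhL_el ρ l b hb hbal u v))

/-- The lift. -/
def tlift [CompleteSpace Y] (hb : IsBil b C) (hbal : ∀ r u v, b (ρ r u) v = b u (l r v)) :
    Tt ρ l →L[ℂ] Y := (exists_lift ρ l b hb hbal).choose

lemma tlift_el [CompleteSpace Y] (u : U) (v : V) :
    tlift ρ l b hb hbal (el ρ l u v) = b u v :=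
  (exists_lift ρ l b hb hbal).choose_spec.1 u v

lemma tlift_norm [CompleteSpace Y] : ‖tlift ρ l b hb hbal‖ ≤ C :=
  (exists_lift ρ l b hb hbal).choose_spec.2

end Lift

end

end

end Pool.Agent.Helper5.Dg
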