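import Mathlib
import Pool.Agent.Helper5.Dg.AppId
import Pool.Agent.Helper5.Dg.Tens
import Pool.Agent.Helper5.Dg.Rec

/-!
The part of a module generated by the ideal.
-/

namespace Pool.Agent.Helper5.Dg

open Filter Topology unitInterval Finset

noncomputable section

/-- The closed submodule generated by the ideal of the Cantor set. -/
def inJ (Z : OpMod AI) (z : Z.carrier) : Prop := Tendsto (fun n => Z.act (uC n) z) atTop (𝓝 z)

variable {Z : OpMod AI}

lemma LeftMod.exists_bound {A : Type} [NormedRing A] [NormedAlgebra ℂ A] {Z : OpMod A}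
    (hZ : LeftMod A Z) : ∃ C : ℝ, 0 ≤ C ∧ ∀ a x, ‖Z.act a x‖ ≤ C * ‖a‖ * ‖x‖ := by
  obtain ⟨C, hC⟩ := hZ.bound
  refine ⟨|C|, abs_nonneg _, fun a x => (hC a x).trans ?_⟩
  have := le_abs_self C
  gcongr

lemma LeftMod.zero_act {A : Type} [NormedRing A] [NormedAlgebra ℂ A] {Z : OpMod A}
    (hZ : LeftMod A Z) (x : Z.carrier) : Z.act 0 x = 0 := by
  have := hZ.smul 0 0 x
  rw [zero_smul, zero_smul] at this
  exact this

lemma LeftMod.sub_act {A : Type} [NormedRing A] [NormedAlgebra ℂ A] {Z : OpMod A}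
    (hZ : LeftMod A Z) (a b : A) (x : Z.carrier) : Z.act (a - b) x = Z.act a x - Z.act b x := by
  have h := hZ.add a ((-1 : ℂ) • b) x
  rw [hZ.smul, neg_one_smul, neg_one_smul, ← sub_eq_add_neg, ← sub_eq_add_neg] at h
  exact h

lemma LeftMod.sum_act {A : Type} [NormedRing A] [NormedAlgebra ℂ A] {Z : OpMod A}
    (hZ : LeftMod A Z) {κ : Type*} (s : Finset κ) (a : κ → A) (x : Z.carrier) :
    Z.act (∑ i ∈ s, a i) x = ∑ i ∈ s, Z.act (a i) x := by
  classical
  induction s using Finset.induction_on with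
  | empty => rw [sum_empty, sum_empty, hZ.zero_act]
  | insert j s hj ih => rw [sum_insert hj, sum_insert hj, hZ.add, ih]

lemma inJ_add {z w : Z.carrier} (hz : inJ Z z) (hw : inJ Z w) : inJ Z (z + w) := by
  unfold inJ
  simp only [map_add]
  exact hz.add hw

lemma inJ_sub {z w : Z.carrier} (hz : inJ Z z) (hw : inJ Z w) : inJ Z (z - w) := by
  unfold inJ
  simp only [map_sub]
  exact hz.sub hw

lemma inJ_smul {z : Z.carrier} (c : ℂ) (hz : inJ Z z) : inJ Z (c • z) := by
  unfold inJ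
  simp only [map_smul]
  exact hz.const_smul c

lemma inJ_zero : inJ Z (0 : Z.carrier) := by
  unfold inJ
  simp only [map_zero]
  exact tendsto_const_nhds

lemma inJ_closed (hZ : LeftMod AI Z) : IsClosed {z : Z.carrier | inJ Z z} := by
  obtain ⟨C, hC0, hC⟩ := hZ.exists_bound
  apply isClosed_of_closure_subset
  intro z hz
  show Tendsto _ _ _
  rw [Metric.tendsto_atTop]
  intro ε hε
  obtain ⟨w, hw, hd⟩ := Metric.mem_closure_iff.1 hz (ε / (2 * (C + 2))) (by positivity)
  have hw' : inJ Z w := hw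
  obtain ⟨n0, hn0⟩ := Metric.tendsto_atTop.1 hw' (ε / 2) (by positivity)
  refine ⟨n0, fun n hn => ?_⟩
  have h1 := hn0 n hn
  rw [dist_eq_norm] at h1 hd ⊢
  have e : Z.act (uC n) z - z = Z.act (uC n) (z - w) + (Z.act (uC n) w - w) - (z - w) := by
    rw [map_sub]
    abel
  have h2 : ‖Z.act (uC n) (z - w)‖ ≤ C * ‖z - w‖ := by
    refine (hC _ _).trans ?_
    have := norm_uC_le n
    have h3 : C * ‖uC n‖ ≤ C * 1 := mul_le_mul_of_nonneg_left this hC0
    calc C * ‖uC n‖ * ‖z - w‖ ≤ C * 1 * ‖z - w‖ :=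
          mul_le_mul_of_nonneg_right h3 (norm_nonneg _)
      _ = _ := by ring
  rw [e]
  have h4 : ‖Z.act (uC n) (z - w) + (Z.act (uC n) w - w) - (z - w)‖ ≤
      C * ‖z - w‖ + ‖Z.act (uC n) w - w‖ + ‖z - w‖ :=
    (norm_sub_le _ _).trans (add_le_add ((norm_add_le _ _).trans (add_le_add h2 le_rfl)) le_rfl)
  have h5 : (C + 1) * ‖z - w‖ ≤ ε / 2 := by
    have h6 : ‖z - w‖ * (2 * (C + 2)) < ε := by
      rw [lt_div_iff₀ (by positivity)] at hd
      exact hd
    nlinarith [norm_nonneg (z - w)]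
  linarith

lemma inJ_act_J (hZ : LeftMod AI Z) {j : AI} (hj : rI j = 0) (z : Z.carrier) :
    inJ Z (Z.act j z) := by
  obtain ⟨C, hC0, hC⟩ := hZ.exists_bound
  have h1 := uC_tendsto hj
  show Tendsto _ _ _
  rw [tendsto_iff_norm_sub_tendsto_zero] at h1 ⊢
  have h2 : Tendsto (fun n => C * ‖uC n * j - j‖ * ‖z‖) atTop (𝓝 (C * 0 * ‖z‖)) :=
    (h1.const_mul C).mul_const _
  rw [mul_zero, zero_mul] at h2
  refine squeeze_zero (fun n => norm_nonneg _) (fun n => ?_) h2
  rw [← hZ.mul, ← hZ.sub_act]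
  exact hC _ _

lemma inJ_act (hZ : LeftMod AI Z) {z : Z.carrier} (a : AI) (hz : inJ Z z) :
    inJ Z (Z.act a z) := by
  have h1 : ∀ n, Z.act (uC n) (Z.act a z) = Z.act a (Z.act (uC n) z) := by
    intro n
    rw [← hZ.mul, ← hZ.mul, mul_comm]
  show Tendsto _ _ _
  simp only [h1]
  exact ((Z.act a).continuous.tendsto z).comp hz

lemma inJ_mor {W : OpMod AI} {f : Z.carrier →L[ℂ] W.carrier} (hf : IsMor Z W f)
    {z : Z.carrier} (hz : inJ Z z) : inJ W (f z) := by
  have h1 : ∀ n, W.act (uC n) (f z) = f (Z.act (uC n) z) := fun n => (hf _ _).symm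
  show Tendsto _ _ _
  simp only [h1]
  exact (f.continuous.tendsto z).comp hz

lemma inJ_kill {Y : Type*} [NormedAddCommGroup Y] [NormedSpace ℂ Y]
    (T : Z.carrier →L[ℂ] Y) (hT : ∀ j, rI j = 0 → ∀ z, T (Z.act j z) = 0) {z : Z.carrier}
    (hz : inJ Z z) : T z = 0 := by
  have h1 : Tendsto (fun n => T (Z.act (uC n) z)) atTop (𝓝 (T z)) :=
    (T.continuous.tendsto z).comp hz
  simp only [hT _ (rI_uC _)] at h1
  exact (tendsto_nhds_unique h1 tendsto_const_nhds)

/-- Lifting through an admissible epimorphism inside the `J`-parts. -/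
lemma lift_J {P : OpMod AI} (hP : LeftMod AI P) (hZ : LeftMod AI Z)
    {d : P.carrier →L[ℂ] Z.carrier} (hd : IsMor P Z d) (t : Z.carrier →L[ℂ] P.carrier)
    (ht : ∀ z, d (t z) = z) {M : Type*} [NormedAddCommGroup M] [NormedSpace ℂ M]
    [CompleteSpace M] (q : M →L[ℂ] Z.carrier) (hq : ∀ m, inJ Z (q m)) :
    ∃ r : M →L[ℂ] P.carrier, (∀ m, d (r m) = q m) ∧ (∀ m, inJ P (r m)) ∧
      ∀ m, q m = 0 → r m = 0 := by
  obtain ⟨C, hC0, hC⟩ := hZ.exists_bound
  obtain ⟨C', hC0', hC'⟩ := hP.exists_bound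
  let τ : ℕ → (Z.carrier →L[ℂ] P.carrier) := fun n =>
    ∑ i ∈ range n, (P.act (tC i)).comp (t.comp (Z.act (sC i)))
  have hτ : ∀ n z, τ n z = ∑ i ∈ range n, P.act (tC i) (t (Z.act (sC i) z)) := by
    intro n z
    simp only [τ]
    rw [_root_.sum_apply]
    rfl
  -- uniform bound
  set D : ℝ := C' * 3 * (‖t‖ * (C * 1)) with hD
  have hτb : ∀ n z, ‖τ n z‖ ≤ D * ‖z‖ := by
    intro n z
    have key := sign_trickV (X := AI) (Y := AI) (B := fun x y => P.act x (t (Z.act y z)))
      (fun x x' y => hP.add _ _ _) (fun c x y => hP.smul _ _ _)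
      (fun x y y' => by rw [hZ.add, map_add, map_add])
      (fun c x y => by rw [hZ.smul, map_smul, map_smul])
      (range n) tC sC (D * ‖z‖) 0 0 (fun ε hε => by
        rw [zero_add, zero_add]
        have hε' : ∀ i, ‖ε i‖ ≤ 1 := by
          intro i
          rcases hε i with h | h <;> rw [h] <;> simp
        have h1 := norm_signed_sC n hε'
        have h2 := norm_signed_tC n hε'
        set a := ∑ i ∈ range n, ε i • tC i
        set b := ∑ i ∈ range n, ε i • sC i
        calc ‖P.act a (t (Z.act b z))‖ ≤ C' * ‖a‖ * ‖t (Z.act b z)‖ := hC' _ _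
          _ ≤ C' * ‖a‖ * (‖t‖ * (C * ‖b‖ * ‖z‖)) := by
              refine mul_le_mul_of_nonneg_left ?_ (by positivity)
              refine (t.le_opNorm _).trans ?_
              exact mul_le_mul_of_nonneg_left (hC _ _) (norm_nonneg _)
          _ ≤ C' * 3 * (‖t‖ * (C * 1 * ‖z‖)) := by gcongr
          _ = D * ‖z‖ := by rw [hD]; ring)
    rw [hZ.zero_act, map_zero, hP.zero_act, zero_add] at key
    rw [hτ]
    exact key
  have hstab : ∀ k n z, k + 1 ≤ n → τ n (Z.act (uC k) z) = τ (k + 1) (Z.act (uC k) z) := by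
    intro k n z hn
    rw [hτ, hτ]
    symm
    refine sum_subset (range_subset_range.2 hn) fun i _ hi => ?_
    rw [mem_range, not_lt] at hi
    rw [← hZ.mul, sC_mul_uC (by omega), hZ.zero_act, map_zero, map_zero]
  have hconv : ∀ m, ∃ p, Tendsto (fun n => τ n (q m)) atTop (𝓝 p) := by
    intro m
    refine cauchySeq_tendsto_of_complete (Metric.cauchySeq_iff'.2 fun ε hε => ?_)
    have hD0 : 0 ≤ D := by positivity
    obtain ⟨k, hk⟩ := (Metric.tendsto_atTop.1 (hq m)) (ε / (2 * (D + 1))) (by positivity)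
    have hk' := hk k le_rfl
    rw [dist_eq_norm] at hk'
    refine ⟨k + 1, fun n hn => ?_⟩
    rw [dist_eq_norm]
    set z := q m
    have e : τ n z - τ (k + 1) z = - τ n (Z.act (uC k) z - z) +
        τ (k + 1) (Z.act (uC k) z - z) := by
      rw [map_sub, map_sub, hstab k n z hn]
      abel
    rw [e]
    have h1 := hτb n (Z.act (uC k) z - z)
    have h2 := hτb (k + 1) (Z.act (uC k) z - z)
    have h3 : ‖Z.act (uC k) z - z‖ * (2 * (D + 1)) < ε := by
      rw [lt_div_iff₀ (by positivity)] at hk'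
      exact hk'
    have h4 : ‖-τ n (Z.act (uC k) z - z) + τ (k + 1) (Z.act (uC k) z - z)‖ ≤
        D * ‖Z.act (uC k) z - z‖ + D * ‖Z.act (uC k) z - z‖ := by
      refine (norm_add_le _ _).trans ?_
      rw [norm_neg]
      exact add_le_add h1 h2
    nlinarith [norm_nonneg (Z.act (uC k) z - z)]
  choose g hg using hconv
  have hg' : Tendsto (fun n m => ((τ n).comp q) m) atTop (𝓝 g) := tendsto_pi_nhds.2 hg
  have hr : ∀ m, continuousLinearMapOfTendsto _ hg' m = g m := fun m => rfl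
  refine ⟨continuousLinearMapOfTendsto _ hg', fun m => ?_, fun m => ?_, fun m hm => ?_⟩
  · rw [hr]
    have h1 : Tendsto (fun n => d (τ n (q m))) atTop (𝓝 (d (g m))) :=
      (d.continuous.tendsto _).comp (hg m)
    have h2 : ∀ n, d (τ n (q m)) = Z.act (uC n) (q m) := by
      intro n
      rw [hτ, map_sum, ← sum_sC, hZ.sum_act]
      refine sum_congr rfl fun i _ => ?_
      rw [hd, ht, ← hZ.mul, tC_mul_sC]
    simp only [h2] at h1
    exact tendsto_nhds_unique h1 (hq m)
  · rw [hr]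
    refine (inJ_closed hP).mem_of_tendsto (hg m) (Eventually.of_forall fun n => ?_)
    show inJ P (τ n (q m))
    rw [hτ]
    have : ∀ s : Finset ℕ, inJ P (∑ i ∈ s, P.act (tC i) (t (Z.act (sC i) (q m)))) := by
      intro s
      induction s using Finset.induction_on with
      | empty => rw [sum_empty]; exact inJ_zero
      | insert j s hj ih =>
        rw [sum_insert hj]
        exact inJ_add (inJ_act_J hP (rI_tC j) _) ih
    exact this _
  · rw [hr]
    have h1 := hg m
    simp only [hm, map_zero] at h1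
    exact tendsto_nhds_unique h1 tendsto_const_nhds

/-- The `J`-part is complemented as a Banach space. -/
def CP (Z : OpMod AI) : Prop :=
  ∃ q : Z.carrier →L[ℂ] Z.carrier, (∀ z, inJ Z (q z)) ∧ ∀ z, inJ Z z → q z = z

end

end Pool.Agent.Helper5.Dg
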