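import Mathlib
import Pool.Agent.Helper5.Dg.JPart

/-!
Projective modules have complemented `J`-parts.
-/

namespace Pool.Agent.Helper5.Dg

open Filter Topology unitInterval Finset

noncomputable section

variable (P : OpMod AI)

/-- No balancing. -/
def r0 (U : Type) [NormedAddCommGroup U] [NormedSpace ℂ U] : Empty → U →L[ℂ] U :=
  fun e => e.elim

/-- The free tensor product. -/
abbrev TF : Type := Tt (r0 AI) (r0 P.carrier)

/-- Elementary tensors. -/
def eF (a : AI) (p : P.carrier) : TF P := el (r0 AI) (r0 P.carrier) a p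

lemma eF_add_left (a b : AI) (p : P.carrier) : eF P (a + b) p = eF P a p + eF P b p :=
  el_add_left _ _ _ _ _

lemma eF_smul_left (c : ℂ) (a : AI) (p : P.carrier) : eF P (c • a) p = c • eF P a p :=
  el_smul_left _ _ _ _ _

lemma eF_add_right (a : AI) (p p' : P.carrier) : eF P a (p + p') = eF P a p + eF P a p' :=
  el_add_right _ _ _ _ _

lemma eF_smul_right (c : ℂ) (a : AI) (p : P.carrier) : eF P a (c • p) = c • eF P a p :=
  el_smul_right _ _ _ _ _

lemma norm_eF_le (a : AI) (p : P.carrier) : ‖eF P a p‖ ≤ ‖a‖ * ‖p‖ := norm_el_le _ _ _ _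

lemma bF (T : AI →L[ℂ] AI) : IsBil (fun (a : AI) (p : P.carrier) => eF P (T a) p) ‖T‖ where
  add_left u u' v := by
    show eF P (T (u + u')) v = eF P (T u) v + eF P (T u') v
    rw [map_add, eF_add_left]
  smul_left c u v := by
    show eF P (T (c • u)) v = c • eF P (T u) v
    rw [map_smul, eF_smul_left]
  add_right u v v' := eF_add_right _ _ _ _
  smul_right c u v := eF_smul_right _ _ _ _
  nonneg := T.opNorm_nonneg
  bound u v := (norm_eF_le _ _ _).trans
    (mul_le_mul_of_nonneg_right (T.le_opNorm u) (norm_nonneg _))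

/-- Operators on the left factor. -/
def opF (T : AI →L[ℂ] AI) : TF P →L[ℂ] TF P := tlift _ _ _ (bF P T) (fun r => r.elim)

lemma opF_el (T : AI →L[ℂ] AI) (a : AI) (p : P.carrier) :
    opF P T (eF P a p) = eF P (T a) p := tlift_el _ _ _ _ _ _ _

lemma opF_norm (T : AI →L[ℂ] AI) (w : TF P) : ‖opF P T w‖ ≤ ‖T‖ * ‖w‖ :=
  ((opF P T).le_opNorm w).trans
    (mul_le_mul_of_nonneg_right (tlift_norm _ _ _ _ _) (norm_nonneg _))

/-- Multiplication operators. -/
def mF (f : AI) : AI →L[ℂ] AI := ContinuousLinearMap.mul ℂ AI f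

lemma mF_apply (f a : AI) : mF f a = f * a := rfl

lemma norm_mF_le (f : AI) : ‖mF f‖ ≤ ‖f‖ :=
  ContinuousLinearMap.opNorm_le_bound _ (norm_nonneg _) fun a => norm_mul_le f a

/-- The module `A ⊗ P ⊕ P`, with zero action on the second summand. -/
def WF : OpMod AI where
  carrier := TF P × P.carrier
  act f := (ContinuousLinearMap.inl ℂ (TF P) P.carrier).comp
    ((opF P (mF f)).comp (ContinuousLinearMap.fst ℂ (TF P) P.carrier))

/-- First inclusion. -/
def inF : TF P →L[ℂ] (WF P).carrier := ContinuousLinearMap.inl ℂ (TF P) P.carrier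

/-- Second inclusion. -/
def inS : P.carrier →L[ℂ] (WF P).carrier := ContinuousLinearMap.inr ℂ (TF P) P.carrier

/-- First projection. -/
def frF : (WF P).carrier →L[ℂ] TF P := ContinuousLinearMap.fst ℂ (TF P) P.carrier

/-- Second projection. -/
def frS : (WF P).carrier →L[ℂ] P.carrier := ContinuousLinearMap.snd ℂ (TF P) P.carrier

lemma frF_inF (w : TF P) : frF P (inF P w) = w := rfl
lemma frS_inF (w : TF P) : frS P (inF P w) = 0 := rfl
lemma frF_inS (p : P.carrier) : frF P (inS P p) = 0 := rfl
lemma frS_inS (p : P.carrier) : frS P (inS P p) = p := rfl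

lemma WF_act (f : AI) (x : (WF P).carrier) :
    (WF P).act f x = inF P (opF P (mF f) (frF P x)) := rfl

lemma norm_inF (w : TF P) : ‖inF P w‖ = ‖w‖ := by
  show ‖((w, 0) : TF P × P.carrier)‖ = ‖w‖
  rw [Prod.norm_mk, norm_zero]
  exact max_eq_left (norm_nonneg _)

lemma norm_frF_le (x : (WF P).carrier) : ‖frF P x‖ ≤ ‖x‖ := norm_fst_le (E := TF P) x

lemma opF_add (f g : AI) (w : TF P) :
    opF P (mF (f + g)) w = opF P (mF f) w + opF P (mF g) w := by
  have := Tt_ext (r0 AI) (r0 P.carrier) (f := opF P (mF (f + g)))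
    (g := opF P (mF f) + opF P (mF g)) (fun u v => by
      show opF P (mF (f + g)) (eF P u v) = opF P (mF f) (eF P u v) + opF P (mF g) (eF P u v)
      rw [opF_el, opF_el, opF_el, mF_apply, mF_apply, mF_apply, add_mul, eF_add_left]) w
  exact this

lemma opF_smul (c : ℂ) (f : AI) (w : TF P) :
    opF P (mF (c • f)) w = c • opF P (mF f) w := by
  have := Tt_ext (r0 AI) (r0 P.carrier) (f := opF P (mF (c • f)))
    (g := c • opF P (mF f)) (fun u v => by
      show opF P (mF (c • f)) (eF P u v) = c • opF P (mF f) (eF P u v)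
      rw [opF_el, opF_el, mF_apply, mF_apply, smul_mul_assoc, eF_smul_left]) w
  exact this

lemma opF_mul (f g : AI) (w : TF P) :
    opF P (mF (f * g)) w = opF P (mF f) (opF P (mF g) w) := by
  have := Tt_ext (r0 AI) (r0 P.carrier) (f := opF P (mF (f * g)))
    (g := (opF P (mF f)).comp (opF P (mF g))) (fun u v => by
      show opF P (mF (f * g)) (eF P u v) = opF P (mF f) (opF P (mF g) (eF P u v))
      rw [opF_el, opF_el, opF_el, mF_apply, mF_apply, mF_apply, mul_assoc]) w
  exact this

lemma WF_left : LeftMod AI (WF P) where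
  add a b x := by
    rw [WF_act, WF_act, WF_act, opF_add, map_add]
  smul c a x := by
    rw [WF_act, WF_act, opF_smul, map_smul]
  mul a b x := by
    rw [WF_act, WF_act, WF_act, opF_mul, frF_inF]
  bound := by
    refine ⟨1, fun a x => ?_⟩
    rw [WF_act, one_mul, norm_inF]
    exact (opF_norm P _ _).trans (mul_le_mul (norm_mF_le a) (norm_frF_le P x) (norm_nonneg _)
      (norm_nonneg _))

variable {P}

lemma bM (hP : LeftMod AI P) : ∃ C : ℝ, IsBil (fun (a : AI) (p : P.carrier) => P.act a p) C := by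
  obtain ⟨C, hC0, hC⟩ := hP.exists_bound
  exact ⟨C,
    { add_left := fun u u' v => hP.add _ _ _
      smul_left := fun c u v => hP.smul _ _ _
      add_right := fun u v v' => map_add _ _ _
      smul_right := fun c u v => map_smul _ _ _
      nonneg := hC0
      bound := hC }⟩

/-- Projective modules have complemented `J`-parts. -/
theorem CP_of_proj (hP : LeftMod AI P) (hPr : Proj (LeftMod AI) P) : CP P := by
  obtain ⟨C, hb⟩ := bM hP
  obtain ⟨μ, hμ⟩ : ∃ μ : TF P →L[ℂ] P.carrier, ∀ a p, μ (eF P a p) = P.act a p :=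
    ⟨tlift (r0 AI) (r0 P.carrier) _ hb (fun r => r.elim), fun a p => tlift_el _ _ _ _ _ _ _⟩
  have hμm : ∀ f w, μ (opF P (mF f) w) = P.act f (μ w) := by
    intro f w
    have := Tt_ext (r0 AI) (r0 P.carrier) (f := μ.comp (opF P (mF f)))
      (g := (P.act f).comp μ) (fun u v => by
        show μ (opF P (mF f) (eF P u v)) = P.act f (μ (eF P u v))
        rw [opF_el, hμ, hμ, mF_apply, hP.mul]) w
    exact this
  obtain ⟨q, hq⟩ : ∃ q : (WF P).carrier →L[ℂ] P.carrier,
      ∀ x, q x = μ (frF P x) + (frS P x - P.act 1 (frS P x)) :=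
    ⟨μ.comp (frF P) + (ContinuousLinearMap.id ℂ P.carrier - P.act 1).comp (frS P),
      fun x => rfl⟩
  have hqm : IsMor (WF P) P q := by
    intro f x
    rw [hq, WF_act, hq, frF_inF, frS_inF, map_add, hμm, map_sub, ← hP.mul, mul_one, map_zero,
      sub_self, sub_self]
  obtain ⟨s, hs⟩ : ∃ s : P.carrier →L[ℂ] (WF P).carrier,
      ∀ p, s p = inF P (eF P 1 p) + inS P p := by
    refine ⟨LinearMap.mkContinuous
      ({ toFun := fun p => inF P (eF P 1 p) + inS P p
         map_add' := fun p p' => by
          rw [eF_add_right, map_add, map_add]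
          abel
         map_smul' := fun c p => by
          rw [eF_smul_right, map_smul, map_smul, RingHom.id_apply, smul_add] } :
           P.carrier →ₗ[ℂ] (WF P).carrier) (1 + ‖inS P‖) (fun p => ?_), fun p => rfl⟩
    show ‖inF P (eF P 1 p) + inS P p‖ ≤ _
    refine (norm_add_le _ _).trans ?_
    rw [add_mul, norm_inF]
    refine add_le_add ((norm_eF_le P _ _).trans ?_) ((inS P).le_opNorm p)
    rw [norm_one]
  have hqs : ∀ p, q (s p) = p := by
    intro p
    have h1 : frF P (inF P (eF P 1 p) + inS P p) = eF P 1 p := by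
      rw [map_add, frF_inF, frF_inS, add_zero]
    have h2 : frS P (inF P (eF P 1 p) + inS P p) = p := by
      rw [map_add, frS_inF, frS_inS, zero_add]
    rw [hs, hq, h1, h2, hμ]
    abel
  obtain ⟨ρ, hρm, hρ⟩ := hPr (WF P) P (WF_left P) hP q hqm s hqs
    (ContinuousLinearMap.id ℂ P.carrier) (fun r x => rfl)
  -- the projection on the free module
  obtain ⟨T, hT⟩ : ∃ T : AI →L[ℂ] AI, ∀ a, T a = a - EI (rI a) :=
    ⟨ContinuousLinearMap.id ℂ AI - EI.comp rI, fun a => rfl⟩
  have hT1 : ∀ a, rI (T a) = 0 := by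
    intro a
    rw [hT, map_sub, rI_EI, sub_self]
  have hT2 : ∀ j, rI j = 0 → T j = j := by
    intro j hj
    rw [hT, hj, map_zero, sub_zero]
  obtain ⟨q1, hq1⟩ : ∃ q1 : (WF P).carrier →L[ℂ] (WF P).carrier,
      ∀ x, q1 x = inF P (opF P T (frF P x)) :=
    ⟨(inF P).comp ((opF P T).comp (frF P)), fun x => rfl⟩
  have hW := WF_left P
  -- elementary tensors with first factor in `J` lie in the `J`-part
  have hel : ∀ j, rI j = 0 → ∀ p, inJ (WF P) (inF P (eF P j p)) := by
    intro j hj p
    have h1 := uC_tendsto hj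
    show Tendsto _ _ _
    rw [tendsto_iff_norm_sub_tendsto_zero] at h1 ⊢
    have h2 : Tendsto (fun n => ‖uC n * j - j‖ * ‖p‖) atTop (𝓝 (0 * ‖p‖)) := h1.mul_const _
    rw [zero_mul] at h2
    refine squeeze_zero (fun n => norm_nonneg _) (fun n => ?_) h2
    have e1 : (WF P).act (uC n) (inF P (eF P j p)) - inF P (eF P j p) =
        inF P (eF P (uC n * j - j) p) := by
      rw [WF_act, frF_inF, opF_el, mF_apply, ← map_sub]
      have h3 := eF_add_left P (uC n * j - j) j p
      rw [sub_add_cancel] at h3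
      rw [h3, add_sub_cancel_right]
    rw [e1, norm_inF]
    exact norm_eF_le P _ _
  have hq1J : ∀ x, inJ (WF P) (q1 x) := by
    intro x
    let S : Submodule ℂ (TF P) :=
      { carrier := {w | inJ (WF P) (q1 (inF P w))}
        add_mem' := by
          intro a b ha hb
          show inJ (WF P) (q1 (inF P (a + b)))
          rw [map_add, map_add]
          exact inJ_add ha hb
        zero_mem' := by
          show inJ (WF P) (q1 (inF P 0))
          rw [map_zero, map_zero]
          exact inJ_zero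
        smul_mem' := by
          intro c a ha
          show inJ (WF P) (q1 (inF P (c • a)))
          rw [map_smul, map_smul]
          exact inJ_smul c ha }
    have hS : IsClosed (S : Set (TF P)) := by
      have hc : Continuous fun w : TF P => q1 (inF P w) :=
        q1.continuous.comp (inF P).continuous
      exact (inJ_closed hW).preimage hc
    have h1 : inJ (WF P) (q1 (inF P (frF P x))) :=
      Tt_top (r0 AI) (r0 P.carrier) S hS (fun u v => by
        show inJ (WF P) (q1 (inF P (eF P u v)))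
        rw [hq1, frF_inF, opF_el]
        exact hel _ (hT1 u) v) (frF P x)
    have h2 : q1 x = q1 (inF P (frF P x)) := by rw [hq1, hq1, frF_inF]
    rw [h2]
    exact h1
  have hq1u : ∀ n x, q1 ((WF P).act (uC n) x) = (WF P).act (uC n) x := by
    intro n x
    rw [WF_act, hq1, frF_inF]
    have := Tt_ext (r0 AI) (r0 P.carrier) (f := (opF P T).comp (opF P (mF (uC n))))
      (g := opF P (mF (uC n))) (fun u v => by
        show opF P T (opF P (mF (uC n)) (eF P u v)) = opF P (mF (uC n)) (eF P u v)
        rw [opF_el, opF_el, mF_apply, hT2]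
        rw [rI_mul, rI_uC, zero_mul]) (frF P x)
    exact congrArg (inF P) this
  refine ⟨q.comp (q1.comp ρ), fun p => inJ_mor hqm (hq1J _), fun p hp => ?_⟩
  have h1 : Tendsto (fun n => q (q1 (ρ (P.act (uC n) p)))) atTop (𝓝 (q (q1 (ρ p)))) :=
    ((q.comp (q1.comp ρ)).continuous.tendsto p).comp hp
  have h2 : ∀ n, q (q1 (ρ (P.act (uC n) p))) = P.act (uC n) p := by
    intro n
    rw [hρm, hq1u, ← hρm, hρ]
    rfl
  simp only [h2] at h1
  exact tendsto_nhds_unique h1 hp

end

end Pool.Agent.Helper5.Dg
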