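import Mathlib
import Pool.Agent.Helper5.Dg.CProj

/-!
Projective bimodules are right projective.
-/

namespace Pool.Agent.Helper5.Dg

open Filter Topology unitInterval Finset

noncomputable section

/-- Bounded bilinear maps as operators. -/
lemma exists_bil {U V Y : Type*} [NormedAddCommGroup U] [NormedSpace ℂ U]
    [NormedAddCommGroup V] [NormedSpace ℂ V] [NormedAddCommGroup Y] [NormedSpace ℂ Y]
    (b : U → V → Y) {C : ℝ} (hC : 0 ≤ C)
    (h1 : ∀ u u' v, b (u + u') v = b u v + b u' v) (h2 : ∀ (c : ℂ) u v, b (c • u) v = c • b u v)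
    (h3 : ∀ u v v', b u (v + v') = b u v + b u v') (h4 : ∀ (c : ℂ) u v, b u (c • v) = c • b u v)
    (h5 : ∀ u v, ‖b u v‖ ≤ C * ‖u‖ * ‖v‖) :
    ∃ T : U →L[ℂ] V →L[ℂ] Y, ∀ u v, T u v = b u v := by
  have k : ∀ u, ∃ T : V →L[ℂ] Y, (∀ v, T v = b u v) ∧ ‖T‖ ≤ C * ‖u‖ := fun u =>
    ⟨LinearMap.mkContinuous
      ({ toFun := b u, map_add' := h3 u, map_smul' := fun c v => h4 c u v } : V →ₗ[ℂ] Y)
      (C * ‖u‖) (h5 u), fun v => rfl, LinearMap.mkContinuous_norm_le _ (by positivity) _⟩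
  choose T hT hTn using k
  refine ⟨LinearMap.mkContinuous
    ({ toFun := T
       map_add' := fun u u' => ContinuousLinearMap.ext fun v => by
        rw [hT, h1, add_apply, hT, hT]
       map_smul' := fun c u => ContinuousLinearMap.ext fun v => by
        rw [hT, h2, RingHom.id_apply, smul_apply, hT] } :
      U →ₗ[ℂ] (V →L[ℂ] Y)) C hTn, fun u v => hT u v⟩

/-- The right action of a bimodule. -/
def rgt (Z : OpMod (AI ⊕ AI)) : OpMod AI where
  carrier := Z.carrier
  act a := Z.act (Sum.inr a)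

lemma rgt_left {Z : OpMod (AI ⊕ AI)} (hZ : BiMod AI Z) : LeftMod AI (rgt Z) where
  add := hZ.add_r
  smul := hZ.smul_r
  mul a b x := by
    show Z.act (Sum.inr (a * b)) x = Z.act (Sum.inr a) (Z.act (Sum.inr b) x)
    rw [mul_comm]
    exact hZ.mul_r b a x
  bound := by
    obtain ⟨C, hC⟩ := hZ.bound
    exact ⟨C, fun a x => (hC a x).2⟩

/-- The left action of a bimodule. -/
def lft (Z : OpMod (AI ⊕ AI)) : OpMod AI where
  carrier := Z.carrier
  act a := Z.act (Sum.inl a)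

lemma lft_left {Z : OpMod (AI ⊕ AI)} (hZ : BiMod AI Z) : LeftMod AI (lft Z) where
  add := hZ.add_l
  smul := hZ.smul_l
  mul := hZ.mul_l
  bound := by
    obtain ⟨C, hC⟩ := hZ.bound
    exact ⟨C, fun a x => (hC a x).1⟩

section CoI

variable (F : OpMod AI)

/-- Restriction of operators. -/
def preM (a : AI) : (AI →L[ℂ] F.carrier) →L[ℂ] (AI →L[ℂ] F.carrier) :=
  (ContinuousLinearMap.compL ℂ AI AI F.carrier).flip (mF a)

/-- Composition of operators. -/
def postM (a : AI) : (AI →L[ℂ] F.carrier) →L[ℂ] (AI →L[ℂ] F.carrier) :=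
  ContinuousLinearMap.compL ℂ AI F.carrier F.carrier (F.act a)

/-- The coinduced bimodule. -/
def CoI : OpMod (AI ⊕ AI) where
  carrier := (AI →L[ℂ] F.carrier) × F.carrier
  act := Sum.elim
    (fun a => ((preM F a).comp (ContinuousLinearMap.fst ℂ _ _)).prod
      ((ContinuousLinearMap.apply ℂ F.carrier a).comp (ContinuousLinearMap.fst ℂ _ _)))
    (fun a => ((postM F a).comp (ContinuousLinearMap.fst ℂ _ _)).prod
      ((F.act a).comp (ContinuousLinearMap.snd ℂ _ _)))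

/-- First component. -/
def c1 : (CoI F).carrier →L[ℂ] (AI →L[ℂ] F.carrier) := ContinuousLinearMap.fst ℂ _ _

/-- Second component. -/
def c2 : (CoI F).carrier →L[ℂ] F.carrier := ContinuousLinearMap.snd ℂ _ _

lemma CoI_ext {x y : (CoI F).carrier} (h1 : ∀ c, c1 F x c = c1 F y c) (h2 : c2 F x = c2 F y) :
    x = y := Prod.ext (ContinuousLinearMap.ext h1) h2

lemma c1_inl (a : AI) (x : (CoI F).carrier) (c : AI) :
    c1 F ((CoI F).act (Sum.inl a) x) c = c1 F x (a * c) := rfl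

lemma c2_inl (a : AI) (x : (CoI F).carrier) :
    c2 F ((CoI F).act (Sum.inl a) x) = c1 F x a := rfl

lemma c1_inr (a : AI) (x : (CoI F).carrier) (c : AI) :
    c1 F ((CoI F).act (Sum.inr a) x) c = F.act a (c1 F x c) := rfl

lemma c2_inr (a : AI) (x : (CoI F).carrier) :
    c2 F ((CoI F).act (Sum.inr a) x) = F.act a (c2 F x) := rfl

lemma norm_c1_le (x : (CoI F).carrier) (c : AI) : ‖c1 F x c‖ ≤ ‖x‖ * ‖c‖ :=
  (ContinuousLinearMap.le_opNorm _ _).trans (mul_le_mul_of_nonneg_right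
    (norm_fst_le (E := AI →L[ℂ] F.carrier) x) (norm_nonneg _))

lemma norm_c2_le (x : (CoI F).carrier) : ‖c2 F x‖ ≤ ‖x‖ :=
  norm_snd_le (E := AI →L[ℂ] F.carrier) x

lemma CoI_norm_le {x : (CoI F).carrier} {M : ℝ} (hM : 0 ≤ M) (h1 : ∀ c, ‖c1 F x c‖ ≤ M * ‖c‖)
    (h2 : ‖c2 F x‖ ≤ M) : ‖x‖ ≤ M :=
  max_le (ContinuousLinearMap.opNorm_le_bound _ hM h1) h2

lemma exists_intoC {V : Type*} [NormedAddCommGroup V] [NormedSpace ℂ V]
    (f1 : V →L[ℂ] (AI →L[ℂ] F.carrier)) (f2 : V →L[ℂ] F.carrier) :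
    ∃ f : V →L[ℂ] (CoI F).carrier, (∀ v c, c1 F (f v) c = f1 v c) ∧ ∀ v, c2 F (f v) = f2 v :=
  ⟨f1.prod f2, fun v c => rfl, fun v => rfl⟩

variable {F}

lemma CoI_bi (hF : LeftMod AI F) : BiMod AI (CoI F) where
  add_l a b x := CoI_ext F (fun c => by
    rw [c1_inl, map_add, add_apply, c1_inl, c1_inl, add_mul, map_add])
    (by rw [c2_inl, map_add, map_add, c2_inl, c2_inl])
  smul_l k a x := CoI_ext F (fun c => by
    rw [c1_inl, map_smul, smul_apply, c1_inl, smul_mul_assoc, map_smul])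
    (by rw [c2_inl, map_smul, map_smul, c2_inl])
  mul_l a b x := CoI_ext F (fun c => by
    rw [c1_inl, c1_inl, c1_inl, mul_comm a b, mul_assoc])
    (by rw [c2_inl, c2_inl, c1_inl, mul_comm a b])
  add_r a b x := CoI_ext F (fun c => by
    rw [c1_inr, map_add, add_apply, c1_inr, c1_inr, hF.add])
    (by rw [c2_inr, map_add, c2_inr, c2_inr, hF.add])
  smul_r k a x := CoI_ext F (fun c => by
    rw [c1_inr, map_smul, smul_apply, c1_inr, hF.smul])
    (by rw [c2_inr, map_smul, c2_inr, hF.smul])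
  mul_r a b x := CoI_ext F (fun c => by
    rw [c1_inr, c1_inr, c1_inr, mul_comm a b, hF.mul])
    (by rw [c2_inr, c2_inr, c2_inr, mul_comm a b, hF.mul])
  comm a b x := CoI_ext F (fun c => by
    rw [c1_inl, c1_inr, c1_inr, c1_inl])
    (by rw [c2_inl, c1_inr, c2_inr, c2_inl])
  bound := by
    obtain ⟨C, hC0, hC⟩ := hF.exists_bound
    refine ⟨max C 1, fun a x => ⟨?_, ?_⟩⟩
    · have h0 : (1 : ℝ) ≤ max C 1 := le_max_right _ _
      have h1 : ‖a‖ * ‖x‖ ≤ max C 1 * ‖a‖ * ‖x‖ := by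
        rw [mul_assoc]
        exact le_mul_of_one_le_left (by positivity) h0
      refine le_trans (CoI_norm_le F (by positivity) (fun c => ?_) ?_) h1
      · rw [c1_inl]
        refine (norm_c1_le F _ _).trans ?_
        calc ‖x‖ * ‖a * c‖ ≤ ‖x‖ * (‖a‖ * ‖c‖) :=
              mul_le_mul_of_nonneg_left (norm_mul_le _ _) (norm_nonneg _)
          _ = _ := by ring
      · rw [c2_inl]
        refine (norm_c1_le F _ _).trans (le_of_eq ?_)
        ring
    · have h0 : C ≤ max C 1 := le_max_left _ _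
      have h1 : C * ‖a‖ * ‖x‖ ≤ max C 1 * ‖a‖ * ‖x‖ := by gcongr
      refine le_trans (CoI_norm_le F (by positivity) (fun c => ?_) ?_) h1
      · rw [c1_inr]
        refine (hC _ _).trans ?_
        calc C * ‖a‖ * ‖c1 F x c‖ ≤ C * ‖a‖ * (‖x‖ * ‖c‖) :=
              mul_le_mul_of_nonneg_left (norm_c1_le F _ _) (by positivity)
          _ = _ := by ring
      · rw [c2_inr]
        refine (hC _ _).trans ?_
        exact mul_le_mul_of_nonneg_left (norm_c2_le F _) (by positivity)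

/-- Functoriality of the coinduced module. -/
lemma exists_CoMap {E F : OpMod AI} (q : E.carrier →L[ℂ] F.carrier) :
    ∃ Q : (CoI E).carrier →L[ℂ] (CoI F).carrier, (∀ x c, c1 F (Q x) c = q (c1 E x c)) ∧
      ∀ x, c2 F (Q x) = q (c2 E x) := by
  obtain ⟨Q, h1, h2⟩ := exists_intoC F
    ((ContinuousLinearMap.compL ℂ AI E.carrier F.carrier q).comp (c1 E)) (q.comp (c2 E))
  exact ⟨Q, fun x c => h1 x c, fun x => h2 x⟩

end CoI

/-- Projective bimodules are projective as right modules. -/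
theorem right_proj {P : OpMod (AI ⊕ AI)} (hP : BiMod AI P) (hPr : Proj (BiMod AI) P) :
    Proj (LeftMod AI) (rgt P) := by
  intro E F hE hF q hq s hs f hf
  obtain ⟨C, hC0, hC⟩ := (lft_left hP).exists_bound
  have hC' : ∀ a (x : P.carrier), ‖P.act (Sum.inl a) x‖ ≤ C * ‖a‖ * ‖x‖ := hC
  obtain ⟨f1, hf1⟩ := exists_bil (U := P.carrier) (V := AI) (Y := F.carrier)
    (fun p c => f (P.act (Sum.inl c) p)) (C := ‖f‖ * C) (by positivity)
    (fun p p' c => by rw [map_add]; exact map_add f _ _)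
    (fun k p c => by rw [map_smul]; exact map_smul f _ _)
    (fun p c c' => by rw [hP.add_l]; exact map_add f _ _)
    (fun k p c => by rw [hP.smul_l]; exact map_smul f _ _)
    (fun p c => by
      refine (f.le_opNorm _).trans ?_
      have h1 := mul_le_mul_of_nonneg_left (hC' c p) (norm_nonneg f)
      refine h1.trans (le_of_eq ?_)
      ring)
  obtain ⟨f', h1, h2⟩ := exists_intoC F f1 (show P.carrier →L[ℂ] F.carrier from f)
  have h2' : ∀ p : P.carrier, c2 F (f' p) = f p := h2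
  have hf' : ∀ a (p : P.carrier), f (P.act (Sum.inr a) p) = F.act a (f p) := hf
  obtain ⟨Q, hQ1, hQ2⟩ := exists_CoMap q
  obtain ⟨S, hS1, hS2⟩ := exists_CoMap s
  obtain ⟨g, hg, hgf⟩ := hPr (CoI E) (CoI F) (CoI_bi hE) (CoI_bi hF) Q (by
    rintro (a | a) x
    · refine CoI_ext F (fun c => ?_) ?_
      · rw [hQ1, c1_inl, c1_inl, hQ1]
      · rw [hQ2, c2_inl, c2_inl, hQ1]
    · refine CoI_ext F (fun c => ?_) ?_
      · rw [hQ1, c1_inr, c1_inr, hQ1, hq]
      · rw [hQ2, c2_inr, c2_inr, hQ2, hq]) S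
    (fun y => CoI_ext F (fun c => by rw [hQ1, hS1, hs]) (by rw [hQ2, hS2, hs])) f' (by
    rintro (a | a) x
    · refine CoI_ext F (fun c => ?_) ?_
      · rw [h1, c1_inl, h1, hf1, hf1, ← hP.mul_l, mul_comm]
      · rw [h2', c2_inl, h1, hf1]
    · refine CoI_ext F (fun c => ?_) ?_
      · rw [h1, c1_inr, h1, hf1, hf1, hP.comm, hf']
      · rw [h2', c2_inr, h2', hf'])
  refine ⟨(c2 E).comp g, fun a x => ?_, fun x => ?_⟩
  · have h3 := hg (Sum.inr a) x
    have h4 := congrArg (c2 E) h3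
    rw [c2_inr] at h4
    exact h4
  · have h3 := congrArg (c2 F) (hgf x)
    rw [hQ2] at h3
    exact h3.trans (h2' x)

/-- The algebra is projective as a right module. -/
theorem right_proj_reg : Proj (LeftMod AI) (rgt (regBi AI)) := by
  intro E F hE hF q hq s hs f hf
  have hf' : ∀ (a x : AI), f (x * a : AI) = F.act a (f (x : AI)) := hf
  obtain ⟨C, hC0, hC⟩ := hE.exists_bound
  have hg : ∃ g : AI →L[ℂ] E.carrier, ∀ a, g a = E.act a (s (f (1 : AI))) :=
    ⟨LinearMap.mkContinuous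
      ({ toFun := fun a => E.act a (s (f (1 : AI)))
         map_add' := fun a b => hE.add _ _ _
         map_smul' := fun c a => hE.smul _ _ _ } : AI →ₗ[ℂ] E.carrier)
      (C * ‖s (f (1 : AI))‖) (fun a => (hC _ _).trans (le_of_eq (by ring))), fun a => rfl⟩
  obtain ⟨g, hg⟩ := hg
  have H1 : ∀ a x : AI, g (x * a) = E.act a (g x) := by
    intro a x
    rw [hg, hg, ← hE.mul, mul_comm]
  have H2 : ∀ x : AI, q (g x) = f (x : AI) := by
    intro x
    rw [hg, hq, hs, ← hf', one_mul]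
  exact ⟨g, fun a x => H1 a x, fun x => H2 x⟩

end

end Pool.Agent.Helper5.Dg
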