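import Mathlib
import Pool.Agent.Helper5.Dg.Bi1

/-!
The tensor product functor.
-/

namespace Pool.Agent.Helper5.Dg

open Filter Topology unitInterval Finset

noncomputable section

section Hom

variable (X F : OpMod AI)

/-- The bimodule of operators. -/
def HomB : OpMod (AI ⊕ AI) where
  carrier := X.carrier →L[ℂ] F.carrier
  act := Sum.elim
    (fun a => ContinuousLinearMap.compL ℂ X.carrier F.carrier F.carrier (F.act a))
    (fun a => (ContinuousLinearMap.compL ℂ X.carrier X.carrier F.carrier).flip (X.act a))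

/-- Evaluation. -/
def hv (φ : (HomB X F).carrier) (ξ : X.carrier) : F.carrier :=
  (show X.carrier →L[ℂ] F.carrier from φ) ξ

lemma hv_inl (a : AI) (φ) (ξ) : hv X F ((HomB X F).act (Sum.inl a) φ) ξ = F.act a (hv X F φ ξ) :=
  rfl

lemma hv_inr (a : AI) (φ) (ξ) : hv X F ((HomB X F).act (Sum.inr a) φ) ξ = hv X F φ (X.act a ξ) :=
  rfl

lemma hv_ext {φ ψ : (HomB X F).carrier} (h : ∀ ξ, hv X F φ ξ = hv X F ψ ξ) : φ = ψ :=
  ContinuousLinearMap.ext h

lemma hv_add (φ ψ) (ξ) : hv X F (φ + ψ) ξ = hv X F φ ξ + hv X F ψ ξ := rfl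

lemma hv_smul (c : ℂ) (φ) (ξ) : hv X F (c • φ) ξ = c • hv X F φ ξ := rfl

lemma hv_map_add (φ) (ξ η) : hv X F φ (ξ + η) = hv X F φ ξ + hv X F φ η :=
  map_add (show X.carrier →L[ℂ] F.carrier from φ) ξ η

lemma hv_map_smul (φ) (c : ℂ) (ξ) : hv X F φ (c • ξ) = c • hv X F φ ξ :=
  map_smul (show X.carrier →L[ℂ] F.carrier from φ) c ξ

lemma hv_norm_le (φ) (ξ) : ‖hv X F φ ξ‖ ≤ ‖φ‖ * ‖ξ‖ :=
  ContinuousLinearMap.le_opNorm (show X.carrier →L[ℂ] F.carrier from φ) ξ

lemma HomB_norm_le {φ : (HomB X F).carrier} {M : ℝ} (hM : 0 ≤ M)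
    (h : ∀ ξ, ‖hv X F φ ξ‖ ≤ M * ‖ξ‖) : ‖φ‖ ≤ M :=
  ContinuousLinearMap.opNorm_le_bound (show X.carrier →L[ℂ] F.carrier from φ) hM h

variable {X F}

lemma HomB_bi (hX : LeftMod AI X) (hF : LeftMod AI F) : BiMod AI (HomB X F) where
  add_l a b φ := hv_ext X F fun ξ => by rw [hv_inl, hv_add, hv_inl, hv_inl, hF.add]
  smul_l c a φ := hv_ext X F fun ξ => by rw [hv_inl, hv_smul, hv_inl, hF.smul]
  mul_l a b φ := hv_ext X F fun ξ => by rw [hv_inl, hv_inl, hv_inl, hF.mul]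
  add_r a b φ := hv_ext X F fun ξ => by
    rw [hv_inr, hv_add, hv_inr, hv_inr, hX.add, hv_map_add]
  smul_r c a φ := hv_ext X F fun ξ => by rw [hv_inr, hv_smul, hv_inr, hX.smul, hv_map_smul]
  mul_r a b φ := hv_ext X F fun ξ => by rw [hv_inr, hv_inr, hv_inr, hX.mul]
  comm a b φ := hv_ext X F fun ξ => by rw [hv_inl, hv_inr, hv_inr, hv_inl]
  bound := by
    obtain ⟨C, hC0, hC⟩ := hX.exists_bound
    obtain ⟨C', hC0', hC'⟩ := hF.exists_bound
    refine ⟨max C C', fun a φ => ⟨?_, ?_⟩⟩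
    · have h1 : C' * ‖a‖ * ‖φ‖ ≤ max C C' * ‖a‖ * ‖φ‖ := by
        have := le_max_right C C'
        gcongr
      refine le_trans (HomB_norm_le X F (by positivity) fun ξ => ?_) h1
      rw [hv_inl]
      refine (hC' _ _).trans ?_
      have h2 := mul_le_mul_of_nonneg_left (hv_norm_le X F φ ξ)
        (by positivity : 0 ≤ C' * ‖a‖)
      exact h2.trans (le_of_eq (by ring))
    · have h1 : C * ‖a‖ * ‖φ‖ ≤ max C C' * ‖a‖ * ‖φ‖ := by
        have := le_max_left C C'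
        gcongr
      refine le_trans (HomB_norm_le X F (by positivity) fun ξ => ?_) h1
      rw [hv_inr]
      refine (hv_norm_le X F _ _).trans ?_
      have h2 := mul_le_mul_of_nonneg_left (hC a ξ) (norm_nonneg φ)
      exact h2.trans (le_of_eq (by ring))

/-- Functoriality. -/
lemma exists_HomMap {E F : OpMod AI} (X : OpMod AI) (q : E.carrier →L[ℂ] F.carrier) :
    ∃ Q : (HomB X E).carrier →L[ℂ] (HomB X F).carrier,
      ∀ φ ξ, hv X F (Q φ) ξ = q (hv X E φ ξ) :=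
  ⟨ContinuousLinearMap.compL ℂ X.carrier E.carrier F.carrier q, fun _ _ => rfl⟩

/-- Operators into the bimodule of operators. -/
lemma exists_intoH {V : Type*} [NormedAddCommGroup V] [NormedSpace ℂ V] (X F : OpMod AI)
    (b : V → X.carrier → F.carrier) {C : ℝ} (hC : 0 ≤ C)
    (h1 : ∀ u u' v, b (u + u') v = b u v + b u' v) (h2 : ∀ (c : ℂ) u v, b (c • u) v = c • b u v)
    (h3 : ∀ u v v', b u (v + v') = b u v + b u v') (h4 : ∀ (c : ℂ) u v, b u (c • v) = c • b u v)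
    (h5 : ∀ u v, ‖b u v‖ ≤ C * ‖u‖ * ‖v‖) :
    ∃ T : V →L[ℂ] (HomB X F).carrier, ∀ u v, hv X F (T u) v = b u v :=
  exists_bil b hC h1 h2 h3 h4 h5

end Hom

/-! ### The tensor product -/

variable (X : OpMod AI)

/-- The right action as a family. -/
def rfam (Z : OpMod (AI ⊕ AI)) : AI → Z.carrier →L[ℂ] Z.carrier := fun a => Z.act (Sum.inr a)

/-- The carrier of the tensor product. -/
def TC (Z : OpMod (AI ⊕ AI)) : Type := Tt (rfam Z) X.act

instance (Z : OpMod (AI ⊕ AI)) : NormedAddCommGroup (TC X Z) :=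
  inferInstanceAs (NormedAddCommGroup (Tt (rfam Z) X.act))

instance (Z : OpMod (AI ⊕ AI)) : NormedSpace ℂ (TC X Z) :=
  inferInstanceAs (NormedSpace ℂ (Tt (rfam Z) X.act))

instance (Z : OpMod (AI ⊕ AI)) : CompleteSpace (TC X Z) :=
  inferInstanceAs (CompleteSpace (Tt (rfam Z) X.act))

/-- Elementary tensors. -/
def tt {Z : OpMod (AI ⊕ AI)} (z : Z.carrier) (ξ : X.carrier) : TC X Z := el (rfam Z) X.act z ξ

section TT

variable {Z W : OpMod (AI ⊕ AI)}

lemma tt_add_left (z w : Z.carrier) (ξ) : tt X (z + w) ξ = tt X z ξ + tt X w ξ :=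
  el_add_left _ _ _ _ _

lemma tt_add_right (z : Z.carrier) (ξ η) : tt X z (ξ + η) = tt X z ξ + tt X z η :=
  el_add_right _ _ _ _ _

lemma tt_smul_left (c : ℂ) (z : Z.carrier) (ξ) : tt X (c • z) ξ = c • tt X z ξ :=
  el_smul_left _ _ _ _ _

lemma tt_smul_right (c : ℂ) (z : Z.carrier) (ξ) : tt X z (c • ξ) = c • tt X z ξ :=
  el_smul_right _ _ _ _ _

lemma tt_bal (a : AI) (z : Z.carrier) (ξ) : tt X (Z.act (Sum.inr a) z) ξ = tt X z (X.act a ξ) :=
  el_bal _ _ _ _ _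

lemma norm_tt_le (z : Z.carrier) (ξ) : ‖tt X z ξ‖ ≤ ‖z‖ * ‖ξ‖ := norm_el_le _ _ _ _

lemma TC_ext {Y : Type*} [NormedAddCommGroup Y] [NormedSpace ℂ Y] {f g : TC X Z →L[ℂ] Y}
    (h : ∀ z ξ, f (tt X z ξ) = g (tt X z ξ)) (w : TC X Z) : f w = g w :=
  Tt_ext (rfam Z) X.act h w

lemma exists_tlift {Y : Type} [NormedAddCommGroup Y] [NormedSpace ℂ Y] [CompleteSpace Y]
    (b : Z.carrier → X.carrier → Y) {C : ℝ} (hb : IsBil b C)
    (hbal : ∀ a z ξ, b (Z.act (Sum.inr a) z) ξ = b z (X.act a ξ)) :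
    ∃ T : TC X Z →L[ℂ] Y, (∀ z ξ, T (tt X z ξ) = b z ξ) ∧ ∀ w, ‖T w‖ ≤ C * ‖w‖ := by
  refine ⟨tlift (rfam Z) X.act b hb hbal, fun z ξ => tlift_el _ _ _ _ _ _ _, fun w => ?_⟩
  exact (ContinuousLinearMap.le_opNorm _ _).trans
    (mul_le_mul_of_nonneg_right (tlift_norm _ _ _ _ _) (norm_nonneg _))

/-- Functoriality for right linear maps. -/
lemma exists_Tmap (f : Z.carrier →L[ℂ] W.carrier)
    (hf : ∀ a z, f (Z.act (Sum.inr a) z) = W.act (Sum.inr a) (f z)) :
    ∃ T : TC X Z →L[ℂ] TC X W, (∀ z ξ, T (tt X z ξ) = tt X (f z) ξ) ∧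
      ∀ w, ‖T w‖ ≤ ‖f‖ * ‖w‖ :=
  exists_tlift X (fun z ξ => tt X (f z) ξ) (C := ‖f‖)
    { add_left := fun u u' v => by rw [map_add, tt_add_left]
      smul_left := fun c u v => by rw [map_smul, tt_smul_left]
      add_right := fun u v v' => tt_add_right X _ _ _
      smul_right := fun c u v => tt_smul_right X _ _ _
      nonneg := norm_nonneg _
      bound := fun u v => (norm_tt_le X _ _).trans
        (mul_le_mul_of_nonneg_right (f.le_opNorm u) (norm_nonneg _)) }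
    (fun a z ξ => by rw [hf, tt_bal])

open Classical in
/-- The tensor product module. -/
def TT (Z : OpMod (AI ⊕ AI)) : OpMod AI where
  carrier := TC X Z
  act a := if h : ∀ b z, Z.act (Sum.inl a) (Z.act (Sum.inr b) z) =
      Z.act (Sum.inr b) (Z.act (Sum.inl a) z) then
    Classical.choose (exists_Tmap X (Z := Z) (W := Z) (Z.act (Sum.inl a)) h) else 0

variable (hZ : BiMod AI Z)

include hZ in
lemma TT_spec (a : AI) : (∀ z ξ, ((TT X Z).act a (tt X z ξ) : TC X Z) =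
    tt X (Z.act (Sum.inl a) z) ξ) ∧ ∀ w : TC X Z, ‖((TT X Z).act a w : TC X Z)‖ ≤
      ‖Z.act (Sum.inl a)‖ * ‖w‖ := by
  classical
  have h : ∀ b z, Z.act (Sum.inl a) (Z.act (Sum.inr b) z) =
      Z.act (Sum.inr b) (Z.act (Sum.inl a) z) := fun b z => hZ.comm a b z
  have e : (TT X Z).act a =
      Classical.choose (exists_Tmap X (Z := Z) (W := Z) (Z.act (Sum.inl a)) h) := dif_pos h
  rw [e]
  exact Classical.choose_spec (exists_Tmap X (Z := Z) (W := Z) (Z.act (Sum.inl a)) h)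

include hZ in
lemma TT_act (a : AI) (z ξ) : ((TT X Z).act a (tt X z ξ) : TC X Z) =
    tt X (Z.act (Sum.inl a) z) ξ := (TT_spec X hZ a).1 z ξ

lemma TT_ext {Y : Type*} [NormedAddCommGroup Y] [NormedSpace ℂ Y]
    {f g : (TT X Z).carrier →L[ℂ] Y} (h : ∀ z ξ, f (tt X z ξ : TC X Z) = g (tt X z ξ : TC X Z))
    (w : (TT X Z).carrier) : f w = g w := TC_ext X (Z := Z) (f := f) (g := g) h w

include hZ in
lemma TT_left : LeftMod AI (TT X Z) where
  add a b x := TT_ext X (f := (TT X Z).act (a + b)) (g := (TT X Z).act a + (TT X Z).act b)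
    (fun z ξ => by
      have h1 := TT_act X hZ (a + b) z ξ
      have h2 := TT_act X hZ a z ξ
      have h3 := TT_act X hZ b z ξ
      rw [hZ.add_l, tt_add_left, ← h2, ← h3] at h1
      exact h1) x
  smul c a x := TT_ext X (f := (TT X Z).act (c • a)) (g := c • (TT X Z).act a)
    (fun z ξ => by
      have h1 := TT_act X hZ (c • a) z ξ
      have h2 := TT_act X hZ a z ξ
      rw [hZ.smul_l, tt_smul_left, ← h2] at h1
      exact h1) x
  mul a b x := TT_ext X (f := (TT X Z).act (a * b)) (g := ((TT X Z).act a).comp ((TT X Z).act b))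
    (fun z ξ => by
      have h1 := TT_act X hZ (a * b) z ξ
      have h2 := TT_act X hZ b z ξ
      have h3 := TT_act X hZ a (Z.act (Sum.inl b) z) ξ
      rw [hZ.mul_l, ← h3, ← h2] at h1
      exact h1) x
  bound := by
    obtain ⟨C, hC0, hC⟩ := (lft_left hZ).exists_bound
    refine ⟨C, fun a x => ?_⟩
    refine ((TT_spec X hZ a).2 x).trans ?_
    refine mul_le_mul_of_nonneg_right ?_ (norm_nonneg _)
    exact ContinuousLinearMap.opNorm_le_bound _ (by positivity) (hC a)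

end TT

end

end Pool.Agent.Helper5.Dg
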