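import Mathlib

/-!
Banach modules, relative projectivity, resolutions and dimensions: the definitions of the final
statement.
-/

namespace Pool.Agent.Helper5.Hd

noncomputable section

/-- A complex Banach space with a family of maps indexed by `R`. -/
structure OpMod (R : Type) where
  /-- The underlying Banach space. -/
  carrier : Type
  [grp : NormedAddCommGroup carrier]
  [spc : NormedSpace ℂ carrier]
  [cpl : CompleteSpace carrier]
  /-- The maps. -/
  act : R → carrier → carrier

attribute [instance] OpMod.grp OpMod.spc OpMod.cpl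

variable {R : Type}

/-- Addition. -/
def plus (X : OpMod R) (x y : X.carrier) : X.carrier := x + y

/-- Multiplication by scalars. -/
def scal (X : OpMod R) (c : ℂ) (x : X.carrier) : X.carrier := c • x

/-- The norm. -/
def nrm (X : OpMod R) (x : X.carrier) : ℝ := ‖x‖

/-- The zero vector. -/
def zer (X : OpMod R) : X.carrier := 0

/-- Bounded linear maps. -/
structure IsBdd (X Y : OpMod R) (f : X.carrier → Y.carrier) : Prop where
  add : ∀ x y, f (plus X x y) = plus Y (f x) (f y)
  smul : ∀ c x, f (scal X c x) = scal Y c (f x)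
  bound : ∃ C : ℝ, ∀ x, nrm Y (f x) ≤ C * nrm X x

/-- Morphisms: bounded linear maps commuting with the given families of maps. -/
structure IsMor (X Y : OpMod R) (f : X.carrier → Y.carrier) : Prop where
  bdd : IsBdd X Y f
  comm : ∀ r x, f (X.act r x) = Y.act r (f x)

/-- Relative projectivity in the class `K` of modules: morphisms lift through the admissible
epimorphisms (the surjective morphisms `q` with a bounded linear right inverse `s`). -/
def Proj (K : OpMod R → Prop) (P : OpMod R) : Prop :=
  ∀ E F : OpMod R, K E → K F → ∀ (q : E.carrier → F.carrier) (s : F.carrier → E.carrier),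
    IsMor E F q → IsBdd F E s → (∀ y, q (s y) = y) →
    ∀ f : P.carrier → F.carrier, IsMor P F f →
    ∃ g : P.carrier → E.carrier, IsMor P E g ∧ ∀ x, q (g x) = f x

/-- The maps `e : P 0 → X`, `d i : P (i + 1) → P i` form a resolution of `X` by projective modules
of the class `K`, vanishing beyond degree `n`, which is admissible: the bounded linear maps
`t : X → P 0`, `s i : P i → P (i + 1)` are a contracting homotopy. -/
structure IsResol (K : OpMod R → Prop) (n : ℕ) (X : OpMod R) (P : ℕ → OpMod R)
    (e : (P 0).carrier → X.carrier) (d : ∀ i, (P (i + 1)).carrier → (P i).carrier)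
    (t : X.carrier → (P 0).carrier) (s : ∀ i, (P i).carrier → (P (i + 1)).carrier) : Prop where
  mem : ∀ i, K (P i)
  proj : ∀ i, Proj K (P i)
  zero : ∀ i, n < i → ∀ x, x = zer (P i)
  mor_e : IsMor (P 0) X e
  mor_d : ∀ i, IsMor (P (i + 1)) (P i) (d i)
  bdd_t : IsBdd X (P 0) t
  bdd_s : ∀ i, IsBdd (P i) (P (i + 1)) (s i)
  e_d : ∀ x, e (d 0 x) = zer X
  d_d : ∀ i x, d i (d (i + 1) x) = zer (P i)
  e_t : ∀ x, e (t x) = x
  t_e : ∀ x, plus (P 0) (t (e x)) (d 0 (s 0 x)) = x
  s_d : ∀ i x, plus (P (i + 1)) (s i (d i x)) (d (i + 1) (s (i + 1) x)) = x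

/-- The homological dimension of `X` in the class `K`. -/
def homDim (K : OpMod R → Prop) (X : OpMod R) : ℕ∞ :=
  sInf {N : ℕ∞ | ∃ n : ℕ, N = n ∧ ∃ P e d t s, IsResol K n X P e d t s}

/-- The supremum of the homological dimensions of the modules in the class `K`. -/
def glDim (K : OpMod R → Prop) : ℕ∞ := ⨆ (X : OpMod R) (_ : K X), homDim K X

section Algebra

variable (A : Type) [NormedRing A] [NormedAlgebra ℂ A]

/-- Left Banach `A`-modules. -/
structure LeftMod (X : OpMod A) : Prop where
  bdd : ∀ a, IsBdd X X (X.act a)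
  add : ∀ a b x, X.act (a + b) x = plus X (X.act a x) (X.act b x)
  smul : ∀ (c : ℂ) a x, X.act (c • a) x = scal X c (X.act a x)
  mul : ∀ a b x, X.act (a * b) x = X.act a (X.act b x)
  bound : ∃ C : ℝ, ∀ a x, nrm X (X.act a x) ≤ C * ‖a‖ * nrm X x

/-- The left multiplication of a bimodule. -/
def lft (X : OpMod (A ⊕ A)) : OpMod A where
  carrier := X.carrier
  act a x := X.act (Sum.inl a) x

/-- The right multiplication of a bimodule, as a left multiplication by the opposite algebra. -/
def rgt (X : OpMod (A ⊕ A)) : OpMod Aᵐᵒᵖ where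
  carrier := X.carrier
  act a x := X.act (Sum.inr a.unop) x

/-- Banach `A`-bimodules: `act (Sum.inl a)` is the left and `act (Sum.inr a)` is the right
multiplication by `a`. -/
structure BiMod (X : OpMod (A ⊕ A)) : Prop where
  left : LeftMod A (lft A X)
  right : LeftMod Aᵐᵒᵖ (rgt A X)
  comm : ∀ a b x, X.act (Sum.inl a) (X.act (Sum.inr b) x) =
    X.act (Sum.inr b) (X.act (Sum.inl a) x)

/-- The algebra as a bimodule over itself. -/
def regBi [CompleteSpace A] : OpMod (A ⊕ A) where
  carrier := A
  act := Sum.elim (fun a x => a * x) (fun a x => x * a)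

/-- The global dimension of a Banach algebra. -/
def globalDim : ℕ∞ := glDim (LeftMod A)

/-- The bidimension of a unital Banach algebra. -/
def biDim [CompleteSpace A] : ℕ∞ := homDim (BiMod A) (regBi A)

end Algebra

end

end Pool.Agent.Helper5.Hd
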