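import Mathlib
import Pool.Agent.Helper5.Dg.Pub
import Pool.Agent.Helper5.Dg.Rec

/-!
Comparison of the definitions of the final statement with the working definitions.
-/

namespace Pool.Agent.Helper5.Dg

noncomputable section

variable {R : Type}

/-- The bounded operator of a bounded linear map. -/
def clm {X Y : Hd.OpMod R} {f : X.carrier → Y.carrier} (h : Hd.IsBdd X Y f) :
    X.carrier →L[ℂ] Y.carrier :=
  LinearMap.mkContinuousOfExistsBound
    ({ toFun := f, map_add' := h.add, map_smul' := h.smul } : X.carrier →ₗ[ℂ] Y.carrier) h.bound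

lemma clm_apply {X Y : Hd.OpMod R} {f : X.carrier → Y.carrier} (h : Hd.IsBdd X Y f) (x) :
    clm h x = f x := rfl

lemma bdd_of_clm (X Y : Hd.OpMod R) (f : X.carrier →L[ℂ] Y.carrier) :
    Hd.IsBdd X Y (fun x => f x) :=
  ⟨fun x y => map_add f x y, fun c x => map_smul f c x, ‖f‖, fun x => f.le_opNorm x⟩

/-- From the definitions of the final statement. -/
def dn (X : Hd.OpMod R) (h : ∀ r, Hd.IsBdd X X (X.act r)) : OpMod R where
  carrier := X.carrier
  act r := clm (h r)

/-- To the definitions of the final statement. -/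
def up (X : OpMod R) : Hd.OpMod R where
  carrier := X.carrier
  act r x := X.act r x

/-- Corresponding classes of modules. -/
structure Rel (K : Hd.OpMod R → Prop) (K' : OpMod R → Prop) : Prop where
  bdd : ∀ X, K X → ∀ r, Hd.IsBdd X X (X.act r)
  dn : ∀ X (h : K X), K' (dn X (bdd X h))
  up : ∀ X, K' X → K (up X)

variable {K : Hd.OpMod R → Prop} {K' : OpMod R → Prop}

lemma proj_dn (hR : Rel K K') (P : Hd.OpMod R) (hP : K P) (h : Hd.Proj K P) :
    Proj K' (dn P (hR.bdd P hP)) := by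
  intro E F hE hF q hq s hs f hf
  obtain ⟨g, hg, hgf⟩ := h (up E) (up F) (hR.up E hE) (hR.up F hF) (fun x => q x) (fun y => s y)
    ⟨bdd_of_clm (up E) (up F) q, hq⟩ (bdd_of_clm (up F) (up E) s) hs (fun x => f x)
    ⟨bdd_of_clm P (up F) f, hf⟩
  exact ⟨clm hg.bdd, hg.comm, hgf⟩

lemma resol_dn (hR : Rel K K') {X : OpMod R} {n : ℕ} {P : ℕ → Hd.OpMod R}
    {e : (P 0).carrier → (up X).carrier} {d : ∀ i, (P (i + 1)).carrier → (P i).carrier}
    {t : (up X).carrier → (P 0).carrier} {s : ∀ i, (P i).carrier → (P (i + 1)).carrier}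
    (h : Hd.IsResol K n (up X) P e d t s) : Nonempty (Resol K' n X) :=
  ⟨{
    P := fun i => dn (P i) (hR.bdd _ (h.mem i))
    mem := fun i => hR.dn _ (h.mem i)
    proj := fun i => proj_dn hR (P i) (h.mem i) (h.proj i)
    zero := h.zero
    e := clm h.mor_e.bdd
    d := fun i => clm (h.mor_d i).bdd
    mor_e := h.mor_e.comm
    mor_d := fun i => (h.mor_d i).comm
    t := clm h.bdd_t
    s := fun i => clm (h.bdd_s i)
    e_d := h.e_d
    d_d := h.d_d
    e_t := h.e_t
    t_e := h.t_e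
    s_d := h.s_d }⟩

lemma hd_homDim_eq_top (hR : Rel K K') (hK : SubClosed K') {X : OpMod R}
    (h : ∀ m, ¬ dhle K' (m + 1) X) : Hd.homDim K (up X) = ⊤ := by
  unfold Hd.homDim
  rw [sInf_eq_top]
  rintro N ⟨n, rfl, P, e, d, t, s, hQ⟩
  exfalso
  obtain ⟨Q⟩ := resol_dn hR hQ
  obtain ⟨Q'⟩ := resol_succ Q
  exact h n (dhle_of_resol hK _ _ Q')

section Alg

variable (A : Type) [NormedRing A] [NormedAlgebra ℂ A]

lemma rel_left : Rel (Hd.LeftMod A) (LeftMod A) where
  bdd X h := h.bdd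
  dn X h := ⟨h.add, h.smul, h.mul, h.bound⟩
  up X h := ⟨fun r => bdd_of_clm (up X) (up X) (X.act r), h.add, h.smul, h.mul, h.bound⟩

lemma rel_bi : Rel (Hd.BiMod A) (BiMod A) where
  bdd X h := by
    rintro (a | a)
    · obtain ⟨h1, h2, h3⟩ := h.left.bdd a
      exact ⟨h1, h2, h3⟩
    · obtain ⟨h1, h2, h3⟩ := h.right.bdd (MulOpposite.op a)
      exact ⟨h1, h2, h3⟩
  dn X h := by
    obtain ⟨C, hC⟩ := h.left.bound
    obtain ⟨C', hC'⟩ := h.right.bound
    refine ⟨h.left.add, h.left.smul, h.left.mul, fun a b x => ?_, fun c a x => ?_,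
      fun a b x => ?_, h.comm, max C C', fun a x => ⟨?_, ?_⟩⟩
    · exact h.right.add (MulOpposite.op a) (MulOpposite.op b) x
    · exact h.right.smul c (MulOpposite.op a) x
    · exact h.right.mul (MulOpposite.op b) (MulOpposite.op a) x
    · refine (hC a x).trans ?_
      show C * ‖a‖ * ‖x‖ ≤ _
      have := le_max_left C C'
      gcongr
    · refine (hC' (MulOpposite.op a) x).trans ?_
      show C' * ‖a‖ * ‖x‖ ≤ _
      have := le_max_right C C'
      gcongr
  up X h := by
    obtain ⟨C, hC⟩ := h.bound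
    refine ⟨⟨fun a => ?_, h.add_l, h.smul_l, h.mul_l, C, fun a x => (hC a x).1⟩,
      ⟨fun a => ?_, fun a b x => ?_, fun c a x => ?_, fun a b x => ?_, C, fun a x => ?_⟩,
      h.comm⟩
    · obtain ⟨h1, h2, h3⟩ := bdd_of_clm (up X) (up X) (X.act (Sum.inl a))
      exact ⟨h1, h2, h3⟩
    · obtain ⟨h1, h2, h3⟩ := bdd_of_clm (up X) (up X) (X.act (Sum.inr a.unop))
      exact ⟨h1, h2, h3⟩
    · exact h.add_r a.unop b.unop x
    · exact h.smul_r c a.unop x
    · exact h.mul_r b.unop a.unop x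
    · exact (hC a.unop x).2

lemma regBi_eq [CompleteSpace A] : Hd.regBi A = up (regBi A) := by
  have h : (Sum.elim (fun a x => a * x) (fun a x => x * a) : A ⊕ A → A → A) =
      fun r x => (regBi A).act r x := by
    funext r x
    cases r <;> rfl
  unfold Hd.regBi up
  rw [h]
  rfl

end Alg

end

end Pool.Agent.Helper5.Dg
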