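import Mathlib
import Pool.Agent.Helper5.Dg.Core2

/-!
The first family of relations.
-/

namespace Pool.Agent.Helper5.Dg

open Finset Pool.Agent.Helper5.Sym Filter Topology
open scoped BigOperators ComplexConjugate

noncomputable section

lemma Mf_nonneg (k : ℕ) {C : ℝ} (hC : 0 ≤ C) : 0 ≤ Mf k C := by
  induction k generalizing C with
  | zero => exact le_rfl
  | succ k ih =>
    unfold Mf
    have := ih (C := 2 * (1 + C)) (by linarith)
    have := Cf_nonneg k
    linarith

lemma QN_merge_norm {N k r : ℕ} {c : ℕ → ℕ} (hc : Monotone c) {n n' : ℕ → ℕ → ℕ}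
    (hn : ∀ i < k + 1, Ty c r (n i)) (hn' : ∀ i < k + 1, Ty c r (n' i))
    (hnn : ∀ i < k + 1, (∀ t < r, n i t = n' i t) ∨
      ∀ t < r, n i t = c (t + 1) ∧ n' i t = c t) :
    ‖∑ t ∈ range r, (QN k N (fun i => n i t) - QN k N (fun i => n' i t))‖ ≤ Mf (k + 1) 0 := by
  refine Vk_norm_le_of_unit (Mf_nonneg _ le_rfl) fun a ξ ha hξ => ?_
  have h1 := merge_bound (N := N) hc (k := k + 1) (f := fun i => rs N (ex a i))
    (ξ := resX N ξ) (fun i x => (norm_rs_le _ x).trans (by
      unfold ex
      split_ifs
      · exact ha _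
      · rw [norm_one])) (fun x => (norm_resX_le ξ x).trans hξ) hn hn' hnn
    (U := fun _ => 1) (PC.const fun x => by simp)
  refine le_trans (le_of_eq ?_) h1
  rw [ev_sum]
  congr 1
  refine sum_congr rfl fun t _ => ?_
  rw [ev_sub, ev_QN, ev_QN, ← expect_sub_distrib]
  refine expect_congr rfl fun x _ => ?_
  rw [Pi.one_apply, one_mul, Pi.sub_apply]

lemma IA_congr_l {k : ℕ} {l l' : ℕ → ℕ} (h : ∀ i < k, l i = l' i) : IA k l = IA k l' := by
  induction k generalizing l l' with
  | zero => rfl
  | succ k ih =>
    ext F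
    rw [IA_succ, IA_succ, h 0 (by omega), ih fun i hi => h (i + 1) (by omega)]

variable {m : ℕ} (S : Sig m)

lemma gN_congr_l {N : ℕ} (Q : Vk (m + 1)) {l l' : ℕ → ℕ} (h : ∀ i < m + 1, l i = l' i) :
    gN S N Q l = gN S N Q l' := by
  unfold gN
  rw [IA_congr_l h]

/-- The generic value. -/
def Psi (N : ℕ) (lev lam l : ℕ → ℕ) : ℂ := gN S N (QN (m + 1) N fun i => lev (lam i)) l

/-- The limit. -/
def GG (lam : ℕ → ℕ) : ℂ :=
  Lam (2 * m + 3) fun x => Psi S (x (2 * m + 2)) (fun t => x (2 * t)) lam fun i => x (2 * i + 1)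

/-- The terms of the relation. -/
def Phi (lam : ℕ → ℕ) (j : ℕ) (x : ℕ → ℕ) : ℂ :=
  Psi S (x (2 * m + 4)) (fun t => x (2 * t)) lam (del j fun i => x (2 * i + 1))

/-- The terms of the relation, one variable less. -/
def Phi1 (lam : ℕ → ℕ) (j : ℕ) (y : ℕ → ℕ) : ℂ :=
  Psi S (y (2 * m + 3)) (fun t => y (if t ≤ j then 2 * t else 2 * t - 1)) lam
    fun i => y (if i < j then 2 * i + 1 else 2 * i + 2)

lemma Phi_ins (lam : ℕ → ℕ) {j : ℕ} (hj : j ≤ m + 1) (a : ℕ) (y : ℕ → ℕ) :
    Phi S lam j (insN (2 * j + 1) a y) = Phi1 S lam j y := by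
  unfold Phi Phi1
  have e1 : insN (2 * j + 1) a y (2 * m + 4) = y (2 * m + 3) := by
    rw [insN_gt _ _ (by omega)]
    congr 1
  have e2 : (fun t => insN (2 * j + 1) a y (2 * t)) =
      fun t => y (if t ≤ j then 2 * t else 2 * t - 1) := by
    funext t
    split_ifs with h
    · rw [insN_lt _ _ (by omega)]
    · rw [insN_gt _ _ (by omega)]
  have e3 : (del j fun i => insN (2 * j + 1) a y (2 * i + 1)) =
      fun i => y (if i < j then 2 * i + 1 else 2 * i + 2) := by
    funext i
    unfold del
    split_ifs with h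
    · show insN (2 * j + 1) a y (2 * i + 1) = _
      rw [insN_lt _ _ (by omega)]
    · show insN (2 * j + 1) a y (2 * (i + 1) + 1) = _
      rw [insN_gt _ _ (by omega)]
      congr 1
  rw [e1, e2, e3]

lemma Lam_Phi (lam : ℕ → ℕ) {j : ℕ} (hj : j ≤ m + 1) :
    Lam (2 * m + 5) (Phi S lam j) = Lam (2 * m + 4) (Phi1 S lam j) := by
  rw [show 2 * m + 5 = 2 * m + 4 + 1 by ring, Lam_drop (i := 2 * j + 1) (by omega)]
  · congr 1
    funext y
    exact Phi_ins S lam hj _ _
  · intro x a b
    rw [Phi_ins S lam hj, Phi_ins S lam hj]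

/-- The remainder tends to zero. -/
lemma Lam_Phi_sum (lam : ℕ → ℕ) (h0 : ∃ i ≤ m + 1, lam i = 0) :
    ∑ j ∈ range (m + 2), (-1 : ℂ) ^ j * Lam (2 * m + 5) (Phi S lam j) = 0 := by
  have e1 : ∑ j ∈ range (m + 2), (-1 : ℂ) ^ j * Lam (2 * m + 5) (Phi S lam j) =
      Lam (2 * m + 5) (∑ j ∈ range (m + 2), (-1 : ℂ) ^ j • Phi S lam j) := by
    rw [map_sum]
    exact sum_congr rfl fun j _ => by rw [map_smul, smul_eq_mul]
  rw [e1]
  refine Lam_gap (q := 0) (by omega) S.C fun x hx => ?_
  obtain ⟨i0, hi0, hz⟩ := h0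
  have h1 := gN_rel S (N := x (2 * m + 4)) (QN (m + 1) (x (2 * m + 4)) fun i => x (2 * lam i))
    fun i => x (2 * i + 1)
  have h2 : (∑ j ∈ range (m + 2), (-1 : ℂ) ^ j • Phi S lam j) x =
      - ((-1 : ℂ) ^ (m + 2) * rho S (x (2 * m + 4))
        (QN (m + 1) (x (2 * m + 4)) fun i => x (2 * lam i)) fun i => x (2 * i + 1)) := by
    rw [Finset.sum_apply, ← sub_eq_zero, sub_neg_eq_add, ← h1]
    congr 1
  rw [h2, norm_neg, norm_mul, norm_pow, norm_neg, norm_one, one_pow, one_mul]
  refine (rho_norm_le S _ _ fun i hi => ?_).trans ?_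
  · exact hx.le (by omega) (by omega)
  · refine mul_le_mul_of_nonneg_left ?_ S.hC
    have h3 := norm_QD_QN_le (N := x (2 * m + 4)) (k := m + 1) (l := x (2 * 0 + 1))
      (hx.le (by omega) (by omega)) (fun i => x (2 * lam i)) (i := i0) (by omega)
    rw [hz] at h3
    exact h3

lemma Phi1_merge (lam : ℕ → ℕ) (hlam : ∀ i, lam i ≤ m + 2) {j : ℕ} (hj : j ≤ m) :
    Lam (2 * m + 4) (Phi1 S lam j) = Lam (2 * m + 4) fun y =>
      Phi1 S lam j (Function.update y (2 * j + 1) (y (2 * j))) := by
  refine Lam_merge (q := 2 * j) (by omega) _ (S.C * Mf (m + 2) 0) fun r z hz => ?_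
  set c : ℕ → ℕ := fun s => z (2 * j + min s (r + 1)) with hc
  have hcm : Monotone c := by
    intro s t hst
    refine hz.le ?_ ?_
    · have : min s (r + 1) ≤ min t (r + 1) := min_le_min_right _ hst
      omega
    · have : min t (r + 1) ≤ r + 1 := min_le_right _ _
      omega
  set lz : ℕ → ℕ := fun i => if i < j then z (2 * i + 1) else z (2 * i + 2 + r) with hlz
  set n : ℕ → ℕ → ℕ := fun i s => if lam i < j then z (2 * lam i) else if lam i = j then c s
    else if lam i = j + 1 then c (s + 1) else z (2 * lam i - 1 + r) with hn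
  set n' : ℕ → ℕ → ℕ := fun i s => if lam i < j then z (2 * lam i) else if lam i = j then c s
    else if lam i = j + 1 then c s else z (2 * lam i - 1 + r) with hn'
  have hcs : ∀ s < r + 1, c s = z (2 * j + s) := by
    intro s hs
    simp only [hc]
    rw [min_eq_left hs.le]
  have hcs' : ∀ s < r + 1, c (s + 1) = z (2 * j + s + 1) := by
    intro s hs
    simp only [hc]
    rw [min_eq_left (by omega), Nat.add_assoc]
  set N : ℕ := z (2 * m + 3 + r) with hN
  have term1 : ∀ s ∈ range (r + 1), Phi1 S lam j (sel (2 * j) s r z) =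
      gN S N (QN (m + 1) N fun i => n i s) lz := by
    intro s hs
    rw [mem_range] at hs
    unfold Phi1 Psi
    have e1 : sel (2 * j) s r z (2 * m + 3) = N := by
      unfold sel
      rw [if_neg (by omega), if_neg (by omega), if_neg (by omega)]
    have e2 : (fun i => sel (2 * j) s r z (if lam i ≤ j then 2 * lam i else 2 * lam i - 1)) =
        fun i => n i s := by
      funext i
      simp only [hn, sel]
      by_cases h1 : lam i < j
      · rw [if_pos (by omega : lam i ≤ j), if_pos (by omega), if_pos h1]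
      · by_cases h2 : lam i = j
        · rw [if_pos (by omega : lam i ≤ j), if_neg (by omega), if_pos (by omega), if_neg h1,
            if_pos h2, hcs s hs]
        · by_cases h3 : lam i = j + 1
          · rw [if_neg (by omega : ¬ lam i ≤ j), if_neg (by omega), if_neg (by omega),
              if_pos (by omega), if_neg h1, if_neg h2, if_pos h3, hcs' s hs]
          · rw [if_neg (by omega : ¬ lam i ≤ j), if_neg (by omega), if_neg (by omega),
              if_neg (by omega), if_neg h1, if_neg h2, if_neg h3]
    have e3 : (fun i => sel (2 * j) s r z (if i < j then 2 * i + 1 else 2 * i + 2)) = lz := by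
      funext i
      simp only [hlz, sel]
      by_cases h1 : i < j
      · rw [if_pos h1, if_pos (by omega), if_pos h1]
      · rw [if_neg h1, if_neg (by omega), if_neg (by omega), if_neg (by omega), if_neg h1]
    rw [e1, e2, e3]
  have term2 : ∀ s ∈ range (r + 1), Phi1 S lam j (Function.update (sel (2 * j) s r z)
      (2 * j + 1) (sel (2 * j) s r z (2 * j))) =
      gN S N (QN (m + 1) N fun i => n' i s) lz := by
    intro s hs
    rw [mem_range] at hs
    unfold Phi1 Psi
    have e0 : sel (2 * j) s r z (2 * j) = z (2 * j + s) := by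
      unfold sel
      rw [if_neg (by omega), if_pos rfl]
    have e1 : Function.update (sel (2 * j) s r z) (2 * j + 1) (sel (2 * j) s r z (2 * j))
        (2 * m + 3) = N := by
      rw [Function.update_of_ne (by omega)]
      unfold sel
      rw [if_neg (by omega), if_neg (by omega), if_neg (by omega)]
    have e2 : (fun i => Function.update (sel (2 * j) s r z) (2 * j + 1)
        (sel (2 * j) s r z (2 * j)) (if lam i ≤ j then 2 * lam i else 2 * lam i - 1)) =
        fun i => n' i s := by
      funext i
      simp only [hn']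
      by_cases h1 : lam i < j
      · rw [if_pos (by omega : lam i ≤ j), Function.update_of_ne (by omega), if_pos h1]
        unfold sel
        rw [if_pos (by omega)]
      · by_cases h2 : lam i = j
        · rw [if_pos (by omega : lam i ≤ j), Function.update_of_ne (by omega), if_neg h1,
            if_pos h2, hcs s hs, h2, e0]
        · by_cases h3 : lam i = j + 1
          · rw [if_neg (by omega : ¬ lam i ≤ j), if_neg h1, if_neg h2, if_pos h3, hcs s hs]
            have h4 : 2 * lam i - 1 = 2 * j + 1 := by omega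
            rw [h4, Function.update_self, e0]
          · rw [if_neg (by omega : ¬ lam i ≤ j), Function.update_of_ne (by omega), if_neg h1,
              if_neg h2, if_neg h3]
            unfold sel
            rw [if_neg (by omega), if_neg (by omega), if_neg (by omega)]
    have e3 : (fun i => Function.update (sel (2 * j) s r z) (2 * j + 1)
        (sel (2 * j) s r z (2 * j)) (if i < j then 2 * i + 1 else 2 * i + 2)) = lz := by
      funext i
      simp only [hlz]
      by_cases h1 : i < j
      · rw [if_pos h1, Function.update_of_ne (by omega), if_pos h1]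
        unfold sel
        rw [if_pos (by omega)]
      · rw [if_neg h1, Function.update_of_ne (by omega), if_neg h1]
        unfold sel
        rw [if_neg (by omega), if_neg (by omega), if_neg (by omega)]
    rw [e1, e2, e3]
  have hsum : ∑ s ∈ range (r + 1), (Phi1 S lam j (sel (2 * j) s r z) -
      Phi1 S lam j (Function.update (sel (2 * j) s r z) (2 * j + 1)
        (sel (2 * j) s r z (2 * j)))) =
      gN S N (∑ s ∈ range (r + 1), (QN (m + 1) N (fun i => n i s) -
        QN (m + 1) N (fun i => n' i s))) lz := by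
    rw [gN_sum]
    refine sum_congr rfl fun s hs => ?_
    rw [term1 s hs, term2 s hs, gN_sub]
  rw [hsum]
  refine (gN_norm_le S _ _).trans (mul_le_mul_of_nonneg_left ?_ S.hC)
  have hc0 : c 0 = z (2 * j) := hcs 0 (by omega)
  have hcr : c (r + 1) = z (2 * j + r + 1) := by
    simp only [hc]
    rw [min_self, Nat.add_assoc]
  have hTlow : ∀ i, lam i < j → z (2 * lam i) ≤ c 0 := by
    intro i hi
    rw [hc0]
    exact hz.le (by omega) (by omega)
  have hThigh : ∀ i, j + 1 < lam i → c (r + 1) ≤ z (2 * lam i - 1 + r) := by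
    intro i hi
    rw [hcr]
    have := hlam i
    exact hz.le (by omega) (by omega)
  refine QN_merge_norm hcm (fun i _ => ?_) (fun i _ => ?_) fun i _ => ?_
  · by_cases h1 : lam i < j
    · exact Or.inl ⟨_, hTlow i h1, fun t _ => by simp only [hn, if_pos h1]⟩
    · by_cases h2 : lam i = j
      · exact Or.inr (Or.inr (Or.inl fun t _ => by simp only [hn, if_neg h1, if_pos h2]))
      · by_cases h3 : lam i = j + 1
        · exact Or.inr (Or.inr (Or.inr fun t _ => by
            simp only [hn, if_neg h1, if_neg h2, if_pos h3]))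
        · exact Or.inr (Or.inl ⟨_, hThigh i (by omega), fun t _ => by
            simp only [hn, if_neg h1, if_neg h2, if_neg h3]⟩)
  · by_cases h1 : lam i < j
    · exact Or.inl ⟨_, hTlow i h1, fun t _ => by simp only [hn', if_pos h1]⟩
    · by_cases h2 : lam i = j
      · exact Or.inr (Or.inr (Or.inl fun t _ => by simp only [hn', if_neg h1, if_pos h2]))
      · by_cases h3 : lam i = j + 1
        · exact Or.inr (Or.inr (Or.inl fun t _ => by
            simp only [hn', if_neg h1, if_neg h2, if_pos h3]))
        · exact Or.inr (Or.inl ⟨_, hThigh i (by omega), fun t _ => by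
            simp only [hn', if_neg h1, if_neg h2, if_neg h3]⟩)
  · by_cases h1 : lam i < j
    · exact Or.inl fun t _ => by simp only [hn, hn', if_pos h1]
    · by_cases h2 : lam i = j
      · exact Or.inl fun t _ => by simp only [hn, hn', if_neg h1, if_pos h2]
      · by_cases h3 : lam i = j + 1
        · exact Or.inr fun t _ => ⟨by simp only [hn, if_neg h1, if_neg h2, if_pos h3],
            by simp only [hn', if_neg h1, if_neg h2, if_pos h3]⟩
        · exact Or.inl fun t _ => by
            simp only [hn, hn', if_neg h1, if_neg h2, if_neg h3]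

end

end Pool.Agent.Helper5.Dg
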