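import Mathlib
import Pool.Agent.Helper5.Dg.Core3

/-!
The contradiction.
-/

namespace Pool.Agent.Helper5.Dg

open Finset Pool.Agent.Helper5.Sym Filter Topology
open scoped BigOperators ComplexConjugate

noncomputable section

variable {m : ℕ} (S : Sig m)

lemma update_insN (i : ℕ) (a b : ℕ) (z : ℕ → ℕ) :
    Function.update (insN i a z) i b = insN i b z := by
  funext t
  by_cases h : t = i
  · subst h
    rw [Function.update_self, insN_eq]
  · rw [Function.update_of_ne h]
    rcases lt_or_gt_of_ne h with h' | h'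
    · rw [insN_lt _ _ h', insN_lt _ _ h']
    · rw [insN_gt _ _ h', insN_gt _ _ h']

lemma Phi1_ins (lam : ℕ → ℕ) {j : ℕ} (hj : j ≤ m) (z : ℕ → ℕ) :
    Phi1 S lam j (insN (2 * j + 1) (z (2 * j)) z) =
      Psi S (z (2 * m + 2)) (fun t => z (2 * t)) (sj j ∘ lam) fun i => z (2 * i + 1) := by
  unfold Phi1 Psi
  have e1 : insN (2 * j + 1) (z (2 * j)) z (2 * m + 3) = z (2 * m + 2) := by
    rw [insN_gt _ _ (by omega)]
    congr 1
  have e2 : (fun i => insN (2 * j + 1) (z (2 * j)) z
      (if lam i ≤ j then 2 * lam i else 2 * lam i - 1)) = fun i => z (2 * (sj j ∘ lam) i) := by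
    funext i
    rw [Function.comp]
    by_cases h1 : lam i ≤ j
    · rw [if_pos h1, insN_lt _ _ (by omega), sj_le h1]
    · rw [if_neg h1, sj_gt (by omega)]
      by_cases h2 : lam i = j + 1
      · have h3 : 2 * lam i - 1 = 2 * j + 1 := by omega
        rw [h3, insN_eq]
        congr 1
        omega
      · rw [insN_gt _ _ (by omega)]
        congr 1
        omega
  have e3 : (fun i => insN (2 * j + 1) (z (2 * j)) z (if i < j then 2 * i + 1 else 2 * i + 2)) =
      fun i => z (2 * i + 1) := by
    funext i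
    by_cases h1 : i < j
    · rw [if_pos h1, insN_lt _ _ (by omega)]
    · rw [if_neg h1, insN_gt _ _ (by omega)]
      congr 1
  rw [e1, e2, e3]

lemma Lam_Phi1_le (lam : ℕ → ℕ) (hlam : ∀ i, lam i ≤ m + 2) {j : ℕ} (hj : j ≤ m) :
    Lam (2 * m + 4) (Phi1 S lam j) = GG S (sj j ∘ lam) := by
  rw [Phi1_merge S lam hlam hj, show 2 * m + 4 = 2 * m + 3 + 1 by ring,
    Lam_drop (i := 2 * j + 1) (by omega)]
  · unfold GG
    congr 1
    funext z
    rw [update_insN, insN_lt _ _ (by omega : 2 * j < 2 * j + 1)]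
    exact Phi1_ins S lam hj z
  · intro x a b
    show Phi1 S lam j (Function.update (insN (2 * j + 1) a x) (2 * j + 1)
      (insN (2 * j + 1) a x (2 * j))) = Phi1 S lam j (Function.update (insN (2 * j + 1) b x)
      (2 * j + 1) (insN (2 * j + 1) b x (2 * j)))
    rw [update_insN, update_insN, insN_lt _ _ (by omega : 2 * j < 2 * j + 1),
      insN_lt _ _ (by omega : 2 * j < 2 * j + 1)]

lemma Phi1_last (lam : ℕ → ℕ) (hlam : ∀ i, lam i ≤ m + 2) :
    Lam (2 * m + 4) (Phi1 S lam (m + 1)) = Lam (2 * m + 4) fun y =>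
      Phi1 S lam (m + 1) (Function.update y (2 * m + 2) (y (2 * m + 3))) := by
  rw [← sub_eq_zero, ← map_sub]
  refine Lam_eq_zero fun ε hε => ?_
  rw [show 2 * m + 4 = (2 * m + 2) + 2 by ring]
  refine EvB_outer 0 fun o _ => ?_
  set n : ℕ → ℕ → ℕ → ℕ := fun c N i => if lam i ≤ m then o (2 * lam i)
    else if lam i = m + 1 then c else N with hn
  set n' : ℕ → ℕ → ℕ → ℕ := fun c N i => if lam i ≤ m then o (2 * lam i)
    else if lam i = m + 1 then N else N with hn'
  set w : ℕ → ℕ → Vk (m + 1) := fun c N => QN (m + 1) N (n c N) - QN (m + 1) N (n' c N) with hw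
  set lo : ℕ → ℕ := fun i => o (2 * i + 1) with hlo
  have hsm : Sm fun c N => gN S N (w c N) lo := by
    unfold gN
    refine Sm_IA (m + 1) lo (fun c N u => dN S N (res (m + 2) (aw (m + 1) u)) (w c N) 1)
      fun u _ => ?_
    refine Sm_dN S w 2 (fun c N => ?_) _ fun a δ hδ => ?_
    · rw [hw]
      refine (norm_sub_le _ _).trans ?_
      have h1 := norm_QN_le (k := m + 1) N (n c N)
      have h2 := norm_QN_le (k := m + 1) N (n' c N)
      linarith
    · refine QN_small (fun c N i => ?_) a hδ
      simp only [hn, hn']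
      by_cases h1 : lam i ≤ m
      · left
        rw [if_pos h1, if_pos h1]
      · rw [if_neg h1, if_neg h1]
        by_cases h2 : lam i = m + 1
        · right
          rw [if_pos h2, if_pos h2]
          exact ⟨rfl, le_rfl⟩
        · left
          rw [if_neg h2, if_neg h2]
  have key : ∀ c N : ℕ, ∀ y : ℕ → ℕ, (∀ t < 2 * m + 2, y t = o t) → y (2 * m + 2) = c →
      y (2 * m + 3) = N → Phi1 S lam (m + 1) y -
        Phi1 S lam (m + 1) (Function.update y (2 * m + 2) (y (2 * m + 3))) =
        gN S N (w c N) lo := by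
    intro c N y hy hyc hyN
    have eA : Phi1 S lam (m + 1) y = gN S N (QN (m + 1) N (n c N)) lo := by
      unfold Phi1 Psi
      rw [hyN]
      have e2 : (fun i => y (if lam i ≤ m + 1 then 2 * lam i else 2 * lam i - 1)) = n c N := by
        funext i
        simp only [hn]
        by_cases h1 : lam i ≤ m
        · rw [if_pos (by omega : lam i ≤ m + 1), if_pos h1, hy _ (by omega)]
        · by_cases h2 : lam i = m + 1
          · rw [if_pos (by omega : lam i ≤ m + 1), if_neg h1, if_pos h2, ← hyc]
            congr 1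
            omega
          · have h3 : lam i = m + 2 := by have := hlam i; omega
            rw [if_neg (by omega : ¬ lam i ≤ m + 1), if_neg h1, if_neg h2, ← hyN]
            congr 1
            omega
      rw [e2]
      refine gN_congr_l S _ fun i hi => ?_
      rw [if_pos hi, hlo, hy _ (by omega)]
    have eB : Phi1 S lam (m + 1) (Function.update y (2 * m + 2) (y (2 * m + 3))) =
        gN S N (QN (m + 1) N (n' c N)) lo := by
      unfold Phi1 Psi
      rw [Function.update_of_ne (by omega : 2 * m + 3 ≠ 2 * m + 2), hyN]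
      have e2 : (fun i => Function.update y (2 * m + 2) N
          (if lam i ≤ m + 1 then 2 * lam i else 2 * lam i - 1)) = n' c N := by
        funext i
        simp only [hn']
        by_cases h1 : lam i ≤ m
        · rw [if_pos (by omega : lam i ≤ m + 1), if_pos h1, Function.update_of_ne (by omega),
            hy _ (by omega)]
        · by_cases h2 : lam i = m + 1
          · rw [if_pos (by omega : lam i ≤ m + 1), if_neg h1, if_pos h2]
            have h4 : 2 * lam i = 2 * m + 2 := by omega
            rw [h4, Function.update_self]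
          · have h3 : lam i = m + 2 := by have := hlam i; omega
            rw [if_neg (by omega : ¬ lam i ≤ m + 1), if_neg h1, if_neg h2,
              Function.update_of_ne (by omega)]
            have h4 : 2 * lam i - 1 = 2 * m + 3 := by omega
            rw [h4, hyN]
      rw [e2]
      refine gN_congr_l S _ fun i hi => ?_
      rw [if_pos hi, hlo, Function.update_of_ne (by omega), hy _ (by omega)]
    rw [eA, eB, ← gN_sub]
  have h5 := hsm ε hε
  rw [EvB_succ]
  filter_upwards [h5] with c hc
  rw [EvB_succ]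
  filter_upwards [hc] with N hN
  show ‖Phi1 S lam (m + 1) (app (2 * m + 2) o (insN 0 c (insN 0 N fun _ => 0))) -
    Phi1 S lam (m + 1) (Function.update (app (2 * m + 2) o (insN 0 c (insN 0 N fun _ => 0)))
      (2 * m + 2) (app (2 * m + 2) o (insN 0 c (insN 0 N fun _ => 0)) (2 * m + 3)))‖ ≤ ε
  rw [key c N]
  · exact hN
  · intro t ht
    unfold app
    rw [if_pos ht]
  · unfold app
    rw [if_neg (by omega), Nat.sub_self, insN_eq]
  · unfold app
    rw [if_neg (by omega)]
    have : 2 * m + 3 - (2 * m + 2) = 1 := by omega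
    rw [this, insN_gt _ _ (by omega), Nat.sub_self, insN_eq]

lemma Phi1_last_ins (lam : ℕ → ℕ) (z : ℕ → ℕ) :
    Phi1 S lam (m + 1) (insN (2 * m + 2) (z (2 * m + 2)) z) =
      Psi S (z (2 * m + 2)) (fun t => z (2 * t)) (sj (m + 1) ∘ lam) fun i => z (2 * i + 1) := by
  unfold Phi1 Psi
  have e1 : insN (2 * m + 2) (z (2 * m + 2)) z (2 * m + 3) = z (2 * m + 2) := by
    rw [insN_gt _ _ (by omega)]
    congr 1
  have e2 : (fun i => insN (2 * m + 2) (z (2 * m + 2)) z
      (if lam i ≤ m + 1 then 2 * lam i else 2 * lam i - 1)) =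
      fun i => z (2 * (sj (m + 1) ∘ lam) i) := by
    funext i
    rw [Function.comp]
    by_cases h1 : lam i ≤ m + 1
    · rw [if_pos h1, sj_le h1]
      by_cases h2 : lam i = m + 1
      · have h3 : 2 * lam i = 2 * m + 2 := by omega
        rw [h3, insN_eq]
      · rw [insN_lt _ _ (by omega)]
    · rw [if_neg h1, sj_gt (by omega), insN_gt _ _ (by omega)]
      congr 1
      omega
  have e3 : (fun i => insN (2 * m + 2) (z (2 * m + 2)) z
      (if i < m + 1 then 2 * i + 1 else 2 * i + 2)) = fun i => z (2 * i + 1) := by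
    funext i
    by_cases h1 : i < m + 1
    · rw [if_pos h1, insN_lt _ _ (by omega)]
    · rw [if_neg h1, insN_gt _ _ (by omega)]
      congr 1
  rw [e1, e2, e3]

lemma Lam_Phi1_last (lam : ℕ → ℕ) (hlam : ∀ i, lam i ≤ m + 2) :
    Lam (2 * m + 4) (Phi1 S lam (m + 1)) = GG S (sj (m + 1) ∘ lam) := by
  rw [Phi1_last S lam hlam, show 2 * m + 4 = 2 * m + 3 + 1 by ring,
    Lam_drop (i := 2 * m + 2) (by omega)]
  · unfold GG
    refine congrArg _ (funext fun z => ?_)
    rw [update_insN, insN_gt _ _ (by omega : 2 * m + 2 < 2 * m + 3)]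
    exact Phi1_last_ins S lam z
  · intro x a b
    show Phi1 S lam (m + 1) (Function.update (insN (2 * m + 2) a x) (2 * m + 2)
      (insN (2 * m + 2) a x (2 * m + 3))) = Phi1 S lam (m + 1)
      (Function.update (insN (2 * m + 2) b x) (2 * m + 2) (insN (2 * m + 2) b x (2 * m + 3)))
    rw [update_insN, update_insN, insN_gt _ _ (by omega : 2 * m + 2 < 2 * m + 3),
      insN_gt _ _ (by omega : 2 * m + 2 < 2 * m + 3)]

/-- The first family of relations. -/
theorem GG_rel1 (lam : ℕ → ℕ) (hlam : ∀ i, lam i ≤ m + 2) (h0 : ∃ i ≤ m + 1, lam i = 0) :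
    ∑ j ∈ range (m + 2), (-1 : ℂ) ^ j * GG S (sj j ∘ lam) = 0 := by
  rw [← Lam_Phi_sum S lam h0]
  refine sum_congr rfl fun j hj => ?_
  rw [mem_range] at hj
  rw [Lam_Phi S lam (by omega : j ≤ m + 1)]
  rcases Nat.lt_or_ge j (m + 1) with h | h
  · rw [Lam_Phi1_le S lam hlam (by omega : j ≤ m)]
  · have : j = m + 1 := by omega
    subst this
    rw [Lam_Phi1_last S lam hlam]

end

end Pool.Agent.Helper5.Dg
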