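import Mathlib
import Pool.Agent.Helper5.Dg.Core4

/-!
The second family of relations and the contradiction.
-/

namespace Pool.Agent.Helper5.Dg

open Finset Pool.Agent.Helper5.Sym Filter Topology
open scoped BigOperators ComplexConjugate

noncomputable section

variable {m : ℕ} (S : Sig m)

lemma gN_bst_QN {N : ℕ} (m' l : ℕ → ℕ) (hl : ∀ i < m + 1, l i ≤ N) :
    gN S N (bst (QN m N m')) l =
      ∑ j ∈ range (m + 1), (-1 : ℂ) ^ j * ∏ i ∈ range m, (1 / 2 : ℂ) ^ (del j l i - m' i) +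
        (-1 : ℂ) ^ (m + 1) * ∏ i ∈ range (m + 1), (1 / 2 : ℂ) ^ (l i - m' i) := by
  set R := QN m N m' with hR
  have h1 : gN S N (bst R) l = IA (m + 1) l ((∑ j ∈ range (m + 1), (-1 : ℂ) ^ j •
      fun u => ev R (res (m + 1) (aw m (del j u))) (exX N 1)) + (-1 : ℂ) ^ (m + 1) •
      fun u => ev R (res (m + 1) (aw (m + 1) u)) (lift (aw (m + 1) u (m + 1)) * exX N 1)) := by
    unfold gN
    refine IA_congr fun u hu => ?_
    have hs : ∑ j ∈ range (m + 1), (-1 : ℂ) ^ j *
        ev R (mergeAt j (res (m + 1 + 1) (aw (m + 1) u))) (exX N 1) =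
        ∑ j ∈ range (m + 1), (-1 : ℂ) ^ j * ev R (res (m + 1) (aw m (del j u))) (exX N 1) := by
      refine sum_congr rfl fun j hj => ?_
      rw [mem_range] at hj
      rw [mergeAt_res]
      have e : res (m + 1) (mergeN j (aw (m + 1) u)) = res (m + 1) (aw m (del j u)) := by
        funext i
        exact merge_aw (by omega) u (chs_sq (hu j)) (by have := i.2; omega)
      rw [e]
    rw [dN_bst, ev_bst, hs, Pi.add_apply, Finset.sum_apply, Pi.smul_apply, smul_eq_mul]
    rfl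
  rw [h1, map_add, map_sum, map_smul, smul_eq_mul, hR, Tval' m' l hl]
  refine congrArg (· + _) (sum_congr rfl fun j hj => ?_)
  rw [mem_range] at hj
  rw [map_smul, smul_eq_mul, IA_drop (by omega : j ≤ m) l
    (fun u => ev (QN m N m') (res (m + 1) (aw m u)) (exX N 1)), Tval]
  intro i hi
  unfold del
  split_ifs
  · exact hl _ (by omega)
  · exact hl _ (by omega)

lemma norm_half_pow (n : ℕ) : ‖(1 / 2 : ℂ) ^ n‖ = (1 / 2 : ℝ) ^ n := by
  rw [norm_pow]
  norm_num

lemma norm_prod_half_le {n i : ℕ} (hi : i < n) (f : ℕ → ℕ) :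
    ‖∏ i ∈ range n, (1 / 2 : ℂ) ^ f i‖ ≤ (1 / 2 : ℝ) ^ f i := by
  rw [norm_prod, ← Finset.mul_prod_erase _ _ (mem_range.2 hi), norm_half_pow]
  refine mul_le_of_le_one_right (by positivity) (prod_le_one (fun _ _ => norm_nonneg _)
    fun j _ => ?_)
  rw [norm_half_pow]
  exact pow_le_one₀ (by norm_num) (by norm_num)

lemma half_pow_le {a b : ℕ} (h : a ≤ b) : (1 / 2 : ℝ) ^ b ≤ 1 * (1 / 2 : ℝ) ^ a := by
  rw [one_mul]
  exact pow_le_pow_of_le_one (by norm_num) (by norm_num) h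

lemma Lam_prod1 (μ : ℕ → ℕ) (hμ : ∀ i, μ i ≤ m + 1) {j : ℕ} :
    Lam (2 * m + 3) (fun x => ∏ i ∈ range m,
      (1 / 2 : ℂ) ^ (del j (fun i => x (2 * i + 1)) i - x (2 * μ i))) = Th m (sj j ∘ μ) := by
  by_cases hall : ∀ i < m, i + 1 ≤ (sj j ∘ μ) i
  · have e1 : Th m (sj j ∘ μ) = 1 := by
      unfold Th
      exact prod_eq_one fun i hi => if_pos (hall i (mem_range.1 hi))
    rw [e1, ← Lam_const (2 * m + 3) 1]
    refine Lam_congr fun x hx => ?_
    refine prod_eq_one fun i hi => ?_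
    rw [mem_range] at hi
    have h2 := hall i hi
    rw [Function.comp, sj_ge_iff] at h2
    have hμi := hμ i
    have e2 : del j (fun i => x (2 * i + 1)) i - x (2 * μ i) = 0 := by
      rw [Nat.sub_eq_zero_iff_le]
      unfold del
      split_ifs with h3
      · rw [if_pos h3] at h2
        exact hx.le (by omega) (by omega)
      · rw [if_neg h3] at h2
        exact hx.le (by omega) (by omega)
    rw [e2, pow_zero]
  · push Not at hall
    obtain ⟨i, hi, hlt⟩ := hall
    have e1 : Th m (sj j ∘ μ) = 0 := by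
      unfold Th
      exact prod_eq_zero (mem_range.2 hi) (if_neg (by omega))
    have h2 : ¬ (i + 1 ≤ (sj j ∘ μ) i) := by omega
    rw [Function.comp, sj_ge_iff] at h2
    rw [e1]
    have hμi := hμ i
    by_cases h3 : i < j
    · rw [if_pos h3] at h2
      refine Lam_gap (q := 2 * i) (by omega) 1 fun x hx => ?_
      refine (norm_prod_half_le hi _).trans (half_pow_le ?_)
      unfold del
      rw [if_pos h3]
      have h4 : x (2 * μ i) ≤ x (2 * i) := hx.le (by omega) (by omega)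
      show x (2 * i + 1) - x (2 * i) ≤ x (2 * i + 1) - x (2 * μ i)
      omega
    · rw [if_neg h3] at h2
      refine Lam_gap (q := 2 * i + 2) (by omega) 1 fun x hx => ?_
      refine (norm_prod_half_le hi _).trans (half_pow_le ?_)
      unfold del
      rw [if_neg h3]
      have h4 : x (2 * μ i) ≤ x (2 * i + 2) := hx.le (by omega) (by omega)
      show x (2 * i + 2 + 1) - x (2 * i + 2) ≤ x (2 * (i + 1) + 1) - x (2 * μ i)
      have e5 : 2 * (i + 1) + 1 = 2 * i + 2 + 1 := by ring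
      rw [e5]
      omega

lemma Lam_prod2 (μ : ℕ → ℕ) (h0 : ∃ i ≤ m, μ i = 0) :
    Lam (2 * m + 3) (fun x => ∏ i ∈ range (m + 1),
      (1 / 2 : ℂ) ^ ((fun i => x (2 * i + 1)) i - x (2 * μ i))) = 0 := by
  obtain ⟨i, hi, hz⟩ := h0
  refine Lam_gap (q := 0) (by omega) 1 fun x hx => ?_
  refine (norm_prod_half_le (i := i) (by omega) _).trans (half_pow_le ?_)
  rw [hz]
  have h4 : x 1 ≤ x (2 * i + 1) := hx.le (by omega) (by omega)
  show x (0 + 1) - x 0 ≤ x (2 * i + 1) - x (2 * 0)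
  rw [Nat.zero_add, Nat.mul_zero]
  omega

/-- The second family of relations. -/
theorem GG_rel2 (μ : ℕ → ℕ) (hμ : ∀ i, μ i ≤ m + 1) (h0 : ∃ i ≤ m, μ i = 0) :
    ∑ i ∈ range (m + 2), (-1 : ℂ) ^ i * GG S (insN i (m + 1) μ) =
      ∑ j ∈ range (m + 1), (-1 : ℂ) ^ j * Th m (sj j ∘ μ) := by
  have e1 : ∑ i ∈ range (m + 2), (-1 : ℂ) ^ i * GG S (insN i (m + 1) μ) =
      Lam (2 * m + 3) fun x => gN S (x (2 * m + 2))
        (bst (QN m (x (2 * m + 2)) fun t => x (2 * μ t))) fun i => x (2 * i + 1) := by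
    have e2 : (fun x : ℕ → ℕ => gN S (x (2 * m + 2))
        (bst (QN m (x (2 * m + 2)) fun t => x (2 * μ t))) fun i => x (2 * i + 1)) =
        ∑ i ∈ range (m + 2), (-1 : ℂ) ^ i • fun x : ℕ → ℕ =>
          Psi S (x (2 * m + 2)) (fun t => x (2 * t)) (insN i (m + 1) μ)
            fun i => x (2 * i + 1) := by
      funext x
      rw [bst_QN, gN_sum, Finset.sum_apply]
      refine sum_congr rfl fun i _ => ?_
      rw [gN_smul, Pi.smul_apply, smul_eq_mul]
      unfold Psi
      have e3 := comp_insN (fun t => x (2 * t)) i (m + 1) μ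
      have e4 : (fun t => x (2 * insN i (m + 1) μ t)) =
          insN i (x (2 * m + 2)) fun t => x (2 * μ t) := e3
      rw [e4]
    rw [e2, map_sum]
    exact sum_congr rfl fun i _ => by rw [map_smul, smul_eq_mul]; rfl
  rw [e1]
  have e5 : Lam (2 * m + 3) (fun x : ℕ → ℕ => gN S (x (2 * m + 2))
      (bst (QN m (x (2 * m + 2)) fun t => x (2 * μ t))) fun i => x (2 * i + 1)) =
      Lam (2 * m + 3) ((∑ j ∈ range (m + 1), (-1 : ℂ) ^ j • fun x : ℕ → ℕ =>
        ∏ i ∈ range m, (1 / 2 : ℂ) ^ (del j (fun i => x (2 * i + 1)) i - x (2 * μ i))) +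
        (-1 : ℂ) ^ (m + 1) • fun x : ℕ → ℕ => ∏ i ∈ range (m + 1),
          (1 / 2 : ℂ) ^ ((fun i => x (2 * i + 1)) i - x (2 * μ i))) := by
    refine Lam_congr fun x hx => ?_
    rw [gN_bst_QN S (fun t => x (2 * μ t)) (fun i => x (2 * i + 1))
      (fun i hi => hx.le (by omega) (by omega)), Pi.add_apply, Finset.sum_apply, Pi.smul_apply,
      smul_eq_mul]
    rfl
  rw [e5, map_add, map_sum, map_smul, Lam_prod2 μ h0, smul_zero, add_zero]
  refine sum_congr rfl fun j _ => ?_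
  rw [map_smul, smul_eq_mul, Lam_prod1 μ hμ]

/-- There is no such functional. -/
theorem no_sig {m : ℕ} (S : Sig m) : False :=
  alg_contra m (GG S) (fun lam h h0 => GG_rel1 S lam h h0) fun μ h h0 => GG_rel2 S μ h h0

end

end Pool.Agent.Helper5.Dg
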