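import Mathlib
import Pool.Agent.Helper5.Dg.CProj
import Pool.Agent.Helper5.Dg.Ops

/-!
Vanishing of the cohomology of modules of finite dimension.
-/

namespace Pool.Agent.Helper5.Dg

open Filter Topology unitInterval Finset Pool.Agent.Helper5.Sym

noncomputable section

section Base

variable (Y : Type) [NormedAddCommGroup Y] [NormedSpace ℂ Y]

/-- Bounded multilinear maps. -/
def ML (n : ℕ) : Type := ContinuousMultilinearMap ℂ (fun _ : Fin n => Al) Y

instance (n : ℕ) : NormedAddCommGroup (ML Y n) :=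
  inferInstanceAs (NormedAddCommGroup (ContinuousMultilinearMap ℂ (fun _ : Fin n => Al) Y))

instance (n : ℕ) : NormedSpace ℂ (ML Y n) :=
  inferInstanceAs (NormedSpace ℂ (ContinuousMultilinearMap ℂ (fun _ : Fin n => Al) Y))

instance [CompleteSpace Y] (n : ℕ) : CompleteSpace (ML Y n) :=
  inferInstanceAs (CompleteSpace (ContinuousMultilinearMap ℂ (fun _ : Fin n => Al) Y))

variable {Y} {n : ℕ}

/-- Evaluation. -/
def mv (φ : ML Y n) (a : Fin n → Al) : Y :=
  (show ContinuousMultilinearMap ℂ (fun _ : Fin n => Al) Y from φ) a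

lemma mv_add (φ ψ : ML Y n) (a) : mv (φ + ψ) a = mv φ a + mv ψ a := rfl

lemma mv_sub (φ ψ : ML Y n) (a) : mv (φ - ψ) a = mv φ a - mv ψ a := rfl

lemma mv_smul (c : ℂ) (φ : ML Y n) (a) : mv (c • φ) a = c • mv φ a := rfl

lemma mv_zero (a) : mv (0 : ML Y n) a = 0 := rfl

lemma mv_ext {φ ψ : ML Y n} (h : ∀ a, mv φ a = mv ψ a) : φ = ψ :=
  ContinuousMultilinearMap.ext fun a => h a

lemma mv_multilin (φ : ML Y n) : IsMultilin (mv φ) where
  map_add a i x y := ContinuousMultilinearMap.map_update_add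
      (show ContinuousMultilinearMap ℂ (fun _ : Fin n => Al) Y from φ) a i x y
  map_smul a i c x := ContinuousMultilinearMap.map_update_smul
      (show ContinuousMultilinearMap ℂ (fun _ : Fin n => Al) Y from φ) a i c x

lemma mv_norm_le (φ : ML Y n) (a) : ‖mv φ a‖ ≤ ‖φ‖ * ∏ i, ‖a i‖ :=
  ContinuousMultilinearMap.le_opNorm
    (show ContinuousMultilinearMap ℂ (fun _ : Fin n => Al) Y from φ) a

lemma ML_norm_le {φ : ML Y n} {C : ℝ} (hC : 0 ≤ C) (h : ∀ a, ‖mv φ a‖ ≤ C * ∏ i, ‖a i‖) :
    ‖φ‖ ≤ C := ContinuousMultilinearMap.opNorm_le_bound hC h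

/-- Multilinear maps as functions. -/
def mkM (F : (Fin n → Al) → Y) (hF : IsMultilin F) (C : ℝ)
    (h : ∀ a, ‖F a‖ ≤ C * ∏ i, ‖a i‖) : ML Y n :=
  MultilinearMap.mkContinuous
    { toFun := F
      map_update_add' := fun {inst} a i x y => by
        have h := hF.map_add a i x y
        have e : inst = instDecidableEqFin n := Subsingleton.elim _ _
        subst e
        exact h
      map_update_smul' := fun {inst} a i c x => by
        have h := hF.map_smul a i c x
        have e : inst = instDecidableEqFin n := Subsingleton.elim _ _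
        subst e
        exact h } C h

lemma mv_mkM (F : (Fin n → Al) → Y) (hF : IsMultilin F) (C : ℝ)
    (h : ∀ a, ‖F a‖ ≤ C * ∏ i, ‖a i‖) (a) : mv (mkM F hF C h) a = F a := rfl

/-- Operators with values in multilinear maps. -/
lemma exists_mkL {Z : Type*} [NormedAddCommGroup Z] [NormedSpace ℂ Z]
    (F : Z → (Fin n → Al) → Y) (hadd : ∀ z w a, F (z + w) a = F z a + F w a)
    (hsmul : ∀ (c : ℂ) z a, F (c • z) a = c • F z a) (hm : ∀ z, IsMultilin (F z)) {C : ℝ}
    (hC : 0 ≤ C) (hb : ∀ z a, ‖F z a‖ ≤ C * ‖z‖ * ∏ i, ‖a i‖) :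
    ∃ T : Z →L[ℂ] ML Y n, (∀ z a, mv (T z) a = F z a) ∧ ∀ z, ‖T z‖ ≤ C * ‖z‖ := by
  have h1 : ∀ z, ‖mkM (F z) (hm z) (C * ‖z‖) (hb z)‖ ≤ C * ‖z‖ := fun z =>
    ML_norm_le (by positivity) (hb z)
  refine ⟨LinearMap.mkContinuous
    ({ toFun := fun z => mkM (F z) (hm z) (C * ‖z‖) (hb z)
       map_add' := fun z w => mv_ext fun a => hadd z w a
       map_smul' := fun c z => mv_ext fun a => hsmul c z a } : Z →ₗ[ℂ] ML Y n) C h1,
    fun z a => rfl, h1⟩

/-- Evaluation as a bounded operator. -/
lemma exists_evL (a : Fin n → Al) : ∃ T : ML Y n →L[ℂ] Y, ∀ φ, T φ = mv φ a :=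
  ⟨LinearMap.mkContinuous
    ({ toFun := fun φ => mv φ a
       map_add' := fun φ ψ => rfl
       map_smul' := fun c φ => rfl } : ML Y n →ₗ[ℂ] Y) (∏ i, ‖a i‖) (fun φ => by
        rw [mul_comm]
        exact mv_norm_le φ a), fun φ => rfl⟩

end Base

variable {Y : Type} [NormedAddCommGroup Y] [NormedSpace ℂ Y] {n : ℕ}

/-! ### Multiplying the last entry -/

/-- Multiply the last entry. -/
def rmF (u : Al) (a : Fin (n + 1) → Al) : Fin (n + 1) → Al := fun i =>
  if (i : ℕ) = n then a i * u else a i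

/-- Multiply an entry. -/
def rmN (n : ℕ) (u : Al) (x : ℕ → Al) : ℕ → Al := fun i => if i = n then x i * u else x i

lemma rmF_res (u : Al) (x : ℕ → Al) : rmF u (res (n + 1) x) = res (n + 1) (rmN n u x) := rfl

lemma rmF_rmF (u v : Al) (a : Fin (n + 1) → Al) : rmF u (rmF v a) = rmF (v * u) a := by
  funext i
  unfold rmF
  split_ifs
  · rw [mul_assoc]
  · rfl

lemma rmN_eq_update (u : Al) (x : ℕ → Al) : rmN n u x = Function.update x n (x n * u) := by
  funext i
  unfold rmN
  split_ifs with h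
  · subst h
    rw [Function.update_self]
  · rw [Function.update_of_ne h]

lemma multilin_rm {Z : Type*} [AddCommGroup Z] [Module ℂ Z] (u : Al)
    {f : (Fin (n + 1) → Al) → Z} (hf : IsMultilin f) : IsMultilin (fun a => f (rmF u a)) := by
  refine isMultilin_comp hf (rmF u) fun a i => ?_
  by_cases hi : (i : ℕ) = n
  · refine ⟨i, LinearMap.mulRight ℂ u, fun z => ?_⟩
    funext j
    unfold rmF
    by_cases hj : j = i
    · subst hj
      rw [Function.update_self, Function.update_self, if_pos hi]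
      rfl
    · rw [Function.update_of_ne hj, Function.update_of_ne hj]
  · refine ⟨i, LinearMap.id, fun z => ?_⟩
    funext j
    unfold rmF
    by_cases hj : j = i
    · subst hj
      rw [Function.update_self, Function.update_self, if_neg hi]
      rfl
    · rw [Function.update_of_ne hj, Function.update_of_ne hj]

lemma prod_res (n : ℕ) (x : ℕ → Al) : ∏ i, ‖res n x i‖ = ∏ i ∈ range n, ‖x i‖ :=
  Fin.prod_univ_eq_prod_range (fun j => ‖x j‖) n

lemma prod_rmF_le (u : Al) (a : Fin (n + 1) → Al) :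
    ∏ i, ‖rmF u a i‖ ≤ (∏ i, ‖a i‖) * ‖u‖ := by
  obtain ⟨x, rfl⟩ := exists_res a
  rw [rmF_res, prod_res, prod_res, prod_range_succ, prod_range_succ, mul_assoc]
  have h1 : ∏ i ∈ range n, ‖rmN n u x i‖ = ∏ i ∈ range n, ‖x i‖ := by
    refine prod_congr rfl fun i hi => ?_
    rw [mem_range] at hi
    unfold rmN
    rw [if_neg (by omega)]
  have h2 : rmN n u x n = x n * u := by
    unfold rmN
    rw [if_pos rfl]
  rw [h1, h2]
  exact mul_le_mul_of_nonneg_left (norm_mul_le _ _) (prod_nonneg fun i _ => norm_nonneg _)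

lemma mergeAt_rmF {i : ℕ} (hi : i < n + 1) (u : Al) (a : Fin (n + 2) → Al) :
    mergeAt i (rmF u a) = rmF u (mergeAt i a) := by
  obtain ⟨x, rfl⟩ := exists_res a
  rw [rmF_res, mergeAt_res, mergeAt_res, rmF_res]
  congr 1
  funext k
  unfold rmN
  rcases lt_trichotomy k i with h | h | h
  · rw [mergeN_lt _ h, mergeN_lt _ h, if_neg (by omega)]
    split_ifs with h'
    · omega
    · rfl
  · subst h
    rw [mergeN_eq, mergeN_eq, if_neg (by omega)]
    by_cases h' : k = n
    · rw [if_pos (by omega), if_pos h', mul_assoc]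
    · rw [if_neg (by omega), if_neg h']
  · rw [mergeN_gt _ h, mergeN_gt _ h]
    by_cases h' : k = n
    · rw [if_pos (by omega), if_pos h']
    · rw [if_neg (by omega), if_neg h']

lemma mergeAt_lmF {i : ℕ} (u : Al) (a : Fin (n + 2) → Al) :
    mergeAt i (lmF u a) = lmF u (mergeAt i a) := by
  obtain ⟨x, rfl⟩ := exists_res a
  rw [lmF_res, mergeAt_res, mergeAt_res, lmF_res]
  congr 1
  funext k
  unfold lmN
  rcases lt_trichotomy k i with h | h | h
  · rw [mergeN_lt _ h, mergeN_lt _ h]
  · subst h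
    rw [mergeN_eq, mergeN_eq, if_neg (by omega : ¬ (k + 1 = 0))]
    split_ifs
    · rw [mul_assoc]
    · rfl
  · rw [mergeN_gt _ h, mergeN_gt _ h, if_neg (by omega), if_neg (by omega)]

/-! ### Appending an entry -/

/-- Append an entry. -/
def ap (a : Fin n → Al) (u : Al) : Fin (n + 1) → Al := fun i =>
  if h : (i : ℕ) < n then a ⟨i, h⟩ else u

lemma ap_res (x : ℕ → Al) (u : Al) : ap (res n x) u = res (n + 1) (Function.update x n u) := by
  funext i
  unfold ap res
  split_ifs with h
  · rw [Function.update_of_ne (by omega)]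
  · have : (i : ℕ) = n := by omega
    rw [this, Function.update_self]

lemma ap_update (a : Fin n → Al) (u : Al) (i : Fin n) (z : Al) :
    ap (Function.update a i z) u = Function.update (ap a u) i.castSucc z := by
  funext j
  unfold ap
  by_cases hj : j = i.castSucc
  · subst hj
    rw [Function.update_self]
    have h : ((i.castSucc : Fin (n + 1)) : ℕ) < n := i.2
    rw [dif_pos h]
    exact Function.update_self _ _ _
  · rw [Function.update_of_ne hj]
    split_ifs with h
    · rw [Function.update_of_ne]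
      intro h'
      apply hj
      rw [← h']
      rfl
    · rfl

lemma multilin_ap {Z : Type*} [AddCommGroup Z] [Module ℂ Z] (u : Al)
    {f : (Fin (n + 1) → Al) → Z} (hf : IsMultilin f) : IsMultilin (fun a => f (ap a u)) :=
  isMultilin_comp hf (fun a => ap a u) fun a i => ⟨i.castSucc, LinearMap.id, fun z => by
    rw [ap_update]
    rfl⟩

lemma prod_ap (a : Fin n → Al) (u : Al) : ∏ i, ‖ap a u i‖ = (∏ i, ‖a i‖) * ‖u‖ := by
  obtain ⟨x, rfl⟩ := exists_res a
  rw [ap_res, prod_res, prod_res, prod_range_succ, Function.update_self]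
  congr 1
  refine prod_congr rfl fun i hi => ?_
  rw [mem_range] at hi
  rw [Function.update_of_ne (by omega)]

lemma ap_ini_lst (a : Fin (n + 1) → Al) : ap (ini a) (lst a) = a := by
  obtain ⟨x, rfl⟩ := exists_res a
  rw [ini_res, lst_res, ap_res, Function.update_eq_self]

lemma ini_ap (a : Fin n → Al) (u : Al) : ini (ap a u) = a := by
  funext i
  unfold ini ap
  have h : ((i.castSucc : Fin (n + 1)) : ℕ) < n := i.2
  rw [dif_pos h]
  rfl

lemma lst_ap (a : Fin n → Al) (u : Al) : lst (ap a u) = u := by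
  unfold lst ap
  rw [dif_neg (by simp)]

lemma rmF_ap (a : Fin n → Al) (u v : Al) : rmF v (ap a u) = ap a (u * v) := by
  funext i
  unfold rmF ap
  by_cases h : (i : ℕ) < n
  · rw [dif_pos h, dif_pos h, if_neg (by omega)]
  · rw [dif_neg h, dif_neg h, if_pos (by omega)]

lemma lmF_ap (a : Fin (n + 1) → Al) (u v : Al) : lmF v (ap a u) = ap (lmF v a) u := by
  funext i
  unfold lmF ap
  by_cases h : (i : ℕ) < n + 1
  · rw [dif_pos h, dif_pos h]
  · rw [dif_neg h, dif_neg h, if_neg (by omega)]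

lemma rmF_eq_ap (a : Fin (n + 1) → Al) (v : Al) : rmF v a = ap (ini a) (lst a * v) := by
  conv_lhs => rw [← ap_ini_lst a]
  rw [rmF_ap]

lemma mergeAt_ap {i : ℕ} (hi : i < n) (a : Fin (n + 1) → Al) (u : Al) :
    mergeAt i (ap a u) = ap (mergeAt i a) u := by
  obtain ⟨x, rfl⟩ := exists_res a
  rw [ap_res, mergeAt_res, mergeAt_res, ap_res]
  funext k
  unfold res
  rcases lt_trichotomy (k : ℕ) i with h | h | h
  · rw [mergeN_lt _ h, Function.update_of_ne (by omega), Function.update_of_ne (by omega),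
      mergeN_lt _ h]
  · rw [h, mergeN_eq, Function.update_of_ne (by omega), Function.update_of_ne (by omega),
      Function.update_of_ne (by omega), mergeN_eq]
  · rw [mergeN_gt _ h]
    by_cases h' : (k : ℕ) = n
    · rw [h', Function.update_self, Function.update_self]
    · rw [Function.update_of_ne (by omega), Function.update_of_ne (by omega), mergeN_gt _ h]

lemma mergeAt_ap_last (a : Fin (n + 1) → Al) (u : Al) : mergeAt n (ap a u) = rmF u a := by
  obtain ⟨x, rfl⟩ := exists_res a
  rw [ap_res, mergeAt_res, rmF_res]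
  funext k
  unfold res rmN
  rcases lt_trichotomy (k : ℕ) n with h | h | h
  · rw [mergeN_lt _ h, Function.update_of_ne (by omega), if_neg (by omega)]
  · rw [h, mergeN_eq, Function.update_of_ne (by omega), Function.update_self, if_pos rfl]
  · omega

lemma rmF_one (a : Fin (n + 1) → Al) : rmF 1 a = a := by
  funext i
  unfold rmF
  split_ifs
  · rw [mul_one]
  · rfl

/-- The bar differential with an appended entry. -/
lemma barD_ap (f : (Fin (n + 1) → Al) → Y) (a : Fin (n + 1) → Al) (u : Al) :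
    barD f (ap a u) = barD (fun b => f (ap b u)) a + (-1 : ℂ) ^ (n + 1) • f (rmF u a) := by
  unfold barD
  rw [sum_range_succ, mergeAt_ap_last]
  congr 1
  refine sum_congr rfl fun i hi => ?_
  rw [mergeAt_ap (mem_range.1 hi)]

end

end Pool.Agent.Helper5.Dg
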