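import Mathlib
import Pool.Agent.Helper5.Dg.Van

/-!
Vanishing of the cohomology: the projective case.
-/

namespace Pool.Agent.Helper5.Dg

open Filter Topology unitInterval Finset Pool.Agent.Helper5.Sym

noncomputable section

variable {Y : Type} [NormedAddCommGroup Y] [NormedSpace ℂ Y] {n : ℕ}

lemma barD_neg_free {f g : (Fin n → Al) → Y} (h : ∀ a, f a = g a) (a : Fin (n + 1) → Al) :
    barD f a = barD g a := by
  unfold barD
  exact sum_congr rfl fun i _ => by rw [h]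

lemma barD_add (f g : (Fin n → Al) → Y) (a : Fin (n + 1) → Al) :
    barD (fun b => f b + g b) a = barD f a + barD g a := by
  unfold barD
  rw [← sum_add_distrib]
  exact sum_congr rfl fun i _ => by rw [smul_add]

lemma barD_sub (f g : (Fin n → Al) → Y) (a : Fin (n + 1) → Al) :
    barD (fun b => f b - g b) a = barD f a - barD g a := by
  unfold barD
  rw [← sum_sub_distrib]
  exact sum_congr rfl fun i _ => by rw [smul_sub]

lemma barD_smul (c : ℂ) (f : (Fin n → Al) → Y) (a : Fin (n + 1) → Al) :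
    barD (fun b => c • f b) a = c • barD f a := by
  unfold barD
  rw [smul_sum]
  exact sum_congr rfl fun i _ => smul_comm _ _ _

lemma barD_zero (a : Fin (n + 1) → Al) : barD (fun _ : Fin n → Al => (0 : Y)) a = 0 := by
  unfold barD
  exact sum_eq_zero fun i _ => smul_zero _

lemma barD_rmF (f : (Fin (n + 1) → Al) → Y) (u : Al) (a : Fin (n + 2) → Al) :
    barD (fun b => f (rmF u b)) a = barD f (rmF u a) := by
  unfold barD
  exact sum_congr rfl fun i hi => by rw [mergeAt_rmF (mem_range.1 hi)]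

lemma barD_lmF (f : (Fin (n + 1) → Al) → Y) (u : Al) (a : Fin (n + 2) → Al) :
    barD (fun b => f (lmF u b)) a = barD f (lmF u a) := by
  unfold barD
  exact sum_congr rfl fun i _ => by rw [mergeAt_lmF]

lemma barD_map {Y' : Type*} [AddCommGroup Y'] [Module ℂ Y'] (T : Y →ₗ[ℂ] Y')
    (f : (Fin n → Al) → Y) (a : Fin (n + 1) → Al) :
    barD (fun b => T (f b)) a = T (barD f a) := by
  unfold barD
  rw [map_sum]
  exact sum_congr rfl fun i _ => by rw [map_smul]

lemma prod_merge_norm_le' {i : ℕ} (hi : i < n) (a : Fin (n + 1) → Al) :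
    ∏ j, ‖mergeAt i a j‖ ≤ ∏ j, ‖a j‖ := by
  obtain ⟨k, rfl⟩ : ∃ k, n = k + 1 := ⟨n - 1, by omega⟩
  exact prod_merge_norm_le i hi a

lemma norm_barD_le (f : (Fin n → Al) → Y) {C : ℝ} (hC : 0 ≤ C)
    (hf : ∀ a, ‖f a‖ ≤ C * ∏ i, ‖a i‖) (a : Fin (n + 1) → Al) :
    ‖barD f a‖ ≤ n * C * ∏ i, ‖a i‖ := by
  unfold barD
  refine (norm_sum_le _ _).trans ?_
  have h1 : ∀ i ∈ range n, ‖(-1 : ℂ) ^ (i + 1) • f (mergeAt i a)‖ ≤ C * ∏ j, ‖a j‖ := by
    intro i hi
    rw [norm_smul, norm_pow, norm_neg, norm_one, one_pow, one_mul]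
    exact (hf _).trans (mul_le_mul_of_nonneg_left (prod_merge_norm_le' (mem_range.1 hi) a) hC)
  refine (sum_le_sum h1).trans ?_
  rw [sum_const, card_range, nsmul_eq_mul, mul_assoc]

/-- The bar differential as an operator. -/
lemma exists_DL (Y : Type) [NormedAddCommGroup Y] [NormedSpace ℂ Y] (n : ℕ) :
    ∃ D : ML Y n →L[ℂ] ML Y (n + 1), ∀ φ a, mv (D φ) a = barD (mv φ) a := by
  obtain ⟨D, hD, -⟩ := exists_mkL (Y := Y) (n := n + 1) (Z := ML Y n)
    (fun φ a => barD (mv φ) a) (fun φ ψ a => barD_add _ _ _) (fun c φ a => barD_smul _ _ _)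
    (fun φ => (mv_multilin φ).barD) (C := n) (by positivity) (fun φ a =>
      norm_barD_le _ (norm_nonneg _) (mv_norm_le φ) a)
  exact ⟨D, hD⟩

/-- Right multiplication in the last entry as an operator. -/
lemma exists_RL (Y : Type) [NormedAddCommGroup Y] [NormedSpace ℂ Y] (n : ℕ) (u : Al) :
    ∃ D : ML Y (n + 1) →L[ℂ] ML Y (n + 1), (∀ φ a, mv (D φ) a = mv φ (rmF u a)) ∧
      ∀ φ, ‖D φ‖ ≤ ‖u‖ * ‖φ‖ :=
  exists_mkL (Y := Y) (n := n + 1) (Z := ML Y (n + 1))
    (fun φ a => mv φ (rmF u a)) (fun φ ψ a => rfl) (fun c φ a => rfl)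
    (fun φ => multilin_rm u (mv_multilin φ)) (C := ‖u‖) (norm_nonneg _) (fun φ a => by
      refine (mv_norm_le _ _).trans ?_
      have h1 := mul_le_mul_of_nonneg_left (prod_rmF_le u a) (norm_nonneg φ)
      refine h1.trans (le_of_eq ?_)
      ring)

/-- The module of multilinear maps. -/
def MLm (Y : Type) [NormedAddCommGroup Y] [NormedSpace ℂ Y] [CompleteSpace Y] (n : ℕ) :
    OpMod AI where
  carrier := ML Y (n + 1)
  act f := Classical.choose (exists_RL Y n (rI f))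

section Cpl

variable [CompleteSpace Y]

lemma MLm_act (f : AI) (φ : (MLm Y n).carrier) (a) :
    mv ((MLm Y n).act f φ : ML Y (n + 1)) a = mv (φ : ML Y (n + 1)) (rmF (rI f) a) :=
  (Classical.choose_spec (exists_RL Y n (rI f))).1 φ a

lemma MLm_norm (f : AI) (φ : (MLm Y n).carrier) :
    ‖(MLm Y n).act f φ‖ ≤ ‖rI f‖ * ‖φ‖ :=
  (Classical.choose_spec (exists_RL Y n (rI f))).2 φ

omit [CompleteSpace Y] in
lemma mv_rmF_add (φ : ML Y (n + 1)) (u v : Al) (a) :
    mv φ (rmF (u + v) a) = mv φ (rmF u a) + mv φ (rmF v a) := by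
  obtain ⟨x, rfl⟩ := exists_res a
  rw [rmF_res, rmF_res, rmF_res, rmN_eq_update, rmN_eq_update, rmN_eq_update, mul_add]
  exact (mv_multilin φ).update_add x (by omega) _ _

omit [CompleteSpace Y] in
lemma mv_rmF_smul (φ : ML Y (n + 1)) (c : ℂ) (u : Al) (a) :
    mv φ (rmF (c • u) a) = c • mv φ (rmF u a) := by
  obtain ⟨x, rfl⟩ := exists_res a
  rw [rmF_res, rmF_res, rmN_eq_update, rmN_eq_update, mul_smul_comm]
  exact (mv_multilin φ).update_smul x (by omega) _ _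

lemma MLm_left : LeftMod AI (MLm Y n) where
  add f g φ := mv_ext fun a => by
    show mv ((MLm Y n).act (f + g) φ : ML Y (n + 1)) a =
      mv ((MLm Y n).act f φ : ML Y (n + 1)) a + mv ((MLm Y n).act g φ : ML Y (n + 1)) a
    rw [MLm_act, MLm_act, MLm_act, map_add]
    exact mv_rmF_add _ _ _ _
  smul c f φ := mv_ext fun a => by
    show mv ((MLm Y n).act (c • f) φ : ML Y (n + 1)) a =
      c • mv ((MLm Y n).act f φ : ML Y (n + 1)) a
    rw [MLm_act, MLm_act, map_smul]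
    exact mv_rmF_smul _ _ _ _
  mul f g φ := mv_ext fun a => by
    show mv ((MLm Y n).act (f * g) φ : ML Y (n + 1)) a =
      mv ((MLm Y n).act f ((MLm Y n).act g φ) : ML Y (n + 1)) a
    rw [MLm_act, MLm_act, MLm_act, rmF_rmF, rI_mul]
  bound := ⟨1, fun f φ => by
    refine (MLm_norm f φ).trans ?_
    rw [one_mul]
    exact mul_le_mul_of_nonneg_right (norm_rI_le f) (norm_nonneg _)⟩

end Cpl

/-! ### The vanishing property -/

variable (yA : Al → Y →L[ℂ] Y)

/-- Left linearity. -/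
def LL (φ : ML Y (n + 1)) : Prop := ∀ c a, mv φ (lmF c a) = yA c (mv φ a)

/-- Morphisms with values in multilinear maps. -/
structure InC (Z : OpMod AI) (Φ : Z.carrier →L[ℂ] ML Y (n + 1)) : Prop where
  left : ∀ z, LL yA (Φ z)
  mod : ∀ f z a, mv (Φ (Z.act f z)) a = mv (Φ z) (rmF (rI f) a)

/-- The vanishing property. -/
def VanP (n : ℕ) (Z : OpMod AI) : Prop :=
  ∀ Φ : Z.carrier →L[ℂ] ML Y (n + 3), InC yA Z Φ → (∀ z a, barD (mv (Φ z)) a = 0) →
    ∃ Ψ : Z.carrier →L[ℂ] ML Y (n + 2), InC yA Z Ψ ∧ ∀ z a, barD (mv (Ψ z)) a = mv (Φ z) a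

lemma continuous_mv (a : Fin n → Al) : Continuous fun φ : ML Y n => mv φ a := by
  obtain ⟨T, hT⟩ := exists_evL (Y := Y) a
  simp only [← hT]
  exact T.continuous

variable [CompleteSpace Y]

/-- Left linear maps. -/
def EM (n : ℕ) : Submodule ℂ (MLm Y n).carrier where
  carrier := {φ | LL yA φ}
  add_mem' := fun {φ ψ} hφ hψ c a => by
    have h1 : mv (φ : ML Y (n + 1)) (lmF c a) = yA c (mv (φ : ML Y (n + 1)) a) := hφ c a
    have h2 : mv (ψ : ML Y (n + 1)) (lmF c a) = yA c (mv (ψ : ML Y (n + 1)) a) := hψ c a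
    show mv (φ : ML Y (n + 1)) (lmF c a) + mv (ψ : ML Y (n + 1)) (lmF c a) =
      yA c (mv (φ : ML Y (n + 1)) a + mv (ψ : ML Y (n + 1)) a)
    rw [h1, h2, map_add]
  zero_mem' := fun c a => by
    show (0 : Y) = yA c 0
    rw [map_zero]
  smul_mem' := fun d {φ} hφ c a => by
    have h1 : mv (φ : ML Y (n + 1)) (lmF c a) = yA c (mv (φ : ML Y (n + 1)) a) := hφ c a
    show d • mv (φ : ML Y (n + 1)) (lmF c a) = yA c (d • mv (φ : ML Y (n + 1)) a)
    rw [h1, map_smul]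

lemma mem_EM (φ : (MLm Y n).carrier) : φ ∈ EM yA n ↔ LL yA (φ : ML Y (n + 1)) := Iff.rfl

/-- Left linear cocycles. -/
def FM (n : ℕ) : Submodule ℂ (MLm Y n).carrier where
  carrier := {φ | LL yA φ ∧ ∀ a, barD (mv (φ : ML Y (n + 1))) a = 0}
  add_mem' := fun {φ ψ} hφ hψ => ⟨(EM yA n).add_mem hφ.1 hψ.1, fun a => by
    have h := barD_add (mv (φ : ML Y (n + 1))) (mv (ψ : ML Y (n + 1))) a
    rw [hφ.2, hψ.2, add_zero] at h
    exact h⟩
  zero_mem' := ⟨(EM yA n).zero_mem, fun a => barD_zero a⟩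
  smul_mem' := fun c {φ} hφ => ⟨(EM yA n).smul_mem c hφ.1, fun a => by
    have h := barD_smul c (mv (φ : ML Y (n + 1))) a
    rw [hφ.2, smul_zero] at h
    exact h⟩

lemma mem_FM (φ : (MLm Y n).carrier) : φ ∈ FM yA n ↔ LL yA (φ : ML Y (n + 1)) ∧
    ∀ a, barD (mv (φ : ML Y (n + 1))) a = 0 := Iff.rfl

lemma EM_closed : IsClosed (EM yA n : Set (MLm Y n).carrier) := by
  have e : (EM yA n : Set (MLm Y n).carrier) =
      ⋂ (c : Al) (a : Fin (n + 1) → Al), {φ : (MLm Y n).carrier |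
        mv (φ : ML Y (n + 1)) (lmF c a) = yA c (mv (φ : ML Y (n + 1)) a)} := by
    ext φ
    rw [Set.mem_iInter₂]
    exact Iff.rfl
  rw [e]
  refine isClosed_iInter fun c => isClosed_iInter fun a => ?_
  exact isClosed_eq (continuous_mv (Y := Y) _)
    ((yA c).continuous.comp (continuous_mv (Y := Y) _))

lemma FM_closed : IsClosed (FM yA n : Set (MLm Y n).carrier) := by
  obtain ⟨D, hD⟩ := exists_DL Y (n + 1)
  have e : (FM yA n : Set (MLm Y n).carrier) = (EM yA n : Set (MLm Y n).carrier) ∩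
      {φ : (MLm Y n).carrier | D (φ : ML Y (n + 1)) = 0} := by
    ext φ
    refine and_congr Iff.rfl ⟨fun h => mv_ext fun a => ?_, fun h a => ?_⟩
    · exact (hD φ a).trans (h a)
    · have h' : D (φ : ML Y (n + 1)) = 0 := h
      exact (hD φ a).symm.trans (congrArg (fun ψ => mv ψ a) h')
  rw [e]
  exact (EM_closed yA).inter (isClosed_eq D.continuous continuous_const)

lemma rmF_lmF {k : ℕ} (u c : Al) (a : Fin (k + 2) → Al) : rmF u (lmF c a) = lmF c (rmF u a) := by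
  obtain ⟨x, rfl⟩ := exists_res a
  rw [lmF_res, rmF_res, rmF_res, lmF_res]
  congr 1
  funext i
  unfold rmN lmN
  by_cases h : i = 0
  · subst h
    have h0 : ¬ (0 = k + 1) := by omega
    simp only [if_pos, if_neg h0]
  · rw [if_neg h, if_neg h]

lemma EM_inv (f : AI) (φ : (MLm Y (n + 1)).carrier) (hφ : φ ∈ EM yA (n + 1)) :
    (MLm Y (n + 1)).act f φ ∈ EM yA (n + 1) := by
  rw [mem_EM] at hφ ⊢
  intro c a
  rw [MLm_act, MLm_act, rmF_lmF]
  exact hφ _ _

lemma FM_inv (f : AI) (φ : (MLm Y (n + 1)).carrier) (hφ : φ ∈ FM yA (n + 1)) :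
    (MLm Y (n + 1)).act f φ ∈ FM yA (n + 1) := by
  refine ⟨EM_inv yA f φ hφ.1, fun a => ?_⟩
  have h1 : ∀ b, mv ((MLm Y (n + 1)).act f φ : ML Y (n + 1 + 1)) b =
    mv (φ : ML Y (n + 1 + 1)) (rmF (rI f) b) := MLm_act f φ
  rw [barD_neg_free h1, barD_rmF]
  exact hφ.2 _

/-- The projective case. -/
theorem van_of_proj {P : OpMod AI} (hPr : Proj (LeftMod AI) P) (n : ℕ) : VanP yA n P := by
  intro Φ hΦ hDΦ
  obtain ⟨D, hD⟩ := exists_DL Y (n + 2)
  obtain ⟨S, hS, -⟩ := exists_mkL (Y := Y) (n := n + 2) (Z := ML Y (n + 3))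
    (fun ψ a => (-1 : ℂ) ^ n • mv ψ (ap a 1)) (fun φ ψ a => by rw [mv_add, smul_add])
    (fun c φ a => by rw [mv_smul, smul_comm]) (fun φ => by
      have h := multilin_ap (1 : Al) (mv_multilin φ)
      exact ⟨fun a i x y => by rw [h.map_add, smul_add],
        fun a i c x => by rw [h.map_smul, smul_comm]⟩) (C := 1) zero_le_one (fun ψ a => by
      rw [norm_smul, norm_pow, norm_neg, norm_one, one_pow, one_mul, one_mul]
      refine (mv_norm_le _ _).trans ?_
      rw [prod_ap, norm_one, mul_one])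
  have hDS : ∀ ψ : ML Y (n + 3), (∀ a, barD (mv ψ) a = 0) → D (S ψ) = ψ := by
    intro ψ hψ
    refine mv_ext fun a => ?_
    rw [hD]
    have h1 := barD_ap (mv ψ) a 1
    rw [hψ, rmF_one] at h1
    have h2 : barD (mv (S ψ)) a = (-1 : ℂ) ^ n • barD (fun b => mv ψ (ap b 1)) a := by
      rw [barD_neg_free (hS ψ), barD_smul]
    have h3 : barD (fun b => mv ψ (ap b 1)) a = -((-1 : ℂ) ^ (n + 2 + 1) • mv ψ a) :=
      eq_neg_of_add_eq_zero_left h1.symm
    rw [h2, h3, ← neg_smul, smul_smul]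
    have h4 : (-1 : ℂ) ^ n * -(-1) ^ (n + 2 + 1) = 1 := by
      have h5 : (-1 : ℂ) ^ n * (-1) ^ n = 1 := by
        rw [← mul_pow]
        norm_num
      have h6 : (-1 : ℂ) ^ n * -(-1) ^ (n + 2 + 1) = (-1) ^ n * (-1) ^ n := by
        rw [pow_succ, pow_succ, pow_succ]
        ring
      rw [h6, h5]
    rw [h4, one_smul]
  have hDE : ∀ φ, φ ∈ EM yA (n + 1) → D φ ∈ FM yA (n + 2) := by
    intro φ hφ
    refine ⟨fun c a => ?_, fun a => ?_⟩
    · refine (hD φ _).trans (Eq.trans ?_ (congrArg (yA c) (hD φ a).symm))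
      refine (barD_lmF _ _ _).symm.trans ?_
      have h1 : ∀ b, mv (φ : ML Y (n + 2)) (lmF c b) = yA c (mv (φ : ML Y (n + 2)) b) := hφ c
      refine (barD_neg_free h1 a).trans ?_
      exact barD_map (yA c : Y →ₗ[ℂ] Y) _ _
    · refine (barD_neg_free (hD φ) a).trans ?_
      exact barD_barD _ _
  have hSF : ∀ ψ, ψ ∈ FM yA (n + 2) → S ψ ∈ EM yA (n + 1) := by
    intro ψ hψ c a
    refine (hS ψ _).trans (Eq.trans ?_ (congrArg (yA c) (hS ψ a).symm))
    have h1 : mv (ψ : ML Y (n + 3)) (lmF c (ap a 1)) = yA c (mv (ψ : ML Y (n + 3)) (ap a 1)) :=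
      hψ.1 c _
    rw [← lmF_ap, map_smul]
    exact congrArg (fun y : Y => (-1 : ℂ) ^ n • y) h1
  let E := subMod (MLm Y (n + 1)) (EM yA (n + 1)) (EM_closed yA) (EM_inv yA)
  let F := subMod (MLm Y (n + 2)) (FM yA (n + 2)) (FM_closed yA) (FM_inv yA)
  let ιE : E.carrier →L[ℂ] (MLm Y (n + 1)).carrier :=
    subIncl (MLm Y (n + 1)) (EM yA (n + 1)) (EM_closed yA) (EM_inv yA)
  let ιF : F.carrier →L[ℂ] (MLm Y (n + 2)).carrier :=
    subIncl (MLm Y (n + 2)) (FM yA (n + 2)) (FM_closed yA) (FM_inv yA)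
  have hE : LeftMod AI E := leftMod_subClosed AI _ _ _ _ MLm_left
  have hF : LeftMod AI F := leftMod_subClosed AI _ _ _ _ MLm_left
  have hιE : ∀ x, ιE x ∈ EM yA (n + 1) := fun x => subIncl_mem x
  have hιF : ∀ x, ιF x ∈ FM yA (n + 2) := fun x => subIncl_mem x
  obtain ⟨D', hD'⟩ : ∃ D' : E.carrier →L[ℂ] F.carrier, ∀ x, ιF (D' x) = D (ιE x) :=
    ⟨subLift _ _ _ _ (D.comp ιE) (fun x => hDE _ (hιE x)), fun x => rfl⟩
  obtain ⟨S', hS'⟩ : ∃ S' : F.carrier →L[ℂ] E.carrier, ∀ x, ιE (S' x) = S (ιF x) :=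
    ⟨subLift _ _ _ _ (S.comp ιF) (fun x => hSF _ (hιF x)), fun x => rfl⟩
  obtain ⟨f, hf⟩ : ∃ f : P.carrier →L[ℂ] F.carrier, ∀ x, ιF (f x) = Φ x :=
    ⟨subLift _ _ _ _ Φ (fun x => ⟨hΦ.left x, hDΦ x⟩), fun x => rfl⟩
  have hιE_act : ∀ r x, ιE (E.act r x) = (MLm Y (n + 1)).act r (ιE x) := fun r x => rfl
  have hιF_act : ∀ r x, ιF (F.act r x) = (MLm Y (n + 2)).act r (ιF x) := fun r x => rfl
  have mor_D : IsMor E F D' := by
    intro r x
    refine subIncl_inj ?_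
    show ιF (D' (E.act r x)) = ιF (F.act r (D' x))
    rw [hD', hιE_act, hιF_act, hD']
    refine mv_ext fun a => ?_
    refine (hD _ a).trans (Eq.trans ?_ (MLm_act r _ a).symm)
    refine (barD_neg_free (MLm_act r (ιE x)) a).trans ?_
    refine (barD_rmF _ _ _).trans ?_
    exact (hD _ _).symm
  have mor_f : IsMor P F f := by
    intro r x
    refine subIncl_inj ?_
    show ιF (f (P.act r x)) = ιF (F.act r (f x))
    rw [hf, hιF_act, hf]
    refine mv_ext fun a => ?_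
    exact (hΦ.mod _ _ _).trans (MLm_act r _ a).symm
  obtain ⟨g, hg, hgf⟩ := hPr E F hE hF D' mor_D S' (fun y => by
    refine subIncl_inj ?_
    show ιF (D' (S' y)) = ιF y
    rw [hD', hS']
    exact hDS _ (hιF y).2) f mor_f
  refine ⟨ιE.comp g, ⟨fun z => hιE _, fun r z a => ?_⟩, fun z a => ?_⟩
  · have h1 : ιE (g (P.act r z)) = (MLm Y (n + 1)).act r (ιE (g z)) := by
      rw [hg, hιE_act]
    have h2 := congrArg (fun φ : ML Y (n + 2) => mv φ a) h1
    exact h2.trans (MLm_act r _ a)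
  · have h1 : D (ιE (g z)) = Φ z := by rw [← hD', hgf, hf]
    have h2 := congrArg (fun φ : ML Y (n + 3) => mv φ a) h1
    exact (hD _ a).symm.trans h2

end

end Pool.Agent.Helper5.Dg
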