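import Mathlib
import Pool.Agent.Helper5.Dg.Van2

/-!
Vanishing of the cohomology: dimension shift.
-/

namespace Pool.Agent.Helper5.Dg

open Filter Topology unitInterval Finset Pool.Agent.Helper5.Sym

noncomputable section

section Kappa

variable {Z' P Z : OpMod AI} (S : Ses (LeftMod AI) Z' P Z)

lemma inJ_k {w : P.carrier} (hw : inJ P w) (h0 : S.d w = 0) : inJ Z' (S.k w) := by
  have h1 : ∀ n, Z'.act (uC n) (S.k w) = S.k (P.act (uC n) w) := by
    intro n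
    have h2 := S.k_i (Z'.act (uC n) (S.k w))
    rw [S.mor_i, S.of_d h0] at h2
    exact h2.symm
  show Tendsto _ _ _
  simp only [h1]
  exact (S.k.continuous.tendsto w).comp hw

lemma exists_kappa (hP : LeftMod AI P) (hZ : LeftMod AI Z) (hCZ : CP Z) :
    ∃ κ : P.carrier →L[ℂ] Z'.carrier, (∀ z, κ (S.i z) = z) ∧ ∀ p, inJ P p → inJ Z' (κ p) := by
  obtain ⟨q, hq1, hq2⟩ := hCZ
  obtain ⟨R, hR1, hR2, -⟩ := lift_J hP hZ S.mor_d S.t S.d_t q hq1
  obtain ⟨κ, hκ⟩ : ∃ κ : P.carrier →L[ℂ] Z'.carrier,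
      ∀ p, κ p = S.k (p - (S.t (S.d p - q (S.d p)) + R (S.d p))) :=
    ⟨S.k.comp (ContinuousLinearMap.id ℂ P.carrier -
      (S.t.comp (S.d - q.comp S.d) + R.comp S.d)), fun p => rfl⟩
  refine ⟨κ, fun z => ?_, fun p hp => ?_⟩
  · rw [hκ, S.d_i, map_zero, map_zero, sub_zero, map_zero, add_zero, sub_zero, S.k_i]
  · have h1 : q (S.d p) = S.d p := hq2 _ (inJ_mor S.mor_d hp)
    rw [hκ, h1, sub_self, map_zero, zero_add]
    refine inJ_k S (inJ_sub hp (hR2 _)) ?_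
    rw [map_sub, hR1, h1, sub_self]

include S in
lemma CP_ker (hP : LeftMod AI P) (hZ : LeftMod AI Z) (hCP : CP P) : CP Z' := by
  obtain ⟨π, hπ1, hπ2⟩ := hCP
  obtain ⟨R, hR1, hR2, hR3⟩ := lift_J hP hZ S.mor_d S.t S.d_t ((S.d.comp π).comp S.i)
    (fun m => inJ_mor S.mor_d (hπ1 _))
  have e : ∀ m, ((S.d.comp π).comp S.i) m = S.d (π (S.i m)) := fun m => rfl
  obtain ⟨q, hq⟩ : ∃ q : Z'.carrier →L[ℂ] Z'.carrier, ∀ z, q z = S.k (π (S.i z) - R z) :=
    ⟨S.k.comp (π.comp S.i - R), fun z => rfl⟩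
  refine ⟨q, fun z => ?_, fun z hz => ?_⟩
  · rw [hq]
    refine inJ_k S (inJ_sub (hπ1 _) (hR2 _)) ?_
    rw [map_sub, hR1, e, sub_self]
  · have h1 : π (S.i z) = S.i z := hπ2 _ (inJ_mor S.mor_i hz)
    have h2 : R z = 0 := hR3 z (by rw [e, h1, S.d_i])
    rw [hq, h1, h2, sub_zero, S.k_i]

end Kappa

section Ent

variable {n : ℕ}

lemma lst_lmF (c : Al) (a : Fin (n + 2) → Al) : lst (lmF c a) = lst a := by
  unfold lst lmF
  rw [if_neg (by simp)]

lemma ini_lmF (c : Al) (a : Fin (n + 2) → Al) : ini (lmF c a) = lmF c (ini a) := by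
  funext i
  unfold ini lmF
  rfl

lemma lst_rmF (c : Al) (a : Fin (n + 1) → Al) : lst (rmF c a) = lst a * c := by
  unfold lst rmF
  rw [if_pos (by simp)]

lemma ini_rmF (c : Al) (a : Fin (n + 1) → Al) : ini (rmF c a) = ini a := by
  funext i
  unfold ini rmF
  have h : ((i.castSucc : Fin (n + 1)) : ℕ) ≠ n := ne_of_lt i.2
  rw [if_neg h]

lemma ini_lst_update (a : Fin (n + 1) → Al) (i : Fin (n + 1)) :
    (∃ i' : Fin n, ∀ z, ini (Function.update a i z) = Function.update (ini a) i' z ∧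
        lst (Function.update a i z) = lst a) ∨
      (∀ z, ini (Function.update a i z) = ini a ∧ lst (Function.update a i z) = z) := by
  refine Fin.lastCases (Or.inr fun z => ⟨?_, ?_⟩) (fun i' => Or.inl ⟨i', fun z =>
    ⟨?_, ?_⟩⟩) i
  · funext j
    unfold ini
    rw [Function.update_of_ne (Fin.castSucc_ne_last j)]
  · unfold lst
    rw [Function.update_self]
  · funext j
    unfold ini
    by_cases hj : j = i'
    · subst hj
      rw [Function.update_self, Function.update_self]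
    · rw [Function.update_of_ne hj, Function.update_of_ne]
      intro h
      exact hj (Fin.castSucc_injective _ h)
  · unfold lst
    rw [Function.update_of_ne (Fin.castSucc_ne_last i').symm]

lemma prod_ini_lst (a : Fin (n + 1) → Al) : (∏ i, ‖ini a i‖) * ‖lst a‖ = ∏ i, ‖a i‖ := by
  rw [← prod_ap, ap_ini_lst]

end Ent

variable {Y : Type} [NormedAddCommGroup Y] [NormedSpace ℂ Y] (yA : Al → Y →L[ℂ] Y)

section Ext

variable {Z' P : OpMod AI} {n : ℕ}

lemma mv_rmF_zero (φ : ML Y (n + 1)) (a) : mv φ (rmF 0 a) = 0 := by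
  have h := mv_rmF_smul φ 0 0 a
  rw [zero_smul, zero_smul] at h
  exact h

/-- Extension of module maps from the kernel. -/
lemma exists_ext (hP : LeftMod AI P) {i : Z'.carrier →L[ℂ] P.carrier} (hi : IsMor Z' P i)
    {κ : P.carrier →L[ℂ] Z'.carrier} (hκ : ∀ z, κ (i z) = z)
    (hκJ : ∀ p, inJ P p → inJ Z' (κ p)) (Θ : Z'.carrier →L[ℂ] ML Y (n + 2))
    (hΘ : InC yA Z' Θ) :
    ∃ Θ' : P.carrier →L[ℂ] ML Y (n + 2), InC yA P Θ' ∧ ∀ z a, mv (Θ' (i z)) a = mv (Θ z) a := by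
  obtain ⟨C, hC0, hC⟩ := hP.exists_bound
  obtain ⟨Θ', hΘ', -⟩ := exists_mkL (Y := Y) (n := n + 2) (Z := P.carrier)
    (fun p a => mv (Θ (κ (P.act (EI (lst a)) p))) (ap (ini a) 1))
    (fun p p' a => by rw [map_add, map_add, map_add, mv_add])
    (fun c p a => by rw [map_smul, map_smul, map_smul, mv_smul])
    (fun p => by
      constructor
      · intro a i x y
        rcases ini_lst_update a i with ⟨i', h⟩ | h
        · simp only [(h _).1, (h _).2]
          exact (multilin_ap (1 : Al) (mv_multilin _)).map_add _ _ _ _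
        · simp only [(h _).1, (h _).2]
          rw [map_add, hP.add, map_add, map_add, mv_add]
      · intro a i c x
        rcases ini_lst_update a i with ⟨i', h⟩ | h
        · simp only [(h _).1, (h _).2]
          exact (multilin_ap (1 : Al) (mv_multilin _)).map_smul _ _ _ _
        · simp only [(h _).1, (h _).2]
          rw [map_smul, hP.smul, map_smul, map_smul, mv_smul])
    (C := ‖Θ‖ * (‖κ‖ * (C * ‖EI‖))) (by positivity)
    (fun p a => by
      refine (mv_norm_le _ _).trans ?_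
      rw [prod_ap, norm_one, mul_one, ← prod_ini_lst a]
      have h1 : ‖EI (lst a)‖ ≤ ‖EI‖ * ‖lst a‖ := EI.le_opNorm _
      have h2 : ‖P.act (EI (lst a)) p‖ ≤ C * (‖EI‖ * ‖lst a‖) * ‖p‖ :=
        (hC _ _).trans (mul_le_mul_of_nonneg_right (mul_le_mul_of_nonneg_left h1 hC0)
          (norm_nonneg _))
      have h3 : ‖Θ (κ (P.act (EI (lst a)) p))‖ ≤
          ‖Θ‖ * (‖κ‖ * (C * (‖EI‖ * ‖lst a‖) * ‖p‖)) := by
        refine (Θ.le_opNorm _).trans (mul_le_mul_of_nonneg_left ?_ (norm_nonneg _))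
        refine (κ.le_opNorm _).trans (mul_le_mul_of_nonneg_left h2 (norm_nonneg _))
      have h4 : 0 ≤ ∏ i, ‖ini a i‖ := prod_nonneg fun i _ => norm_nonneg _
      refine (mul_le_mul_of_nonneg_right h3 h4).trans (le_of_eq ?_)
      ring)
  refine ⟨Θ', ⟨fun p c a => ?_, fun f p a => ?_⟩, fun z a => ?_⟩
  · rw [hΘ', hΘ', lst_lmF, ini_lmF, ← lmF_ap]
    exact hΘ.left _ _ _
  · rw [hΘ', hΘ', lst_rmF, ini_rmF]
    set b := lst a
    set j := EI b * f - EI (b * rI f) with hj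
    have hrj : rI j = 0 := by
      rw [hj, map_sub, rI_mul, rI_EI, rI_EI, sub_self]
    have h1 : P.act (EI b) (P.act f p) = P.act j p + P.act (EI (b * rI f)) p := by
      rw [← hP.mul, ← hP.add, hj, sub_add_cancel]
    rw [h1, map_add, map_add, mv_add]
    obtain ⟨T, hT⟩ := exists_evL (Y := Y) (ap (ini a) 1)
    have h2 : T (Θ (κ (P.act j p))) = 0 := by
      refine inJ_kill (T.comp Θ) (fun j' hj' z => ?_) (hκJ _ (inJ_act_J hP hrj p))
      show T (Θ _) = 0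
      rw [hT, hΘ.mod, hj', mv_rmF_zero]
    rw [hT] at h2
    rw [h2, zero_add]
  · rw [hΘ', ← hi, hκ, hΘ.mod, rI_EI, rmF_ap, one_mul, ap_ini_lst]

end Ext

variable [CompleteSpace Y]

/-- The dimension shift. -/
theorem van_shift {Z' P Z : OpMod AI} (hP : LeftMod AI P)
    (hPr : Proj (LeftMod AI) P) (hZ : LeftMod AI Z) (S : Ses (LeftMod AI) Z' P Z)
    (hCZ : CP Z) (k : ℕ) (hV : VanP yA k Z') : VanP yA (k + 1) Z := by
  intro Φ hΦ hDΦ
  obtain ⟨κ, hκ, hκJ⟩ := exists_kappa S hP hZ hCZ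
  obtain ⟨Ψ, hΨ, hDΨ⟩ := van_of_proj yA hPr (k + 1) (Φ.comp S.d)
    ⟨fun z => hΦ.left _, fun f z a => by
      show mv (Φ (S.d (P.act f z))) a = mv (Φ (S.d z)) (rmF (rI f) a)
      rw [S.mor_d]
      exact hΦ.mod _ _ _⟩ (fun z a => hDΦ _ _)
  have hDΨ' : ∀ z a, barD (mv (Ψ z)) a = mv (Φ (S.d z)) a := fun z a => hDΨ z a
  obtain ⟨Θ, hΘ, hDΘ⟩ := hV (Ψ.comp S.i)
    ⟨fun z => hΨ.left _, fun f z a => by
      show mv (Ψ (S.i (Z'.act f z))) a = mv (Ψ (S.i z)) (rmF (rI f) a)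
      rw [S.mor_i]
      exact hΨ.mod _ _ _⟩ (fun z a => by
      show barD (mv (Ψ (S.i z))) a = 0
      rw [hDΨ', S.d_i, map_zero, mv_zero])
  have hDΘ' : ∀ z a, barD (mv (Θ z)) a = mv (Ψ (S.i z)) a := fun z a => hDΘ z a
  obtain ⟨Θ', hΘ', hΘi⟩ := exists_ext yA hP S.mor_i hκ hκJ Θ hΘ
  obtain ⟨D, hD⟩ := exists_DL Y (k + 2)
  obtain ⟨Ψ', hΨ'⟩ : ∃ Ψ' : P.carrier →L[ℂ] ML Y (k + 3), ∀ p, Ψ' p = Ψ p - D (Θ' p) :=
    ⟨Ψ - D.comp Θ', fun p => rfl⟩
  have hv : ∀ p a, mv (Ψ' p) a = mv (Ψ p) a - barD (mv (Θ' p)) a := by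
    intro p a
    rw [hΨ', mv_sub, hD]
  have hker : ∀ z, Ψ' (S.i z) = 0 := by
    intro z
    refine mv_ext fun a => ?_
    rw [hv, mv_zero, barD_neg_free (hΘi z), hDΘ', sub_self]
  have hfac : ∀ p, Ψ' (S.t (S.d p)) = Ψ' p := by
    intro p
    have h1 := congrArg Ψ' (S.split p)
    rw [map_add, hker, zero_add] at h1
    exact h1
  have hL : ∀ p, LL yA (Ψ' p) := by
    intro p c a
    rw [hv, hv, map_sub]
    congr 1
    · exact hΨ.left p c a
    · rw [← barD_lmF, barD_neg_free (hΘ'.left p c)]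
      exact barD_map (yA c : Y →ₗ[ℂ] Y) _ _
  have hM : ∀ f p a, mv (Ψ' (P.act f p)) a = mv (Ψ' p) (rmF (rI f) a) := by
    intro f p a
    rw [hv, hv]
    congr 1
    · exact hΨ.mod _ _ _
    · rw [barD_neg_free (hΘ'.mod f p), barD_rmF]
  refine ⟨Ψ'.comp S.t, ⟨fun z => hL _, fun f z a => ?_⟩, fun z a => ?_⟩
  · show mv (Ψ' (S.t (Z.act f z))) a = mv (Ψ' (S.t z)) (rmF (rI f) a)
    rw [← hM, ← hfac (P.act f (S.t z)), S.mor_d, S.d_t]
  · show barD (mv (Ψ' (S.t z))) a = mv (Φ z) a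
    rw [barD_neg_free (hv (S.t z)), barD_sub]
    have h1 : barD (fun b => barD (mv (Θ' (S.t z))) b) a = 0 := barD_barD _ _
    rw [h1, sub_zero]
    exact (hDΨ' _ _).trans (by rw [S.d_t])

/-- Finite dimension implies vanishing. -/
theorem van_of_dhle : ∀ (k : ℕ) (Z : OpMod AI), LeftMod AI Z → CP Z →
    dhle (LeftMod AI) k Z → VanP yA k Z := by
  intro k
  induction k with
  | zero =>
    intro Z _ _ h
    exact van_of_proj yA h 0
  | succ k ih =>
    rintro Z hZ hCZ ⟨Z', P, hZ', hP, hPr, ⟨S⟩, h⟩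
    exact van_shift yA hP hPr hZ S hCZ k (ih Z' hZ' (CP_ker S hP hZ (CP_of_proj hP hPr)) h)

end

end Pool.Agent.Helper5.Dg
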