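import Mathlib
import Pool.Agent.Helper5.Dg.Van3
import Pool.Agent.Helper5.Dg.Core5

/-!
The universal coefficients and the contradiction.
-/

namespace Pool.Agent.Helper5.Dg

open Filter Topology unitInterval Finset Pool.Agent.Helper5.Sym

noncomputable section

section Forms2

variable {k : ℕ}

lemma lmul_bst (c : Al) (R : Vk k) : lmul c (bst R) = bst (lmul c R) := by
  refine ev_ext fun a ξ => ?_
  rw [ev_lmul, ev_bst, ev_bst, ini_lmF, lst_lmF, ev_lmul]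
  congr 1
  refine sum_congr rfl fun i _ => ?_
  rw [mergeAt_lmF, ev_lmul]

/-- The form with the last entry acting on the module. -/
def Ef (R : Vk k) (ξ : Xf) (a : Fin (k + 2) → Al) : ℂ := ev R (ini a) (lift (lst a) * ξ)

lemma ini_mergeAt {n : ℕ} {i : ℕ} (hi : i < n) (a : Fin (n + 2) → Al) :
    ini (mergeAt i a) = mergeAt i (ini a) := by
  conv_lhs => rw [← ap_ini_lst a, mergeAt_ap hi, ini_ap]

lemma lst_mergeAt {n : ℕ} {i : ℕ} (hi : i < n) (a : Fin (n + 2) → Al) :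
    lst (mergeAt i a) = lst a := by
  conv_lhs => rw [← ap_ini_lst a, mergeAt_ap hi, lst_ap]

lemma mergeAt_last {n : ℕ} (a : Fin (n + 2) → Al) :
    mergeAt n a = rmF (lst a) (ini a) := by
  conv_lhs => rw [← ap_ini_lst a, mergeAt_ap_last]

lemma barD_Ef (R : Vk k) (ξ : Xf) (a : Fin (k + 3) → Al) :
    barD (Ef R ξ) a = - ev (bst R) (ini a) (lift (lst a) * ξ) := by
  unfold barD
  rw [sum_range_succ, ev_bst, neg_add, ← sum_neg_distrib]
  congr 1
  · refine sum_congr rfl fun i hi => ?_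
    unfold Ef
    rw [ini_mergeAt (mem_range.1 hi), lst_mergeAt (mem_range.1 hi), smul_eq_mul]
    ring
  · unfold Ef
    rw [mergeAt_last, ini_rmF, lst_rmF, lift_mul, mul_assoc, smul_eq_mul]
    ring

lemma bst_bst (R : Vk k) : bst (bst R) = 0 := by
  refine ev_ext fun a ξ => ?_
  have h1 := barD_barD (Ef R ξ) (ap a 1)
  have h2 : ∀ b, barD (Ef R ξ) b = - ev (bst R) (ini b) (lift (lst b) * ξ) := barD_Ef R ξ
  rw [barD_neg_free h2] at h1
  unfold barD at h1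
  rw [sum_range_succ] at h1
  have h3 : ∀ i ∈ range (k + 2), (-1 : ℂ) ^ (i + 1) •
      (- ev (bst R) (ini (mergeAt i (ap a 1))) (lift (lst (mergeAt i (ap a 1))) * ξ)) =
      (-1 : ℂ) ^ i * ev (bst R) (mergeAt i a) ξ := by
    intro i hi
    rw [mergeAt_ap (mem_range.1 hi), ini_ap, lst_ap, lift_one, one_mul, smul_eq_mul]
    ring
  rw [sum_congr rfl h3, mergeAt_ap_last, rmF_one, smul_eq_mul] at h1
  rw [ev_bst, ev_zero, ← h1]
  ring

end Forms2

variable {m : ℕ}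

/-- Linear functionals on the forms. -/
abbrev WW (m : ℕ) : Type := Vk (m + 1) →L[ℂ] ℂ

/-- The defining property of the coefficient space. -/
def Good (w : WW m) : Prop :=
  (∀ R : Vk m, w (bst R) = 0) ∧ ∀ (Q : ℕ → Vk (m + 1)) (M : ℝ), (∀ j, ‖Q j‖ ≤ M) →
    (∀ a ξ, Tendsto (fun j => ev (Q j) a ξ) atTop (𝓝 0)) →
    Tendsto (fun j => w (Q j)) atTop (𝓝 0)

/-- The coefficient space. -/
def Yc (m : ℕ) : Submodule ℂ (WW m) where
  carrier := {w | Good w}
  add_mem' := fun {w w'} h h' => ⟨fun R => by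
    show w (bst R) + w' (bst R) = 0
    rw [h.1, h'.1, add_zero], fun Q M hM hQ => by
    have h1 := (h.2 Q M hM hQ).add (h'.2 Q M hM hQ)
    rw [add_zero] at h1
    exact h1⟩
  zero_mem' := ⟨fun R => rfl, fun Q M hM hQ => tendsto_const_nhds⟩
  smul_mem' := fun c {w} h => ⟨fun R => by
    show c • w (bst R) = 0
    rw [h.1, smul_zero], fun Q M hM hQ => by
    have h1 := (h.2 Q M hM hQ).const_smul c
    rw [smul_zero] at h1
    exact h1⟩

lemma Yc_closed (m : ℕ) : IsClosed (Yc m : Set (WW m)) := by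
  apply isClosed_of_closure_subset
  intro w hw
  refine ⟨fun R => ?_, fun Q M hM hQ => ?_⟩
  · have hc : IsClosed {w : WW m | w (bst R) = 0} :=
      isClosed_eq (ContinuousLinearMap.apply ℂ ℂ (bst R)).continuous continuous_const
    exact closure_minimal (fun w' hw' => hw'.1 R) hc hw
  · rw [Metric.tendsto_atTop]
    intro ε hε
    obtain ⟨w', hw', hd⟩ := Metric.mem_closure_iff.1 hw (ε / (2 * (|M| + 1))) (by positivity)
    obtain ⟨n0, hn0⟩ := Metric.tendsto_atTop.1 (hw'.2 Q M hM hQ) (ε / 2) (by positivity)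
    refine ⟨n0, fun n hn => ?_⟩
    have h1 := hn0 n hn
    rw [dist_zero_right] at h1 ⊢
    rw [dist_eq_norm, lt_div_iff₀ (by positivity)] at hd
    have h2 : ‖(w - w') (Q n)‖ ≤ ‖w - w'‖ * |M| :=
      (ContinuousLinearMap.le_opNorm _ _).trans
        (mul_le_mul_of_nonneg_left ((hM n).trans (le_abs_self M)) (norm_nonneg _))
    have h3 : w (Q n) = (w - w') (Q n) + w' (Q n) := by
      show w (Q n) = w (Q n) - w' (Q n) + w' (Q n)
      rw [sub_add_cancel]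
    rw [h3]
    have h4 := norm_add_le ((w - w') (Q n)) (w' (Q n))
    have h5 := norm_nonneg (w - w')
    nlinarith

/-- The coefficient space as a type. -/
def YY (m : ℕ) : Type := Yc m

instance : NormedAddCommGroup (YY m) := inferInstanceAs (NormedAddCommGroup (Yc m))

instance : NormedSpace ℂ (YY m) := inferInstanceAs (NormedSpace ℂ (Yc m))

instance : CompleteSpace (YY m) := (Yc_closed m).completeSpace_coe

/-- The pairing. -/
def pr (y : YY m) (Q : Vk (m + 1)) : ℂ := (y.1 : WW m) Q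

lemma pr_add (y y' : YY m) (Q) : pr (y + y') Q = pr y Q + pr y' Q := rfl

lemma pr_smul (c : ℂ) (y : YY m) (Q) : pr (c • y) Q = c * pr y Q := rfl

lemma pr_zero (Q) : pr (0 : YY m) Q = 0 := rfl

lemma pr_ext {y y' : YY m} (h : ∀ Q, pr y Q = pr y' Q) : y = y' :=
  Subtype.ext (ContinuousLinearMap.ext h)

lemma pr_bst (y : YY m) (R : Vk m) : pr y (bst R) = 0 := y.2.1 R

lemma pr_cont (y : YY m) (Q : ℕ → Vk (m + 1)) (M : ℝ) (hM : ∀ j, ‖Q j‖ ≤ M)
    (hQ : ∀ a ξ, Tendsto (fun j => ev (Q j) a ξ) atTop (𝓝 0)) :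
    Tendsto (fun j => pr y (Q j)) atTop (𝓝 0) := y.2.2 Q M hM hQ

lemma pr_add_Q (y : YY m) (Q Q') : pr y (Q + Q') = pr y Q + pr y Q' := map_add (y.1 : WW m) _ _

lemma pr_smul_Q (y : YY m) (c : ℂ) (Q) : pr y (c • Q) = c * pr y Q := map_smul (y.1 : WW m) _ _

lemma pr_norm_le (y : YY m) (Q) : ‖pr y Q‖ ≤ ‖y‖ * ‖Q‖ :=
  ContinuousLinearMap.le_opNorm (y.1 : WW m) Q

lemma YY_norm_le {y : YY m} {C : ℝ} (hC : 0 ≤ C) (h : ∀ Q, ‖pr y Q‖ ≤ C * ‖Q‖) : ‖y‖ ≤ C :=
  ContinuousLinearMap.opNorm_le_bound (y.1 : WW m) hC h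

lemma exists_YY (f : Vk (m + 1) → ℂ) (hadd : ∀ Q Q', f (Q + Q') = f Q + f Q')
    (hsmul : ∀ (c : ℂ) Q, f (c • Q) = c * f Q) {C : ℝ} (h : ∀ Q, ‖f Q‖ ≤ C * ‖Q‖)
    (h1 : ∀ R : Vk m, f (bst R) = 0)
    (h2 : ∀ (Q : ℕ → Vk (m + 1)) (M : ℝ), (∀ j, ‖Q j‖ ≤ M) →
      (∀ a ξ, Tendsto (fun j => ev (Q j) a ξ) atTop (𝓝 0)) →
      Tendsto (fun j => f (Q j)) atTop (𝓝 0)) : ∃ y : YY m, ∀ Q, pr y Q = f Q :=
  ⟨⟨LinearMap.mkContinuous
    ({ toFun := f, map_add' := hadd, map_smul' := hsmul } : Vk (m + 1) →ₗ[ℂ] ℂ) C h,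
    ⟨h1, h2⟩⟩, fun Q => rfl⟩

lemma lmul_map_add (u : Al) {k : ℕ} (Q Q' : Vk k) : lmul u (Q + Q') = lmul u Q + lmul u Q' :=
  ev_ext fun a ξ => by rw [ev_lmul, ev_add, ev_add, ev_lmul, ev_lmul]

lemma lmul_map_smul (u : Al) {k : ℕ} (c : ℂ) (Q : Vk k) : lmul u (c • Q) = c • lmul u Q :=
  ev_ext fun a ξ => by rw [ev_lmul, ev_smul, ev_smul, ev_lmul]

lemma exists_yA (c : Al) : ∃ T : YY m →L[ℂ] YY m, ∀ y Q, pr (T y) Q = pr y (lmul c Q) := by
  have key : ∀ y : YY m, ∃ y' : YY m, ∀ Q, pr y' Q = pr y (lmul c Q) := by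
    intro y
    refine exists_YY (fun Q => pr y (lmul c Q)) (fun Q Q' => by rw [lmul_map_add, pr_add_Q])
      (fun d Q => by rw [lmul_map_smul, pr_smul_Q]) (C := ‖y‖ * ‖c‖) (fun Q => ?_) (fun R => ?_)
      (fun Q M hM hQ => ?_)
    · refine (pr_norm_le _ _).trans ?_
      rw [mul_assoc]
      refine mul_le_mul_of_nonneg_left ?_ (norm_nonneg _)
      rw [mul_comm]
      exact norm_lmul_le c Q
    · rw [lmul_bst, pr_bst]
    · refine pr_cont y _ (M * ‖c‖) (fun j => ?_) (fun a ξ => ?_)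
      · exact (norm_lmul_le _ _).trans (mul_le_mul_of_nonneg_right (hM j) (norm_nonneg _))
      · exact hQ _ _
  choose T hT using key
  refine ⟨LinearMap.mkContinuous
    ({ toFun := T
       map_add' := fun y y' => pr_ext fun Q => by rw [pr_add, hT, hT, hT, pr_add]
       map_smul' := fun d y => pr_ext fun Q => by
        rw [RingHom.id_apply, pr_smul, hT, hT, pr_smul] } : YY m →ₗ[ℂ] YY m) ‖c‖ (fun y => ?_),
    fun y Q => hT y Q⟩
  refine YY_norm_le (by positivity) fun Q => ?_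
  show ‖pr (T y) Q‖ ≤ _
  rw [hT]
  refine (pr_norm_le _ _).trans ?_
  have h1 := mul_le_mul_of_nonneg_left (norm_lmul_le c Q) (norm_nonneg y)
  refine h1.trans (le_of_eq ?_)
  ring

end

end Pool.Agent.Helper5.Dg
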