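import Mathlib
import Pool.Agent.Helper5.Dg.Univ2

/-!
The module of bounded functions has infinite homological dimension.
-/

namespace Pool.Agent.Helper5.Dg

open Filter Topology unitInterval Finset Pool.Agent.Helper5.Sym

noncomputable section

variable {k m : ℕ}

lemma bst_map_add (R R' : Vk k) : bst (R + R') = bst R + bst R' := by
  refine ev_ext fun a ξ => ?_
  rw [ev_add, ev_bst, ev_bst, ev_bst, ev_add]
  have h1 : ∀ i ∈ range (k + 1), (-1 : ℂ) ^ i * ev (R + R') (mergeAt i a) ξ =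
      (-1 : ℂ) ^ i * ev R (mergeAt i a) ξ + (-1 : ℂ) ^ i * ev R' (mergeAt i a) ξ := by
    intro i _
    rw [ev_add, mul_add]
  rw [sum_congr rfl h1, sum_add_distrib]
  ring

lemma bst_map_smul (c : ℂ) (R : Vk k) : bst (c • R) = c • bst R := by
  refine ev_ext fun a ξ => ?_
  rw [ev_smul, ev_bst, ev_bst, ev_smul]
  have h1 : ∀ i ∈ range (k + 1), (-1 : ℂ) ^ i * ev (c • R) (mergeAt i a) ξ =
      c * ((-1 : ℂ) ^ i * ev R (mergeAt i a) ξ) := by
    intro i _
    rw [ev_smul]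
    ring
  rw [sum_congr rfl h1, ← mul_sum]
  ring

lemma norm_bst_le (R : Vk k) : ‖bst R‖ ≤ (k + 2) * ‖R‖ := norm_mkV_le _ _

lemma bst_cont (Q : ℕ → Vk k) (hQ : ∀ a ξ, Tendsto (fun j => ev (Q j) a ξ) atTop (𝓝 0)) (a ξ) :
    Tendsto (fun j => ev (bst (Q j)) a ξ) atTop (𝓝 0) := by
  have h1 : Tendsto (fun j => ∑ i ∈ range (k + 1), (-1 : ℂ) ^ i * ev (Q j) (mergeAt i a) ξ)
      atTop (𝓝 (∑ i ∈ range (k + 1), (-1 : ℂ) ^ i * 0)) :=
    tendsto_finsetSum _ fun i _ => (hQ _ _).const_mul _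
  have h2 := h1.add ((hQ (ini a) (lift (lst a) * ξ)).const_mul ((-1 : ℂ) ^ (k + 1)))
  simp only [mul_zero, sum_const_zero, add_zero] at h2
  exact h2

lemma multilin_Ef (R : Vk k) (ξ : Xf) : IsMultilin (Ef R ξ) where
  map_add a i x y := by
    unfold Ef
    rcases ini_lst_update a i with ⟨i', h⟩ | h
    · simp only [(h _).1, (h _).2]
      exact (ev_multilin R _).map_add _ _ _ _
    · simp only [(h _).1, (h _).2]
      rw [lift_add, add_mul, ev_map_add]
  map_smul a i c x := by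
    unfold Ef
    rcases ini_lst_update a i with ⟨i', h⟩ | h
    · simp only [(h _).1, (h _).2]
      exact (ev_multilin R _).map_smul _ _ _ _
    · simp only [(h _).1, (h _).2]
      rw [lift_smul, smul_mul_assoc, ev_map_smul, smul_eq_mul]

lemma norm_Ef_le (R : Vk k) (ξ : Xf) (a : Fin (k + 2) → Al) :
    ‖Ef R ξ a‖ ≤ ‖R‖ * (∏ i, ‖a i‖) * ‖ξ‖ := by
  refine (ev_norm_le _ _ _).trans ?_
  have h1 : ‖lift (lst a) * ξ‖ ≤ ‖lst a‖ * ‖ξ‖ :=
    (norm_mul_le _ _).trans (mul_le_mul_of_nonneg_right (norm_lift_le _) (norm_nonneg _))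
  have h2 : 0 ≤ ‖R‖ * ∏ i, ‖ini a i‖ := by positivity
  refine (mul_le_mul_of_nonneg_left h1 h2).trans (le_of_eq ?_)
  rw [← prod_ini_lst a]
  ring

lemma Ef_add_x (R : Vk k) (ξ η : Xf) (a) : Ef R (ξ + η) a = Ef R ξ a + Ef R η a := by
  unfold Ef
  rw [mul_add, ev_map_add]

lemma Ef_smul_x (R : Vk k) (c : ℂ) (ξ : Xf) (a) : Ef R (c • ξ) a = c * Ef R ξ a := by
  unfold Ef
  rw [mul_smul_comm, ev_map_smul]

lemma Ef_add (R R' : Vk k) (ξ : Xf) (a) : Ef (R + R') ξ a = Ef R ξ a + Ef R' ξ a := rfl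

lemma Ef_smul (c : ℂ) (R : Vk k) (ξ : Xf) (a) : Ef (c • R) ξ a = c * Ef R ξ a := rfl

lemma Ef_zero (ξ : Xf) (a) : Ef (0 : Vk k) ξ a = 0 := rfl

lemma Ef_lmF (c : Al) (R : Vk k) (ξ : Xf) (a : Fin (k + 2) → Al) :
    Ef R ξ (lmF c a) = Ef (lmul c R) ξ a := by
  unfold Ef
  rw [ini_lmF, lst_lmF, ev_lmul]

/-- The module of bounded functions. -/
def XX : OpMod AI where
  carrier := Xf
  act f := ContinuousLinearMap.mul ℂ Xf (lift (rI f))

/-- Multiplication of bounded functions. -/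
def xmul (w ξ : Xf) : Xf := w * ξ

lemma XX_act (f : AI) (ξ : XX.carrier) : XX.act f ξ = xmul (lift (rI f)) ξ := rfl

lemma XX_left : LeftMod AI XX where
  add f g ξ := by
    rw [XX_act, XX_act, XX_act, map_add, lift_add]
    exact add_mul (lift (rI f)) (lift (rI g)) (show Xf from ξ)
  smul c f ξ := by
    rw [XX_act, XX_act, map_smul, lift_smul]
    exact smul_mul_assoc c (lift (rI f)) (show Xf from ξ)
  mul f g ξ := by
    rw [XX_act, XX_act, XX_act, rI_mul, lift_mul]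
    exact mul_assoc (lift (rI f)) (lift (rI g)) (show Xf from ξ)
  bound := ⟨1, fun f ξ => by
    rw [XX_act, one_mul]
    refine (norm_mul_le (lift (rI f)) (show Xf from ξ)).trans ?_
    exact mul_le_mul_of_nonneg_right ((norm_lift_le _).trans (norm_rI_le f)) (norm_nonneg _)⟩

lemma XX_J {f : AI} (hf : rI f = 0) (ξ : XX.carrier) : XX.act f ξ = 0 := by
  rw [XX_act, hf]
  have h : lift 0 = 0 := rfl
  rw [h]
  exact zero_mul (show Xf from ξ)

lemma CP_XX : CP XX := by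
  refine ⟨0, fun z => inJ_zero, fun z hz => ?_⟩
  have h1 : Tendsto (fun n => XX.act (uC n) z) atTop (𝓝 z) := hz
  have h2 : ∀ n, XX.act (uC n) z = 0 := fun n => XX_J (rI_uC n) z
  simp only [h2] at h1
  exact tendsto_nhds_unique tendsto_const_nhds h1

/-- The operators on the coefficients. -/
def yM (m : ℕ) (c : Al) : YY m →L[ℂ] YY m := (exists_yA (m := m) c).choose

lemma pr_yM (c : Al) (y : YY m) (Q) : pr (yM m c y) Q = pr y (lmul c Q) :=
  (exists_yA (m := m) c).choose_spec y Q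

/-- The universal cocycle. -/
lemma exists_Phi (m : ℕ) : ∃ Φ : Xf →L[ℂ] ML (YY m) (m + 4),
    ∀ ξ a Q, pr (mv (Φ ξ) a) Q = Ef (bst Q) ξ a := by
  have key : ∀ (ξ : Xf) (a : Fin (m + 4) → Al), ∃ y : YY m, ∀ Q, pr y Q = Ef (bst Q) ξ a := by
    intro ξ a
    refine exists_YY (fun Q => Ef (bst Q) ξ a) (fun Q Q' => by rw [bst_map_add, Ef_add])
      (fun c Q => by rw [bst_map_smul, Ef_smul])
      (C := (m + 1 + 2) * (∏ i, ‖a i‖) * ‖ξ‖) (fun Q => ?_) (fun R => ?_) (fun Q M hM hQ => ?_)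
    · refine (norm_Ef_le _ _ _).trans ?_
      have h1 := norm_bst_le Q
      push_cast at h1
      have hP : 0 ≤ ∏ i, ‖a i‖ := prod_nonneg fun i _ => norm_nonneg _
      calc ‖bst Q‖ * (∏ i, ‖a i‖) * ‖ξ‖ ≤ ((m + 1 + 2) * ‖Q‖) * (∏ i, ‖a i‖) * ‖ξ‖ := by
            gcongr
        _ = _ := by ring
    · rw [bst_bst, Ef_zero]
    · exact bst_cont Q hQ _ _
  choose F hF using key
  obtain ⟨Φ, hΦ, -⟩ := exists_mkL (Y := YY m) (n := m + 4) (Z := Xf) F
    (fun ξ η a => pr_ext fun Q => by rw [pr_add, hF, hF, hF, Ef_add_x])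
    (fun c ξ a => pr_ext fun Q => by rw [pr_smul, hF, hF, Ef_smul_x])
    (fun ξ =>
      { map_add := fun a i x y => pr_ext fun Q => by
          rw [pr_add, hF, hF, hF, (multilin_Ef (bst Q) ξ).map_add]
        map_smul := fun a i c x => pr_ext fun Q => by
          rw [pr_smul, hF, hF, (multilin_Ef (bst Q) ξ).map_smul, smul_eq_mul] })
    (C := m + 1 + 2) (by positivity) (fun ξ a => by
      refine YY_norm_le (by positivity) fun Q => ?_
      rw [hF]
      refine (norm_Ef_le _ _ _).trans ?_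
      have h1 := norm_bst_le Q
      push_cast at h1
      have hP : 0 ≤ ∏ i, ‖a i‖ := prod_nonneg fun i _ => norm_nonneg _
      calc ‖bst Q‖ * (∏ i, ‖a i‖) * ‖ξ‖ ≤ ((m + 1 + 2) * ‖Q‖) * (∏ i, ‖a i‖) * ‖ξ‖ := by
            gcongr
        _ = _ := by ring)
  refine ⟨Φ, fun ξ a Q => ?_⟩
  rw [hΦ, hF]

end

end Pool.Agent.Helper5.Dg
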