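import Mathlib
import Pool.Agent.Helper5.Dg.Univ3

/-!
The module of bounded functions has infinite homological dimension: conclusion.
-/

namespace Pool.Agent.Helper5.Dg

open Filter Topology unitInterval Finset Pool.Agent.Helper5.Sym

noncomputable section

variable {m : ℕ}

/-- The pairing as a linear map. -/
def prL (Q : Vk (m + 1)) : YY m →ₗ[ℂ] ℂ where
  toFun y := pr y Q
  map_add' _ _ := rfl
  map_smul' _ _ := rfl

lemma prL_apply (Q : Vk (m + 1)) (y : YY m) : prL Q y = pr y Q := rfl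

lemma pr_barD (Q : Vk (m + 1)) {n : ℕ} (f : (Fin n → Al) → YY m) (a : Fin (n + 1) → Al) :
    pr (barD f a) Q = barD (fun b => pr (f b) Q) a := (barD_map (prL Q) f a).symm

lemma pr_add_left (y y' : YY m) (Q) : pr (y + y') Q = pr y Q + pr y' Q := rfl

theorem no_van (m : ℕ) : ¬ VanP (yM m) (m + 1) XX := by
  intro hV
  obtain ⟨Φ, hΦ⟩ := exists_Phi m
  have hL : ∀ (ξ : Xf) (c : Al) (a : Fin (m + 4) → Al),
      mv (Φ ξ) (lmF c a) = yM m c (mv (Φ ξ) a) := fun ξ c a => pr_ext fun Q => by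
    rw [hΦ, pr_yM, hΦ, Ef_lmF, lmul_bst]
  have hM : ∀ (f : AI) (ξ : Xf) (a : Fin (m + 4) → Al),
      mv (Φ (lift (rI f) * ξ)) a = mv (Φ ξ) (rmF (rI f) a) := fun f ξ a => pr_ext fun Q => by
    rw [hΦ, hΦ]
    unfold Ef
    rw [ini_rmF, lst_rmF, lift_mul, mul_assoc]
  have hB : ∀ (ξ : Xf) (a : Fin (m + 5) → Al), barD (mv (Φ ξ)) a = 0 :=
    fun ξ a => pr_ext fun Q => by
      rw [pr_barD]
      have h1 : ∀ b, pr (mv (Φ ξ) b) Q = Ef (bst Q) ξ b := fun b => hΦ ξ b Q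
      rw [barD_neg_free h1 a, barD_Ef, bst_bst, ev_zero, neg_zero, pr_zero]
  obtain ⟨Ψ₀, hΨ₀, hDΨ₀⟩ := hV Φ ⟨fun ξ c a => hL ξ c a, fun f ξ a => hM f ξ a⟩
    (fun ξ a => hB ξ a)
  obtain ⟨Ψ, hΨL, hΨM, hDΨ⟩ : ∃ Ψ : Xf →L[ℂ] ML (YY m) (m + 3),
      (∀ ξ c a, mv (Ψ ξ) (lmF c a) = yM m c (mv (Ψ ξ) a)) ∧
      (∀ (f : AI) (ξ : Xf) a, mv (Ψ (lift (rI f) * ξ)) a = mv (Ψ ξ) (rmF (rI f) a)) ∧
      ∀ ξ a, barD (mv (Ψ ξ)) a = mv (Φ ξ) a :=
    ⟨Ψ₀, fun ξ c a => hΨ₀.left ξ c a, fun f ξ a => hΨ₀.mod f ξ a, fun ξ a => hDΨ₀ ξ a⟩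
  refine no_sig (m := m)
    { s := fun a Q ξ => ev Q a ξ + pr (mv (Ψ ξ) (ap a 1)) Q
      C := 1 + ‖Ψ‖
      hC := by positivity
      add_Q := fun a Q Q' ξ => by
        rw [ev_add, pr_add_Q]
        ring
      smul_Q := fun a c Q ξ => by
        rw [ev_smul, pr_smul_Q]
        ring
      add_x := fun a Q ξ ξ' => by
        rw [ev_map_add, map_add, mv_add, pr_add]
        ring
      smul_x := fun a Q c ξ => by
        rw [ev_map_smul, map_smul, mv_smul, pr_smul]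
        ring
      bound := fun a Q ξ => by
        have h1 := ev_norm_le Q a ξ
        have h2 : ‖pr (mv (Ψ ξ) (ap a 1)) Q‖ ≤ ‖Ψ‖ * ‖Q‖ * (∏ i, ‖a i‖) * ‖ξ‖ := by
          refine (pr_norm_le _ _).trans ?_
          have h3 := mv_norm_le (Ψ ξ) (ap a 1)
          rw [prod_ap, norm_one, mul_one] at h3
          have h4 := Ψ.le_opNorm ξ
          have hP : 0 ≤ ∏ i, ‖a i‖ := prod_nonneg fun i _ => norm_nonneg _
          calc ‖mv (Ψ ξ) (ap a 1)‖ * ‖Q‖ ≤ ((‖Ψ‖ * ‖ξ‖) * ∏ i, ‖a i‖) * ‖Q‖ := by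
                refine mul_le_mul_of_nonneg_right (h3.trans ?_) (norm_nonneg _)
                exact mul_le_mul_of_nonneg_right h4 hP
            _ = _ := by ring
        refine (norm_add_le _ _).trans ((add_le_add h1 h2).trans (le_of_eq ?_))
        ring
      left := fun u a Q ξ => by
        rw [ev_lmul, ← lmF_ap, hΨL, pr_yM]
      cocyc := fun a Q ξ => ?_
      bdry := fun a R ξ => by rw [pr_bst, add_zero]
      cont := fun Q M hM hQ a ξ => by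
        have h1 := (hQ a ξ).add (pr_cont (mv (Ψ ξ) (ap a 1)) Q M hM hQ)
        rw [add_zero] at h1
        exact h1 }
  have h1 := barD_ap (mv (Ψ ξ)) a 1
  rw [hDΨ, rmF_one] at h1
  have h2 : pr (mv (Φ ξ) (ap a 1)) Q = pr (barD (fun b => mv (Ψ ξ) (ap b 1)) a +
      (-1 : ℂ) ^ (m + 2 + 1) • mv (Ψ ξ) a) Q := congrArg (fun y => pr y Q) h1
  rw [hΦ, pr_add_left, pr_barD, pr_smul] at h2
  have h3 : Ef (bst Q) ξ (ap a 1) = ev (bst Q) a ξ := by
    unfold Ef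
    rw [ini_ap, lst_ap, lift_one, one_mul]
  have h4 : mv (Ψ (lift (lst a) * ξ)) (ap (ini a) 1) = mv (Ψ ξ) a := by
    have h5 := hΨM (EI (lst a)) ξ (ap (ini a) 1)
    rw [rI_EI, rmF_ap, one_mul, ap_ini_lst] at h5
    exact h5
  rw [h3, ev_bst] at h2
  unfold barD at h2
  rw [h4]
  have h6 : ∑ i ∈ range (m + 2), (-1 : ℂ) ^ i * (ev Q (mergeAt i a) ξ +
      pr (mv (Ψ ξ) (ap (mergeAt i a) 1)) Q) =
      ∑ i ∈ range (m + 2), (-1 : ℂ) ^ i * ev Q (mergeAt i a) ξ -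
      ∑ i ∈ range (m + 2), (-1 : ℂ) ^ (i + 1) • pr (mv (Ψ ξ) (ap (mergeAt i a) 1)) Q := by
    rw [← sum_sub_distrib]
    refine sum_congr rfl fun i _ => ?_
    rw [smul_eq_mul]
    ring
  rw [h6]
  have h7 : (-1 : ℂ) ^ (m + 2 + 1) = -(-1) ^ (m + 2) := by ring
  rw [h7] at h2
  have h8 : (-1 : ℂ) ^ (m + 1 + 1) = (-1) ^ (m + 2) := rfl
  rw [h8] at h2
  linear_combination h2

/-- The module of bounded functions has infinite homological dimension. -/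
theorem XX_dhle (m : ℕ) : ¬ dhle (LeftMod AI) (m + 1) XX := fun h =>
  no_van m (van_of_dhle (yM m) (m + 1) XX XX_left CP_XX h)

theorem XX_homDim : homDim (LeftMod AI) XX = ⊤ := homDim_eq_top (leftMod_subClosed AI) XX_dhle

theorem globalDim_AI : globalDim AI = ⊤ := by
  unfold globalDim glDim
  refine eq_top_iff.2 (le_trans (le_of_eq XX_homDim.symm) ?_)
  exact le_iSup₂_of_le XX XX_left le_rfl

end

end Pool.Agent.Helper5.Dg
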