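import Mathlib
import Pool.Agent.Helper5.Dg.Bi2
import Pool.Agent.Helper5.Dg.Univ4
import Pool.Agent.Helper5.Dg.Bridge

/-!
The bidimension.
-/

namespace Pool.Agent.Helper5.Dg

open Filter Topology unitInterval Finset

noncomputable section

/-- Isomorphic modules have the same dimension. -/
lemma dhle_iso {R : Type} {K : OpMod R → Prop} {k : ℕ} {Z W : OpMod R}
    (u : Z.carrier →L[ℂ] W.carrier) (v : W.carrier →L[ℂ] Z.carrier) (hu : IsMor Z W u)
    (hv : IsMor W Z v) (huv : ∀ x, u (v x) = x) (hvu : ∀ x, v (u x) = x) (h : dhle K k Z) :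
    dhle K k W := by
  cases k with
  | zero => exact Proj.retract h v u hv hu huv
  | succ k =>
    obtain ⟨Z', P, hZ', hP, hPr, ⟨S⟩, h'⟩ := h
    exact ⟨Z', P, hZ', hP, hPr, ⟨
      { i := S.i
        d := u.comp S.d
        k := S.k
        t := S.t.comp v
        mor_i := S.mor_i
        mor_d := hu.comp S.mor_d
        k_i := S.k_i
        d_t := fun x => by
          show u (S.d (S.t (v x))) = x
          rw [S.d_t, huv]
        split := fun x => by
          show S.i (S.k x) + S.t (v (u (S.d x))) = x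
          rw [hvu, S.split] }⟩, h'⟩

variable (X : OpMod AI)

/-- The functor preserves projectivity. -/
theorem TT_proj (hX : LeftMod AI X) {P : OpMod (AI ⊕ AI)} (hP : BiMod AI P)
    (hPr : Proj (BiMod AI) P) : Proj (LeftMod AI) (TT X P) := by
  intro E F hE hF q hq s hs f₀ hf₀
  obtain ⟨f, hf⟩ : ∃ f : TC X P →L[ℂ] F.carrier, ∀ w : TC X P, f w = f₀ w := ⟨f₀, fun w => rfl⟩
  have hfa : ∀ (a : AI) (p : P.carrier) ξ,
      f (tt X (P.act (Sum.inl a) p) ξ) = F.act a (f (tt X p ξ)) := by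
    intro a p ξ
    refine (hf _).trans (Eq.trans ?_ (congrArg (F.act a) (hf _).symm))
    exact (congrArg f₀ (TT_act X hP a p ξ).symm).trans (hf₀ a _)
  obtain ⟨f', hf'⟩ := exists_intoH X F (fun (p : P.carrier) ξ => f (tt X p ξ)) (C := ‖f‖)
    (norm_nonneg _) (fun u u' v => by rw [tt_add_left, map_add])
    (fun c u v => by rw [tt_smul_left, map_smul]) (fun u v v' => by rw [tt_add_right, map_add])
    (fun c u v => by rw [tt_smul_right, map_smul]) (fun u v => by
      refine (f.le_opNorm _).trans ?_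
      rw [mul_assoc]
      exact mul_le_mul_of_nonneg_left (norm_tt_le X u v) (norm_nonneg _))
  obtain ⟨Q, hQ⟩ := exists_HomMap X q
  obtain ⟨S, hS⟩ := exists_HomMap X s
  obtain ⟨g, hg, hgf⟩ := hPr (HomB X E) (HomB X F) (HomB_bi hX hE) (HomB_bi hX hF) Q (by
    rintro (a | a) φ
    · exact hv_ext X F fun ξ => by rw [hQ, hv_inl, hv_inl, hQ, hq]
    · exact hv_ext X F fun ξ => by rw [hQ, hv_inr, hv_inr, hQ]) S
    (fun y => hv_ext X F fun ξ => by rw [hQ, hS, hs]) f' (by
    rintro (a | a) p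
    · exact hv_ext X F fun ξ => by rw [hf', hv_inl, hf', hfa]
    · exact hv_ext X F fun ξ => by rw [hf', hv_inr, hf', tt_bal])
  obtain ⟨G, hG, -⟩ := exists_tlift X (Z := P) (Y := E.carrier)
    (fun p ξ => hv X E (g p) ξ) (C := ‖g‖)
    { add_left := fun u u' v => by rw [map_add, hv_add]
      smul_left := fun c u v => by rw [map_smul, hv_smul]
      add_right := fun u v v' => hv_map_add X E _ _ _
      smul_right := fun c u v => hv_map_smul X E _ _ _
      nonneg := norm_nonneg _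
      bound := fun u v => (hv_norm_le X E _ _).trans
        (mul_le_mul_of_nonneg_right (g.le_opNorm u) (norm_nonneg _)) }
    (fun a z ξ => by rw [hg, hv_inr])
  refine ⟨G, fun a w => ?_, fun w => ?_⟩
  · refine TT_ext X (Z := P) (f := (show (TT X P).carrier →L[ℂ] E.carrier from G).comp
      ((TT X P).act a)) (g := (E.act a).comp
        (show (TT X P).carrier →L[ℂ] E.carrier from G)) (fun p ξ => ?_) w
    have h1 : G ((TT X P).act a (tt X p ξ) : TC X P) = G (tt X (P.act (Sum.inl a) p) ξ) :=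
      congrArg G (TT_act X hP a p ξ)
    have h2 : G (tt X (P.act (Sum.inl a) p) ξ) = E.act a (G (tt X p ξ)) := by
      rw [hG, hG, hg, hv_inl]
    exact h1.trans h2
  · refine TT_ext X (Z := P) (f := q.comp (show (TT X P).carrier →L[ℂ] E.carrier from G))
      (g := f₀) (fun p ξ => ?_) w
    have h1 : q (G (tt X p ξ)) = f (tt X p ξ) := by
      rw [hG, ← hQ, hgf, hf']
    exact h1.trans (hf _)

/-- The functor does not increase the dimension. -/
theorem dhle_TT (hX : LeftMod AI X) : ∀ (k : ℕ) (Z : OpMod (AI ⊕ AI)), BiMod AI Z →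
    Proj (LeftMod AI) (rgt Z) → dhle (BiMod AI) k Z → dhle (LeftMod AI) k (TT X Z) := by
  intro k
  induction k with
  | zero => exact fun Z hZ _ h => TT_proj X hX hZ h
  | succ k ih =>
    rintro Z hZ hrZ ⟨Z', P, hZ', hP, hPr, ⟨S⟩, h⟩
    have hrP := right_proj hP hPr
    have hir : ∀ (a : AI) (z : Z'.carrier),
      S.i (Z'.act (Sum.inr a) z) = P.act (Sum.inr a) (S.i z) := fun a z => S.mor_i _ _
    have hdr : ∀ (a : AI) (p : P.carrier),
      S.d (P.act (Sum.inr a) p) = Z.act (Sum.inr a) (S.d p) := fun a z => S.mor_d _ _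
    obtain ⟨τ, hτr, hdτ⟩ : ∃ τ : Z.carrier →L[ℂ] P.carrier,
        (∀ (a : AI) z, τ (Z.act (Sum.inr a) z) = P.act (Sum.inr a) (τ z)) ∧
          ∀ z, S.d (τ z) = z := by
      obtain ⟨τ, h1, h2⟩ := hrZ (rgt P) (rgt Z) (rgt_left hP) (rgt_left hZ) S.d
        (fun a p => hdr a p) S.t S.d_t (ContinuousLinearMap.id ℂ Z.carrier) (fun a z => rfl)
      exact ⟨τ, fun a z => h1 a z, fun z => h2 z⟩
    obtain ⟨κ, hκ⟩ : ∃ κ : P.carrier →L[ℂ] Z'.carrier, ∀ p, κ p = S.k (p - τ (S.d p)) :=
      ⟨S.k.comp (ContinuousLinearMap.id ℂ P.carrier - τ.comp S.d), fun p => rfl⟩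
    have hiκ : ∀ p, S.i (κ p) = p - τ (S.d p) := by
      intro p
      rw [hκ]
      refine S.of_d ?_
      rw [map_sub, hdτ, sub_self]
    have hκi : ∀ z, κ (S.i z) = z := by
      intro z
      rw [hκ, S.d_i, map_zero, sub_zero, S.k_i]
    have hinj : ∀ z z', S.i z = S.i z' → z = z' := by
      intro z z' h
      rw [← S.k_i z, h, S.k_i]
    have hκr : ∀ (a : AI) p, κ (P.act (Sum.inr a) p) = Z'.act (Sum.inr a) (κ p) := by
      intro a p
      refine hinj _ _ ?_
      rw [hir, hiκ, hiκ, hdr, hτr, map_sub]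
    have hrZ' : Proj (LeftMod AI) (rgt Z') :=
      Proj.retract hrP S.i κ (fun a z => hir a z) (fun a p => hκr a p) hκi
    obtain ⟨Ti, hTi, -⟩ := exists_Tmap X S.i hir
    obtain ⟨Td, hTd, -⟩ := exists_Tmap X S.d hdr
    obtain ⟨Tk, hTk, -⟩ := exists_Tmap X κ hκr
    obtain ⟨Tt', hTt, -⟩ := exists_Tmap X τ hτr
    refine ⟨TT X Z', TT X P, TT_left X hZ', TT_left X hP, TT_proj X hX hP hPr, ⟨?_⟩,
      ih Z' hZ' hrZ' h⟩
    have m1 : ∀ (a : AI) (w : TC X Z'), Ti ((TT X Z').act a w : TC X Z') =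
        ((TT X P).act a (Ti w : TC X P) : TC X P) := by
      intro a w
      refine TC_ext X (Z := Z') (f := Ti.comp (show TC X Z' →L[ℂ] TC X Z' from (TT X Z').act a))
        (g := (show TC X P →L[ℂ] TC X P from (TT X P).act a).comp Ti) (fun z ξ => ?_) w
      have e1 : Ti ((TT X Z').act a (tt X z ξ) : TC X Z') = tt X (S.i (Z'.act (Sum.inl a) z)) ξ :=
        (congrArg Ti (TT_act X hZ' a z ξ)).trans (hTi _ _)
      have e2 : ((TT X P).act a (Ti (tt X z ξ) : TC X P) : TC X P) =
          tt X (P.act (Sum.inl a) (S.i z)) ξ :=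
        (congrArg (fun v : TC X P => ((TT X P).act a v : TC X P)) (hTi z ξ)).trans
          (TT_act X hP a _ ξ)
      rw [S.mor_i] at e1
      exact e1.trans e2.symm
    have m2 : ∀ (a : AI) (w : TC X P), Td ((TT X P).act a w : TC X P) =
        ((TT X Z).act a (Td w : TC X Z) : TC X Z) := by
      intro a w
      refine TC_ext X (Z := P) (f := Td.comp (show TC X P →L[ℂ] TC X P from (TT X P).act a))
        (g := (show TC X Z →L[ℂ] TC X Z from (TT X Z).act a).comp Td) (fun z ξ => ?_) w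
      have e1 : Td ((TT X P).act a (tt X z ξ) : TC X P) = tt X (S.d (P.act (Sum.inl a) z)) ξ :=
        (congrArg Td (TT_act X hP a z ξ)).trans (hTd _ _)
      have e2 : ((TT X Z).act a (Td (tt X z ξ) : TC X Z) : TC X Z) =
          tt X (Z.act (Sum.inl a) (S.d z)) ξ :=
        (congrArg (fun v : TC X Z => ((TT X Z).act a v : TC X Z)) (hTd z ξ)).trans
          (TT_act X hZ a _ ξ)
      rw [S.mor_d] at e1
      exact e1.trans e2.symm
    have s1 : ∀ w, Tk (Ti w) = w := TC_ext X (Z := Z') (f := Tk.comp Ti)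
      (g := ContinuousLinearMap.id ℂ _) (fun z ξ => by
        show Tk (Ti (tt X z ξ)) = tt X z ξ
        rw [hTi, hTk, hκi])
    have s2 : ∀ w, Td (Tt' w) = w := TC_ext X (Z := Z) (f := Td.comp Tt')
      (g := ContinuousLinearMap.id ℂ _) (fun z ξ => by
        show Td (Tt' (tt X z ξ)) = tt X z ξ
        rw [hTt, hTd, hdτ])
    have s3 : ∀ w, Ti (Tk w) + Tt' (Td w) = w := TC_ext X (Z := P)
      (f := Ti.comp Tk + Tt'.comp Td) (g := ContinuousLinearMap.id ℂ _) (fun z ξ => by
        show Ti (Tk (tt X z ξ)) + Tt' (Td (tt X z ξ)) = tt X z ξ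
        rw [hTk, hTi, hTd, hTt, ← tt_add_left, hiκ, sub_add_cancel])
    exact
      { i := Ti
        d := Td
        k := Tk
        t := Tt'
        mor_i := m1
        mor_d := m2
        k_i := s1
        d_t := s2
        split := s3 }

end

end Pool.Agent.Helper5.Dg
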