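import Mathlib
import Pool.Agent.Helper5.Dg.Univ4
import Pool.Agent.Helper5.Dg.Bridge

/-!
The global dimension.
-/

namespace Pool.Agent.Helper5.Dg

noncomputable section

theorem globalDim_hd : Hd.globalDim AI = ⊤ := by
  have h1 : Hd.homDim (Hd.LeftMod AI) (up XX) = ⊤ :=
    hd_homDim_eq_top (rel_left AI) (leftMod_subClosed AI) XX_dhle
  refine eq_top_iff.2 (le_trans (le_of_eq h1.symm) ?_)
  exact le_iSup₂_of_le (up XX) ((rel_left AI).up XX XX_left) le_rfl

end

end Pool.Agent.Helper5.Dg
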