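import Mathlib
import Pool.Agent.Helper5.Dg.Bi3
import Pool.Agent.Helper5.Dg.FinG

/-!
The bidimension: conclusion.
-/

namespace Pool.Agent.Helper5.Dg

open Filter Topology unitInterval Finset

noncomputable section

lemma regBi_bi : BiMod AI (regBi AI) where
  add_l a b x := by
    have h : ∀ x : AI, (a + b) * x = a * x + b * x := fun x => add_mul _ _ _
    exact h x
  smul_l c a x := by
    have h : ∀ x : AI, (c • a) * x = c • (a * x) := fun x => smul_mul_assoc _ _ _
    exact h x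
  mul_l a b x := by
    have h : ∀ x : AI, (a * b) * x = a * (b * x) := fun x => mul_assoc _ _ _
    exact h x
  add_r a b x := by
    have h : ∀ x : AI, x * (a + b) = x * a + x * b := fun x => mul_add _ _ _
    exact h x
  smul_r c a x := by
    have h : ∀ x : AI, x * (c • a) = c • (x * a) := fun x => mul_smul_comm _ _ _
    exact h x
  mul_r a b x := by
    have h : ∀ x : AI, x * (a * b) = x * a * b := fun x => (mul_assoc _ _ _).symm
    exact h x
  comm a b x := by
    have h : ∀ x : AI, a * (x * b) = a * x * b := fun x => (mul_assoc _ _ _).symm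
    exact h x
  bound := ⟨1, fun a x => by
    have h1 : ∀ x : AI, ‖a * x‖ ≤ 1 * ‖a‖ * ‖x‖ := fun x => by
      rw [one_mul]
      exact norm_mul_le _ _
    have h2 : ∀ x : AI, ‖x * a‖ ≤ 1 * ‖a‖ * ‖x‖ := fun x => by
      rw [one_mul, mul_comm]
      exact norm_mul_le _ _
    exact ⟨h1 x, h2 x⟩⟩

variable (X : OpMod AI)

/-- Elementary tensors over the regular bimodule. -/
def t1 (a : AI) (ξ : X.carrier) : TC X (regBi AI) := tt X (Z := regBi AI) a ξ

lemma t1_add_right (a : AI) (ξ η) : t1 X a (ξ + η) = t1 X a ξ + t1 X a η :=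
  tt_add_right X (Z := regBi AI) a ξ η

lemma t1_smul_right (a : AI) (c : ℂ) (ξ) : t1 X a (c • ξ) = c • t1 X a ξ :=
  tt_smul_right X (Z := regBi AI) c a ξ

lemma t1_bal (a b : AI) (ξ) : t1 X (b * a) ξ = t1 X b (X.act a ξ) :=
  tt_bal X (Z := regBi AI) a b ξ

lemma norm_t1_le (a : AI) (ξ) : ‖t1 X a ξ‖ ≤ ‖a‖ * ‖ξ‖ := norm_tt_le X (Z := regBi AI) a ξ

lemma t1_act (a b : AI) (ξ) : ((TT X (regBi AI)).act a (t1 X b ξ) : TC X (regBi AI)) =
    t1 X (a * b) ξ := TT_act X regBi_bi a b ξ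

lemma t1_ext {Y : Type*} [NormedAddCommGroup Y] [NormedSpace ℂ Y]
    {f g : TC X (regBi AI) →L[ℂ] Y} (h : ∀ a ξ, f (t1 X a ξ) = g (t1 X a ξ))
    (w : TC X (regBi AI)) : f w = g w := TC_ext X (Z := regBi AI) (f := f) (g := g) h w

/-- Tensoring with the algebra does nothing. -/
lemma dhle_of_TT (hX : LeftMod AI X) (h1 : ∀ ξ, X.act 1 ξ = ξ) {k : ℕ}
    (h : dhle (LeftMod AI) k (TT X (regBi AI))) : dhle (LeftMod AI) k X := by
  obtain ⟨C, hC0, hC⟩ := hX.exists_bound
  obtain ⟨u, hu, -⟩ : ∃ T : TC X (regBi AI) →L[ℂ] X.carrier,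
      (∀ (a : AI) ξ, T (t1 X a ξ) = X.act a ξ) ∧ ∀ w, ‖T w‖ ≤ C * ‖w‖ :=
    exists_tlift X (Z := regBi AI) (Y := X.carrier) (fun (a : AI) ξ => X.act a ξ)
      { add_left := fun u u' v => hX.add _ _ _
        smul_left := fun c u v => hX.smul _ _ _
        add_right := fun u v v' => map_add _ _ _
        smul_right := fun c u v => map_smul _ _ _
        nonneg := hC0
        bound := hC }
      (fun a z ξ => by
        have h2 : ∀ z : AI, X.act (z * a) ξ = X.act z (X.act a ξ) := fun z => hX.mul _ _ _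
        exact h2 z)
  obtain ⟨v, hv⟩ : ∃ v : X.carrier →L[ℂ] TC X (regBi AI), ∀ ξ, v ξ = t1 X 1 ξ :=
    ⟨LinearMap.mkContinuous
      ({ toFun := fun ξ => t1 X 1 ξ
         map_add' := fun ξ η => t1_add_right X 1 ξ η
         map_smul' := fun c ξ => t1_smul_right X 1 c ξ } : X.carrier →ₗ[ℂ] TC X (regBi AI))
      1 (fun ξ => (norm_t1_le X 1 ξ).trans (by rw [norm_one])), fun ξ => rfl⟩
  have ht : ∀ (a : AI) ξ, t1 X 1 (X.act a ξ) = t1 X a ξ := by
    intro a ξ
    rw [← t1_bal, one_mul]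
  have huv : ∀ x, u (v x) = x := by
    intro x
    rw [hv, hu, h1]
  have hvu : ∀ w, v (u w) = w := t1_ext X (f := v.comp u) (g := ContinuousLinearMap.id ℂ _)
    (fun a ξ => by
      show v (u (t1 X a ξ)) = t1 X a ξ
      rw [hu, hv, ht])
  have hmv : ∀ (a : AI) ξ, v (X.act a ξ) =
      ((TT X (regBi AI)).act a (v ξ : TC X (regBi AI)) : TC X (regBi AI)) := by
    intro a ξ
    rw [hv, hv]
    refine Eq.trans ?_ (t1_act X a 1 ξ).symm
    rw [ht, mul_one]
  have hmu : ∀ (a : AI) (w : TC X (regBi AI)),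
      u ((TT X (regBi AI)).act a w : TC X (regBi AI)) = X.act a (u w) := by
    intro a w
    have h2 := hmv a (u w)
    rw [hvu] at h2
    rw [← h2, huv]
  exact dhle_iso (Z := TT X (regBi AI)) u v hmu hmv huv hvu h

theorem XX_one (ξ : XX.carrier) : XX.act 1 ξ = ξ := by
  have h : ∀ ξ : Xf, lift (rI 1) * ξ = ξ := fun ξ => by
    rw [rI_one, lift_one, one_mul]
  exact h ξ

theorem regBi_dhle (m : ℕ) : ¬ dhle (BiMod AI) (m + 1) (regBi AI) := fun h =>
  XX_dhle m (dhle_of_TT XX XX_left XX_one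
    (dhle_TT XX XX_left (m + 1) (regBi AI) regBi_bi right_proj_reg h))

theorem biDim_hd : Hd.biDim AI = ⊤ := by
  unfold Hd.biDim
  rw [regBi_eq]
  exact hd_homDim_eq_top (rel_bi AI) (biMod_subClosed AI) regBi_dhle

end

end Pool.Agent.Helper5.Dg
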